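import Pool.Agent.Lib.Bed.SpecM
import Pool.Agent.Lib.Osgood

/-!
# MP_6f050a_an, part M: adapted parametrisations
-/

set_option autoImplicit false

open scoped Manifold ContDiff Topology
open Set Filter Metric

namespace Pool.Agent.Lib.Bed

namespace sAdAux

variable {E : Type} [NormedAddCommGroup E] [NormedSpace ℂ E]
variable {X : Type} [MetricSpace X] [ChartedSpace E X]

theorem psi_inj {nrm : (x : X) → TangentSpace 𝓘(ℂ, E) x → ℝ} {K : Set X} {ψ : X → E → X}
    {χ : X → X → E} {ρ a b : ℝ} (hU : UCh nrm K ψ χ ρ a b) {x : X} (hx : x ∈ K) {u : E}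
    (hu : u ∈ ball (0 : E) ρ) :
    Function.Injective (mfderiv 𝓘(ℂ, E) 𝓘(ℂ, E) (ψ x) u) := by
  have h1 := hU.diff x hx u hu
  have h2 := hU.diff' x hx u hu
  have h3 : (χ x ∘ ψ x) =ᶠ[𝓝 u] id := by
    filter_upwards [isOpen_ball.mem_nhds hu] with v hv
    exact hU.left x hx v hv
  have h4 := mfderiv_comp u h2 h1
  have h5 : mfderiv 𝓘(ℂ, E) 𝓘(ℂ, E) (χ x ∘ ψ x) u = mfderiv 𝓘(ℂ, E) 𝓘(ℂ, E) (id : E → E) u :=
    h3.mfderiv_eq
  rw [h5, mfderiv_id] at h4
  intro w w' hw
  have h6 : ∀ z : E, z = mfderiv 𝓘(ℂ, E) 𝓘(ℂ, E) (χ x) (ψ x u)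
      (mfderiv 𝓘(ℂ, E) 𝓘(ℂ, E) (ψ x) u z) := fun z => congrArg (fun L : E →L[ℂ] E => L z) h4
  rw [h6 w, h6 w', hw]

end sAdAux

open sAdAux

theorem sAd : S_Ad := by
  intro hQuad E _ _ _ X _ _ nrm f K p Ep ψ χ ρ a b N k l e A B C₁ c hU hp hK hLoc hF
  have hC := hF.C_pos
  have hρ := hU.ρ_pos
  let x : ℕ → X := fun n => f^[N * n] p
  have hxK : ∀ n, x n ∈ K := fun n => hK.iterate _ hp
  have hxs : ∀ n, f^[N] (x n) = x (n + 1) := by
    intro n
    show f^[N] (f^[N * n] p) = f^[N * (n + 1)] p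
    rw [← Function.iterate_add_apply]
    congr 1
    ring_nf
  obtain ⟨ρ₁, hL⟩ := hLoc (ρ / C₁ ^ 2) (by positivity)
  have hρ₁ := hL.pos
  set ρP : ℝ := ρ / C₁ with hρP
  set ρH : ℝ := ρ₁ / C₁ with hρH
  have hPpos : 0 < ρP := by positivity
  have hHpos : 0 < ρH := by positivity
  have hHP : ρH ≤ ρP := by
    rw [hρP, hρH]
    exact div_le_div_of_nonneg_right hL.le hC.le
  have hesymm : ∀ n y, ‖(e n).symm y‖ ≤ C₁ * ‖y‖ := by
    intro n y
    have := hF.low n ((e n).symm y)
    rwa [ContinuousLinearEquiv.apply_symm_apply] at this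
  have hball1 : ∀ n, ∀ v ∈ ball (0 : V k l) ρP, e n v ∈ ball (0 : E) ρ := by
    intro n v hv
    rw [mem_ball_zero_iff] at hv ⊢
    refine (hF.up n v).trans_lt ?_
    rw [hρP, lt_div_iff₀' hC] at hv
    exact hv
  have hball2 : ∀ n, ∀ v ∈ ball (0 : V k l) ρH, e n v ∈ ball (0 : E) ρ₁ := by
    intro n v hv
    rw [mem_ball_zero_iff] at hv ⊢
    refine (hF.up n v).trans_lt ?_
    rw [hρH, lt_div_iff₀' hC] at hv
    exact hv
  let P : ℕ → V k l → X := fun n v => ψ (x n) (e n v)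
  let H : ℕ → V k l → V k l := fun n v => (e (n + 1)).symm (loc ψ χ (f^[N]) (x n) (e n v))
  have hHb : ∀ n, ∀ v ∈ ball (0 : V k l) ρH, ‖H n v‖ < ρP := by
    intro n v hv
    refine (hesymm (n + 1) _).trans_lt ?_
    have h1 := hL.small (x n) (hxK n) (e n v) (hball2 n v hv)
    have h2 := mul_lt_mul_of_pos_left h1 hC
    refine h2.trans_le (le_of_eq ?_)
    rw [hρP]
    field_simp
  have hdH : ∀ n, DifferentiableOn ℂ (H n) (ball 0 ρH) := by
    intro n
    have h1 : DifferentiableOn ℂ (fun v => loc ψ χ (f^[N]) (x n) (e n v)) (ball 0 ρH) :=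
      (hL.diff (x n) (hxK n)).comp (e n).differentiable.differentiableOn (hball2 n)
    exact (e (n + 1)).symm.differentiable.comp_differentiableOn h1
  have hH0 : ∀ n, H n 0 = 0 := by
    intro n
    show (e (n + 1)).symm (loc ψ χ (f^[N]) (x n) (e n 0)) = 0
    rw [map_zero, hL.zero (x n) (hxK n), map_zero]
  have hfd : ∀ n, fderiv ℂ (H n) 0 = (A n).prodMap (B n) := by
    intro n
    have h1 : DifferentiableAt ℂ (loc ψ χ (f^[N]) (x n)) (e n 0) := by
      rw [map_zero]
      exact ((hL.diff (x n) (hxK n)) 0 (mem_ball_self hρ₁)).differentiableAt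
        (isOpen_ball.mem_nhds (mem_ball_self hρ₁))
    have h2 : HasFDerivAt (H n) (((e (n + 1)).symm : E →L[ℂ] V k l).comp
        ((fderiv ℂ (loc ψ χ (f^[N]) (x n)) (e n 0)).comp (e n : V k l →L[ℂ] E))) 0 := by
      have h3 := h1.hasFDerivAt.comp (0 : V k l) (e n).hasFDerivAt
      exact (e (n + 1)).symm.hasFDerivAt.comp (0 : V k l) h3
    rw [h2.fderiv]
    refine ContinuousLinearMap.ext fun v => ?_
    show (e (n + 1)).symm (fderiv ℂ (loc ψ χ (f^[N]) (x n)) (e n 0) (e n v)) = (A n v.1, B n v.2)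
    rw [map_zero, hF.der n v, ContinuousLinearEquiv.symm_apply_apply]
  refine ⟨P, H, ρP, ρH / 2, 16 * (2 * ρP) / ρH ^ 2, ?_, ?_⟩
  · have hmd : ∀ n, ∀ v, MDifferentiableAt 𝓘(ℂ, V k l) 𝓘(ℂ, E) (e n) v := fun n v =>
      (e n).differentiableAt.mdifferentiableAt
    refine ⟨hF.N_pos, by positivity, by linarith, ?_, ?_, ?_, ?_, ?_, ?_, ?_, ?_, ?_⟩
    · intro n v hv
      exact (hU.diff (x n) (hxK n) (e n v) (hball1 n v hv)).comp v (hmd n v)
    · intro n v hv v' hv' hvv
      have h1 := hU.left (x n) (hxK n) (e n v) (hball1 n v hv)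
      have h2 := hU.left (x n) (hxK n) (e n v') (hball1 n v' hv')
      have h3 : ψ (x n) (e n v) = ψ (x n) (e n v') := hvv
      rw [h3, h2] at h1
      exact ((e n).injective h1).symm
    · intro n v hv
      have h1 := mfderiv_comp v (hU.diff (x n) (hxK n) (e n v) (hball1 n v hv)) (hmd n v)
      have h2 : P n = ψ (x n) ∘ (e n) := rfl
      rw [h2, h1]
      intro w w' hw
      have h3 : mfderiv 𝓘(ℂ, V k l) 𝓘(ℂ, E) (e n) v w = mfderiv 𝓘(ℂ, V k l) 𝓘(ℂ, E) (e n) v w' :=
        psi_inj hU (hxK n) (hball1 n v hv) hw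
      rw [mfderiv_eq_fderiv, (e n).fderiv] at h3
      exact (e n).injective h3
    · intro n
      show ψ (x n) (e n 0) = x n
      rw [map_zero, hU.zero (x n) (hxK n)]
    · intro ε hε
      obtain ⟨δ, hδ, h1⟩ := hU.near ε hε
      refine ⟨δ / C₁, by positivity, fun n v hv hvδ => ?_⟩
      refine h1 (x n) (hxK n) (e n v) (hball1 n v hv) ((hF.up n v).trans_lt ?_)
      rwa [lt_div_iff₀' hC] at hvδ
    · intro ε hε
      obtain ⟨δ, hδ, h1⟩ := hU.near' (min (ε / C₁) (ρ / C₁ ^ 2)) (by positivity)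
      refine ⟨δ, hδ, fun n q hq => ?_⟩
      obtain ⟨u, hu, hun, huq⟩ := h1 (x n) (hxK n) q hq
      have h2 : ‖(e n).symm u‖ < ε := by
        refine (hesymm n u).trans_lt ?_
        have := hun.trans_le (min_le_left _ _)
        rwa [lt_div_iff₀' hC] at this
      have h3 : ‖(e n).symm u‖ < ρP := by
        refine (hesymm n u).trans_lt ?_
        have h4 := mul_lt_mul_of_pos_left (hun.trans_le (min_le_right _ _)) hC
        refine h4.trans_le (le_of_eq ?_)
        rw [hρP]
        field_simp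
      refine ⟨(e n).symm u, by rwa [mem_ball_zero_iff], h2, ?_⟩
      show ψ (x n) (e n ((e n).symm u)) = q
      rw [ContinuousLinearEquiv.apply_symm_apply, huq]
    · intro n v hv
      rw [mem_ball_zero_iff] at hv ⊢
      exact hHb n v (by rw [mem_ball_zero_iff]; linarith)
    · intro n v hv
      have hv' : v ∈ ball (0 : V k l) ρH := ball_subset_ball (by linarith) hv
      show ψ (x (n + 1)) (e (n + 1) ((e (n + 1)).symm (loc ψ χ (f^[N]) (x n) (e n v)))) =
        f^[N] (ψ (x n) (e n v))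
      rw [ContinuousLinearEquiv.apply_symm_apply, ← hxs n]
      exact hL.comm (x n) (hxK n) (e n v) (hball2 n v hv')
    · intro n
      exact (hdH n).mono (ball_subset_ball (by linarith))
  · refine ⟨by positivity, by positivity, hF.c_pos, ?_, hH0, ?_, hF.A_le, hF.A_ge, hF.B_ge⟩
    · intro n
      exact (hdH n).mono (ball_subset_ball (by linarith))
    · intro n v hv v' hv'
      have hlin : ∀ w : V k l, (A n w.1, B n w.2) = (A n).prodMap (B n) w := fun w => rfl
      have hR1 : DifferentiableOn ℂ (fun w => H n w - (A n).prodMap (B n) w) (ball 0 ρH) :=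
        (hdH n).sub ((A n).prodMap (B n)).differentiable.differentiableOn
      have hR2 : ∀ w ∈ ball (0 : V k l) ρH, ‖H n w - (A n).prodMap (B n) w‖ ≤ 2 * ρP := by
        intro w hw
        have h1 := Osgood.norm_fderiv_le hHpos (hdH n) (fun w hw => (hHb n w hw).le)
        rw [hfd n] at h1
        have h2 : ‖(A n).prodMap (B n) w‖ ≤ ρP := by
          refine ((A n).prodMap (B n)).le_opNorm w |>.trans ?_
          have hw' : ‖w‖ ≤ ρH := (mem_ball_zero_iff.mp hw).le
          calc ‖(A n).prodMap (B n)‖ * ‖w‖ ≤ ρP / ρH * ρH :=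
                mul_le_mul h1 hw' (norm_nonneg _) (by positivity)
            _ = ρP := div_mul_cancel₀ _ hHpos.ne'
        have h3 := norm_sub_le (H n w) ((A n).prodMap (B n) w)
        have h4 := (hHb n w hw).le
        linarith
      have hR3 : fderiv ℂ (fun w => H n w - (A n).prodMap (B n) w) 0 = 0 := by
        have h1 : DifferentiableAt ℂ (H n) 0 :=
          ((hdH n) 0 (mem_ball_self hHpos)).differentiableAt
            (isOpen_ball.mem_nhds (mem_ball_self hHpos))
        have h2 := h1.hasFDerivAt.sub ((A n).prodMap (B n)).hasFDerivAt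
        rw [hfd n, sub_self] at h2
        exact h2.fderiv
      exact hQuad (V k l) (V k l) ρH (2 * ρP) (fun w => H n w - (A n).prodMap (B n) w) hHpos hR1 hR2
        hR3 v hv v' hv'

end Pool.Agent.Lib.Bed
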