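import Pool.Agent.Lib.Bed.SpecM

/-!
# MP_6f050a_an, Ang: the angle between the stable and the unstable bundle
-/

set_option autoImplicit false

open scoped Manifold ContDiff Topology
open Set Filter Metric

namespace Pool.Agent.Lib.Bed

namespace sAngAux

variable {E : Type} [NormedAddCommGroup E] [NormedSpace ℂ E]
variable {X : Type} [MetricSpace X] [ChartedSpace E X] [IsManifold 𝓘(ℂ, E) 1 X]

theorem nE_add {nrm : (x : X) → TangentSpace 𝓘(ℂ, E) x → ℝ} (h : IsFinsler nrm) (x : X) (v w : E) :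
    nE nrm x (v + w) ≤ nE nrm x v + nE nrm x w := h.add_le x v w

theorem nE_neg {nrm : (x : X) → TangentSpace 𝓘(ℂ, E) x → ℝ} (h : IsFinsler nrm) (x : X) (v : E) :
    nE nrm x (-v) = nE nrm x v := by
  have h1 := h.smul x (-1) v
  have h2 : (((-1 : ℝ) : ℂ) • v : E) = -v := by
    simp
  have h3 : nE nrm x (((-1 : ℝ) : ℂ) • v : E) = |(-1 : ℝ)| * nE nrm x v := h1
  rw [h2, abs_neg, abs_one, one_mul] at h3
  exact h3

theorem nE_tri {nrm : (x : X) → TangentSpace 𝓘(ℂ, E) x → ℝ} (h : IsFinsler nrm) (x : X) (v w : E) :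
    nE nrm x v ≤ nE nrm x (v + w) + nE nrm x w := by
  have h1 := nE_add h x (v + w) (-w)
  rw [nE_neg h, add_neg_cancel_right] at h1
  exact h1

theorem nE_nonneg {nrm : (x : X) → TangentSpace 𝓘(ℂ, E) x → ℝ} (h : IsFinsler nrm) (x : X) (v : E) :
    0 ≤ nE nrm x v := by
  have h1 := nE_tri h x v (-v)
  have h2 := nE_tri h x (-v) v
  rw [nE_neg h] at h1 h2
  have h3 := nE_add h x v (-v)
  rw [nE_neg h] at h3
  have h4 : nE nrm x (v + -v) = 0 := by
    rw [add_neg_cancel]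
    have h5 := h.smul x 0 (0 : E)
    have h6 : nE nrm x (((0 : ℝ) : ℂ) • (0 : E)) = |(0 : ℝ)| * nE nrm x 0 := h5
    rw [smul_zero, abs_zero, zero_mul] at h6
    exact h6
  linarith

end sAngAux

open sAngAux in
theorem sAng : S_Ang := by
  intro E _ _ X _ _ _ nrm f K Es Eu C lam hF hH hbd
  have hlim : Tendsto (fun n : ℕ => C * lam ^ n) atTop (𝓝 (C * 0)) :=
    (tendsto_pow_atTop_nhds_zero_of_lt_one hH.lam_pos.le hH.lam_lt).const_mul C
  rw [mul_zero] at hlim
  obtain ⟨n, hn⟩ := (hlim.eventually_le_const (one_half_pos (α := ℝ))).exists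
  obtain ⟨M, hM1, hM⟩ := hbd n
  refine ⟨2 * M, by linarith, ?_⟩
  intro x hx v hv w hw
  have hDv : nE nrm (f^[n] x) (dg (f^[n]) x v) ≤ 1 / 2 * nE nrm x v := by
    have h1 : nE nrm (f^[n] x) (dg (f^[n]) x v) ≤ C * lam ^ n * nE nrm x v := hH.contr x hx v hv n
    exact h1.trans (mul_le_mul_of_nonneg_right hn (nE_nonneg hF x v))
  have hDw : nE nrm x w ≤ 1 / 2 * nE nrm (f^[n] x) (dg (f^[n]) x w) := by
    have h1 : nE nrm x w ≤ C * lam ^ n * nE nrm (f^[n] x) (dg (f^[n]) x w) :=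
      hH.expand x hx w hw n
    exact h1.trans (mul_le_mul_of_nonneg_right hn (nE_nonneg hF _ _))
  have h0 : 0 ≤ nE nrm x (v + w) := nE_nonneg hF _ _
  by_cases hc : nE nrm x w ≤ nE nrm x v / 2
  · have h1 := nE_tri hF x v w
    nlinarith
  · push Not at hc
    have h1 := hM x hx (v + w)
    have h2 : dg (f^[n]) x (v + w) = dg (f^[n]) x w + dg (f^[n]) x v := by
      rw [map_add, add_comm]
    rw [h2] at h1
    have h3 := nE_tri hF (f^[n] x) (dg (f^[n]) x w) (dg (f^[n]) x v)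
    linarith

end Pool.Agent.Lib.Bed
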