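import Pool.Agent.Lib.Bed.Str
import Pool.Agent.Lib.Bed.AsA

/-!
# Stable manifolds: the parametrisation, with local information
-/

set_option autoImplicit false

open scoped Manifold ContDiff Topology
open Set Filter Metric

namespace Pool.Agent.Lib.Bed

open sAsAAux in
theorem sAsA2 : S_AsA2 := by
  intro E _ _ X _ _ f p N k l P H A τ F ρ ρ' r C c hf hfs hP hr hL hB
  obtain ⟨Ψ, hΨd, hΨc, hΨi, hΨdi, hΨs⟩ := hB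
  -- the points of the local stable manifolds
  have hmem' : ∀ n, ∀ ξ ∈ ball (0 : Fin k → ℂ) r, ((ξ, τ n ξ) : V k l) ∈ ball (0 : V k l) ρ' := by
    intro n ξ hξ
    rw [mem_ball_zero_iff, Prod.norm_def]
    have h1 := mem_ball_zero_iff.1 hξ
    have h2 := hL.le n ξ hξ
    exact max_lt (lt_of_lt_of_le h1 hr) (lt_of_le_of_lt h2 (lt_of_lt_of_le h1 hr))
  have hmem : ∀ n, ∀ ξ ∈ ball (0 : Fin k → ℂ) r, ((ξ, τ n ξ) : V k l) ∈ ball (0 : V k l) ρ :=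
    fun n ξ hξ => ball_subset_ball hP.le (hmem' n ξ hξ)
  have hFm : ∀ n, ∀ ξ ∈ ball (0 : Fin k → ℂ) r, F n ξ ∈ ball (0 : Fin k → ℂ) r := by
    intro n ξ hξ
    have h1 := hL.seq.contr n ξ hξ
    rw [mem_ball_zero_iff] at hξ ⊢
    have := norm_nonneg ξ
    linarith
  let φ : ℕ → (Fin k → ℂ) → X := fun n ξ => f.symm^[N * n] (P n (ξ, τ n ξ))
  have hφs : ∀ n, ∀ ξ ∈ ball (0 : Fin k → ℂ) r, φ (n + 1) (F n ξ) = φ n ξ := by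
    intro n ξ hξ
    show f.symm^[N * (n + 1)] (P (n + 1) (F n ξ, τ (n + 1) (F n ξ))) = _
    rw [← hL.inv n ξ hξ, hP.comm n _ (hmem' n ξ hξ), Nat.mul_succ, Function.iterate_add_apply,
      iter_right]
  have hfwd : ∀ j n, ∀ ξ ∈ ball (0 : Fin k → ℂ) r, orb F n j ξ ∈ ball (0 : Fin k → ℂ) r ∧
      Ψ (n + j) (orb F n j ξ) = Ψ n ξ ∧ φ (n + j) (orb F n j ξ) = φ n ξ := by
    intro j
    induction j with
    | zero => exact fun n ξ hξ => ⟨hξ, rfl, rfl⟩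
    | succ j ih =>
      intro n ξ hξ
      obtain ⟨h1, h2, h3⟩ := ih n ξ hξ
      rw [orb_succ]
      exact ⟨hFm _ _ h1, (hΨc _ _ h1).trans h2, (hφs _ _ h1).trans h3⟩
  have hind0 : ∀ n j, ∀ ξ ∈ ball (0 : Fin k → ℂ) r, ∀ ξ' ∈ ball (0 : Fin k → ℂ) r,
      Ψ n ξ = Ψ (n + j) ξ' → φ n ξ = φ (n + j) ξ' := by
    intro n j ξ hξ ξ' hξ' he
    obtain ⟨h1, h2, h3⟩ := hfwd j n ξ hξ
    have h4 : orb F n j ξ = ξ' := hΨi (n + j) h1 hξ' (h2.trans he)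
    rw [← h3, h4]
  have hind : ∀ n n', ∀ ξ ∈ ball (0 : Fin k → ℂ) r, ∀ ξ' ∈ ball (0 : Fin k → ℂ) r,
      Ψ n ξ = Ψ n' ξ' → φ n ξ = φ n' ξ' := by
    intro n n' ξ hξ ξ' hξ' he
    rcases le_total n n' with h | h
    · obtain ⟨j, rfl⟩ := Nat.exists_eq_add_of_le h
      exact hind0 n j ξ hξ ξ' hξ' he
    · obtain ⟨j, rfl⟩ := Nat.exists_eq_add_of_le h
      exact (hind0 n' j ξ' hξ' ξ hξ he.symm).symm
  choose ν X0 hX0 hνX using hΨs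
  let Φ : (Fin k → ℂ) → X := fun u => φ (ν u) (X0 u)
  have hΦ : ∀ n, ∀ ξ ∈ ball (0 : Fin k → ℂ) r, Φ (Ψ n ξ) = φ n ξ := fun n ξ hξ =>
    hind _ _ _ (hX0 _) _ hξ (hνX _)
  -- the derivative of φ
  have hφd : ∀ n, ∀ ξ ∈ ball (0 : Fin k → ℂ) r,
      MDifferentiableAt 𝓘(ℂ, Fin k → ℂ) 𝓘(ℂ, E) (φ n) ξ ∧
      Function.Injective (mfderiv 𝓘(ℂ, Fin k → ℂ) 𝓘(ℂ, E) (φ n) ξ) := by
    intro n ξ hξ
    have d0 : DifferentiableAt ℂ (τ n) ξ := (hL.diff n).differentiableAt (isOpen_ball.mem_nhds hξ)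
    have d1 : HasFDerivAt (fun ξ => ((ξ, τ n ξ) : V k l))
        ((ContinuousLinearMap.id ℂ (Fin k → ℂ)).prod (fderiv ℂ (τ n) ξ)) ξ :=
      (hasFDerivAt_id ξ).prodMk d0.hasFDerivAt
    have m1 : MDifferentiableAt 𝓘(ℂ, Fin k → ℂ) 𝓘(ℂ, V k l) (fun ξ => ((ξ, τ n ξ) : V k l)) ξ :=
      d1.differentiableAt.mdifferentiableAt
    have m2 := hP.diff n _ (hmem n ξ hξ)
    have m3 := (iter_diff hfs (N * n)) (P n (ξ, τ n ξ))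
    have m12 : MDifferentiableAt 𝓘(ℂ, Fin k → ℂ) 𝓘(ℂ, E)
        (P n ∘ fun ξ => ((ξ, τ n ξ) : V k l)) ξ := m2.comp ξ m1
    have m123 : MDifferentiableAt 𝓘(ℂ, Fin k → ℂ) 𝓘(ℂ, E)
        (f.symm^[N * n] ∘ (P n ∘ fun ξ => ((ξ, τ n ξ) : V k l))) ξ := m3.comp ξ m12
    refine ⟨m123, ?_⟩
    have e1 : mfderiv 𝓘(ℂ, Fin k → ℂ) 𝓘(ℂ, E)
        (f.symm^[N * n] ∘ (P n ∘ fun ξ => ((ξ, τ n ξ) : V k l))) ξ =
        (mfderiv 𝓘(ℂ, E) 𝓘(ℂ, E) (f.symm^[N * n]) (P n (ξ, τ n ξ))).comp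
          (mfderiv 𝓘(ℂ, Fin k → ℂ) 𝓘(ℂ, E) (P n ∘ fun ξ => ((ξ, τ n ξ) : V k l)) ξ) :=
      mfderiv_comp ξ m3 m12
    have e2 : mfderiv 𝓘(ℂ, Fin k → ℂ) 𝓘(ℂ, E) (P n ∘ fun ξ => ((ξ, τ n ξ) : V k l)) ξ =
        (mfderiv 𝓘(ℂ, V k l) 𝓘(ℂ, E) (P n) (ξ, τ n ξ)).comp
          (mfderiv 𝓘(ℂ, Fin k → ℂ) 𝓘(ℂ, V k l) (fun ξ => ((ξ, τ n ξ) : V k l)) ξ) :=
      mfderiv_comp ξ m2 m1
    have e3 : mfderiv 𝓘(ℂ, Fin k → ℂ) 𝓘(ℂ, V k l) (fun ξ => ((ξ, τ n ξ) : V k l)) ξ =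
        (ContinuousLinearMap.id ℂ (Fin k → ℂ)).prod (fderiv ℂ (τ n) ξ) := by
      rw [mfderiv_eq_fderiv]
      exact d1.fderiv
    intro v w hvw
    have hvw' : mfderiv 𝓘(ℂ, Fin k → ℂ) 𝓘(ℂ, E)
        (f.symm^[N * n] ∘ (P n ∘ fun ξ => ((ξ, τ n ξ) : V k l))) ξ v =
      mfderiv 𝓘(ℂ, Fin k → ℂ) 𝓘(ℂ, E)
        (f.symm^[N * n] ∘ (P n ∘ fun ξ => ((ξ, τ n ξ) : V k l))) ξ w := hvw
    rw [e1] at hvw'
    have h1 := iter_inj f hf hfs (N * n) _ hvw'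
    rw [e2] at h1
    have h2 := hP.dinj n _ (hmem n ξ hξ) h1
    rw [e3] at h2
    exact congrArg Prod.fst h2
  have hΦd : ∀ u, MDifferentiableAt 𝓘(ℂ, Fin k → ℂ) 𝓘(ℂ, E) Φ u ∧
      Function.Injective (mfderiv 𝓘(ℂ, Fin k → ℂ) 𝓘(ℂ, E) Φ u) := by
    intro u
    obtain ⟨n, ξ, hξ, hu⟩ : ∃ n, ∃ ξ ∈ ball (0 : Fin k → ℂ) r, Ψ n ξ = u :=
      ⟨ν u, X0 u, hX0 u, hνX u⟩
    obtain ⟨θ, θ', t1, t2, t3, t4⟩ := loc_inv (hΨd n) hξ (hΨdi n ξ hξ)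
    rw [hu] at t1 t3 t4
    have hev : Φ =ᶠ[𝓝 u] φ n ∘ θ := by
      filter_upwards [t4] with v hv
      show Φ v = φ n (θ v)
      rw [← hΦ n (θ v) hv.1, hv.2]
    have mθ : MDifferentiableAt 𝓘(ℂ, Fin k → ℂ) 𝓘(ℂ, Fin k → ℂ) θ u :=
      t1.differentiableAt.mdifferentiableAt
    have mφ : MDifferentiableAt 𝓘(ℂ, Fin k → ℂ) 𝓘(ℂ, E) (φ n) (θ u) := by
      rw [t3]
      exact (hφd n ξ hξ).1
    have iφ : Function.Injective (mfderiv 𝓘(ℂ, Fin k → ℂ) 𝓘(ℂ, E) (φ n) (θ u)) := by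
      rw [t3]
      exact (hφd n ξ hξ).2
    have mc : MDifferentiableAt 𝓘(ℂ, Fin k → ℂ) 𝓘(ℂ, E) (φ n ∘ θ) u := mφ.comp u mθ
    refine ⟨mc.congr_of_eventuallyEq hev, ?_⟩
    rw [hev.mfderiv_eq]
    have e1 : mfderiv 𝓘(ℂ, Fin k → ℂ) 𝓘(ℂ, E) (φ n ∘ θ) u =
        (mfderiv 𝓘(ℂ, Fin k → ℂ) 𝓘(ℂ, E) (φ n) (θ u)).comp
          (mfderiv 𝓘(ℂ, Fin k → ℂ) 𝓘(ℂ, Fin k → ℂ) θ u) := mfderiv_comp u mφ mθ
    intro v w hvw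
    rw [e1] at hvw
    have h1 := iφ hvw
    rw [mfderiv_eq_fderiv, t1.fderiv] at h1
    exact t2 h1
  have hlift : ∀ u, ∀ m ≥ ν u, ∃ ξ ∈ ball (0 : Fin k → ℂ) r, Ψ m ξ = u := by
    intro u m hm
    obtain ⟨j, rfl⟩ := Nat.exists_eq_add_of_le hm
    obtain ⟨h1, h2, _⟩ := hfwd j (ν u) (X0 u) (hX0 u)
    exact ⟨_, h1, h2.trans (hνX u)⟩
  refine ⟨Φ, fun u => (hΦd u).1, ?_, fun u => (hΦd u).2, ?_, ?_⟩
  · intro u u' he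
    obtain ⟨m, hm1, hm2⟩ : ∃ m, ν u ≤ m ∧ ν u' ≤ m := ⟨max (ν u) (ν u'), le_max_left _ _,
      le_max_right _ _⟩
    obtain ⟨ξ, hξ, h1⟩ := hlift u m hm1
    obtain ⟨ξ', hξ', h1'⟩ := hlift u' m hm2
    have e1 : Φ u = φ m ξ := by
      have := hΦ m ξ hξ
      rw [h1] at this
      exact this
    have e2 : Φ u' = φ m ξ' := by
      have := hΦ m ξ' hξ'
      rw [h1'] at this
      exact this
    rw [e1, e2] at he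
    have h2 : P m (ξ, τ m ξ) = P m (ξ', τ m ξ') := (f.symm.injective.iterate (N * m)) he
    have h3 := hP.inj _ (hmem _ ξ hξ) (hmem _ ξ' hξ') h2
    have h4 : ξ = ξ' := congrArg Prod.fst h3
    rw [← h1, ← h1', h4]
  · ext q
    constructor
    · rintro ⟨u, rfl⟩
      refine ⟨ν u, X0 u, hX0 u, ?_⟩
      show _ = f^[N * ν u] (f.symm^[N * ν u] _)
      rw [iter_left]
    · rintro ⟨n, ξ, hξ, hq⟩
      refine ⟨Ψ n ξ, ?_⟩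
      rw [hΦ n ξ hξ]
      show f.symm^[N * n] (P n (ξ, τ n ξ)) = q
      rw [hq, iter_right]
  · intro u
    obtain ⟨n, ξ, hξ, hu⟩ : ∃ n, ∃ ξ ∈ ball (0 : Fin k → ℂ) r, Ψ n ξ = u :=
      ⟨ν u, X0 u, hX0 u, hνX u⟩
    obtain ⟨θ, θ', t1, t2, t3, t4⟩ := loc_inv (hΨd n) hξ (hΨdi n ξ hξ)
    rw [hu] at t4
    refine ⟨n, ?_⟩
    filter_upwards [t4] with v hv
    refine ⟨θ v, hv.1, ?_⟩
    have h1 := hΦ n (θ v) hv.1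
    rw [hv.2] at h1
    rw [h1]
    show _ = f^[N * n] (f.symm^[N * n] _)
    rw [iter_left]

end Pool.Agent.Lib.Bed
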