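import Pool.Agent.Lib.Bed.SpecM

/-!
# Stable manifolds: the stable set
-/

set_option autoImplicit false

open scoped Manifold ContDiff Topology
open Set Filter Metric

namespace Pool.Agent.Lib.Bed

namespace sAsBAux

theorem iter_step {X : Type} (f : X → X) (N m : ℕ) (q : X) :
    f^[N] (f^[N * m] q) = f^[N * (m + 1)] q := by
  rw [← Function.iterate_add_apply, show N + N * m = N * (m + 1) by ring]

theorem unif (hU : S_UCf) {X : Type} [MetricSpace X] {f : X → X} {K : Set X} (hK : IsCompact K)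
    (hf : Continuous f) {ε : ℝ} (hε : 0 < ε) (I : ℕ) :
    ∃ δ > 0, ∀ i < I, ∀ x ∈ K, ∀ q, dist q x < δ → dist (f^[i] q) (f^[i] x) < ε := by
  induction I with
  | zero => exact ⟨1, one_pos, fun i hi => absurd hi (Nat.not_lt_zero _)⟩
  | succ I ih =>
    obtain ⟨δ, hδ, h⟩ := ih
    obtain ⟨δ', hδ', h'⟩ := hU X X K univ (f^[I]) hK isOpen_univ (subset_univ _)
      (hf.iterate I).continuousOn ε hε
    refine ⟨min δ δ', lt_min hδ hδ', ?_⟩
    intro i hi x hx q hq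
    rcases Nat.lt_succ_iff_lt_or_eq.1 hi with h1 | h1
    · exact h i h1 x hx q (hq.trans_le (min_le_left _ _))
    · subst h1
      exact (h' x hx q (hq.trans_le (min_le_right _ _))).2

theorem fwd (hU : S_UCf) {E : Type} [NormedAddCommGroup E] [NormedSpace ℂ E] {X : Type}
    [MetricSpace X] [ChartedSpace E X] {f : X ≃ X} {K : Set X} {p : X} {N k l : ℕ}
    {P : ℕ → V k l → X} {H : ℕ → V k l → V k l} {A : ℕ → (Fin k → ℂ) →L[ℂ] (Fin k → ℂ)}
    {τ : ℕ → (Fin k → ℂ) → (Fin l → ℂ)} {F : ℕ → (Fin k → ℂ) → (Fin k → ℂ)} {ρ ρ' r C c : ℝ}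
    (hK : IsCompact K) (hKf : MapsTo f K K) (hp : p ∈ K) (hf : Continuous f)
    (hP : AdP (E := E) f p N k l P H ρ ρ') (hr : r ≤ ρ') (hL : IsLSM k l r C c H A τ F)
    {q : X} {n : ℕ} {ξ : Fin k → ℂ} (hξ : ξ ∈ ball (0 : Fin k → ℂ) r)
    (hq : P n (ξ, τ n ξ) = f^[N * n] q) : q ∈ stab f p := by
  have hξ' : ‖ξ‖ < r := by simpa using hξ
  have hnorm : ∀ m (x : Fin k → ℂ), ‖x‖ < r → ‖((x, τ m x) : V k l)‖ ≤ ‖x‖ := by
    intro m x hx
    rw [Prod.norm_def]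
    exact max_le le_rfl (hL.le m x (by simpa using hx))
  have key : ∀ j, ‖orb F n j ξ‖ ≤ (1 / 4) ^ j * ‖ξ‖ ∧
      P (n + j) (orb F n j ξ, τ (n + j) (orb F n j ξ)) = f^[N * (n + j)] q := by
    intro j
    induction j with
    | zero => exact ⟨by simp, hq⟩
    | succ j ih =>
      obtain ⟨h1, h2⟩ := ih
      have h3 : ‖orb F n j ξ‖ < r := by
        refine h1.trans_lt (lt_of_le_of_lt ?_ hξ')
        have h4 : ((1 : ℝ) / 4) ^ j ≤ 1 := pow_le_one₀ (by norm_num) (by norm_num)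
        exact mul_le_of_le_one_left (norm_nonneg _) h4
      have h3' : orb F n j ξ ∈ ball (0 : Fin k → ℂ) r := by simpa using h3
      refine ⟨?_, ?_⟩
      · rw [orb_succ]
        refine (hL.seq.contr (n + j) _ h3').trans ?_
        rw [pow_succ]
        calc 1 / 4 * ‖orb F n j ξ‖ ≤ 1 / 4 * ((1 / 4) ^ j * ‖ξ‖) :=
              mul_le_mul_of_nonneg_left h1 (by norm_num)
          _ = (1 / 4) ^ j * (1 / 4) * ‖ξ‖ := by ring
      · have h5 : ((orb F n j ξ, τ (n + j) (orb F n j ξ)) : V k l) ∈ ball (0 : V k l) ρ' := by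
          rw [mem_ball_zero_iff]
          exact ((hnorm (n + j) _ h3).trans_lt h3).trans_le hr
        have h6 := hP.comm (n + j) _ h5
        rw [hL.inv (n + j) _ h3', h2, iter_step] at h6
        exact h6
  have hlim : ∀ ε > 0, ∃ M, ∀ m ≥ M, dist (f^[N * m] q) (f^[N * m] p) < ε := by
    intro ε hε
    obtain ⟨δ, hδ, h⟩ := hP.near ε hε
    have h1 : Tendsto (fun j : ℕ => ((1 : ℝ) / 4) ^ j * ‖ξ‖) atTop (𝓝 0) := by
      have := (tendsto_pow_atTop_nhds_zero_of_lt_one (r := (1 : ℝ) / 4) (by norm_num)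
        (by norm_num)).mul_const ‖ξ‖
      simpa using this
    obtain ⟨J, hJ⟩ := eventually_atTop.1 (h1.eventually_lt_const hδ)
    refine ⟨n + J, ?_⟩
    intro m hm
    obtain ⟨j, rfl⟩ := Nat.exists_eq_add_of_le (show n ≤ m by omega)
    have hj : J ≤ j := by omega
    obtain ⟨h2, h3⟩ := key j
    have h4 : ‖orb F n j ξ‖ < r := by
      refine h2.trans_lt (lt_of_le_of_lt ?_ hξ')
      have h4 : ((1 : ℝ) / 4) ^ j ≤ 1 := pow_le_one₀ (by norm_num) (by norm_num)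
      exact mul_le_of_le_one_left (norm_nonneg _) h4
    have h5 := hnorm (n + j) _ h4
    rw [← h3]
    apply h (n + j)
    · rw [mem_ball_zero_iff]
      exact ((h5.trans_lt h4).trans_le hr).trans_le hP.le
    · exact (h5.trans h2).trans_lt (hJ j hj)
  have hx : ∀ m, f^[N * m] p ∈ K := fun m => (hKf.iterate (N * m)) hp
  change Tendsto (fun n : ℕ => dist (f^[n] q) (f^[n] p)) atTop (𝓝 0)
  rw [Metric.tendsto_atTop]
  intro ε hε
  obtain ⟨δ, hδ, h⟩ := unif hU hK hf hε N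
  obtain ⟨M, hM⟩ := hlim δ hδ
  refine ⟨N * M, fun m hm => ?_⟩
  rw [Real.dist_eq, sub_zero, abs_of_nonneg dist_nonneg]
  have h1 : M ≤ m / N := by
    rw [Nat.le_div_iff_mul_le hP.N_pos]
    rw [mul_comm]
    exact hm
  have h2 := hM (m / N) h1
  have h3 := h (m % N) (Nat.mod_lt _ hP.N_pos) _ (hx (m / N)) _ h2
  rw [← Function.iterate_add_apply, ← Function.iterate_add_apply, Nat.mod_add_div] at h3
  exact h3

theorem bwd {E : Type} [NormedAddCommGroup E] [NormedSpace ℂ E] {X : Type}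
    [MetricSpace X] [ChartedSpace E X] {f : X ≃ X} {p : X} {N k l : ℕ}
    {P : ℕ → V k l → X} {H : ℕ → V k l → V k l} {A : ℕ → (Fin k → ℂ) →L[ℂ] (Fin k → ℂ)}
    {τ : ℕ → (Fin k → ℂ) → (Fin l → ℂ)} {F : ℕ → (Fin k → ℂ) → (Fin k → ℂ)} {ρ ρ' r C c : ℝ}
    (hP : AdP (E := E) f p N k l P H ρ ρ') (hr : r ≤ ρ') (hL : IsLSM k l r C c H A τ F)
    {q : X} (hq : q ∈ stab f p) :
    ∃ n, ∃ ξ ∈ ball (0 : Fin k → ℂ) r, P n (ξ, τ n ξ) = f^[N * n] q := by
  have hq' : Tendsto (fun n : ℕ => dist (f^[n] q) (f^[n] p)) atTop (𝓝 0) := hq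
  obtain ⟨δ, hδ, hδ'⟩ := hP.near' r hL.seq.r_pos
  obtain ⟨n, hn⟩ := eventually_atTop.1 (hq'.eventually_lt_const hδ)
  have h1 : ∀ j, ∃ v ∈ ball (0 : V k l) ρ, ‖v‖ < r ∧ P (n + j) v = f^[N * (n + j)] q := by
    intro j
    apply hδ' (n + j)
    apply hn
    calc n ≤ n + j := Nat.le_add_right _ _
      _ ≤ N * (n + j) := Nat.le_mul_of_pos_left _ hP.N_pos
  choose v hv1 hv2 hv3 using h1
  have h2 : ∀ j, v (j + 1) = H (n + j) (v j) := by
    intro j
    have h3 : v j ∈ ball (0 : V k l) ρ' := by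
      rw [mem_ball_zero_iff]
      exact (hv2 j).trans_le hr
    apply hP.inj (n + (j + 1)) (hv1 (j + 1)) (hP.maps (n + j) h3)
    have h4 := hP.comm (n + j) _ h3
    rw [hv3 j, iter_step] at h4
    rw [hv3 (j + 1)]
    exact h4.symm
  have h5 := hL.uniq n v hv2 h2
  refine ⟨n, (v 0).1, ?_, ?_⟩
  · rw [mem_ball_zero_iff]
    exact (norm_fst_le (v 0)).trans_lt (hv2 0)
  · rw [← h5]
    exact hv3 0

end sAsBAux

open sAsBAux in
theorem sAsB : S_AsB := by
  intro hU E _ _ X _ _ f K p N k l P H A τ F ρ ρ' r C c hK hKf hp hf hP hr hL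
  ext q
  constructor
  · rintro ⟨n, ξ, hξ, hq⟩
    exact fwd hU hK hKf hp hf hP hr hL hξ hq
  · intro hq
    exact bwd hP hr hL hq

end Pool.Agent.Lib.Bed
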