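import Pool.Agent.Lib.Bed.Str
import Pool.Agent.Lib.Bed.AsB

/-!
# Stable manifolds: uniform convergence on the local stable manifolds
-/

set_option autoImplicit false

open scoped Manifold ContDiff Topology
open Set Filter Metric

namespace Pool.Agent.Lib.Bed

open sAsBAux in
theorem sAsB2 : S_AsB2 := by
  intro hU E _ _ X _ _ f K p N k l P H A τ F ρ ρ' r C c hK hKf hp hf hP hr hL n ε hε
  have hnorm : ∀ m (x : Fin k → ℂ), ‖x‖ < r → ‖((x, τ m x) : V k l)‖ ≤ ‖x‖ := by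
    intro m x hx
    rw [Prod.norm_def]
    exact max_le le_rfl (hL.le m x (by simpa using hx))
  have key : ∀ (q : X) (ξ : Fin k → ℂ), ‖ξ‖ < r → P n (ξ, τ n ξ) = f^[N * n] q →
      ∀ j, ‖orb F n j ξ‖ ≤ (1 / 4) ^ j * ‖ξ‖ ∧
      P (n + j) (orb F n j ξ, τ (n + j) (orb F n j ξ)) = f^[N * (n + j)] q := by
    intro q ξ hξ' hq j
    induction j with
    | zero => exact ⟨by simp, hq⟩
    | succ j ih =>
      obtain ⟨h1, h2⟩ := ih
      have h3 : ‖orb F n j ξ‖ < r := by
        refine h1.trans_lt (lt_of_le_of_lt ?_ hξ')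
        have h4 : ((1 : ℝ) / 4) ^ j ≤ 1 := pow_le_one₀ (by norm_num) (by norm_num)
        exact mul_le_of_le_one_left (norm_nonneg _) h4
      have h3' : orb F n j ξ ∈ ball (0 : Fin k → ℂ) r := by simpa using h3
      refine ⟨?_, ?_⟩
      · rw [orb_succ]
        refine (hL.seq.contr (n + j) _ h3').trans ?_
        rw [pow_succ]
        calc 1 / 4 * ‖orb F n j ξ‖ ≤ 1 / 4 * ((1 / 4) ^ j * ‖ξ‖) :=
              mul_le_mul_of_nonneg_left h1 (by norm_num)
          _ = (1 / 4) ^ j * (1 / 4) * ‖ξ‖ := by ring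
      · have h5 : ((orb F n j ξ, τ (n + j) (orb F n j ξ)) : V k l) ∈ ball (0 : V k l) ρ' := by
          rw [mem_ball_zero_iff]
          exact ((hnorm (n + j) _ h3).trans_lt h3).trans_le hr
        have h6 := hP.comm (n + j) _ h5
        rw [hL.inv (n + j) _ h3', h2, iter_step] at h6
        exact h6
  obtain ⟨δ, hδ, h⟩ := unif hU hK hf hε N
  have hlim : ∃ M, ∀ m ≥ M, ∀ q, (∃ ξ ∈ ball (0 : Fin k → ℂ) r, P n (ξ, τ n ξ) = f^[N * n] q) →
      dist (f^[N * m] q) (f^[N * m] p) < δ := by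
    obtain ⟨δ', hδ', h'⟩ := hP.near δ hδ
    have h1 : Tendsto (fun j : ℕ => ((1 : ℝ) / 4) ^ j * r) atTop (𝓝 0) := by
      have := (tendsto_pow_atTop_nhds_zero_of_lt_one (r := (1 : ℝ) / 4) (by norm_num)
        (by norm_num)).mul_const r
      simpa using this
    obtain ⟨J, hJ⟩ := eventually_atTop.1 (h1.eventually_lt_const hδ')
    refine ⟨n + J, ?_⟩
    rintro m hm q ⟨ξ, hξ, hq⟩
    have hξ' : ‖ξ‖ < r := by simpa using hξ
    obtain ⟨j, rfl⟩ := Nat.exists_eq_add_of_le (show n ≤ m by omega)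
    have hj : J ≤ j := by omega
    obtain ⟨h2, h3⟩ := key q ξ hξ' hq j
    have h4 : ‖orb F n j ξ‖ < r := by
      refine h2.trans_lt (lt_of_le_of_lt ?_ hξ')
      have h4 : ((1 : ℝ) / 4) ^ j ≤ 1 := pow_le_one₀ (by norm_num) (by norm_num)
      exact mul_le_of_le_one_left (norm_nonneg _) h4
    have h5 := hnorm (n + j) _ h4
    rw [← h3]
    apply h' (n + j)
    · rw [mem_ball_zero_iff]
      exact ((h5.trans_lt h4).trans_le hr).trans_le hP.le
    · refine (h5.trans h2).trans_lt (lt_of_le_of_lt ?_ (hJ j hj))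
      exact mul_le_mul_of_nonneg_left hξ'.le (by positivity)
  have hx : ∀ m, f^[N * m] p ∈ K := fun m => (hKf.iterate (N * m)) hp
  obtain ⟨M, hM⟩ := hlim
  refine ⟨N * M, fun m hm q hq => ?_⟩
  have h1 : M ≤ m / N := by
    rw [Nat.le_div_iff_mul_le hP.N_pos]
    rw [mul_comm]
    exact hm
  have h2 := hM (m / N) h1 q hq
  have h3 := h (m % N) (Nat.mod_lt _ hP.N_pos) _ (hx (m / N)) _ h2
  rw [← Function.iterate_add_apply, ← Function.iterate_add_apply, Nat.mod_add_div] at h3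
  exact h3

end Pool.Agent.Lib.Bed
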