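import Pool.Agent.Lib.Bed.Defs

/-!
# Stable manifolds: basic facts about the weighted norms and the orbits
-/

set_option autoImplicit false

open scoped Topology
open Set Filter Metric

namespace Pool.Agent.Lib.Bed

section wn

variable {k : ℕ} {κ : Fin k → ℕ → ℝ} {m : ℕ} {z w : Fin k → ℂ} {A : ℝ}

theorem wn_nonneg : 0 ≤ wn κ m z := norm_nonneg _

theorem wn_zero : wn κ m 0 = 0 := by
  unfold wn
  have h : (fun t => (κ t m : ℂ) * (0 : Fin k → ℂ) t) = 0 := by
    ext t
    simp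
  rw [h, norm_zero]

theorem wn_add_le : wn κ m (z + w) ≤ wn κ m z + wn κ m w := by
  unfold wn
  have h : (fun t => (κ t m : ℂ) * (z + w) t) =
      (fun t => (κ t m : ℂ) * z t) + fun t => (κ t m : ℂ) * w t := by
    ext t
    simp [mul_add]
  rw [h]
  exact norm_add_le _ _

theorem wn_neg : wn κ m (-z) = wn κ m z := by
  unfold wn
  have h : (fun t => (κ t m : ℂ) * (-z) t) = -fun t => (κ t m : ℂ) * z t := by
    ext t
    simp
  rw [h, norm_neg]

theorem wn_sub_le : wn κ m (z - w) ≤ wn κ m z + wn κ m w := by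
  rw [sub_eq_add_neg]
  exact wn_add_le.trans (by rw [wn_neg])

theorem wn_smul (c : ℂ) : wn κ m (c • z) = ‖c‖ * wn κ m z := by
  unfold wn
  have h : (fun t => (κ t m : ℂ) * (c • z) t) = c • fun t => (κ t m : ℂ) * z t := by
    ext t
    simp
    ring
  rw [h, norm_smul]

theorem le_wn (hκ : IsWt κ) (t : Fin k) : κ t m * ‖z t‖ ≤ wn κ m z := by
  unfold wn
  have h := norm_le_pi_norm (fun t => (κ t m : ℂ) * z t) t
  simpa [abs_of_pos (hκ.pos t m)] using h

theorem wn_le (hκ : IsWt κ) (hA : 0 ≤ A) (h : ∀ t, κ t m * ‖z t‖ ≤ A) : wn κ m z ≤ A := by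
  unfold wn
  rw [pi_norm_le_iff_of_nonneg hA]
  intro t
  simpa [abs_of_pos (hκ.pos t m)] using h t

theorem wn_anti (hκ : IsWt κ) : wn κ (m + 1) z ≤ wn κ m z := by
  refine wn_le hκ wn_nonneg fun t => ?_
  exact (mul_le_mul_of_nonneg_right (hκ.anti t m) (norm_nonneg _)).trans (le_wn hκ t)

theorem wn_le_norm (hκ : IsWt κ) {B : ℝ} (hB : ∀ t, κ t m ≤ B) (hB0 : 0 ≤ B) :
    wn κ m z ≤ B * ‖z‖ := by
  refine wn_le hκ (by positivity) fun t => ?_
  exact mul_le_mul (hB t) (norm_le_pi_norm z t) (norm_nonneg _) hB0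

theorem norm_le_wn (hκ : IsWt κ) {b : ℝ} (hb : 0 < b) (hbt : ∀ t, b ≤ κ t m) :
    b * ‖z‖ ≤ wn κ m z := by
  have h : ‖z‖ ≤ wn κ m z / b := by
    rw [pi_norm_le_iff_of_nonneg (div_nonneg wn_nonneg hb.le)]
    intro t
    rw [le_div_iff₀ hb]
    calc ‖z t‖ * b = b * ‖z t‖ := mul_comm _ _
      _ ≤ κ t m * ‖z t‖ := mul_le_mul_of_nonneg_right (hbt t) (norm_nonneg _)
      _ ≤ wn κ m z := le_wn hκ t
  rw [le_div_iff₀ hb] at h
  linarith [mul_comm b ‖z‖]

theorem κ_anti' (hκ : IsWt κ) (t : Fin k) : Antitone (κ t) := antitone_nat_of_succ_le (hκ.anti t)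

theorem ratio' (hκ : IsWt κ) {s t : Fin k} (hst : s ≤ t) {i j : ℕ} (hij : i ≤ j) :
    κ t j * κ s i ≤ κ t i * κ s j := by
  have h : Antitone fun j => κ t j / κ s j := by
    refine antitone_nat_of_succ_le fun m => ?_
    rw [div_le_div_iff₀ (hκ.pos _ _) (hκ.pos _ _)]
    exact hκ.ratio s t hst m
  have h2 := h hij
  simp only at h2
  rw [div_le_div_iff₀ (hκ.pos _ _) (hκ.pos _ _)] at h2
  exact h2

theorem IsWt.shift (hκ : IsWt κ) (n : ℕ) : IsWt fun t j => κ t (n + j) where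
  pos t m := hκ.pos _ _
  anti t m := by
    rw [← Nat.add_assoc]
    exact hκ.anti _ _
  ratio s t hst m := by
    rw [← Nat.add_assoc]
    exact hκ.ratio s t hst _

theorem wn_shift (n j : ℕ) : wn (fun t j => κ t (n + j)) j z = wn κ (n + j) z := rfl

theorem continuous_wn : Continuous fun z : Fin k → ℂ => wn κ m z := by
  unfold wn
  fun_prop

end wn

section orb

variable {k : ℕ} {T : ℕ → (Fin k → ℂ) → (Fin k → ℂ)} {m : ℕ}

@[simp] theorem orb_zero (z : Fin k → ℂ) : orb T m 0 z = z := rfl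

theorem orb_succ (i : ℕ) (z : Fin k → ℂ) : orb T m (i + 1) z = T (m + i) (orb T m i z) := rfl

theorem orb_one (z : Fin k → ℂ) : orb T m 1 z = T m z := rfl

theorem orb_add (i j : ℕ) (z : Fin k → ℂ) : orb T m (i + j) z = orb T (m + i) j (orb T m i z) := by
  induction j with
  | zero => rfl
  | succ j ih =>
    rw [← Nat.add_assoc, orb_succ, orb_succ, ih, Nat.add_assoc]

theorem orb_succ' (i : ℕ) (z : Fin k → ℂ) : orb T m (i + 1) z = orb T (m + 1) i (T m z) := by
  rw [Nat.add_comm, orb_add, orb_one]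

end orb

section Sys

variable {k : ℕ} (S : Sys k) {m : ℕ} {z : Fin k → ℂ}

theorem Sys.orb_mem (hz : z ∈ S.dom m) (i : ℕ) : orb S.T m i z ∈ S.dom (m + i) := by
  induction i with
  | zero => exact hz
  | succ i ih => exact S.maps (m + i) ih

theorem Sys.orb_diff (m i : ℕ) : DifferentiableOn ℂ (orb S.T m i) (S.dom m) := by
  induction i with
  | zero => exact differentiableOn_id
  | succ i ih => exact (S.diff (m + i)).comp ih fun z hz => S.orb_mem hz i

theorem Sys.orb_inj (m i : ℕ) : InjOn (orb S.T m i) (S.dom m) := by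
  induction i with
  | zero => exact injOn_id _
  | succ i ih => exact (S.inj (m + i)).comp ih fun z hz => S.orb_mem hz i

theorem Sys.fderiv_orb_succ (hz : z ∈ S.dom m) (i : ℕ) (w : Fin k → ℂ) :
    fderiv ℂ (orb S.T m (i + 1)) z w =
      fderiv ℂ (S.T (m + i)) (orb S.T m i z) (fderiv ℂ (orb S.T m i) z w) := by
  have h1 : DifferentiableAt ℂ (orb S.T m i) z :=
    (S.orb_diff m i).differentiableAt ((S.open_dom m).mem_nhds hz)
  have h2 : DifferentiableAt ℂ (S.T (m + i)) (orb S.T m i z) :=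
    (S.diff (m + i)).differentiableAt ((S.open_dom (m + i)).mem_nhds (S.orb_mem hz i))
  have h3 : orb S.T m (i + 1) = S.T (m + i) ∘ orb S.T m i := rfl
  rw [h3, fderiv_comp z h2 h1]
  rfl

theorem Sys.orb_dinj (hz : z ∈ S.dom m) (i : ℕ) (w : Fin k → ℂ)
    (h : fderiv ℂ (orb S.T m i) z w = 0) : w = 0 := by
  induction i with
  | zero =>
    have h3 : orb S.T m 0 = id := rfl
    rw [h3, fderiv_id] at h
    exact h
  | succ i ih =>
    rw [S.fderiv_orb_succ hz] at h
    exact ih (S.dinj _ _ (S.orb_mem hz i) _ h)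

theorem Sys.orb_zero' (m i : ℕ) : orb S.T m i 0 = 0 := by
  induction i with
  | zero => rfl
  | succ i ih => rw [orb_succ, ih, S.T_zero]

end Sys

section Lev

variable {k s : ℕ} {S : Sys k} {U : ℕ → (Fin k → ℂ) → (Fin s → ℂ)} {m : ℕ} {z : Fin k → ℂ}

theorem Lev.orb_comp (hU : Lev S s U) (hz : z ∈ S.dom m) (i : ℕ) :
    U (m + i) (orb S.T m i z) = U m z := by
  induction i with
  | zero => rfl
  | succ i ih =>
    rw [orb_succ, ← ih]
    exact hU.comp (m + i) _ (S.orb_mem hz i)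

end Lev

end Pool.Agent.Lib.Bed
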