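import Pool.Agent.Lib.Bed.SpecM
import Pool.Agent.Lib.Osgood

/-!
# MP_6f050a_an, Bnd: the derivative of a map is bounded over a compact set
-/

set_option autoImplicit false

open scoped Manifold ContDiff Topology
open Set Filter Metric

namespace Pool.Agent.Lib.Bed

theorem sBnd : S_Bnd := by
  intro E _ _ _ X _ _ nrm K ψ χ ρ a b hU g hgK hL
  obtain ⟨ρ', hL⟩ := hL
  refine ⟨max 1 (b / ρ' / a), le_max_left _ _, fun x hx v => ?_⟩
  have hgx : g x ∈ K := hgK hx
  have hinj : Function.Injective (du (ψ x) 0) := by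
    rw [injective_iff_map_eq_zero]
    intro w hw
    have h1 := hU.low x hx w
    have h2 := hU.up x hx 0
    rw [map_zero, norm_zero, mul_zero] at h2
    rw [hw] at h1
    have h3 : ‖w‖ ≤ 0 := by
      by_contra h4
      push Not at h4
      have := mul_pos hU.a_pos h4
      linarith
    exact norm_le_zero_iff.1 h3
  have hsurj : Function.Surjective (du (ψ x) 0) :=
    (LinearMap.injective_iff_surjective (f := (du (ψ x) 0 : E →L[ℂ] E).toLinearMap)).1 hinj
  obtain ⟨w, rfl⟩ := hsurj v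
  rw [← hL.deriv x hx w]
  have h1 := hU.up (g x) hgx (fderiv ℂ (loc ψ χ g x) 0 w)
  have h2 : ‖fderiv ℂ (loc ψ χ g x) 0‖ ≤ 1 / ρ' :=
    Osgood.norm_fderiv_le hL.pos (hL.diff x hx) fun u hu => (hL.small x hx u hu).le
  have h3 : ‖fderiv ℂ (loc ψ χ g x) 0 w‖ ≤ 1 / ρ' * ‖w‖ :=
    (ContinuousLinearMap.le_opNorm _ _).trans (mul_le_mul_of_nonneg_right h2 (norm_nonneg w))
  have h4 := hU.low x hx w
  have ha := hU.a_pos
  have hb := hU.b_pos
  have hρ := hL.pos
  have h5 : ‖w‖ ≤ nE nrm x (du (ψ x) 0 w) / a := by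
    rw [le_div_iff₀ ha]
    linarith [mul_comm a ‖w‖]
  have h6 : 0 ≤ nE nrm x (du (ψ x) 0 w) := (mul_nonneg ha.le (norm_nonneg w)).trans h4
  calc nE nrm (g x) (du (ψ (g x)) 0 (fderiv ℂ (loc ψ χ g x) 0 w))
      ≤ b * ‖fderiv ℂ (loc ψ χ g x) 0 w‖ := h1
    _ ≤ b * (1 / ρ' * (nE nrm x (du (ψ x) 0 w) / a)) := by
        refine mul_le_mul_of_nonneg_left (h3.trans ?_) hb.le
        exact mul_le_mul_of_nonneg_left h5 (by positivity)
    _ = b / ρ' / a * nE nrm x (du (ψ x) 0 w) := by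
        field_simp
    _ ≤ max 1 (b / ρ' / a) * nE nrm x (du (ψ x) 0 w) :=
        mul_le_mul_of_nonneg_right (le_max_right _ _) h6

end Pool.Agent.Lib.Bed
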