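import Pool.Agent.Lib.Bed.SpecK

/-!
# MP_6f050a_an: a bootstrap for a quadratic recursion
-/

set_option autoImplicit false

open scoped Topology
open Set Filter Metric

namespace Pool.Agent.Lib.Bed

namespace sBootAux

theorem min_exp_le {θ : ℝ} (h0 : 0 ≤ θ) (h1 : θ ≤ 1) (x : ℝ) :
    min 1 (Real.exp x) ≤ Real.exp (θ * x) := by
  rcases le_total x 0 with hx | hx
  · refine (min_le_right _ _).trans (Real.exp_le_exp.2 ?_)
    nlinarith
  · refine (min_le_left _ _).trans (Real.one_le_exp ?_)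
    positivity

theorem geom_le {q : ℝ} (h0 : 0 ≤ q) (h1 : q < 1) (m : ℕ) :
    ∑ j ∈ Finset.range m, q ^ j ≤ (1 - q)⁻¹ := by
  rw [← tsum_geometric_of_lt_one h0 h1]
  exact (summable_geometric_of_lt_one h0 h1).sum_le_tsum _ (fun j _ => pow_nonneg h0 j)

theorem step {C η l : ℝ} {w y : ℕ → ℝ} (hC : 0 < C) (hη : 0 < η)
    (h0 : ∀ m, w 0 ≤ w m) (h1 : ∀ m : ℕ, w m ≤ w 0 + l * m) {t θ B : ℝ} (ht : 0 < t)
    (htθ : t ≤ θ) (hθ : θ ≤ 1) (hθt : 4 * l * (θ - t) ≤ η * t) (_hB : 0 ≤ B)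
    (hy0 : ∀ m, 0 ≤ y m) (hyB : ∀ m, y m ≤ B * Real.exp (-(t * w m)))
    (hrec : ∀ m, y m ≤ C * Real.exp (-(w m)) +
      C * ∑ j ∈ Finset.range m, min 1 (Real.exp (-(w m) - η * j + 2 * w j)) * y j ^ 2) (m : ℕ) :
    y m ≤ (C * Real.exp (-((1 - θ) * w 0)) +
      C * (B ^ 2 * Real.exp (2 * (θ - t) * w 0) * (1 - Real.exp (-(η * θ / 2)))⁻¹)) *
        Real.exp (-(θ * w m)) := by
  have hθ0 : 0 < θ := ht.trans_le htθ
  have hq1 : Real.exp (-(η * θ / 2)) < 1 := by
    rw [Real.exp_lt_one_iff]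
    have : 0 < η * θ := mul_pos hη hθ0
    linarith
  have hA : C * Real.exp (-(w m)) ≤
      C * Real.exp (-((1 - θ) * w 0)) * Real.exp (-(θ * w m)) := by
    rw [mul_assoc, ← Real.exp_add]
    refine mul_le_mul_of_nonneg_left (Real.exp_le_exp.2 ?_) hC.le
    nlinarith [mul_le_mul_of_nonneg_left (h0 m) (sub_nonneg.2 hθ)]
  have hterm : ∀ j ∈ Finset.range m,
      min 1 (Real.exp (-(w m) - η * j + 2 * w j)) * y j ^ 2 ≤
        B ^ 2 * Real.exp (2 * (θ - t) * w 0) * Real.exp (-(θ * w m)) *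
          Real.exp (-(η * θ / 2)) ^ j := by
    intro j _
    have e1 : y j ^ 2 ≤ (B * Real.exp (-(t * w j))) ^ 2 :=
      pow_le_pow_left₀ (hy0 j) (hyB j) 2
    have e2 := min_exp_le hθ0.le hθ (-(w m) - η * j + 2 * w j)
    have e3 : (0 : ℝ) ≤ min 1 (Real.exp (-(w m) - η * j + 2 * w j)) :=
      le_min zero_le_one (Real.exp_pos _).le
    calc min 1 (Real.exp (-(w m) - η * j + 2 * w j)) * y j ^ 2
        ≤ Real.exp (θ * (-(w m) - η * j + 2 * w j)) * (B * Real.exp (-(t * w j))) ^ 2 :=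
          mul_le_mul e2 e1 (sq_nonneg _) (Real.exp_pos _).le
      _ = B ^ 2 * Real.exp (θ * (-(w m) - η * j + 2 * w j) + (2 : ℕ) * (-(t * w j))) := by
          rw [Real.exp_add, Real.exp_nat_mul]; ring
      _ ≤ B ^ 2 * Real.exp (2 * (θ - t) * w 0 + -(θ * w m) + (j : ℕ) * (-(η * θ / 2))) := by
          refine mul_le_mul_of_nonneg_left (Real.exp_le_exp.2 ?_) (sq_nonneg _)
          have e4 : (θ - t) * w j ≤ (θ - t) * (w 0 + l * j) :=
            mul_le_mul_of_nonneg_left (h1 j) (sub_nonneg.2 htθ)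
          have hj : (0 : ℝ) ≤ j := Nat.cast_nonneg j
          have e5 : 4 * l * (θ - t) * j ≤ η * t * j := mul_le_mul_of_nonneg_right hθt hj
          have e6 : η * t * j ≤ η * θ * j :=
            mul_le_mul_of_nonneg_right (mul_le_mul_of_nonneg_left htθ hη.le) hj
          push_cast
          nlinarith
      _ = _ := by
          rw [Real.exp_add, Real.exp_add, Real.exp_nat_mul]; ring
  have hsum : ∑ j ∈ Finset.range m, min 1 (Real.exp (-(w m) - η * j + 2 * w j)) * y j ^ 2 ≤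
      B ^ 2 * Real.exp (2 * (θ - t) * w 0) * Real.exp (-(θ * w m)) *
        (1 - Real.exp (-(η * θ / 2)))⁻¹ := by
    refine (Finset.sum_le_sum hterm).trans ?_
    rw [← Finset.mul_sum]
    refine mul_le_mul_of_nonneg_left (geom_le (Real.exp_pos _).le hq1 m) ?_
    positivity
  calc y m ≤ _ := hrec m
    _ ≤ C * Real.exp (-((1 - θ) * w 0)) * Real.exp (-(θ * w m)) +
        C * (B ^ 2 * Real.exp (2 * (θ - t) * w 0) * Real.exp (-(θ * w m)) *
        (1 - Real.exp (-(η * θ / 2)))⁻¹) :=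
      add_le_add hA (mul_le_mul_of_nonneg_left hsum hC.le)
    _ = _ := by ring

end sBootAux

open sBootAux in
theorem sBoot : S_Boot := by
  intro C D c η om hC hD0 hD1 hc0 hc1 hη hpos hanti hstep
  set w : ℕ → ℝ := fun m => -Real.log (om m) with hwdef
  have hom : ∀ m, om m = Real.exp (-(w m)) := by
    intro m
    rw [hwdef]
    simp only [neg_neg]
    exact (Real.exp_log (hpos m)).symm
  set l : ℝ := -Real.log c with hl
  have hl0 : 0 < l := by
    have := Real.log_neg hc0 hc1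
    linarith
  set d : ℝ := -Real.log D with hd
  have hd0 : 0 < d := by
    have := Real.log_neg hD0 hD1
    linarith
  have hmono : Monotone w := by
    refine monotone_nat_of_le_succ fun m => ?_
    have := Real.log_le_log (hpos (m + 1)) (hanti m)
    simp only [hwdef]
    linarith
  have h0 : ∀ m, w 0 ≤ w m := fun m => hmono (Nat.zero_le m)
  have h1' : ∀ m, w (m + 1) ≤ w m + l := by
    intro m
    have h2 := Real.log_le_log (mul_pos hc0 (hpos m)) (hstep m)
    rw [Real.log_mul hc0.ne' (hpos m).ne'] at h2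
    simp only [hwdef, hl]
    linarith
  have h1 : ∀ m : ℕ, w m ≤ w 0 + l * m := by
    intro m
    induction m with
    | zero => simp
    | succ m ih =>
      have := h1' m
      push_cast
      linarith
  set e : ℝ := η / (4 * l) with he
  have he0 : 0 < e := by positivity
  have hel : 4 * l * e = η := by
    rw [he]; field_simp
  -- the statement at the exponent `t`
  let Q : ℝ → Prop := fun t => ∃ B : ℝ, 0 ≤ B ∧ ∀ y : ℕ → ℝ, (∀ m, 0 ≤ y m) →
    (∀ m, y m ≤ C * D ^ m) →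
    (∀ m, y m ≤ C * om m +
      C * ∑ j ∈ Finset.range m, min 1 (om m * Real.exp (-(η * j)) / om j ^ 2) * y j ^ 2) →
    ∀ m, y m ≤ B * Real.exp (-(t * w m))
  have hQstep : ∀ t : ℝ, 0 < t → t ≤ 1 → Q t → Q (min 1 (t * (1 + e))) := by
    rintro t ht0 ht1 ⟨B, hB, hQ⟩
    have htθ : t ≤ min 1 (t * (1 + e)) := le_min ht1 (by nlinarith)
    have hθ1 : min 1 (t * (1 + e)) ≤ 1 := min_le_left _ _
    have hθ2 : min 1 (t * (1 + e)) ≤ t * (1 + e) := min_le_right _ _
    generalize min 1 (t * (1 + e)) = θ at htθ hθ1 hθ2 ⊢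
    have hθt : 4 * l * (θ - t) ≤ η * t := by
      have : θ - t ≤ t * e := by linarith
      calc 4 * l * (θ - t) ≤ 4 * l * (t * e) :=
            mul_le_mul_of_nonneg_left this (by positivity)
        _ = 4 * l * e * t := by ring
        _ = η * t := by rw [hel]
    have hθ0 : 0 < θ := ht0.trans_le htθ
    have hq1 : Real.exp (-(η * θ / 2)) < 1 := by
      rw [Real.exp_lt_one_iff]
      have : 0 < η * θ := mul_pos hη hθ0
      linarith
    refine ⟨_, ?_, fun y hy0 hyD hyr m => step (l := l) hC hη h0 h1 ht0 htθ hθ1 hθt hB hy0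
      (hQ y hy0 hyD hyr) ?_ m⟩
    · have : 0 ≤ (1 - Real.exp (-(η * θ / 2)))⁻¹ := inv_nonneg.2 (sub_nonneg.2 hq1.le)
      positivity
    · intro m
      refine (hyr m).trans_eq ?_
      rw [← hom m]
      congr 2
      refine Finset.sum_congr rfl fun j _ => ?_
      congr 2
      rw [hom m, hom j, ← Real.exp_add, ← Real.exp_nat_mul, ← Real.exp_sub]
      congr 1
      push_cast
      ring
  set t0 : ℝ := min 1 (d / l) with ht0def
  have ht0 : 0 < t0 := lt_min one_pos (div_pos hd0 hl0)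
  have ht0l : t0 * l ≤ d := by
    have : t0 ≤ d / l := min_le_right _ _
    rwa [le_div_iff₀ hl0] at this
  have hQ0 : Q t0 := by
    refine ⟨C * Real.exp (t0 * w 0), by positivity, fun y _ hyD _ m => ?_⟩
    refine (hyD m).trans ?_
    rw [mul_assoc]
    refine mul_le_mul_of_nonneg_left ?_ hC.le
    have hDe : D ^ m = Real.exp (m * (-d)) := by
      rw [Real.exp_nat_mul, hd, neg_neg, Real.exp_log hD0]
    rw [hDe, ← Real.exp_add]
    refine Real.exp_le_exp.2 ?_
    have e1 : t0 * w m ≤ t0 * (w 0 + l * m) := mul_le_mul_of_nonneg_left (h1 m) ht0.le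
    have e2 : t0 * l * m ≤ d * m := mul_le_mul_of_nonneg_right ht0l (Nat.cast_nonneg m)
    nlinarith
  have hQn : ∀ n : ℕ, Q (min 1 (t0 * (1 + e) ^ n)) := by
    intro n
    induction n with
    | zero =>
      have : min 1 (t0 * (1 + e) ^ 0) = t0 := by
        rw [pow_zero, mul_one]
        exact min_eq_right (min_le_left _ _)
      rw [this]; exact hQ0
    | succ n ih =>
      have hp : 0 < t0 * (1 + e) ^ n := by positivity
      have h2 := hQstep _ (lt_min one_pos hp) (min_le_left _ _) ih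
      have h3 : min 1 (min 1 (t0 * (1 + e) ^ n) * (1 + e)) = min 1 (t0 * (1 + e) ^ (n + 1)) := by
        rw [pow_succ, ← mul_assoc]
        rcases le_total (t0 * (1 + e) ^ n) 1 with h | h
        · rw [min_eq_right h]
        · rw [min_eq_left h, one_mul, min_eq_left (by linarith), min_eq_left (by nlinarith)]
      rwa [h3] at h2
  obtain ⟨n, hn⟩ : ∃ n : ℕ, 1 / t0 < (1 + e) ^ n := pow_unbounded_of_one_lt _ (by linarith)
  have hn1 : 1 ≤ t0 * (1 + e) ^ n := by
    rw [div_lt_iff₀ ht0] at hn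
    linarith [mul_comm t0 ((1 + e) ^ n)]
  obtain ⟨B, _, hB⟩ := hQn n
  rw [min_eq_left hn1] at hB
  refine ⟨B, fun y hy0 hyD hyr m => ?_⟩
  have := hB y hy0 hyD hyr m
  rwa [one_mul, ← hom m] at this

end Pool.Agent.Lib.Bed
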