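import Pool.Agent.Lib.Bed.SpecM

/-!
# The products of the linear parts and the derivatives along the orbit (`S_Cmp`)
-/

set_option autoImplicit false

open scoped Manifold ContDiff Topology
open Set Filter Metric

namespace Pool.Agent.Lib.Bed

namespace sCmpAux

section

variable {E : Type} [NormedAddCommGroup E] [NormedSpace ℂ E]
variable {X : Type} [MetricSpace X] [ChartedSpace E X]

theorem dg_zero (f : X → X) (p : X) (v : E) : dg (f^[0]) p v = v := by
  have h : mfderiv 𝓘(ℂ, E) 𝓘(ℂ, E) (f^[0]) p = ContinuousLinearMap.id ℂ (TangentSpace 𝓘(ℂ, E) p) := by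
    rw [Function.iterate_zero]
    exact mfderiv_id
  unfold dg
  rw [h]
  rfl

omit [MetricSpace X] [ChartedSpace E X] in
theorem iter_add (f : X → X) (p : X) (a b : ℕ) : f^[b] (f^[a] p) = f^[a + b] p := by
  rw [add_comm, Function.iterate_add_apply]

/-- The derivative of `f^[N n]` in the frames is `Λ n`. -/
theorem key (f : X ≃ X) (p : X) (K : Set X) (F : Submodule ℂ E) (ψ : X → E → X) (χ : X → X → E)
    (N k l : ℕ) (e : ℕ → V k l ≃L[ℂ] E) (A : ℕ → (Fin k → ℂ) →L[ℂ] (Fin k → ℂ))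
    (B : ℕ → (Fin l → ℂ) →L[ℂ] (Fin l → ℂ)) (C₁ c ρ ρ' : ℝ)
    (hU : ULoc K ψ χ ρ (f^[N]) ρ' 1) (hF : Frm f p F ψ χ N k l e A B C₁ c)
    (hK : ∀ n, f^[n] p ∈ K)
    (hD : ∀ (n m : ℕ) (v : E), dg (f^[n + m]) p v = dg (f^[m]) (f^[n] p) (dg (f^[n]) p v)) (n : ℕ)
    (z : Fin k → ℂ) :
    du (ψ (f^[N * n] p)) 0 (e n (prodL A (ContinuousLinearMap.id ℂ (Fin k → ℂ)) n z, 0)) =
      dg (f^[N * n]) p (du (ψ p) 0 (e 0 (z, 0))) := by
  induction n with
  | zero =>
    rw [Nat.mul_zero, dg_zero]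
    rfl
  | succ n ih =>
    have h1 := hF.der n (prodL A (ContinuousLinearMap.id ℂ (Fin k → ℂ)) n z, 0)
    have h2 : ((A n (prodL A (ContinuousLinearMap.id ℂ (Fin k → ℂ)) n z, (0 : Fin l → ℂ)).1,
        B n (prodL A (ContinuousLinearMap.id ℂ (Fin k → ℂ)) n z, (0 : Fin l → ℂ)).2) : V k l) =
        (prodL A (ContinuousLinearMap.id ℂ (Fin k → ℂ)) (n + 1) z, 0) := by
      rw [map_zero]
      rfl
    rw [h2] at h1
    have h3 := hU.deriv (f^[N * n] p) (hK _)
      (e n (prodL A (ContinuousLinearMap.id ℂ (Fin k → ℂ)) n z, 0))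
    have h4 : f^[N] (f^[N * n] p) = f^[N * (n + 1)] p := by
      rw [iter_add, Nat.mul_succ]
    rw [h1, h4, ih, ← hD] at h3
    exact h3

end

end sCmpAux

open sCmpAux in
theorem sCmp : S_Cmp := by
  intro hDm E _ _ _ X _ _ _ nrm f K Es Eu C lam p ψ χ ρ a b N k l e A B C₁ c hH hC hp hU hF
  obtain ⟨ρ', hU⟩ := hU
  have hD := hDm E X nrm f K Es Eu C lam hH
  have hK : ∀ n, f^[n] p ∈ K := fun n => (hD p hp n).1
  have hkey := key f p K (sE Es p) ψ χ N k l e A B C₁ c ρ ρ' hU hF hK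
    (fun n m v => (hD p hp n).2.2.2.2.2.2 m v)
  set Λ := prodL A (ContinuousLinearMap.id ℂ (Fin k → ℂ)) with hΛ
  -- the map `j`
  let ι : (Fin k → ℂ) →ₗ[ℂ] V k l := LinearMap.inl ℂ (Fin k → ℂ) (Fin l → ℂ)
  let J : (Fin k → ℂ) →ₗ[ℂ] E :=
    (du (ψ p) 0).toLinearMap ∘ₗ (e 0).toContinuousLinearMap.toLinearMap ∘ₗ ι
  have hJ : ∀ z, J z = du (ψ p) 0 (e 0 (z, 0)) := fun z => rfl
  have hC1 := hF.C_pos
  have ha := hC.a_pos
  have hb := hC.b_pos
  have hnz : ∀ z : Fin k → ℂ, ‖((z, 0) : V k l)‖ = ‖z‖ := fun z => by simp [Prod.norm_def]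
  have hlow : ∀ n z, a / C₁ * ‖Λ n z‖ ≤ nE nrm (f^[N * n] p) (dg (f^[N * n]) p (J z)) := by
    intro n z
    rw [hJ, ← hkey n z]
    refine le_trans ?_ (hC.low _ (hK _) _)
    have h1 := hF.low n (Λ n z, 0)
    rw [hnz] at h1
    rw [div_mul_eq_mul_div, div_le_iff₀ hC1, mul_assoc]
    refine mul_le_mul_of_nonneg_left ?_ ha.le
    rw [mul_comm]
    exact h1
  have hup : ∀ n z, nE nrm (f^[N * n] p) (dg (f^[N * n]) p (J z)) ≤ b * C₁ * ‖Λ n z‖ := by
    intro n z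
    rw [hJ, ← hkey n z]
    refine (hC.up _ (hK _) _).trans ?_
    have h1 := hF.up n (Λ n z, 0)
    rw [hnz] at h1
    rw [mul_assoc]
    exact mul_le_mul_of_nonneg_left h1 hb.le
  have hinj : Function.Injective J := by
    rw [← LinearMap.ker_eq_bot, LinearMap.ker_eq_bot']
    intro z hz
    rw [hJ] at hz
    have h1 := hC.low p hp (e 0 (z, 0))
    have h3 := hF.low 0 (z, 0)
    rw [hnz] at h3
    have h4 := hC.up p hp 0
    rw [hz] at h1
    rw [map_zero, norm_zero, mul_zero] at h4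
    have h5 : ‖e 0 (z, 0)‖ ≤ 0 := by
      have := h1.trans h4
      by_contra hcon
      push Not at hcon
      nlinarith [mul_pos ha hcon]
    have h6 : ‖z‖ ≤ 0 := h3.trans (mul_nonpos_of_nonneg_of_nonpos hC1.le h5)
    exact norm_le_zero_iff.mp h6
  have hmem : ∀ z, J z ∈ sE Es p := fun z => hF.mem z
  have hrange : LinearMap.range J = sE Es p := by
    have h1 : LinearMap.range J ≤ sE Es p := by
      rintro _ ⟨z, rfl⟩
      exact hmem z
    refine Submodule.eq_of_le_of_finrank_eq h1 ?_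
    rw [hF.dim, LinearMap.finrank_range_of_inj hinj]
    simp
  have hN := hF.N_pos
  refine ⟨⟨J, a / C₁, b * C₁, ⟨hN, by positivity, by positivity, hinj, hrange, rfl, ?_, ?_⟩⟩, ?_⟩
  · exact hlow
  · exact hup
  · have hl0 := hH.lam_pos
    have hl1 := hH.lam_lt
    have hCp := hH.C_pos
    have hc := hF.c_pos
    refine ⟨C₁ / a * C * b * C₁, min 1 c, ⟨by positivity, lt_min one_pos hc, by positivity,
      pow_lt_one₀ hl0.le hl1 hN.ne', ?_, ?_, ?_⟩⟩
    · intro x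
      calc min 1 c * ‖x‖ ≤ 1 * ‖x‖ := mul_le_mul_of_nonneg_right (min_le_left _ _) (norm_nonneg _)
        _ = ‖Λ 0 x‖ := by rw [one_mul]; rfl
    · intro m x
      calc min 1 c * ‖Λ m x‖ ≤ c * ‖Λ m x‖ :=
            mul_le_mul_of_nonneg_right (min_le_right _ _) (norm_nonneg _)
        _ ≤ ‖Λ (m + 1) x‖ := hF.A_ge m _
    · intro m j x
      have h1 := hlow (m + j) x
      have h2 := hup m x
      have h3 : dg (f^[N * m]) p (J x) ∈ sE Es (f^[N * m] p) :=
        (hD p hp (N * m)).2.1 _ (hmem x)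
      have h4 : nE nrm (f^[N * j] (f^[N * m] p)) (dg (f^[N * j]) (f^[N * m] p) (dg (f^[N * m]) p (J x))) ≤
          C * lam ^ (N * j) * nE nrm (f^[N * m] p) (dg (f^[N * m]) p (J x)) :=
        hH.contr (f^[N * m] p) (hK _) _ h3 (N * j)
      rw [← (hD p hp (N * m)).2.2.2.2.2.2 (N * j), iter_add, ← Nat.mul_add] at h4
      have h5 := h1.trans (h4.trans (mul_le_mul_of_nonneg_left h2 (by positivity)))
      rw [div_mul_eq_mul_div, div_le_iff₀ hC1, pow_mul] at h5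
      rw [← mul_le_mul_iff_of_pos_left ha]
      refine h5.trans (le_of_eq ?_)
      field_simp

end Pool.Agent.Lib.Bed
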