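import Pool.Agent.Lib.Bed.SpecC

/-!
# Condition (A) implies condition (K)
-/

set_option autoImplicit false

open scoped Manifold ContDiff Topology
open Set Filter Metric

namespace Pool.Agent.Lib.Bed

namespace sCorAAux

variable {k : ℕ} {Λ : ℕ → (Fin k → ℂ) →L[ℂ] (Fin k → ℂ)} {C c lam : ℝ}

theorem low_pow (h : LSeq k Λ C c lam) (m : ℕ) (x : Fin k → ℂ) :
    c ^ (m + 1) * ‖x‖ ≤ ‖Λ m x‖ := by
  induction m with
  | zero => simpa using h.low0 x
  | succ m ih =>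
    refine le_trans ?_ (h.low m x)
    rw [pow_succ', mul_assoc]
    exact mul_le_mul_of_nonneg_left ih h.c_pos.le

theorem N_pos {Λ : ℕ → (Fin (k + 1) → ℂ) →L[ℂ] (Fin (k + 1) → ℂ)} (h : LSeq (k + 1) Λ C c lam)
    (m : ℕ) : 0 < ‖Λ m‖ := by
  have h1 := low_pow h m (Pi.single 0 1)
  rw [Pi.norm_single, norm_one, mul_one] at h1
  have h2 := (Λ m).le_opNorm (Pi.single 0 1)
  rw [Pi.norm_single, norm_one, mul_one] at h2
  exact lt_of_lt_of_le (pow_pos h.c_pos _) (h1.trans h2)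

theorem N_up (h : LSeq k Λ C c lam) (m j : ℕ) : ‖Λ (m + j)‖ ≤ C * lam ^ j * ‖Λ m‖ := by
  have h1 : 0 ≤ C * lam ^ j := mul_nonneg h.C_pos.le (pow_nonneg h.lam_pos.le _)
  refine ContinuousLinearMap.opNorm_le_bound _ (mul_nonneg h1 (norm_nonneg _)) fun x => ?_
  refine (h.up m j x).trans ?_
  rw [mul_assoc (C * lam ^ j)]
  exact mul_le_mul_of_nonneg_left ((Λ m).le_opNorm x) h1

theorem N_up' (h : LSeq k Λ C c lam) (m j : ℕ) : ‖Λ (m + j)‖ ≤ C * ‖Λ m‖ := by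
  refine (N_up h m j).trans ?_
  have h1 : lam ^ j ≤ 1 := pow_le_one₀ h.lam_pos.le h.lam_lt.le
  have := h.C_pos
  calc C * lam ^ j * ‖Λ m‖ ≤ C * 1 * ‖Λ m‖ := by gcongr
    _ = _ := by ring

theorem N_low (h : LSeq k Λ C c lam) (m : ℕ) : c * ‖Λ m‖ ≤ ‖Λ (m + 1)‖ := by
  have hc := h.c_pos
  have h1 : ‖Λ m‖ ≤ c⁻¹ * ‖Λ (m + 1)‖ := by
    refine ContinuousLinearMap.opNorm_le_bound _ (by positivity) fun x => ?_
    have h2 := h.low m x
    have h3 := (Λ (m + 1)).le_opNorm x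
    rw [mul_assoc, ← div_eq_inv_mul, le_div_iff₀ hc, mul_comm]
    exact h2.trans h3
  calc c * ‖Λ m‖ ≤ c * (c⁻¹ * ‖Λ (m + 1)‖) := by gcongr
    _ = _ := by field_simp

/-- The decreasing majorant of the norms. -/
noncomputable def om (Λ : ℕ → (Fin k → ℂ) →L[ℂ] (Fin k → ℂ)) (m : ℕ) : ℝ := ⨆ j, ‖Λ (m + j)‖

theorem om_bdd (h : LSeq k Λ C c lam) (m : ℕ) : BddAbove (range fun j => ‖Λ (m + j)‖) := by
  refine ⟨C * ‖Λ m‖, ?_⟩
  rintro _ ⟨j, rfl⟩
  exact N_up' h m j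

theorem le_om (h : LSeq k Λ C c lam) (m : ℕ) : ‖Λ m‖ ≤ om Λ m :=
  le_ciSup (om_bdd h m) 0

theorem om_le (h : LSeq k Λ C c lam) (m : ℕ) : om Λ m ≤ C * ‖Λ m‖ :=
  ciSup_le fun j => N_up' h m j

theorem om_anti (h : LSeq k Λ C c lam) (m : ℕ) : om Λ (m + 1) ≤ om Λ m := by
  refine ciSup_le fun j => ?_
  have h1 := le_ciSup (om_bdd h m) (j + 1)
  have h2 : m + 1 + j = m + (j + 1) := by omega
  rw [h2]
  exact h1

theorem om_step (h : LSeq k Λ C c lam) (m : ℕ) : c / C * om Λ m ≤ om Λ (m + 1) := by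
  have hC := h.C_pos
  have hc := h.c_pos
  calc c / C * om Λ m ≤ c / C * (C * ‖Λ m‖) := by
        have := om_le h m
        gcongr
    _ = c * ‖Λ m‖ := by field_simp
    _ ≤ ‖Λ (m + 1)‖ := N_low h m
    _ ≤ _ := le_om h (m + 1)

theorem om_lim (h : LSeq k Λ C c lam) : Tendsto (om Λ) atTop (𝓝 0) := by
  have h1 : ∀ m, om Λ m ≤ (C * C * ‖Λ 0‖) * lam ^ m := by
    intro m
    have h2 := N_up h 0 m
    rw [zero_add] at h2
    have hC := h.C_pos
    calc om Λ m ≤ C * ‖Λ m‖ := om_le h m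
      _ ≤ C * (C * lam ^ m * ‖Λ 0‖) := by gcongr
      _ = _ := by ring
  have h3 : Tendsto (fun m => (C * C * ‖Λ 0‖) * lam ^ m) atTop (𝓝 0) := by
    have h4 := (tendsto_pow_atTop_nhds_zero_of_lt_one h.lam_pos.le h.lam_lt).const_mul
      (C * C * ‖Λ 0‖)
    rwa [mul_zero] at h4
  exact squeeze_zero (fun m => (norm_nonneg _).trans (le_om h m)) h1 h3

end sCorAAux

open sCorAAux

theorem sCorA : S_CorA := by
  intro k Λ C c lam h hA
  obtain ⟨C₂, η, hC₂, hη, hA⟩ := hA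
  rcases k with _ | k
  · exact ⟨ContinuousLinearEquiv.refl ℂ _, fun t => t.elim0, 1, 1, 1, one_pos, one_pos, one_pos,
      ⟨fun t => t.elim0, fun t => t.elim0, fun t => t.elim0, fun t => t.elim0, fun t => t.elim0⟩,
      fun t => t.elim0, fun _ _ t => t.elim0⟩
  · have hC := h.C_pos
    have hc := h.c_pos
    have hN := N_pos h
    refine ⟨ContinuousLinearEquiv.refl ℂ _, fun _ m => om Λ m, 1 + C ^ 2 * C₂, c / C, η,
      by positivity, by positivity, hη, ⟨?_, ?_, ?_, ?_, ?_⟩, ?_, ?_⟩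
    · exact fun _ m => lt_of_lt_of_le (hN m) (le_om h m)
    · exact fun _ m => om_anti h m
    · exact fun _ m => om_step h m
    · intro _ _ _ m
      exact le_of_eq (mul_comm _ _)
    · exact fun _ => om_lim h
    · intro t m
      have h1 := (Λ m).le_opNorm (Pi.single t 1)
      rw [Pi.norm_single, norm_one, mul_one] at h1
      change ‖Λ m (Pi.single t 1)‖ ≤ _
      refine (h1.trans (le_om h m)).trans ?_
      have h2 : 0 ≤ om Λ m := (norm_nonneg _).trans (le_om h m)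
      refine le_mul_of_one_le_left h2 ?_
      have : 0 ≤ C ^ 2 * C₂ := by positivity
      linarith
    · intro m z s t
      change om Λ m * om Λ m * ‖z t‖ ≤ (1 + C ^ 2 * C₂) * Real.exp (-(η * m)) * ‖Λ m z‖
      have key : ‖Λ m‖ ^ 2 * ‖z‖ ≤ C₂ * Real.exp (-(η * m)) * ‖Λ m z‖ := by
        rcases eq_or_ne z 0 with rfl | hz
        · simp
        · have hz0 : 0 < ‖z‖ := norm_pos_iff.2 hz
          set B : ℝ := C₂ * Real.exp (-(η * m)) * ‖Λ m z‖ with hB
          have hB0 : 0 ≤ B := by positivity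
          have h1 : ‖Λ m‖ ≤ Real.sqrt (B / ‖z‖) := by
            refine ContinuousLinearMap.opNorm_le_bound _ (Real.sqrt_nonneg _) fun v => ?_
            have h2 : ‖Λ m v‖ ^ 2 ≤ (Real.sqrt (B / ‖z‖) * ‖v‖) ^ 2 := by
              rw [mul_pow, Real.sq_sqrt (by positivity), div_mul_eq_mul_div, le_div_iff₀ hz0]
              have h3 := hA m v z
              calc _ ≤ _ := h3
                _ = _ := by rw [hB]; ring
            exact (pow_le_pow_iff_left₀ (norm_nonneg _) (by positivity) two_ne_zero).1 h2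
          have h4 : ‖Λ m‖ ^ 2 ≤ B / ‖z‖ := by
            have h5 := pow_le_pow_left₀ (norm_nonneg _) h1 2
            rwa [Real.sq_sqrt (by positivity)] at h5
          rwa [le_div_iff₀ hz0] at h4
      have h1 : om Λ m * om Λ m ≤ (C * ‖Λ m‖) * (C * ‖Λ m‖) := by
        have h2 : 0 ≤ om Λ m := (norm_nonneg _).trans (le_om h m)
        have := om_le h m
        gcongr
      calc om Λ m * om Λ m * ‖z t‖ ≤ (C * ‖Λ m‖) * (C * ‖Λ m‖) * ‖z‖ := by
            have := norm_le_pi_norm z t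
            gcongr
        _ = C ^ 2 * (‖Λ m‖ ^ 2 * ‖z‖) := by ring
        _ ≤ C ^ 2 * (C₂ * Real.exp (-(η * m)) * ‖Λ m z‖) := by gcongr
        _ = (C ^ 2 * C₂) * Real.exp (-(η * m)) * ‖Λ m z‖ := by ring
        _ ≤ (1 + C ^ 2 * C₂) * Real.exp (-(η * m)) * ‖Λ m z‖ := by
          gcongr
          linarith

end Pool.Agent.Lib.Bed
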