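import Pool.Agent.Lib.Bed.SpecC

set_option autoImplicit false

open scoped Manifold ContDiff Topology
open Set Filter Metric

namespace Pool.Agent.Lib.Bed

namespace sCorBAux

/-- finitely many indices are absorbed in the constant -/
theorem absorb {ι : Type*} (g : ℕ → ℝ) (hg : ∀ m, 0 < g m) (u w : ℕ → ι → ℝ)
    (hw : ∀ m i, 0 ≤ w m i) (K : ℝ) (h1 : ∀ᶠ m in atTop, ∀ i, u m i ≤ K * g m * w m i)
    (h2 : ∀ m, ∃ D : ℝ, ∀ i, u m i ≤ D * w m i) :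
    ∃ K' : ℝ, 0 < K' ∧ ∀ m i, u m i ≤ K' * g m * w m i := by
  obtain ⟨m₀, hm₀⟩ := eventually_atTop.1 h1
  choose D hD using h2
  have hsum : ∀ m, 0 ≤ |D m| / g m := fun m => div_nonneg (abs_nonneg _) (hg m).le
  have hS : 0 ≤ ∑ m ∈ Finset.range m₀, |D m| / g m := Finset.sum_nonneg fun m _ => hsum m
  refine ⟨|K| + 1 + ∑ m ∈ Finset.range m₀, |D m| / g m, by positivity, fun m i => ?_⟩
  by_cases hm : m₀ ≤ m
  · refine (hm₀ m hm i).trans ?_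
    have hgm := hg m
    have hwm := hw m i
    gcongr
    have := le_abs_self K
    linarith
  · have h3 : |D m| / g m ≤ ∑ m ∈ Finset.range m₀, |D m| / g m :=
      Finset.single_le_sum (f := fun m => |D m| / g m) (fun m _ => hsum m)
        (Finset.mem_range.2 (by omega))
    refine (hD m i).trans ?_
    refine mul_le_mul_of_nonneg_right ?_ (hw m i)
    calc D m ≤ |D m| := le_abs_self _
      _ = |D m| / g m * g m := by
          rw [div_mul_cancel₀ _ (hg m).ne']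
      _ ≤ (|K| + 1 + ∑ m ∈ Finset.range m₀, |D m| / g m) * g m := by
          refine mul_le_mul_of_nonneg_right ?_ (hg m).le
          have := abs_nonneg K
          linarith

/-- powers of an exponentially small sequence -/
theorem decay {N K lam θ θ' : ℝ} (m : ℕ) (hN : 0 < N) (hK : 0 < K) (hl : 0 < lam) (hl1 : lam < 1)
    (h : N ≤ K * lam ^ m) (hθ : 0 < θ) (hθ' : θ ≤ θ') :
    N ^ θ' ≤ K ^ θ' * Real.exp (-(θ * (-Real.log lam) * m)) := by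
  have hlm : 0 < lam ^ m := by positivity
  have h1 : N ^ θ' ≤ (K * lam ^ m) ^ θ' := Real.rpow_le_rpow hN.le h (by linarith)
  rw [Real.mul_rpow hK.le hlm.le] at h1
  refine h1.trans (mul_le_mul_of_nonneg_left ?_ (by positivity))
  rw [Real.rpow_def_of_pos hlm, Real.log_pow]
  refine Real.exp_le_exp.2 ?_
  have hlog : Real.log lam < 0 := Real.log_neg hl hl1
  have hm : (0 : ℝ) ≤ m := Nat.cast_nonneg m
  have h2 : (m : ℝ) * Real.log lam ≤ 0 := mul_nonpos_of_nonneg_of_nonpos hm hlog.le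
  nlinarith

/-- the regularised norms -/
theorem sup_wt (N : ℕ → ℝ) (hN : ∀ m, 0 < N m) (C c lam : ℝ) (hC : 0 < C) (hc : 0 < c)
    (hl : 0 < lam) (hl1 : lam < 1) (up : ∀ m j, N (m + j) ≤ C * lam ^ j * N m)
    (low : ∀ m, c * N m ≤ N (m + 1)) :
    ∃ om : ℕ → ℝ, (∀ m, N m ≤ om m) ∧ (∀ m, om m ≤ C * N m) ∧ (∀ m, om (m + 1) ≤ om m) ∧
      (∀ m, c / C * om m ≤ om (m + 1)) ∧ Tendsto om atTop (𝓝 0) := by
  have hb : ∀ m j, N (m + j) ≤ C * N m := by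
    intro m j
    have h1 := hN m
    calc N (m + j) ≤ C * lam ^ j * N m := up m j
      _ ≤ C * 1 * N m := by
          gcongr
          exact pow_le_one₀ hl.le hl1.le
      _ = C * N m := by ring
  have hbdd : ∀ m, BddAbove (range fun j => N (m + j)) := fun m =>
    ⟨C * N m, by rintro _ ⟨j, rfl⟩; exact hb m j⟩
  have hle : ∀ m j, N (m + j) ≤ ⨆ j, N (m + j) := fun m j => le_ciSup (hbdd m) j
  have h0 : ∀ m, N m ≤ ⨆ j, N (m + j) := fun m => hle m 0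
  have h1 : ∀ m, (⨆ j, N (m + j)) ≤ C * N m := fun m => ciSup_le fun j => hb m j
  refine ⟨fun m => ⨆ j, N (m + j), h0, h1, fun m => ?_, fun m => ?_, ?_⟩
  · refine ciSup_le fun j => ?_
    have := hle m (1 + j)
    rw [← Nat.add_assoc] at this
    exact this
  · calc c / C * (⨆ j, N (m + j)) ≤ c / C * (C * N m) :=
          mul_le_mul_of_nonneg_left (h1 m) (by positivity)
      _ = c * N m := by field_simp
      _ ≤ N (m + 1) := low m
      _ ≤ _ := h0 (m + 1)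
  · have h2 : ∀ m, (⨆ j, N (m + j)) ≤ C * C * N 0 * lam ^ m := by
      intro m
      have h3 := up 0 m
      rw [Nat.zero_add] at h3
      calc (⨆ j, N (m + j)) ≤ C * N m := h1 m
        _ ≤ C * (C * lam ^ m * N 0) := mul_le_mul_of_nonneg_left h3 hC.le
        _ = C * C * N 0 * lam ^ m := by ring
    refine squeeze_zero (fun m => (hN m).le.trans (h0 m)) h2 ?_
    have := (tendsto_pow_atTop_nhds_zero_of_lt_one hl.le hl1).const_mul (C * C * N 0)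
    simpa using this

section seq

variable {Λ : ℕ → (Fin 2 → ℂ) →L[ℂ] (Fin 2 → ℂ)} {C c lam : ℝ}

theorem lowm (h : LSeq 2 Λ C c lam) (m : ℕ) (x : Fin 2 → ℂ) : c ^ (m + 1) * ‖x‖ ≤ ‖Λ m x‖ := by
  induction m with
  | zero => simpa using h.low0 x
  | succ m ih =>
    calc c ^ (m + 1 + 1) * ‖x‖ = c * (c ^ (m + 1) * ‖x‖) := by ring
      _ ≤ c * ‖Λ m x‖ := mul_le_mul_of_nonneg_left ih h.c_pos.le
      _ ≤ _ := h.low m x

theorem npos (h : LSeq 2 Λ C c lam) (m : ℕ) : 0 < ‖Λ m‖ := by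
  have hc := h.c_pos
  have h1 := lowm h m (fun _ => 1)
  have h2 := (Λ m).le_opNorm (fun _ => 1)
  have h3 : ‖(fun _ => 1 : Fin 2 → ℂ)‖ = 1 := by
    rw [pi_norm_const, norm_one]
  rw [h3] at h1 h2
  have h4 : 0 < c ^ (m + 1) := by positivity
  linarith

theorem nup (h : LSeq 2 Λ C c lam) (m j : ℕ) : ‖Λ (m + j)‖ ≤ C * lam ^ j * ‖Λ m‖ := by
  have hC := h.C_pos
  have hl := h.lam_pos
  refine ContinuousLinearMap.opNorm_le_bound _ (by positivity) fun x => ?_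
  calc ‖Λ (m + j) x‖ ≤ C * lam ^ j * ‖Λ m x‖ := h.up m j x
    _ ≤ C * lam ^ j * (‖Λ m‖ * ‖x‖) := by
        gcongr
        exact (Λ m).le_opNorm x
    _ = C * lam ^ j * ‖Λ m‖ * ‖x‖ := by ring

theorem nlow (h : LSeq 2 Λ C c lam) (m : ℕ) : c * ‖Λ m‖ ≤ ‖Λ (m + 1)‖ := by
  have hc := h.c_pos
  have h1 : ‖Λ m‖ ≤ ‖Λ (m + 1)‖ / c := by
    refine ContinuousLinearMap.opNorm_le_bound _ (by positivity) fun x => ?_
    have h2 := h.low m x
    have h3 := (Λ (m + 1)).le_opNorm x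
    rw [div_mul_eq_mul_div, le_div_iff₀ hc]
    linarith
  rw [le_div_iff₀ hc] at h1
  linarith

theorem nexp (h : LSeq 2 Λ C c lam) (m : ℕ) : ‖Λ m‖ ≤ C * ‖Λ 0‖ * lam ^ m := by
  have h1 := nup h 0 m
  rw [Nat.zero_add] at h1
  linarith

theorem caseA (h : LSeq 2 Λ C c lam) (C₁ a b : ℝ) (hC₁ : 0 < C₁) (hb : b < 2)
    (hev : ∀ᶠ m : ℕ in atTop, ∃ S s : ℝ, 0 < S ∧ 0 < s ∧
    (∀ x, ‖Λ m x‖ ≤ C₁ * S * ‖x‖) ∧ (∃ x, x ≠ 0 ∧ S * ‖x‖ ≤ C₁ * ‖Λ m x‖) ∧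
    (∀ x, s * ‖x‖ ≤ C₁ * ‖Λ m x‖) ∧ (∃ x, x ≠ 0 ∧ ‖Λ m x‖ ≤ C₁ * s * ‖x‖) ∧ S ^ b ≤ s ∧ s ≤ S ^ a) :
    ACond 2 Λ := by
  have hC := h.C_pos
  have hc := h.c_pos
  have hl := h.lam_pos
  have hl1 := h.lam_lt
  have hlog : Real.log lam < 0 := Real.log_neg hl hl1
  have hN0 := npos h 0
  have key1 : ∀ᶠ m : ℕ in atTop, ∀ z : (Fin 2 → ℂ) × (Fin 2 → ℂ), ‖Λ m z.1‖ ^ 2 * ‖z.2‖ ≤
      C₁ ^ 3 * (C₁ * (C * ‖Λ 0‖)) ^ (2 - b) * Real.exp (-((2 - b) * (-Real.log lam) * m)) *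
        (‖z.1‖ ^ 2 * ‖Λ m z.2‖) := by
    filter_upwards [hev] with m hm
    rintro ⟨v, w⟩
    obtain ⟨S, s, hS, hs, e1, ⟨x, hx, e2⟩, e3, _, e5, _⟩ := hm
    have hxn : 0 < ‖x‖ := norm_pos_iff.2 hx
    -- S is small
    have hSN : S ≤ C₁ * ‖Λ m‖ := by
      have h1 : S * ‖x‖ ≤ C₁ * ‖Λ m‖ * ‖x‖ := by
        calc S * ‖x‖ ≤ C₁ * ‖Λ m x‖ := e2
          _ ≤ C₁ * (‖Λ m‖ * ‖x‖) := by
              gcongr
              exact (Λ m).le_opNorm x
          _ = _ := by ring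
      exact le_of_mul_le_mul_right h1 hxn
    have hSd : S ≤ C₁ * (C * ‖Λ 0‖) * lam ^ m := by
      calc S ≤ C₁ * ‖Λ m‖ := hSN
        _ ≤ C₁ * (C * ‖Λ 0‖ * lam ^ m) := by
            gcongr
            exact nexp h m
        _ = _ := by ring
    have hdec := decay (θ := 2 - b) (θ' := 2 - b) m hS (by positivity) hl hl1 hSd (by linarith)
      le_rfl
    have h1 := e1 v
    have h2 := e3 w
    have hSb : 0 < S ^ b := Real.rpow_pos_of_pos hS b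
    have h3 : S ^ 2 = S ^ (2 - b) * S ^ b := by
      rw [← Real.rpow_add hS, sub_add_cancel, ← Real.rpow_natCast]
      norm_num
    have h4 : S ^ b * ‖w‖ ≤ C₁ * ‖Λ m w‖ := by
      refine le_trans ?_ h2
      exact mul_le_mul_of_nonneg_right e5 (norm_nonneg _)
    show ‖Λ m v‖ ^ 2 * ‖w‖ ≤ _ * (‖v‖ ^ 2 * ‖Λ m w‖)
    calc ‖Λ m v‖ ^ 2 * ‖w‖ ≤ (C₁ * S * ‖v‖) ^ 2 * ‖w‖ := by gcongr
      _ = C₁ ^ 2 * ‖v‖ ^ 2 * (S ^ 2 * ‖w‖) := by ring
      _ = C₁ ^ 2 * ‖v‖ ^ 2 * (S ^ (2 - b) * (S ^ b * ‖w‖)) := by rw [h3]; ring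
      _ ≤ C₁ ^ 2 * ‖v‖ ^ 2 * (((C₁ * (C * ‖Λ 0‖)) ^ (2 - b) *
            Real.exp (-((2 - b) * (-Real.log lam) * m))) * (C₁ * ‖Λ m w‖)) := by
          gcongr
      _ = _ := by ring
  have key2 : ∀ m : ℕ, ∃ D : ℝ, ∀ z : (Fin 2 → ℂ) × (Fin 2 → ℂ), ‖Λ m z.1‖ ^ 2 * ‖z.2‖ ≤
      D * (‖z.1‖ ^ 2 * ‖Λ m z.2‖) := by
    intro m
    refine ⟨‖Λ m‖ ^ 2 / c ^ (m + 1), ?_⟩
    rintro ⟨v, w⟩
    have h1 := (Λ m).le_opNorm v
    have h2 := lowm h m w
    have h3 : 0 < c ^ (m + 1) := by positivity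
    show ‖Λ m v‖ ^ 2 * ‖w‖ ≤ ‖Λ m‖ ^ 2 / c ^ (m + 1) * (‖v‖ ^ 2 * ‖Λ m w‖)
    calc ‖Λ m v‖ ^ 2 * ‖w‖ ≤ (‖Λ m‖ * ‖v‖) ^ 2 * (‖Λ m w‖ / c ^ (m + 1)) := by
          gcongr
          rw [le_div_iff₀ h3]
          linarith
      _ = _ := by ring
  obtain ⟨K', hK', hfin⟩ := absorb (ι := (Fin 2 → ℂ) × (Fin 2 → ℂ))
    (fun m : ℕ => Real.exp (-((2 - b) * (-Real.log lam) * m))) (fun m => Real.exp_pos _)
    (fun m z => ‖Λ m z.1‖ ^ 2 * ‖z.2‖) (fun m z => ‖z.1‖ ^ 2 * ‖Λ m z.2‖)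
    (fun m z => by positivity) (C₁ ^ 3 * (C₁ * (C * ‖Λ 0‖)) ^ (2 - b)) key1 key2
  refine ⟨K', (2 - b) * (-Real.log lam), hK', mul_pos (by linarith) (by linarith),
    fun m v w => ?_⟩
  have := hfin m (v, w)
  calc ‖Λ m v‖ ^ 2 * ‖w‖ ≤ K' * Real.exp (-((2 - b) * (-Real.log lam) * m)) *
        (‖v‖ ^ 2 * ‖Λ m w‖) := this
    _ = _ := by ring

/-- the basis -/
theorem frame (v₀ : Fin 2 → ℂ) (hv : ‖v₀‖ = 1) : ∃ (e : (Fin 2 → ℂ) ≃L[ℂ] (Fin 2 → ℂ)),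
    ‖e (Pi.single 0 1)‖ ≤ 1 ∧ e (Pi.single 1 1) = v₀ ∧
    ∀ z, ‖z 0‖ = ‖(e z) 0 * v₀ 1 - (e z) 1 * v₀ 0‖ := by
  -- the complementary index
  obtain ⟨w, hw, hW⟩ : ∃ w : Fin 2 → ℂ, ‖w‖ ≤ 1 ∧ ‖w 0 * v₀ 1 - w 1 * v₀ 0‖ = 1 := by
    have hle : ∀ i, ‖v₀ i‖ ≤ 1 := fun i => hv ▸ norm_le_pi_norm v₀ i
    by_cases h1 : ‖v₀ 1‖ = 1
    · refine ⟨Pi.single 0 1, ?_, ?_⟩
      · rw [pi_norm_le_iff_of_nonneg zero_le_one]
        intro i
        fin_cases i <;> simp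
      · simpa using h1
    · have h0 : ‖v₀ 0‖ = 1 := by
        by_contra h0
        have hlt : ‖v₀‖ < 1 := by
          rw [pi_norm_lt_iff zero_lt_one]
          intro i
          fin_cases i
          · exact lt_of_le_of_ne (hle 0) h0
          · exact lt_of_le_of_ne (hle 1) h1
        linarith
      refine ⟨Pi.single 1 1, ?_, ?_⟩
      · rw [pi_norm_le_iff_of_nonneg zero_le_one]
        intro i
        fin_cases i <;> simp
      · simpa using h0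
  let f : (Fin 2 → ℂ) →ₗ[ℂ] (Fin 2 → ℂ) :=
    (LinearMap.proj 0).smulRight w + (LinearMap.proj 1).smulRight v₀
  have hf : ∀ z, f z = z 0 • w + z 1 • v₀ := fun z => rfl
  have hWf : ∀ z, ‖z 0‖ = ‖(f z) 0 * v₀ 1 - (f z) 1 * v₀ 0‖ := by
    intro z
    have h1 : (f z) 0 * v₀ 1 - (f z) 1 * v₀ 0 = z 0 * (w 0 * v₀ 1 - w 1 * v₀ 0) := by
      rw [hf]
      simp only [Pi.add_apply, Pi.smul_apply, smul_eq_mul]
      ring
    rw [h1, norm_mul, hW, mul_one]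
  have hinj : Function.Injective f := by
    rw [← LinearMap.ker_eq_bot, LinearMap.ker_eq_bot']
    intro z hz
    have h1 := hWf z
    rw [hz] at h1
    have h0 : z 0 = 0 := by
      rw [← norm_eq_zero, h1]
      simp
    rw [hf, h0, zero_smul, zero_add] at hz
    have hv0 : v₀ ≠ 0 := by
      intro h
      rw [h, norm_zero] at hv
      exact zero_ne_one hv
    have h2 : z 1 = 0 := (smul_eq_zero.1 hz).resolve_right hv0
    ext i
    fin_cases i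
    · exact h0
    · exact h2
  refine ⟨(LinearEquiv.ofInjectiveEndo f hinj).toContinuousLinearEquiv, ?_, ?_, hWf⟩
  · have h1 : f (Pi.single 0 1) = w := by
      rw [hf]
      simp
    calc ‖f (Pi.single 0 1)‖ = ‖w‖ := by rw [h1]
      _ ≤ 1 := hw
  · have h1 : f (Pi.single 1 1) = v₀ := by
      rw [hf]
      simp
    exact h1

theorem caseB (h : LSeq 2 Λ C c lam) (a b : ℝ) (ha : 1 < a) (hab : b < a + 1)
    (v₀ : Fin 2 → ℂ) (C₂ : ℝ) (hv : ‖v₀‖ = 1) (hC₂ : 0 < C₂)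
    (hev : ∀ᶠ m : ℕ in atTop, ‖Λ m v₀‖ ≤ C₂ * ‖Λ m‖ ^ a ∧
    ∀ x : Fin 2 → ℂ, ‖x 0 * v₀ 1 - x 1 * v₀ 0‖ ≤ C₂ * (1 / ‖Λ m‖ + ‖Λ m‖ ^ (a - 1 - b)) * ‖Λ m x‖ ∧
      ‖x‖ ≤ C₂ * ‖Λ m‖ ^ (-b) * ‖Λ m x‖) : KCond 2 Λ := by
  have hC := h.C_pos
  have hc := h.c_pos
  have hl := h.lam_pos
  have hl1 := h.lam_lt
  have hlog : Real.log lam < 0 := Real.log_neg hl hl1
  have hN0 := npos h 0
  obtain ⟨e, he0, he1, heW⟩ := frame v₀ hv
  obtain ⟨om, o1, o2, o3, o4, o5⟩ := sup_wt (fun m => ‖Λ m‖) (npos h) C c lam hC hc hl hl1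
    (nup h) (nlow h)
  have hompos : ∀ m, 0 < om m := fun m => lt_of_lt_of_le (npos h m) (o1 m)
  have homa : Antitone om := antitone_nat_of_succ_le o3
  -- the norm of the inverse
  obtain ⟨Ke, hKe, hKeb⟩ : ∃ Ke : ℝ, 0 < Ke ∧ ∀ z, ‖z‖ ≤ Ke * ‖e z‖ := by
    refine ⟨‖(e.symm : (Fin 2 → ℂ) →L[ℂ] (Fin 2 → ℂ))‖ + 1, by positivity, fun z => ?_⟩
    have h1 := (e.symm : (Fin 2 → ℂ) →L[ℂ] (Fin 2 → ℂ)).le_opNorm (e z)
    have h2 : (e.symm : (Fin 2 → ℂ) →L[ℂ] (Fin 2 → ℂ)) (e z) = z := e.symm_apply_apply z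
    rw [h2] at h1
    have := norm_nonneg (e z)
    linarith
  let Om : Fin 2 → ℕ → ℝ := ![om, fun m => om m ^ a]
  have hOm0 : ∀ m, Om 0 m = om m := fun m => rfl
  have hOm1 : ∀ m, Om 1 m = om m ^ a := fun m => rfl
  have hOmpos : ∀ t m, 0 < Om t m := by
    intro t m
    fin_cases t
    · exact hompos m
    · exact Real.rpow_pos_of_pos (hompos m) a
  -- om₁ is bounded by om₀
  obtain ⟨K₃, hK₃, hK₃b⟩ : ∃ K₃ : ℝ, 0 < K₃ ∧ ∀ t m, Om t m ≤ K₃ * om m := by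
    refine ⟨1 + om 0 ^ (a - 1), by have := Real.rpow_pos_of_pos (hompos 0) (a - 1); linarith,
      fun t m => ?_⟩
    have hp := Real.rpow_pos_of_pos (hompos 0) (a - 1)
    have hm := hompos m
    fin_cases t
    · show om m ≤ _
      nlinarith
    · show om m ^ a ≤ _
      have h1 : om m ^ a = om m ^ (a - 1) * om m := by
        rw [← Real.rpow_add_one hm.ne', sub_add_cancel]
      have h2 : om m ^ (a - 1) ≤ om 0 ^ (a - 1) :=
        Real.rpow_le_rpow hm.le (homa (Nat.zero_le m)) (by linarith)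
      rw [h1]
      refine mul_le_mul_of_nonneg_right ?_ hm.le
      linarith
  have hcC : 0 < c / C := by positivity
  -- (K1)
  obtain ⟨K₁, hK₁, hK₁b⟩ := absorb (ι := Unit) (fun _ => 1) (fun _ => one_pos)
    (fun m _ => ‖Λ m v₀‖) (fun m _ => om m ^ a)
    (fun m _ => (Real.rpow_pos_of_pos (hompos m) a).le) C₂ (by
      filter_upwards [hev] with m hm i
      calc ‖Λ m v₀‖ ≤ C₂ * ‖Λ m‖ ^ a := hm.1
        _ ≤ C₂ * om m ^ a := by
            refine mul_le_mul_of_nonneg_left ?_ hC₂.le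
            exact Real.rpow_le_rpow (norm_nonneg _) (o1 m) (by linarith)
        _ = C₂ * 1 * om m ^ a := by ring) (fun m =>
      ⟨‖Λ m v₀‖ / om m ^ a, fun i => by
        show ‖Λ m v₀‖ ≤ ‖Λ m v₀‖ / om m ^ a * om m ^ a
        rw [div_mul_cancel₀ _ (Real.rpow_pos_of_pos (hompos m) a).ne']⟩)
  -- (K2)
  obtain ⟨θ, hθ, hθ1, hθ2⟩ : ∃ θ : ℝ, 0 < θ ∧ θ ≤ 1 ∧ θ ≤ a + 1 - b :=
    ⟨min 1 (a + 1 - b), lt_min one_pos (by linarith), min_le_left _ _, min_le_right _ _⟩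
  have hKN : 0 < C * ‖Λ 0‖ := by positivity
  have hd1 : ∀ m : ℕ, ‖Λ m‖ ≤ (C * ‖Λ 0‖) ^ (1 : ℝ) * Real.exp (-(θ * (-Real.log lam) * m)) := by
    intro m
    have := decay (θ := θ) (θ' := 1) m (npos h m) hKN hl hl1 (nexp h m) hθ hθ1
    rw [Real.rpow_one] at this
    exact this
  have hd2 : ∀ m : ℕ, ‖Λ m‖ ^ (a + 1 - b) ≤ (C * ‖Λ 0‖) ^ (a + 1 - b) *
      Real.exp (-(θ * (-Real.log lam) * m)) := fun m =>
    decay (θ := θ) (θ' := a + 1 - b) m (npos h m) hKN hl hl1 (nexp h m) hθ hθ2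
  obtain ⟨A₁, hA₁⟩ : ∃ A₁ : ℝ, A₁ = (C * ‖Λ 0‖) ^ (1 : ℝ) + (C * ‖Λ 0‖) ^ (a + 1 - b) := ⟨_, rfl⟩
  have hA₁pos : 0 < A₁ := by
    rw [hA₁]
    exact add_pos (Real.rpow_pos_of_pos hKN (1 : ℝ)) (Real.rpow_pos_of_pos hKN (a + 1 - b))
  have hdd : ∀ m : ℕ, ‖Λ m‖ + ‖Λ m‖ ^ (a + 1 - b) ≤ A₁ * Real.exp (-(θ * (-Real.log lam) * m)) := by
    intro m
    have h1 := hd1 m
    have h2 := hd2 m
    rw [hA₁, add_mul]
    linarith
  obtain ⟨K₄, hK₄⟩ : ∃ K₄ : ℝ, K₄ = K₃ * K₃ * C ^ 2 * C₂ + K₃ * C * C ^ a * Ke * C₂ := ⟨_, rfl⟩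
  have hCa : 0 < C ^ a := Real.rpow_pos_of_pos hC a
  have hK₄pos : 0 < K₄ := by
    rw [hK₄]
    positivity
  obtain ⟨K₂, hK₂, hK₂b⟩ := absorb (ι := (Fin 2 → ℂ) × Fin 2 × Fin 2)
    (fun m : ℕ => Real.exp (-(θ * (-Real.log lam) * m))) (fun m => Real.exp_pos _)
    (fun m z => Om z.2.1 m * Om z.2.2 m * ‖z.1 z.2.2‖) (fun m z => ‖Λ m (e z.1)‖)
    (fun m z => norm_nonneg _) (K₄ * A₁) (by
      filter_upwards [hev] with m hm
      rintro ⟨z, s, t⟩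
      show Om s m * Om t m * ‖z t‖ ≤ K₄ * A₁ * Real.exp (-(θ * (-Real.log lam) * m)) * ‖Λ m (e z)‖
      have hN := npos h m
      have hm0 := hompos m
      have hw := norm_nonneg (Λ m (e z))
      -- both cases are bounded by K₄ (N + N^(a+1-b)) ‖Λ (e z)‖
      suffices hsuff : Om s m * Om t m * ‖z t‖ ≤
          K₄ * (‖Λ m‖ + ‖Λ m‖ ^ (a + 1 - b)) * ‖Λ m (e z)‖ by
        refine hsuff.trans ?_
        refine mul_le_mul_of_nonneg_right ?_ hw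
        calc K₄ * (‖Λ m‖ + ‖Λ m‖ ^ (a + 1 - b))
            ≤ K₄ * (A₁ * Real.exp (-(θ * (-Real.log lam) * m))) :=
              mul_le_mul_of_nonneg_left (hdd m) hK₄pos.le
          _ = _ := by ring
      have hOs := hK₃b s m
      have hOspos := hOmpos s m
      have hNp := Real.rpow_pos_of_pos hN (a + 1 - b)
      have hpart : 0 ≤ (‖Λ m‖ + ‖Λ m‖ ^ (a + 1 - b)) * ‖Λ m (e z)‖ := by positivity
      fin_cases t
      · show Om s m * Om 0 m * ‖z 0‖ ≤ _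
        have hO0 := hK₃b 0 m
        have hO0pos := hOmpos 0 m
        have hz : ‖z 0‖ ≤ C₂ * (1 / ‖Λ m‖ + ‖Λ m‖ ^ (a - 1 - b)) * ‖Λ m (e z)‖ := by
          rw [heW z]
          exact (hm.2 (e z)).1
        have hcalc : ‖Λ m‖ ^ 2 * (1 / ‖Λ m‖ + ‖Λ m‖ ^ (a - 1 - b)) =
            ‖Λ m‖ + ‖Λ m‖ ^ (a + 1 - b) := by
          have h1 : ‖Λ m‖ ^ (a + 1 - b) = ‖Λ m‖ ^ 2 * ‖Λ m‖ ^ (a - 1 - b) := by
            rw [← Real.rpow_natCast ‖Λ m‖ 2, ← Real.rpow_add hN]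
            congr 1
            push_cast
            ring
          rw [h1]
          field_simp
        calc Om s m * Om 0 m * ‖z 0‖ ≤ (K₃ * om m) * (K₃ * om m) *
              (C₂ * (1 / ‖Λ m‖ + ‖Λ m‖ ^ (a - 1 - b)) * ‖Λ m (e z)‖) := by gcongr
          _ ≤ (K₃ * (C * ‖Λ m‖)) * (K₃ * (C * ‖Λ m‖)) *
              (C₂ * (1 / ‖Λ m‖ + ‖Λ m‖ ^ (a - 1 - b)) * ‖Λ m (e z)‖) := by
              have := o2 m
              gcongr
          _ = K₃ * K₃ * C ^ 2 * C₂ * (‖Λ m‖ ^ 2 * (1 / ‖Λ m‖ + ‖Λ m‖ ^ (a - 1 - b))) *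
              ‖Λ m (e z)‖ := by ring
          _ = K₃ * K₃ * C ^ 2 * C₂ * ((‖Λ m‖ + ‖Λ m‖ ^ (a + 1 - b)) * ‖Λ m (e z)‖) := by
              rw [hcalc]
              ring
          _ ≤ K₄ * ((‖Λ m‖ + ‖Λ m‖ ^ (a + 1 - b)) * ‖Λ m (e z)‖) := by
              refine mul_le_mul_of_nonneg_right ?_ hpart
              rw [hK₄]
              have : 0 ≤ K₃ * C * C ^ a * Ke * C₂ := by positivity
              linarith
          _ = _ := by ring
      · show Om s m * Om 1 m * ‖z 1‖ ≤ _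
        have hz : ‖z 1‖ ≤ Ke * (C₂ * ‖Λ m‖ ^ (-b) * ‖Λ m (e z)‖) := by
          calc ‖z 1‖ ≤ ‖z‖ := norm_le_pi_norm z 1
            _ ≤ Ke * ‖e z‖ := hKeb z
            _ ≤ _ := mul_le_mul_of_nonneg_left (hm.2 (e z)).2 hKe.le
        have hO1 : Om 1 m ≤ C ^ a * ‖Λ m‖ ^ a := by
          rw [hOm1, ← Real.mul_rpow hC.le hN.le]
          exact Real.rpow_le_rpow hm0.le (o2 m) (by linarith)
        have hO1pos := hOmpos 1 m
        have hNa := Real.rpow_pos_of_pos hN a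
        have hNb := Real.rpow_pos_of_pos hN (-b)
        have hcalc : ‖Λ m‖ * ‖Λ m‖ ^ a * ‖Λ m‖ ^ (-b) = ‖Λ m‖ ^ (a + 1 - b) := by
          have h1 : ‖Λ m‖ * ‖Λ m‖ ^ a = ‖Λ m‖ ^ (a + 1) := by
            rw [Real.rpow_add_one hN.ne']
            ring
          rw [h1, ← Real.rpow_add hN]
          congr 1
        calc Om s m * Om 1 m * ‖z 1‖ ≤ (K₃ * (C * ‖Λ m‖)) * (C ^ a * ‖Λ m‖ ^ a) *
              (Ke * (C₂ * ‖Λ m‖ ^ (-b) * ‖Λ m (e z)‖)) := by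
              have h1 : Om s m ≤ K₃ * (C * ‖Λ m‖) :=
                hOs.trans (mul_le_mul_of_nonneg_left (o2 m) hK₃.le)
              gcongr
          _ = K₃ * C * C ^ a * Ke * C₂ * (‖Λ m‖ * ‖Λ m‖ ^ a * ‖Λ m‖ ^ (-b)) * ‖Λ m (e z)‖ := by
              ring
          _ = K₃ * C * C ^ a * Ke * C₂ * (‖Λ m‖ ^ (a + 1 - b) * ‖Λ m (e z)‖) := by
              rw [hcalc]
              ring
          _ ≤ K₃ * C * C ^ a * Ke * C₂ * ((‖Λ m‖ + ‖Λ m‖ ^ (a + 1 - b)) * ‖Λ m (e z)‖) := by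
              have : ‖Λ m‖ ^ (a + 1 - b) ≤ ‖Λ m‖ + ‖Λ m‖ ^ (a + 1 - b) := by linarith
              gcongr
          _ ≤ K₄ * ((‖Λ m‖ + ‖Λ m‖ ^ (a + 1 - b)) * ‖Λ m (e z)‖) := by
              refine mul_le_mul_of_nonneg_right ?_ hpart
              rw [hK₄]
              have : 0 ≤ K₃ * K₃ * C ^ 2 * C₂ := by positivity
              linarith
          _ = _ := by ring) (fun m => by
      refine ⟨(K₃ * om m) * (K₃ * om m) * (Ke / c ^ (m + 1)), ?_⟩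
      rintro ⟨z, s, t⟩
      show Om s m * Om t m * ‖z t‖ ≤ _ * ‖Λ m (e z)‖
      have h1 := hK₃b s m
      have h2 := hK₃b t m
      have h1p := hOmpos s m
      have h2p := hOmpos t m
      have h3 := lowm h m (e z)
      have h4 : 0 < c ^ (m + 1) := by positivity
      have h5 : ‖z t‖ ≤ Ke / c ^ (m + 1) * ‖Λ m (e z)‖ := by
        calc ‖z t‖ ≤ ‖z‖ := norm_le_pi_norm z t
          _ ≤ Ke * ‖e z‖ := hKeb z
          _ ≤ Ke * (‖Λ m (e z)‖ / c ^ (m + 1)) := by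
              gcongr
              rw [le_div_iff₀ h4]
              linarith
          _ = _ := by ring
      have hm0 := hompos m
      calc Om s m * Om t m * ‖z t‖ ≤ (K₃ * om m) * (K₃ * om m) *
            (Ke / c ^ (m + 1) * ‖Λ m (e z)‖) := by gcongr
        _ = _ := by ring)
  refine ⟨e, Om, max 1 (max K₁ K₂), min (c / C) ((c / C) ^ a), θ * (-Real.log lam),
    lt_of_lt_of_le one_pos (le_max_left _ _), lt_min hcC (Real.rpow_pos_of_pos hcC a),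
    mul_pos hθ (by linarith), ?_, ?_, ?_⟩
  · refine ⟨hOmpos, ?_, ?_, ?_, ?_⟩
    · intro t m
      fin_cases t
      · exact o3 m
      · exact Real.rpow_le_rpow (hompos _).le (o3 m) (by linarith)
    · intro t m
      fin_cases t
      · show min (c / C) ((c / C) ^ a) * om m ≤ om (m + 1)
        exact (mul_le_mul_of_nonneg_right (min_le_left _ _) (hompos m).le).trans (o4 m)
      · show min (c / C) ((c / C) ^ a) * om m ^ a ≤ om (m + 1) ^ a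
        calc min (c / C) ((c / C) ^ a) * om m ^ a ≤ (c / C) ^ a * om m ^ a :=
              mul_le_mul_of_nonneg_right (min_le_right _ _)
                (Real.rpow_pos_of_pos (hompos m) a).le
          _ = (c / C * om m) ^ a := by rw [Real.mul_rpow hcC.le (hompos m).le]
          _ ≤ om (m + 1) ^ a := Real.rpow_le_rpow (mul_pos hcC (hompos m)).le (o4 m) (by linarith)
    · intro s t hst m
      fin_cases s <;> fin_cases t
      · show om (m + 1) * om m ≤ om m * om (m + 1)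
        rw [mul_comm]
      · show om (m + 1) ^ a * om m ≤ om m ^ a * om (m + 1)
        have h1 : ∀ j, om j ^ a = om j ^ (a - 1) * om j := fun j => by
          rw [← Real.rpow_add_one (hompos j).ne', sub_add_cancel]
        have h2 : om (m + 1) ^ (a - 1) ≤ om m ^ (a - 1) :=
          Real.rpow_le_rpow (hompos _).le (o3 m) (by linarith)
        have h3 := hompos m
        have h4 := hompos (m + 1)
        rw [h1, h1]
        calc om (m + 1) ^ (a - 1) * om (m + 1) * om m = om (m + 1) ^ (a - 1) *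
              (om (m + 1) * om m) := by ring
          _ ≤ om m ^ (a - 1) * (om (m + 1) * om m) :=
              mul_le_mul_of_nonneg_right h2 (by positivity)
          _ = _ := by ring
      · exact absurd hst (by decide)
      · show om (m + 1) ^ a * om m ^ a ≤ om m ^ a * om (m + 1) ^ a
        rw [mul_comm]
    · intro t
      fin_cases t
      · exact o5
      · show Tendsto (fun m => om m ^ a) atTop (𝓝 0)
        have h1 := o5.rpow_const (p := a) (Or.inr (by linarith))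
        rw [Real.zero_rpow (by linarith)] at h1
        exact h1
  · intro t m
    fin_cases t
    · show ‖Λ m (e (Pi.single 0 1))‖ ≤ max 1 (max K₁ K₂) * om m
      calc ‖Λ m (e (Pi.single 0 1))‖ ≤ ‖Λ m‖ * ‖e (Pi.single 0 1)‖ := (Λ m).le_opNorm _
        _ ≤ ‖Λ m‖ * 1 := mul_le_mul_of_nonneg_left he0 (norm_nonneg _)
        _ = ‖Λ m‖ := mul_one _
        _ ≤ 1 * om m := by rw [one_mul]; exact o1 m
        _ ≤ _ := mul_le_mul_of_nonneg_right (le_max_left _ _) (hompos m).le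
    · show ‖Λ m (e (Pi.single 1 1))‖ ≤ max 1 (max K₁ K₂) * om m ^ a
      rw [he1]
      have h1 := hK₁b m ()
      rw [mul_one] at h1
      refine h1.trans (mul_le_mul_of_nonneg_right ?_ (Real.rpow_pos_of_pos (hompos m) a).le)
      exact (le_max_left _ _).trans (le_max_right _ _)
  · intro m z s t
    have h1 := hK₂b m (z, s, t)
    refine le_trans h1 ?_
    show K₂ * Real.exp (-(θ * (-Real.log lam) * m)) * ‖Λ m (e z)‖ ≤
      max 1 (max K₁ K₂) * Real.exp (-(θ * (-Real.log lam) * m)) * ‖Λ m (e z)‖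
    have h2 : K₂ ≤ max 1 (max K₁ K₂) := (le_max_right _ _).trans (le_max_right _ _)
    have h3 := Real.exp_pos (-(θ * (-Real.log lam) * m))
    gcongr

end seq

end sCorBAux

open sCorBAux in
theorem sCorB : S_CorB := by
  intro hA hD Λ C c lam h hB
  obtain ⟨C₁, a, b, hC₁, hab, hev⟩ := hB
  rcases lt_or_ge b 2 with hb | hb
  · exact hA 2 Λ C c lam h (caseA h C₁ a b hC₁ hb hev)
  · have ha : 1 < a := by linarith
    obtain ⟨v₀, C₂, hv, hC₂, hev2⟩ := hD Λ C c lam h C₁ a b hC₁ ha hev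
    exact caseB h a b ha hab v₀ C₂ hv hC₂ hev2

end Pool.Agent.Lib.Bed
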