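import Pool.Agent.Lib.Bed.SpecC

/-!
# MP_6f050a_an, part C, module CorC: (C) implies (K)
-/

set_option autoImplicit false

open scoped Manifold ContDiff Topology
open Set Filter Metric

namespace Pool.Agent.Lib.Bed

namespace sCorCAux

/-- The suprema of the tails of a positive bounded sequence with bounded steps. -/
theorem exists_sup {b : ℕ → ℝ} {B D : ℝ} (hb0 : ∀ j, 0 < b j) (hbB : ∀ j, b j ≤ B)
    (hbD : ∀ j, b j ≤ D * b (j + 1)) : ∃ κ : ℕ → ℝ, (∀ m, 0 < κ m) ∧ (∀ m, κ (m + 1) ≤ κ m) ∧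
      (∀ m, b m ≤ κ m) ∧ (∀ m, κ m ≤ max D 1 * κ (m + 1)) ∧ (∀ m, κ m ≤ B) ∧
      ∀ m, ∃ j, κ m ≤ 2 * b (m + j) := by
  have hbdd : ∀ m, BddAbove (range fun j => b (m + j)) := by
    intro m
    refine ⟨B, ?_⟩
    rintro _ ⟨j, rfl⟩
    exact hbB _
  have hle : ∀ m j, b (m + j) ≤ ⨆ j, b (m + j) := fun m j => le_ciSup (hbdd m) j
  have hpos : ∀ m, 0 < ⨆ j, b (m + j) := fun m => (hb0 (m + 0)).trans_le (hle m 0)
  have hanti : ∀ m, (⨆ j, b (m + 1 + j)) ≤ ⨆ j, b (m + j) := by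
    intro m
    apply ciSup_le
    intro j
    have h := hle m (1 + j)
    rwa [← add_assoc] at h
  refine ⟨fun m => ⨆ j, b (m + j), hpos, hanti, ?_, ?_, ?_, ?_⟩
  · intro m
    exact hle m 0
  · intro m
    apply ciSup_le
    intro j
    rcases Nat.eq_zero_or_pos j with rfl | hj
    · calc b (m + 0) ≤ D * b (m + 0 + 1) := hbD _
        _ ≤ max D 1 * b (m + 0 + 1) := mul_le_mul_of_nonneg_right (le_max_left _ _) (hb0 _).le
        _ ≤ _ := by
          refine mul_le_mul_of_nonneg_left ?_ (le_trans zero_le_one (le_max_right _ _))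
          exact hle (m + 1) 0
    · obtain ⟨i, rfl⟩ : ∃ i, j = 1 + i := ⟨j - 1, by omega⟩
      have h := hle (m + 1) i
      rw [← add_assoc]
      refine h.trans ?_
      calc (⨆ j, b (m + 1 + j)) = 1 * ⨆ j, b (m + 1 + j) := by ring
        _ ≤ _ := mul_le_mul_of_nonneg_right (le_max_right _ _) (hpos (m + 1)).le
  · intro m
    exact ciSup_le fun j => hbB _
  · intro m
    have h1 : (⨆ j, b (m + j)) / 2 < ⨆ j, b (m + j) := by
      have := hpos m
      linarith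
    obtain ⟨j, hj⟩ := exists_lt_of_lt_ciSup h1
    exact ⟨j, by linarith⟩

end sCorCAux

open sCorCAux in
/-- **CorC.** (C) implies (K). -/
theorem sCorC : S_CorC := by
  intro k Λ C c lam hL hCC
  obtain ⟨hC, hc, hlam, hlam1, hlow0, hlow, hup⟩ := hL
  obtain ⟨v₀, C₀, η, hv₀, hC₀, hη, hcc⟩ := hCC
  obtain ⟨k', rfl⟩ : ∃ k', k = k' + 1 := by
    rcases k with _ | k'
    · exact absurd (Subsingleton.elim _ _) hv₀
    · exact ⟨k', rfl⟩
  have hsingle : (Pi.single (Fin.last k') 1 : Fin (k' + 1) → ℂ) ≠ 0 := by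
    intro h
    have := congrFun h (Fin.last k')
    simp at this
  obtain ⟨e, he⟩ := SeparatingDual.exists_continuousLinearEquiv_apply_eq (R := ℂ) hsingle hv₀
  have hv0n : 0 < ‖v₀‖ := norm_pos_iff.2 hv₀
  -- the sequence `b`
  have hΛpos : ∀ j, 0 < ‖Λ j v₀‖ := by
    intro j
    induction j with
    | zero => exact (mul_pos hc hv0n).trans_le (hlow0 v₀)
    | succ j ih => exact (mul_pos hc ih).trans_le (hlow j v₀)
  obtain ⟨b, hb⟩ : ∃ b : ℕ → ℝ, ∀ j, b j = ‖Λ j v₀‖ / lam ^ j := ⟨_, fun _ => rfl⟩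
  have hb0 : ∀ j, 0 < b j := by
    intro j
    rw [hb]
    exact div_pos (hΛpos j) (by positivity)
  have hbB : ∀ j, b j ≤ C * ‖Λ 0 v₀‖ := by
    intro j
    rw [hb, div_le_iff₀ (by positivity)]
    have h := hup 0 j v₀
    rw [zero_add] at h
    refine h.trans (le_of_eq ?_)
    ring
  have hbD : ∀ j, b j ≤ lam / c * b (j + 1) := by
    intro j
    rw [hb, hb, pow_succ]
    have h := hlow j v₀
    have h2 : ‖Λ j v₀‖ ≤ ‖Λ (j + 1) v₀‖ / c := by
      rw [le_div_iff₀ hc]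
      linarith
    have h3 : lam / c * (‖Λ (j + 1) v₀‖ / (lam ^ j * lam)) = ‖Λ (j + 1) v₀‖ / c / lam ^ j := by
      field_simp
    rw [h3]
    exact div_le_div_of_nonneg_right h2 (by positivity)
  obtain ⟨κ, hκ0, hκa, hbκ, hκs, hκB, hκ2⟩ := exists_sup hb0 hbB hbD
  obtain ⟨D, hD⟩ : ∃ D, D = max (lam / c) 1 := ⟨_, rfl⟩
  rw [← hD] at hκs
  have hD1 : 1 ≤ D := by
    rw [hD]
    exact le_max_right _ _
  have hD0 : 0 < D := by linarith
  -- the weights
  obtain ⟨om, hom1, hom2⟩ : ∃ om : Fin (k' + 1) → ℕ → ℝ, (∀ m, om (Fin.last k') m = lam ^ m * κ m) ∧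
      ∀ t, t ≠ Fin.last k' → ∀ m, om t m = lam ^ m := by
    classical
    refine ⟨fun t m => if t = Fin.last k' then lam ^ m * κ m else lam ^ m, fun m => ?_,
      fun t ht m => ?_⟩
    · exact if_pos rfl
    · exact if_neg ht
  have hlm : ∀ m : ℕ, 0 < lam ^ m := fun m => by positivity
  have homp : ∀ t m, 0 < om t m := by
    intro t m
    by_cases ht : t = Fin.last k'
    · rw [ht, hom1]
      exact mul_pos (hlm m) (hκ0 m)
    · rw [hom2 t ht]
      exact hlm m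
  have hW : IsW0 (lam / D) om := by
    refine ⟨homp, ?_, ?_, ?_, ?_⟩
    · intro t m
      by_cases ht : t = Fin.last k'
      · rw [ht, hom1, hom1, pow_succ]
        have h1 : lam ^ m * lam ≤ lam ^ m * 1 := mul_le_mul_of_nonneg_left hlam1.le (hlm m).le
        calc lam ^ m * lam * κ (m + 1) ≤ lam ^ m * 1 * κ m :=
              mul_le_mul h1 (hκa m) (hκ0 _).le (by positivity)
          _ = _ := by ring
      · rw [hom2 t ht, hom2 t ht, pow_succ]
        calc lam ^ m * lam ≤ lam ^ m * 1 := mul_le_mul_of_nonneg_left hlam1.le (hlm m).le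
          _ = _ := by ring
    · intro t m
      by_cases ht : t = Fin.last k'
      · rw [ht, hom1, hom1, pow_succ]
        calc lam / D * (lam ^ m * κ m) = lam ^ m * lam * (κ m / D) := by ring
          _ ≤ lam ^ m * lam * κ (m + 1) := by
            refine mul_le_mul_of_nonneg_left ?_ (by positivity)
            rw [div_le_iff₀ hD0]
            linarith [hκs m, mul_comm D (κ (m + 1))]
      · rw [hom2 t ht, hom2 t ht, pow_succ]
        have h1 : lam / D ≤ lam := div_le_self hlam.le hD1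
        calc lam / D * lam ^ m ≤ lam * lam ^ m := mul_le_mul_of_nonneg_right h1 (hlm m).le
          _ = _ := by ring
    · intro s t hst m
      by_cases ht : t = Fin.last k'
      · by_cases hs : s = Fin.last k'
        · rw [ht, hs, hom1, hom1]
          exact le_of_eq (by ring)
        · rw [ht, hom1, hom1, hom2 s hs, hom2 s hs]
          have h1 := mul_le_mul_of_nonneg_left (hκa m)
            (mul_nonneg (hlm (m + 1)).le (hlm m).le)
          linarith
      · have hs : s ≠ Fin.last k' := by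
          rintro rfl
          exact ht (le_antisymm (Fin.le_last t) hst)
        rw [hom2 t ht, hom2 t ht, hom2 s hs, hom2 s hs]
        exact le_of_eq (by ring)
    · intro t
      have hl : Tendsto (fun m : ℕ => lam ^ m) atTop (𝓝 0) :=
        tendsto_pow_atTop_nhds_zero_of_lt_one hlam.le hlam1
      by_cases ht : t = Fin.last k'
      · have h2 : Tendsto (fun m : ℕ => lam ^ m * (C * ‖Λ 0 v₀‖)) atTop (𝓝 0) := by
          simpa using hl.mul_const (C * ‖Λ 0 v₀‖)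
        refine squeeze_zero (fun m => (homp t m).le) (fun m => ?_) h2
        rw [ht, hom1]
        exact mul_le_mul_of_nonneg_left (hκB m) (hlm m).le
      · refine hl.congr fun m => ?_
        rw [hom2 t ht]
  -- bounds
  obtain ⟨C₁, hC₁, hC₁e⟩ : ∃ C₁ : ℝ, 0 < C₁ ∧ ∀ z, ‖z‖ ≤ C₁ * ‖e z‖ := by
    refine ⟨‖(e.symm : (Fin (k' + 1) → ℂ) →L[ℂ] (Fin (k' + 1) → ℂ))‖ + 1, by positivity, fun z => ?_⟩
    have h := (e.symm : (Fin (k' + 1) → ℂ) →L[ℂ] (Fin (k' + 1) → ℂ)).le_opNorm (e z)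
    have h2 : (e.symm : (Fin (k' + 1) → ℂ) →L[ℂ] (Fin (k' + 1) → ℂ)) (e z) = z :=
      e.symm_apply_apply z
    rw [h2] at h
    refine h.trans (mul_le_mul_of_nonneg_right (by linarith) (norm_nonneg _))
  obtain ⟨C₃, hC₃, hC₃e⟩ : ∃ C₃ : ℝ, 0 < C₃ ∧ ∀ m z, ‖Λ m (e z)‖ ≤ C₃ * lam ^ m * ‖z‖ := by
    refine ⟨C * (‖Λ 0‖ * ‖(e : (Fin (k' + 1) → ℂ) →L[ℂ] (Fin (k' + 1) → ℂ))‖ + 1), by positivity,
      fun m z => ?_⟩
    have h := hup 0 m (e z)
    rw [zero_add] at h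
    have h2 := (Λ 0).le_opNorm (e z)
    have h3 := (e : (Fin (k' + 1) → ℂ) →L[ℂ] (Fin (k' + 1) → ℂ)).le_opNorm z
    have h3' : ‖e z‖ ≤ ‖(e : (Fin (k' + 1) → ℂ) →L[ℂ] (Fin (k' + 1) → ℂ))‖ * ‖z‖ := h3
    have h4 : ‖Λ 0 (e z)‖ ≤
        (‖Λ 0‖ * ‖(e : (Fin (k' + 1) → ℂ) →L[ℂ] (Fin (k' + 1) → ℂ))‖ + 1) * ‖z‖ := by
      calc ‖Λ 0 (e z)‖ ≤ ‖Λ 0‖ * ‖e z‖ := h2
        _ ≤ ‖Λ 0‖ * (‖(e : (Fin (k' + 1) → ℂ) →L[ℂ] (Fin (k' + 1) → ℂ))‖ * ‖z‖) :=
          mul_le_mul_of_nonneg_left h3' (norm_nonneg _)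
        _ ≤ _ := by
          rw [add_mul, one_mul, mul_assoc]
          linarith [norm_nonneg z]
    calc ‖Λ m (e z)‖ ≤ C * lam ^ m * ‖Λ 0 (e z)‖ := h
      _ ≤ C * lam ^ m *
          ((‖Λ 0‖ * ‖(e : (Fin (k' + 1) → ℂ) →L[ℂ] (Fin (k' + 1) → ℂ))‖ + 1) * ‖z‖) :=
        mul_le_mul_of_nonneg_left h4 (by positivity)
      _ = _ := by ring
  obtain ⟨C₂, hC₂1, hC₂⟩ : ∃ C₂ : ℝ, 1 ≤ C₂ ∧ ∀ m, κ m ≤ C₂ := by
    refine ⟨max 1 (C * ‖Λ 0 v₀‖), le_max_left _ _, fun m => (hκB m).trans (le_max_right _ _)⟩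
  have hC₂0 : 0 < C₂ := by linarith
  have homC : ∀ s m, om s m ≤ C₂ * lam ^ m := by
    intro s m
    by_cases hs : s = Fin.last k'
    · rw [hs, hom1, mul_comm]
      exact mul_le_mul_of_nonneg_right (hC₂ m) (hlm m).le
    · rw [hom2 s hs]
      calc lam ^ m = 1 * lam ^ m := by ring
        _ ≤ _ := mul_le_mul_of_nonneg_right hC₂1 (hlm m).le
  -- the exponent
  obtain ⟨η', hη'⟩ : ∃ η', η' = min η (-Real.log lam) := ⟨_, rfl⟩
  have hη'0 : 0 < η' := by
    rw [hη']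
    refine lt_min hη ?_
    have := Real.log_neg hlam hlam1
    linarith
  have hexp1 : ∀ m : ℕ, Real.exp (-(η * m)) ≤ Real.exp (-(η' * m)) := by
    intro m
    apply Real.exp_le_exp.2
    have h1 : η' ≤ η := by
      rw [hη']
      exact min_le_left _ _
    have h2 := mul_le_mul_of_nonneg_right h1 (Nat.cast_nonneg (α := ℝ) m)
    linarith
  have hexp2 : ∀ m : ℕ, lam ^ m ≤ Real.exp (-(η' * m)) := by
    intro m
    have h0 : lam ^ m = Real.exp (Real.log lam * m) := by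
      rw [← Real.rpow_natCast, Real.rpow_def_of_pos hlam]
    rw [h0]
    apply Real.exp_le_exp.2
    have h1 : η' ≤ -Real.log lam := by
      rw [hη']
      exact min_le_right _ _
    have h2 := mul_le_mul_of_nonneg_right h1 (Nat.cast_nonneg (α := ℝ) m)
    linarith
  -- the main estimate
  have hy : ∀ (m : ℕ) (z : Fin (k' + 1) → ℂ), lam ^ (2 * m) *
      ‖z - z (Fin.last k') • (Pi.single (Fin.last k') 1 : Fin (k' + 1) → ℂ)‖ ≤
      C₁ * C₀ * Real.exp (-(η * m)) * ‖Λ m (e z)‖ := by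
    intro m z
    obtain ⟨d, hd⟩ := hcc m (e z)
    have h1 : ‖z - z (Fin.last k') • (Pi.single (Fin.last k') 1 : Fin (k' + 1) → ℂ)‖ ≤
        ‖z - d • (Pi.single (Fin.last k') 1 : Fin (k' + 1) → ℂ)‖ := by
      rw [pi_norm_le_iff_of_nonneg (norm_nonneg _)]
      intro i
      by_cases hi : i = Fin.last k'
      · rw [hi]
        simp
      · have h2 := norm_le_pi_norm (z - d • (Pi.single (Fin.last k') 1 : Fin (k' + 1) → ℂ)) i
        refine (le_of_eq ?_).trans h2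
        simp [Pi.single_eq_of_ne hi]
    have h2 : ‖z - d • (Pi.single (Fin.last k') 1 : Fin (k' + 1) → ℂ)‖ ≤ C₁ * ‖e z - d • v₀‖ := by
      refine (hC₁e _).trans (le_of_eq ?_)
      rw [map_sub, map_smul, he]
    calc lam ^ (2 * m) * ‖z - z (Fin.last k') • (Pi.single (Fin.last k') 1 : Fin (k' + 1) → ℂ)‖ ≤
          lam ^ (2 * m) * (C₁ * ‖e z - d • v₀‖) :=
            mul_le_mul_of_nonneg_left (h1.trans h2) (by positivity)
      _ = C₁ * (lam ^ (2 * m) * ‖e z - d • v₀‖) := by ring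
      _ ≤ C₁ * (C₀ * Real.exp (-(η * m)) * ‖Λ m (e z)‖) := mul_le_mul_of_nonneg_left hd hC₁.le
      _ = _ := by ring
  obtain ⟨M, hM⟩ : ∃ M, M = C₃ + 1 + C₂ * (C₁ * C₀) + 2 * C₂ * C + 2 * C₂ * C₃ * (C₁ * C₀) :=
    ⟨_, rfl⟩
  have hM0 : 0 < M := by
    rw [hM]
    positivity
  have k1 : 0 < C₂ * (C₁ * C₀) := by positivity
  have k2 : 0 < 2 * C₂ * C := by positivity
  have k3 : 0 < 2 * C₂ * C₃ * (C₁ * C₀) := by positivity
  refine ⟨e, om, M, lam / D, η', hM0, by positivity, hη'0, hW, ?_, ?_⟩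
  · intro t m
    by_cases ht : t = Fin.last k'
    · rw [ht, he, hom1]
      have h1 : ‖Λ m v₀‖ = lam ^ m * b m := by
        rw [hb]
        field_simp
      rw [h1]
      calc lam ^ m * b m ≤ lam ^ m * κ m := mul_le_mul_of_nonneg_left (hbκ m) (hlm m).le
        _ = 1 * (lam ^ m * κ m) := by ring
        _ ≤ M * (lam ^ m * κ m) := by
          refine mul_le_mul_of_nonneg_right ?_ (mul_pos (hlm m) (hκ0 m)).le
          rw [hM]
          linarith
    · rw [hom2 t ht]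
      refine (hC₃e m _).trans ?_
      rw [Pi.norm_single, norm_one, mul_one]
      refine mul_le_mul_of_nonneg_right ?_ (hlm m).le
      rw [hM]
      linarith
  · intro m z s t
    have hE : 0 < Real.exp (-(η' * m)) := Real.exp_pos _
    have hN : 0 ≤ ‖Λ m (e z)‖ := norm_nonneg _
    by_cases ht : t = Fin.last k'
    · rw [ht, hom1]
      obtain ⟨j, hj⟩ := hκ2 m
      obtain ⟨y, hydef⟩ : ∃ y, y = z - z (Fin.last k') •
        (Pi.single (Fin.last k') 1 : Fin (k' + 1) → ℂ) := ⟨_, rfl⟩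
      have hym := hy m z
      rw [← hydef] at hym
      have hey : e z = e y + z (Fin.last k') • v₀ := by
        rw [hydef, map_sub, map_smul, he, sub_add_cancel]
      have h1 : ‖z (Fin.last k')‖ * ‖Λ (m + j) v₀‖ ≤ ‖Λ (m + j) (e z)‖ + ‖Λ (m + j) (e y)‖ := by
        have h2 : z (Fin.last k') • Λ (m + j) v₀ = Λ (m + j) (e z) - Λ (m + j) (e y) := by
          rw [hey, map_add, map_smul, add_sub_cancel_left]
        rw [← norm_smul, h2]
        exact norm_sub_le _ _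
      have h2 : ‖Λ (m + j) (e z)‖ ≤ C * lam ^ j * ‖Λ m (e z)‖ := hup m j _
      have h3 : ‖Λ (m + j) (e y)‖ ≤ C₃ * lam ^ (m + j) * ‖y‖ := hC₃e _ _
      have h4 : b (m + j) * ‖z (Fin.last k')‖ ≤
          C * ‖Λ m (e z)‖ / lam ^ m + C₃ * ‖y‖ := by
        rw [hb, div_mul_eq_mul_div, div_le_iff₀ (hlm _)]
        calc ‖Λ (m + j) v₀‖ * ‖z (Fin.last k')‖ = ‖z (Fin.last k')‖ * ‖Λ (m + j) v₀‖ := by ring
          _ ≤ C * lam ^ j * ‖Λ m (e z)‖ + C₃ * lam ^ (m + j) * ‖y‖ := h1.trans (add_le_add h2 h3)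
          _ = _ := by
            rw [pow_add]
            field_simp
      have h5 : om s m * (lam ^ m * κ m) * ‖z (Fin.last k')‖ ≤
          C₂ * lam ^ m * (lam ^ m * (2 * (C * ‖Λ m (e z)‖ / lam ^ m + C₃ * ‖y‖))) := by
        have h6 : κ m * ‖z (Fin.last k')‖ ≤ 2 * (C * ‖Λ m (e z)‖ / lam ^ m + C₃ * ‖y‖) := by
          calc κ m * ‖z (Fin.last k')‖ ≤ 2 * b (m + j) * ‖z (Fin.last k')‖ :=
                mul_le_mul_of_nonneg_right hj (norm_nonneg _)
            _ = 2 * (b (m + j) * ‖z (Fin.last k')‖) := by ring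
            _ ≤ _ := mul_le_mul_of_nonneg_left h4 (by norm_num)
        calc om s m * (lam ^ m * κ m) * ‖z (Fin.last k')‖ =
              om s m * (lam ^ m * (κ m * ‖z (Fin.last k')‖)) := by ring
          _ ≤ C₂ * lam ^ m * (lam ^ m * (2 * (C * ‖Λ m (e z)‖ / lam ^ m + C₃ * ‖y‖))) := by
            refine mul_le_mul (homC s m) (mul_le_mul_of_nonneg_left h6 (hlm m).le) ?_ (by positivity)
            exact mul_nonneg (hlm m).le (mul_nonneg (hκ0 m).le (norm_nonneg _))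
      have h7 : C₂ * lam ^ m * (lam ^ m * (2 * (C * ‖Λ m (e z)‖ / lam ^ m + C₃ * ‖y‖))) =
          2 * C₂ * C * (lam ^ m * ‖Λ m (e z)‖) + 2 * C₂ * C₃ * (lam ^ (2 * m) * ‖y‖) := by
        rw [two_mul m, pow_add]
        field_simp
      rw [h7] at h5
      refine h5.trans ?_
      have h8 : lam ^ m * ‖Λ m (e z)‖ ≤ Real.exp (-(η' * m)) * ‖Λ m (e z)‖ :=
        mul_le_mul_of_nonneg_right (hexp2 m) hN
      have h9 : lam ^ (2 * m) * ‖y‖ ≤ C₁ * C₀ * (Real.exp (-(η' * m)) * ‖Λ m (e z)‖) := by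
        refine hym.trans ?_
        calc C₁ * C₀ * Real.exp (-(η * m)) * ‖Λ m (e z)‖ ≤
              C₁ * C₀ * Real.exp (-(η' * m)) * ‖Λ m (e z)‖ :=
                mul_le_mul_of_nonneg_right (mul_le_mul_of_nonneg_left (hexp1 m) (by positivity)) hN
          _ = _ := by ring
      calc 2 * C₂ * C * (lam ^ m * ‖Λ m (e z)‖) + 2 * C₂ * C₃ * (lam ^ (2 * m) * ‖y‖) ≤
            2 * C₂ * C * (Real.exp (-(η' * m)) * ‖Λ m (e z)‖) +
              2 * C₂ * C₃ * (C₁ * C₀ * (Real.exp (-(η' * m)) * ‖Λ m (e z)‖)) :=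
            add_le_add (mul_le_mul_of_nonneg_left h8 k2.le)
              (mul_le_mul_of_nonneg_left h9 (by positivity))
        _ = (2 * C₂ * C + 2 * C₂ * C₃ * (C₁ * C₀)) * (Real.exp (-(η' * m)) * ‖Λ m (e z)‖) := by ring
        _ ≤ M * (Real.exp (-(η' * m)) * ‖Λ m (e z)‖) := by
          refine mul_le_mul_of_nonneg_right ?_ (by positivity)
          rw [hM]
          linarith
        _ = _ := by ring
    · rw [hom2 t ht]
      have h1 : ‖z t‖ ≤ ‖z - z (Fin.last k') •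
          (Pi.single (Fin.last k') 1 : Fin (k' + 1) → ℂ)‖ := by
        have h2 := norm_le_pi_norm (z - z (Fin.last k') •
          (Pi.single (Fin.last k') 1 : Fin (k' + 1) → ℂ)) t
        refine (le_of_eq ?_).trans h2
        simp [Pi.single_eq_of_ne ht]
      calc om s m * lam ^ m * ‖z t‖ ≤ C₂ * lam ^ m * lam ^ m * ‖z - z (Fin.last k') •
            (Pi.single (Fin.last k') 1 : Fin (k' + 1) → ℂ)‖ := by
            refine mul_le_mul (mul_le_mul_of_nonneg_right (homC s m) (hlm m).le) h1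
              (norm_nonneg _) (by positivity)
        _ = C₂ * (lam ^ (2 * m) * ‖z - z (Fin.last k') •
            (Pi.single (Fin.last k') 1 : Fin (k' + 1) → ℂ)‖) := by
            rw [two_mul, pow_add]
            ring
        _ ≤ C₂ * (C₁ * C₀ * Real.exp (-(η * m)) * ‖Λ m (e z)‖) :=
            mul_le_mul_of_nonneg_left (hy m z) hC₂0.le
        _ ≤ C₂ * (C₁ * C₀ * Real.exp (-(η' * m)) * ‖Λ m (e z)‖) := by
            refine mul_le_mul_of_nonneg_left ?_ hC₂0.le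
            exact mul_le_mul_of_nonneg_right (mul_le_mul_of_nonneg_left (hexp1 m) (by positivity)) hN
        _ = C₂ * (C₁ * C₀) * (Real.exp (-(η' * m)) * ‖Λ m (e z)‖) := by ring
        _ ≤ M * (Real.exp (-(η' * m)) * ‖Λ m (e z)‖) := by
          refine mul_le_mul_of_nonneg_right ?_ (by positivity)
          rw [hM]
          linarith
        _ = _ := by ring

end Pool.Agent.Lib.Bed
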