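import Pool.Agent.Lib.Bed.SpecN
import Pool.Agent.Lib.Osgood

/-!
# MP_6f050a_an, Cou: the additive Cousin problem on an exhaustion by balls
-/

set_option autoImplicit false

open scoped Topology ENNReal NNReal
open Set Filter Metric

namespace Pool.Agent.Lib.Bed

namespace sCouAux

/-- Approximation by entire functions on smaller balls. -/
theorem approx (s : ℕ) (F : (Fin s → ℂ) → ℂ) (R R' ε : ℝ) (hR' : 0 < R') (hRR : R' < R)
    (hF : DifferentiableOn ℂ F (ball 0 R)) (hε : 0 < ε) :
    ∃ p : (Fin s → ℂ) → ℂ, Differentiable ℂ p ∧ ∀ u ∈ ball (0 : Fin s → ℂ) R', ‖F u - p u‖ ≤ ε := by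
  have hR : 0 < R := hR'.trans hRR
  obtain ⟨p, hp⟩ : AnalyticAt ℂ F 0 := Osgood.analyticAt (R := R) hR hF
  set R'' : ℝ := (R + R') / 2 with hR''
  have h1 : R' < R'' := by rw [hR'']; linarith
  have h2 : R'' < R := by rw [hR'']; linarith
  have hR''0 : 0 < R'' := hR'.trans h1
  obtain ⟨M, hM⟩ : ∃ M : ℝ, ∀ w ∈ closedBall (0 : Fin s → ℂ) R'', ‖F w‖ ≤ M :=
    (isCompact_closedBall (0 : Fin s → ℂ) R'').exists_bound_of_continuousOn
      (hF.continuousOn.mono (closedBall_subset_ball h2))
  have hM0 : 0 ≤ M := le_trans (norm_nonneg _) (hM 0 (mem_closedBall_self hR''0.le))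
  -- the ratio
  set q : ℝ := R'' / R' with hq
  have hq1 : 1 < q := by rw [hq, one_lt_div hR']; exact h1
  have hq0 : 0 < q := one_pos.trans hq1
  have hqR : q * R' = R'' := by rw [hq]; field_simp
  set x : ℝ := q⁻¹ with hx
  have hx0 : 0 < x := inv_pos.2 hq0
  have hx1 : x < 1 := inv_lt_one_of_one_lt₀ hq1
  -- choose the degree
  obtain ⟨m, hm⟩ : ∃ m : ℕ, M * (x ^ m * (1 - x)⁻¹) ≤ ε := by
    have h1 : Tendsto (fun m : ℕ => M * (x ^ m * (1 - x)⁻¹)) atTop (𝓝 (M * (0 * (1 - x)⁻¹))) :=
      ((tendsto_pow_atTop_nhds_zero_of_lt_one hx0.le hx1).mul_const _).const_mul M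
    rw [zero_mul, mul_zero] at h1
    exact (h1.eventually_le_const hε).exists
  refine ⟨fun u => ∑ k ∈ Finset.range m, p k (fun _ => u), ?_, fun z hz => ?_⟩
  · have h : ∀ k : ℕ, Differentiable ℂ (fun u : Fin s → ℂ => p k (fun _ => u)) := fun k =>
      ((p k).contDiff (n := 1)).differentiable (by norm_num) |>.comp
        (differentiable_pi.2 fun _ => differentiable_id)
    intro u
    refine DifferentiableAt.fun_sum fun k _ => h k u
  · have hzR : ‖z‖ < R' := by simpa using hz
    set u : ℂ →L[ℂ] (Fin s → ℂ) := (ContinuousLinearMap.id ℂ ℂ).smulRight z with hu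
    have huz : ∀ ζ : ℂ, u ζ = ζ • z := fun ζ => by simp [hu]
    have hqn : (0 : ℝ≥0) < Real.toNNReal q := by simpa using hq0
    have hqc : ((Real.toNNReal q : ℝ≥0) : ℝ) = q := Real.coe_toNNReal q hq0.le
    have hmap : ∀ ζ : ℂ, ‖ζ‖ ≤ q → ‖u ζ‖ ≤ R'' := by
      intro ζ hζ
      rw [huz, norm_smul, ← hqR]
      exact mul_le_mul hζ hzR.le (norm_nonneg _) hq0.le
    have hfd : DifferentiableOn ℂ (F ∘ u) (closedBall 0 (Real.toNNReal q)) := by
      refine hF.comp u.differentiable.differentiableOn fun ζ hζ => ?_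
      rw [mem_ball_zero_iff]
      refine lt_of_le_of_lt (hmap ζ ?_) h2
      simpa [hqc] using hζ
    have hball := hfd.hasFPowerSeriesOnBall hqn
    have hp' : HasFPowerSeriesAt (F ∘ u) (p.compContinuousLinearMap u) 0 := by
      apply HasFPowerSeriesAt.compContinuousLinearMap
      rw [map_zero]
      exact hp
    have hps : cauchyPowerSeries (F ∘ u) 0 ((Real.toNNReal q : ℝ≥0) : ℝ) =
        p.compContinuousLinearMap u :=
      HasFPowerSeriesAt.eq_formalMultilinearSeries hball.hasFPowerSeriesAt hp'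
    have hc : ∀ k, cauchyPowerSeries (F ∘ u) 0 ((Real.toNNReal q : ℝ≥0) : ℝ) k (fun _ => (1 : ℂ)) =
        p k (fun _ => z) := by
      intro k
      rw [hps, FormalMultilinearSeries.compContinuousLinearMap_apply]
      congr 1
      funext i
      simp [huz]
    have hsum : HasSum (fun k => p k (fun _ => z)) (F z) := by
      have h1 := hball.hasSum (y := (1 : ℂ)) (by
        rw [Metric.mem_eball, edist_zero_right]
        simpa [enorm_eq_nnnorm] using (by rw [← NNReal.coe_lt_coe, hqc]; simpa using hq1 : (1 : ℝ≥0) < Real.toNNReal q))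
      simp_rw [hc] at h1
      have h2 : (F ∘ u) (0 + 1) = F z := by simp [huz]
      rwa [h2] at h1
    have hbd : ∀ k, ‖p k (fun _ => z)‖ ≤ M * x ^ k := by
      intro k
      rw [← hc k]
      have h1 : ‖cauchyPowerSeries (F ∘ u) 0 ((Real.toNNReal q : ℝ≥0) : ℝ) k (fun _ => (1 : ℂ))‖ ≤
          ‖cauchyPowerSeries (F ∘ u) 0 ((Real.toNNReal q : ℝ≥0) : ℝ) k‖ := by
        have h7 := (cauchyPowerSeries (F ∘ u) 0 ((Real.toNNReal q : ℝ≥0) : ℝ) k).le_opNorm
          (fun _ => (1 : ℂ))
        rw [norm_one, Finset.prod_const_one, mul_one] at h7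
        exact h7
      refine le_trans h1 (le_trans (norm_cauchyPowerSeries_le _ _ _ _) ?_)
      have h2 : ∀ θ : ℝ, ‖(F ∘ u) (circleMap 0 ((Real.toNNReal q : ℝ≥0) : ℝ) θ)‖ ≤ M := by
        intro θ
        apply hM
        rw [mem_closedBall_zero_iff]
        apply hmap
        rw [norm_circleMap_zero, hqc, abs_of_pos hq0]
      have h3 : ∫ θ in (0 : ℝ)..2 * Real.pi, ‖(F ∘ u) (circleMap 0 ((Real.toNNReal q : ℝ≥0) : ℝ) θ)‖ ≤
          2 * Real.pi * M := by
        have hpi := Real.pi_pos
        have h5 : ∫ θ in (0 : ℝ)..2 * Real.pi,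
            ‖(F ∘ u) (circleMap 0 ((Real.toNNReal q : ℝ≥0) : ℝ) θ)‖ ≤
            ∫ _θ in (0 : ℝ)..2 * Real.pi, M := by
          apply intervalIntegral.integral_mono_on (by positivity)
          · apply Continuous.intervalIntegrable
            refine (hfd.continuousOn.comp_continuous (continuous_circleMap _ _) fun θ => ?_).norm
            rw [mem_closedBall_zero_iff, norm_circleMap_zero, hqc, abs_of_pos hq0]
          · exact intervalIntegrable_const
          · intro θ _
            exact h2 θ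
        rwa [intervalIntegral.integral_const, smul_eq_mul, sub_zero] at h5
      have h6 : |((Real.toNNReal q : ℝ≥0) : ℝ)|⁻¹ = x := by rw [hqc, abs_of_pos hq0]
      rw [h6]
      refine mul_le_mul_of_nonneg_right ?_ (by positivity)
      have hpi := Real.pi_pos
      rw [inv_mul_le_iff₀ (by positivity)]
      exact h3
    -- the tail
    have htail : F z - ∑ k ∈ Finset.range m, p k (fun _ => z) = ∑' k, p (k + m) (fun _ => z) := by
      rw [← hsum.tsum_eq, ← hsum.summable.sum_add_tsum_nat_add m]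
      ring
    show ‖F z - ∑ k ∈ Finset.range m, p k (fun _ => z)‖ ≤ ε
    rw [htail]
    have hgeo : HasSum (fun k => M * x ^ (k + m)) (M * (x ^ m * (1 - x)⁻¹)) := by
      have h1 := (hasSum_geometric_of_lt_one hx0.le hx1).mul_left (M * x ^ m)
      rw [mul_assoc] at h1
      have h3 : (fun k => M * x ^ (k + m)) = fun k => M * x ^ m * x ^ k := by
        funext k
        rw [pow_add]; ring
      rw [h3]
      exact h1
    exact le_trans (tsum_of_norm_bounded hgeo fun k => hbd (k + m)) hm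

end sCouAux

open sCouAux in
theorem sCou : S_Cou := by
  intro hWei s D hD
  have hp : ∀ i : ℕ, ∃ p : (Fin s → ℂ) → ℂ, Differentiable ℂ p ∧
      ∀ u ∈ ball (0 : Fin s → ℂ) (i + 1), ‖D i u - p u‖ ≤ (1 / 2 : ℝ) ^ i := fun i =>
    approx s (D i) (i + 2) (i + 1) ((1 / 2 : ℝ) ^ i) (by positivity) (by linarith) (hD i)
      (by positivity)
  choose p hpd hpb using hp
  have hdd : ∀ i : ℕ, DifferentiableOn ℂ (fun u => D i u - p i u) (ball 0 (i + 2)) := fun i =>
    (hD i).sub (hpd i).differentiableOn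
  have hH : ∀ i : ℕ, ∃ H : (Fin s → ℂ) → ℂ, DifferentiableOn ℂ H (ball 0 (i + 1)) ∧
      ∀ z ∈ ball (0 : Fin s → ℂ) (i + 1),
        Tendsto (fun m => ∑ j ∈ Finset.range m, (D (i + j) z - p (i + j) z)) atTop (𝓝 (H z)) := by
    intro i
    obtain ⟨H, h1, h2, -, -⟩ := hWei (Fin s → ℂ) ℂ (ball 0 (i + 1))
      (fun m z => ∑ j ∈ Finset.range m, (D (i + j) z - p (i + j) z)) (fun m => (1 / 2 : ℝ) ^ m)
      isOpen_ball (fun m => by
        refine DifferentiableOn.fun_sum fun j _ => ?_
        refine (hdd (i + j)).mono (ball_subset_ball ?_)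
        push_cast
        linarith [(Nat.cast_nonneg j : (0 : ℝ) ≤ j)])
      (summable_geometric_of_lt_one (by norm_num) (by norm_num)) (fun m z hz => by
        rw [Finset.sum_range_succ, add_sub_cancel_left]
        refine (hpb (i + m) z (ball_subset_ball ?_ hz)).trans ?_
        · push_cast
          linarith [(Nat.cast_nonneg m : (0 : ℝ) ≤ m)]
        · exact pow_le_pow_of_le_one (by norm_num) (by norm_num) (by omega))
    exact ⟨H, h1, h2⟩
  choose H hHd hHl using hH
  refine ⟨fun i u => H i u - ∑ j ∈ Finset.range i, p j u, fun i => ?_, fun i u hu => ?_⟩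
  · refine (hHd i).sub (DifferentiableOn.fun_sum fun j _ => (hpd j).differentiableOn)
  · have h1 := hHl i u hu
    have hu' : u ∈ ball (0 : Fin s → ℂ) ((i + 1 : ℕ) + 1) :=
      ball_subset_ball (by push_cast; linarith) hu
    have h2 := (hHl (i + 1) u hu').const_add (D i u - p i u)
    have h3 : (fun m => D i u - p i u +
        ∑ j ∈ Finset.range m, (D (i + 1 + j) u - p (i + 1 + j) u)) =
        fun m => ∑ j ∈ Finset.range (m + 1), (D (i + j) u - p (i + j) u) := by
      funext m
      rw [Finset.sum_range_succ', add_comm]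
      congr 1
      refine Finset.sum_congr rfl fun j _ => ?_
      rw [show i + 1 + j = i + (j + 1) by ring]
    rw [h3] at h2
    have h4 := tendsto_nhds_unique h2 (h1.comp (tendsto_add_atTop_nat 1))
    show H i u - ∑ j ∈ Finset.range i, p j u - (H (i + 1) u - ∑ j ∈ Finset.range (i + 1), p j u) =
      D i u
    rw [Finset.sum_range_succ, ← h4]
    ring

end Pool.Agent.Lib.Bed
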