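import Pool.Agent.Lib.Bed.SpecN

/-!
# MP_6f050a_an, DI: the increments of the differences of orbits and of tangent vectors
-/

set_option autoImplicit false

open scoped Topology
open Set Filter Metric

namespace Pool.Agent.Lib.Bed

namespace sDIAux

theorem tail {ε : ℕ → ℝ} {δ : ℝ} (hδ : 0 < δ) (M : ℕ) :
    ∃ M' ≥ M, ∀ m ≥ M', ∑' j, ε (m + j) ≤ δ := by
  have h1 : Tendsto (fun i => ∑' k, ε (k + i)) atTop (𝓝 0) := tendsto_sum_nat_add ε
  obtain ⟨M₁, hM₁⟩ := Filter.eventually_atTop.1 (h1.eventually_le_const hδ)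
  refine ⟨max M M₁, le_max_left _ _, fun m hm => ?_⟩
  have h2 := hM₁ m ((le_max_right _ _).trans hm)
  have h3 : (fun j => ε (m + j)) = fun j => ε (j + m) := by
    funext j
    rw [add_comm]
  rw [h3]
  exact h2

theorem deriv_bound {k : ℕ} {κ : Fin k → ℕ → ℝ} {n : ℕ} {T : (Fin k → ℂ) → (Fin k → ℂ)}
    {ζ : Fin k → ℂ} {A e : ℝ} (hd : DifferentiableAt ℂ T ζ) (hζ : wn κ n ζ ≤ A)
    (hnear : ∀ z z', wn κ n z ≤ A + 1 → wn κ n z' ≤ A + 1 →
      wn κ n ((T z - z) - (T z' - z')) ≤ e * wn κ n (z - z')) (v : Fin k → ℂ) :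
    wn κ n (fderiv ℂ T ζ v - v) ≤ e * wn κ n v := by
  have hc : Tendsto (fun i : ℕ => ‖(i : ℂ)‖) atTop atTop := by
    have h1 : (fun i : ℕ => ‖(i : ℂ)‖) = fun i : ℕ => (i : ℝ) := by
      funext i
      exact Complex.norm_natCast i
    rw [h1]
    exact tendsto_natCast_atTop_atTop
  have hlim := hd.hasFDerivAt.lim v hc
  have hlim2 : Tendsto (fun i : ℕ => wn κ n ((i : ℂ) • (T (ζ + (i : ℂ)⁻¹ • v) - T ζ) - v)) atTop
      (𝓝 (wn κ n (fderiv ℂ T ζ v - v))) :=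
    (continuous_wn.tendsto _).comp (hlim.sub_const v)
  refine le_of_tendsto hlim2 ?_
  obtain ⟨I, hI⟩ := exists_nat_ge (wn κ n v)
  filter_upwards [eventually_ge_atTop (max I 1)] with i hi
  have hi1 : 1 ≤ i := (le_max_right _ _).trans hi
  have hiI : wn κ n v ≤ (i : ℝ) := hI.trans (by exact_mod_cast (le_max_left _ _).trans hi)
  have hi0 : (i : ℂ) ≠ 0 := by
    have : i ≠ 0 := by omega
    exact_mod_cast this
  have hir : (0 : ℝ) < i := by
    have : 0 < i := by omega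
    exact_mod_cast this
  have hnorm : ‖(i : ℂ)⁻¹‖ = (i : ℝ)⁻¹ := by
    rw [norm_inv, Complex.norm_natCast]
  have h1 : wn κ n (ζ + (i : ℂ)⁻¹ • v) ≤ A + 1 := by
    refine wn_add_le.trans (add_le_add hζ ?_)
    rw [wn_smul, hnorm, inv_mul_le_iff₀ hir, mul_one]
    exact hiI
  have h2 := hnear (ζ + (i : ℂ)⁻¹ • v) ζ h1 (by linarith)
  rw [add_sub_cancel_left, wn_smul, hnorm] at h2
  have h3 : (i : ℂ) • (T (ζ + (i : ℂ)⁻¹ • v) - T ζ) - v =
      (i : ℂ) • ((T (ζ + (i : ℂ)⁻¹ • v) - (ζ + (i : ℂ)⁻¹ • v)) - (T ζ - ζ)) := by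
    have h4 : v = (i : ℂ) • ((i : ℂ)⁻¹ • v) := by
      rw [smul_smul, mul_inv_cancel₀ hi0, one_smul]
    conv_lhs =>
      arg 2
      rw [h4]
    rw [← smul_sub]
    congr 1
    abel
  rw [h3, wn_smul, Complex.norm_natCast]
  calc (i : ℝ) * wn κ n ((T (ζ + (i : ℂ)⁻¹ • v) - (ζ + (i : ℂ)⁻¹ • v)) - (T ζ - ζ))
      ≤ i * (e * ((i : ℝ)⁻¹ * wn κ n v)) := mul_le_mul_of_nonneg_left h2 hir.le
    _ = e * wn κ n v := by
      field_simp

end sDIAux

open sDIAux in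
theorem sDI : S_DI := by
  intro k S A δ hδ
  obtain ⟨M₀, ε, hε0, hεs, hnear⟩ := S.near (|A| + 1)
  obtain ⟨M, hM, htail⟩ := tail (ε := ε) hδ M₀
  refine ⟨M, ε, hε0, hεs, htail, fun m hm => ⟨?_, ?_⟩⟩
  · intro z z' hz hz' i
    obtain ⟨-, h2⟩ := hnear (m + i) (by omega)
    have hA : A ≤ |A| + 1 := by linarith [le_abs_self A]
    have h3 := h2 _ _ ((hz i).trans hA) ((hz' i).trans hA)
    rw [orb_succ, orb_succ]
    have h4 : (S.T (m + i) (orb S.T m i z) - S.T (m + i) (orb S.T m i z')) -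
        (orb S.T m i z - orb S.T m i z') =
        (S.T (m + i) (orb S.T m i z) - orb S.T m i z) -
          (S.T (m + i) (orb S.T m i z') - orb S.T m i z') := by abel
    rw [h4]
    exact h3
  · intro z hz hb w i
    obtain ⟨-, h2⟩ := hnear (m + i) (by omega)
    rw [S.fderiv_orb_succ hz]
    refine deriv_bound (A := |A|) ?_ ((hb i).trans (le_abs_self A)) h2 _
    exact (S.diff (m + i)).differentiableAt ((S.open_dom (m + i)).mem_nhds (S.orb_mem hz i))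

end Pool.Agent.Lib.Bed
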