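import Mathlib

/-!
# Stable manifolds of hyperbolic sets (MP_6f050a_an): definitions

`ℂ^k` is `Fin k → ℂ` with the sup norm.
-/

set_option autoImplicit false

open scoped Manifold ContDiff Topology
open Set Filter Metric

namespace Pool.Agent.Lib.Bed

/-! ## Hyperbolic sets -/

section

variable {E : Type} [NormedAddCommGroup E] [NormedSpace ℂ E]
variable {X : Type} [MetricSpace X] [ChartedSpace E X] [IsManifold 𝓘(ℂ, E) 1 X]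

/-- `nrm` is a continuous family of (real) norms on the tangent spaces of `X` (for instance the norms
of a Riemannian metric). -/
structure IsFinsler (nrm : (x : X) → TangentSpace 𝓘(ℂ, E) x → ℝ) : Prop where
  pos : ∀ (x : X) (v : TangentSpace 𝓘(ℂ, E) x), v ≠ 0 → 0 < nrm x v
  add_le : ∀ (x : X) (v w : TangentSpace 𝓘(ℂ, E) x), nrm x (v + w) ≤ nrm x v + nrm x w
  smul : ∀ (x : X) (r : ℝ) (v : TangentSpace 𝓘(ℂ, E) x), nrm x ((r : ℂ) • v) = |r| * nrm x v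
  cont : Continuous (fun v : TangentBundle 𝓘(ℂ, E) X => nrm v.1 v.2)

omit [IsManifold 𝓘(ℂ, E) 1 X] in
/-- The derivative of the `n`-th iterate of `f` at `x`. -/
noncomputable def dit (f : X ≃ X) (n : ℕ) (x : X) :
    TangentSpace 𝓘(ℂ, E) x →L[ℂ] TangentSpace 𝓘(ℂ, E) (f^[n] x) :=
  mfderiv 𝓘(ℂ, E) 𝓘(ℂ, E) (f^[n]) x

/-- `f` is an automorphism of `X`, `K` is a compact set with `f(K) = K`, and `f` acts hyperbolically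
on `K`, with the splitting `Es ⊕ Eu` and the constants `C > 0` and `0 < lam < 1`. -/
structure IsHyp (nrm : (x : X) → TangentSpace 𝓘(ℂ, E) x → ℝ) (f : X ≃ X) (K : Set X)
    (Es Eu : (x : X) → Submodule ℂ (TangentSpace 𝓘(ℂ, E) x)) (C lam : ℝ) : Prop where
  hol : MDifferentiable 𝓘(ℂ, E) 𝓘(ℂ, E) f
  hol_symm : MDifferentiable 𝓘(ℂ, E) 𝓘(ℂ, E) f.symm
  compact : IsCompact K
  image : f '' K = K
  compl : ∀ x ∈ K, IsCompl (Es x) (Eu x)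
  map_s : ∀ x ∈ K, (Es x).map (mfderiv 𝓘(ℂ, E) 𝓘(ℂ, E) f x).toLinearMap = Es (f x)
  map_u : ∀ x ∈ K, (Eu x).map (mfderiv 𝓘(ℂ, E) 𝓘(ℂ, E) f x).toLinearMap = Eu (f x)
  C_pos : 0 < C
  lam_pos : 0 < lam
  lam_lt : lam < 1
  contr : ∀ x ∈ K, ∀ v ∈ Es x, ∀ n : ℕ, nrm (f^[n] x) (dit f n x v) ≤ C * lam ^ n * nrm x v
  expand : ∀ x ∈ K, ∀ v ∈ Eu x, ∀ n : ℕ, nrm x v ≤ C * lam ^ n * nrm (f^[n] x) (dit f n x v)

/-- The stable manifold of `p` (as a set). -/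
def stab (f : X ≃ X) (p : X) : Set X :=
  {q | Tendsto (fun n : ℕ => dist (f^[n] q) (f^[n] p)) atTop (𝓝 0)}

variable (E) in
/-- `S` is the image of an injective holomorphic immersion `ℂ^k → X`. -/
def IsCk (k : ℕ) (S : Set X) : Prop :=
  ∃ Φ : (Fin k → ℂ) → X, MDifferentiable 𝓘(ℂ, Fin k → ℂ) 𝓘(ℂ, E) Φ ∧ Function.Injective Φ ∧
    (∀ z, Function.Injective (mfderiv 𝓘(ℂ, Fin k → ℂ) 𝓘(ℂ, E) Φ z)) ∧ range Φ = S

end

/-! ## Weights and weighted norms -/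

/-- The weighted norm `max_t κ_t(m) |z_t|` of `z` at the time `m`. -/
noncomputable def wn {k : ℕ} (κ : Fin k → ℕ → ℝ) (m : ℕ) (z : Fin k → ℂ) : ℝ :=
  ‖fun t => (κ t m : ℂ) * z t‖

/-- Decreasing weights with decreasing quotients `κ_t / κ_s`, `s ≤ t`. -/
structure IsWt {k : ℕ} (κ : Fin k → ℕ → ℝ) : Prop where
  pos : ∀ t m, 0 < κ t m
  anti : ∀ t m, κ t (m + 1) ≤ κ t m
  ratio : ∀ s t : Fin k, s ≤ t → ∀ m, κ t (m + 1) * κ s m ≤ κ t m * κ s (m + 1)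

/-- `i` steps of the orbit of `z`, starting at the time `m`. -/
def orb {k : ℕ} (T : ℕ → (Fin k → ℂ) → (Fin k → ℂ)) (m : ℕ) : ℕ → (Fin k → ℂ) → (Fin k → ℂ)
  | 0, z => z
  | i + 1, z => T (m + i) (orb T m i z)

/-- A normalised system: maps `T m : dom m → dom (m + 1)` which, in the weighted norms, are very close
to the identity. -/
structure Sys (k : ℕ) where
  dom : ℕ → Set (Fin k → ℂ)
  T : ℕ → (Fin k → ℂ) → (Fin k → ℂ)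
  κ : Fin k → ℕ → ℝ
  wt : IsWt κ
  open_dom : ∀ m, IsOpen (dom m)
  diff : ∀ m, DifferentiableOn ℂ (T m) (dom m)
  maps : ∀ m, MapsTo (T m) (dom m) (dom (m + 1))
  inj : ∀ m, InjOn (T m) (dom m)
  dinj : ∀ m, ∀ z ∈ dom m, ∀ w, fderiv ℂ (T m) z w = 0 → w = 0
  T_zero : ∀ m, T m 0 = 0
  near : ∀ A : ℝ, ∃ (M : ℕ) (ε : ℕ → ℝ), (∀ m, 0 ≤ ε m) ∧ Summable ε ∧ ∀ m ≥ M,
    (∀ z, wn κ m z ≤ A → z ∈ dom m) ∧
    ∀ z z', wn κ m z ≤ A → wn κ m z' ≤ A →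
      wn κ m ((T m z - z) - (T m z' - z')) ≤ ε m * wn κ m (z - z')
  bdd : ∀ n, ∃ A : ℝ, ∀ z ∈ dom n, ∀ i, wn κ (n + i) (orb T n i z) ≤ A

/-- The first `s` coordinates are defined. -/
structure Lev {k : ℕ} (S : Sys k) (s : ℕ) (U : ℕ → (Fin k → ℂ) → (Fin s → ℂ)) : Prop where
  diff : ∀ m, DifferentiableOn ℂ (U m) (S.dom m)
  comp : ∀ m, ∀ z ∈ S.dom m, U (m + 1) (S.T m z) = U m z
  lim : ∀ m, ∀ z ∈ S.dom m, ∀ z' ∈ S.dom m, U m z = U m z' → ∀ t : Fin k, t.val < s →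
    Tendsto (fun i => orb S.T m i z t - orb S.T m i z' t) atTop (𝓝 0)
  dlim : ∀ m, ∀ z ∈ S.dom m, ∀ w, fderiv ℂ (U m) z w = 0 → ∀ t : Fin k, t.val < s →
    Tendsto (fun i => fderiv ℂ (orb S.T m i) z w t) atTop (𝓝 0)
  solv : ∀ A : ℝ, ∃ (M : ℕ) (A' : ℝ), ∀ m ≥ M, ∀ u : Fin s → ℂ, ‖u‖ ≤ A → ∀ ζ : Fin k → ℂ,
    (∀ t : Fin k, s ≤ t.val → S.κ t m * ‖ζ t‖ ≤ A) →
    ∃ ζ' : Fin k → ℂ, (∀ t : Fin k, s ≤ t.val → ζ' t = ζ t) ∧ wn S.κ m ζ' ≤ A' ∧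
      ζ' ∈ S.dom m ∧ U m ζ' = u

/-- `σ` is a section of `U` over the ball of radius `R`, at the time `n`, with orbits bounded by
`A`. -/
structure Sec {k : ℕ} (S : Sys k) (s : ℕ) (U : ℕ → (Fin k → ℂ) → (Fin s → ℂ)) (R A : ℝ) (n : ℕ)
    (σ : (Fin s → ℂ) → (Fin k → ℂ)) : Prop where
  diff : DifferentiableOn ℂ σ (ball 0 R)
  mem : ∀ u ∈ ball (0 : Fin s → ℂ) R, σ u ∈ S.dom n
  val : ∀ u ∈ ball (0 : Fin s → ℂ) R, U n (σ u) = u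
  bdd : ∀ u ∈ ball (0 : Fin s → ℂ) R, ∀ i, wn S.κ (n + i) (orb S.T n i (σ u)) ≤ A

/-- `W j` is the limit of the differences of the coordinates number `s` of a point and of the point of
the section `σ` with the same value of `U`, at the time `n + j`. -/
structure IsW {k : ℕ} (S : Sys k) (s : Fin k) (U : ℕ → (Fin k → ℂ) → (Fin s.val → ℂ)) (R : ℝ) (n : ℕ)
    (σ : (Fin s.val → ℂ) → (Fin k → ℂ)) (W : ℕ → (Fin k → ℂ) → ℂ) : Prop where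
  diff : ∀ j, DifferentiableOn ℂ (W j) {z | z ∈ S.dom (n + j) ∧ U (n + j) z ∈ ball 0 R}
  comp : ∀ j, ∀ z ∈ S.dom (n + j), U (n + j) z ∈ ball (0 : Fin s.val → ℂ) R →
    W (j + 1) (S.T (n + j) z) = W j z
  lim : ∀ j, ∀ z ∈ S.dom (n + j), U (n + j) z ∈ ball (0 : Fin s.val → ℂ) R →
    Tendsto (fun i => orb S.T (n + j) i z s - orb S.T n (j + i) (σ (U (n + j) z)) s) atTop
      (𝓝 (W j z))
  dlim : ∀ j, ∀ z ∈ S.dom (n + j), U (n + j) z ∈ ball (0 : Fin s.val → ℂ) R → ∀ w,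
    fderiv ℂ (U (n + j)) z w = 0 →
    Tendsto (fun i => fderiv ℂ (orb S.T (n + j) i) z w s) atTop (𝓝 (fderiv ℂ (W j) z w))

/-! ## Uniformly attracting sequences -/

/-- A uniformly attracting sequence of injective holomorphic maps of the ball of radius `r` into
itself, with linear parts `L n`. -/
structure SeqD (k : ℕ) (r D C c : ℝ) (f : ℕ → (Fin k → ℂ) → (Fin k → ℂ))
    (L : ℕ → (Fin k → ℂ) →L[ℂ] (Fin k → ℂ)) : Prop where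
  r_pos : 0 < r
  D_pos : 0 < D
  D_lt : D < 1
  C_pos : 0 < C
  c_pos : 0 < c
  diff : ∀ n, DifferentiableOn ℂ (f n) (ball 0 r)
  inj : ∀ n, InjOn (f n) (ball 0 r)
  dinj : ∀ n, ∀ x ∈ ball (0 : Fin k → ℂ) r, ∀ w, fderiv ℂ (f n) x w = 0 → w = 0
  contr : ∀ n, ∀ x ∈ ball (0 : Fin k → ℂ) r, ‖f n x‖ ≤ D * ‖x‖
  quad : ∀ n, ∀ x ∈ ball (0 : Fin k → ℂ) r, ∀ y ∈ ball (0 : Fin k → ℂ) r,
    ‖(f n x - L n x) - (f n y - L n y)‖ ≤ C * (‖x‖ + ‖y‖) * ‖x - y‖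
  contrL : ∀ n x, ‖L n x‖ ≤ D * ‖x‖
  low : ∀ n x, c * ‖x‖ ≤ ‖L n x‖

/-- The products `L (m - 1) ∘ ... ∘ L 0 ∘ Λ₀`. -/
noncomputable def prodL {k : ℕ} (L : ℕ → (Fin k → ℂ) →L[ℂ] (Fin k → ℂ))
    (Λ₀ : (Fin k → ℂ) →L[ℂ] (Fin k → ℂ)) : ℕ → (Fin k → ℂ) →L[ℂ] (Fin k → ℂ)
  | 0 => Λ₀
  | m + 1 => (L m).comp (prodL L Λ₀ m)

/-- The basin of `f` is biholomorphic to `ℂ^k`: there are compatible injective holomorphic maps `Ψ n`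
of the balls, whose images cover `ℂ^k`. -/
def BasinCk (k : ℕ) (r : ℝ) (f : ℕ → (Fin k → ℂ) → (Fin k → ℂ)) : Prop :=
  ∃ Ψ : ℕ → (Fin k → ℂ) → (Fin k → ℂ), (∀ n, DifferentiableOn ℂ (Ψ n) (ball 0 r)) ∧
    (∀ n, ∀ x ∈ ball (0 : Fin k → ℂ) r, Ψ (n + 1) (f n x) = Ψ n x) ∧
    (∀ n, InjOn (Ψ n) (ball 0 r)) ∧
    (∀ n, ∀ x ∈ ball (0 : Fin k → ℂ) r, ∀ w, fderiv ℂ (Ψ n) x w = 0 → w = 0) ∧
    ∀ u, ∃ n, ∃ x ∈ ball (0 : Fin k → ℂ) r, Ψ n x = u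

/-- The weights of the main theorem: positive, decreasing with bounded steps, with decreasing
quotients, tending to zero. -/
structure IsW0 {k : ℕ} (c : ℝ) (om : Fin k → ℕ → ℝ) : Prop where
  pos : ∀ t m, 0 < om t m
  anti : ∀ t m, om t (m + 1) ≤ om t m
  step : ∀ t m, c * om t m ≤ om t (m + 1)
  ratio : ∀ s t : Fin k, s ≤ t → ∀ m, om t (m + 1) * om s m ≤ om t m * om s (m + 1)
  lim : ∀ t, Tendsto (om t) atTop (𝓝 0)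

/-- Condition (K) for linear maps `Λ m` of `ℂ^k`: with respect to some basis `e`, for some weights
`om`, `|Λ m e_t| ≤ C om_t(m)` and `om_s(m) om_t(m) |z_t| ≤ C exp(- η m) |Λ m (∑ z_t e_t)|`. -/
def KCond (k : ℕ) (Λ : ℕ → (Fin k → ℂ) →L[ℂ] (Fin k → ℂ)) : Prop :=
  ∃ (e : (Fin k → ℂ) ≃L[ℂ] (Fin k → ℂ)) (om : Fin k → ℕ → ℝ) (C c η : ℝ), 0 < C ∧ 0 < c ∧ 0 < η ∧
    IsW0 c om ∧ (∀ t m, ‖Λ m (e (Pi.single t 1))‖ ≤ C * om t m) ∧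
    ∀ m (z : Fin k → ℂ) (s t : Fin k), om s m * om t m * ‖z t‖ ≤ C * Real.exp (-(η * m)) * ‖Λ m (e z)‖

end Pool.Agent.Lib.Bed
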