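import Pool.Agent.Lib.Bed.Basic

/-!
# Stable manifolds: charts, adapted coordinates (definitions for part M)
-/

set_option autoImplicit false

open scoped Manifold ContDiff Topology
open Set Filter Metric

namespace Pool.Agent.Lib.Bed

/-- `ℂ^k × ℂ^l` with the sup norm. -/
abbrev V (k l : ℕ) : Type := (Fin k → ℂ) × (Fin l → ℂ)

section

variable {E : Type} [NormedAddCommGroup E] [NormedSpace ℂ E]
variable {X : Type} [MetricSpace X] [ChartedSpace E X]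

/-- `nrm`, with the vectors considered as elements of `E` (`TangentSpace 𝓘(ℂ, E) x` is `E`). -/
def nE (nrm : (x : X) → TangentSpace 𝓘(ℂ, E) x → ℝ) (x : X) (v : E) : ℝ := nrm x v

/-- The derivative of `g : X → X` at `x`, considered as an endomorphism of `E`. -/
noncomputable def dg (g : X → X) (x : X) : E →L[ℂ] E := mfderiv 𝓘(ℂ, E) 𝓘(ℂ, E) g x

/-- The derivative of a parametrisation `u : E → X` at `v`, considered as an endomorphism of `E`. -/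
noncomputable def du (u : E → X) (v : E) : E →L[ℂ] E := mfderiv 𝓘(ℂ, E) 𝓘(ℂ, E) u v

/-- `Es x` considered as a subspace of `E`. -/
def sE (Es : (x : X) → Submodule ℂ (TangentSpace 𝓘(ℂ, E) x)) (x : X) : Submodule ℂ E := Es x

/-- Uniform charts centred at the points of `K`: `ψ x : ball 0 ρ → X`, `ψ x 0 = x`, with inverse `χ x`. -/
structure UCh (nrm : (x : X) → TangentSpace 𝓘(ℂ, E) x → ℝ) (K : Set X) (ψ : X → E → X) (χ : X → X → E)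
    (ρ a b : ℝ) : Prop where
  ρ_pos : 0 < ρ
  a_pos : 0 < a
  b_pos : 0 < b
  zero : ∀ x ∈ K, ψ x 0 = x
  diff : ∀ x ∈ K, ∀ v ∈ ball (0 : E) ρ, MDifferentiableAt 𝓘(ℂ, E) 𝓘(ℂ, E) (ψ x) v
  left : ∀ x ∈ K, ∀ v ∈ ball (0 : E) ρ, χ x (ψ x v) = v
  diff' : ∀ x ∈ K, ∀ v ∈ ball (0 : E) ρ, MDifferentiableAt 𝓘(ℂ, E) 𝓘(ℂ, E) (χ x) (ψ x v)
  near : ∀ ε > 0, ∃ δ > 0, ∀ x ∈ K, ∀ v ∈ ball (0 : E) ρ, ‖v‖ < δ → dist (ψ x v) x < ε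
  near' : ∀ ε > 0, ∃ δ > 0, ∀ x ∈ K, ∀ q, dist q x < δ → ∃ v ∈ ball (0 : E) ρ, ‖v‖ < ε ∧ ψ x v = q
  low : ∀ x ∈ K, ∀ w : E, a * ‖w‖ ≤ nE nrm x (du (ψ x) 0 w)
  up : ∀ x ∈ K, ∀ w : E, nE nrm x (du (ψ x) 0 w) ≤ b * ‖w‖

/-- The map `g` in the uniform charts, near `x`. -/
def loc (ψ : X → E → X) (χ : X → X → E) (g : X → X) (x : X) (v : E) : E := χ (g x) (g (ψ x v))

/-- `g` in the uniform charts: maps of the ball of radius `ρ'` into the ball of radius `ε`. -/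
structure ULoc (K : Set X) (ψ : X → E → X) (χ : X → X → E) (ρ : ℝ) (g : X → X) (ρ' ε : ℝ) : Prop where
  pos : 0 < ρ'
  le : ρ' ≤ ρ
  diff : ∀ x ∈ K, DifferentiableOn ℂ (loc ψ χ g x) (ball 0 ρ')
  small : ∀ x ∈ K, ∀ v ∈ ball (0 : E) ρ', ‖loc ψ χ g x v‖ < ε
  comm : ∀ x ∈ K, ∀ v ∈ ball (0 : E) ρ', ψ (g x) (loc ψ χ g x v) = g (ψ x v)
  zero : ∀ x ∈ K, loc ψ χ g x 0 = 0
  deriv : ∀ x ∈ K, ∀ w : E, du (ψ (g x)) 0 (fderiv ℂ (loc ψ χ g x) 0 w) = dg g x (du (ψ x) 0 w)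

/-- Adapted parametrisations `P n` near the points `f^{Nn} p` and the maps `H n` (`f^N` in these
coordinates). -/
structure AdP (f : X ≃ X) (p : X) (N k l : ℕ) (P : ℕ → V k l → X) (H : ℕ → V k l → V k l)
    (ρ ρ' : ℝ) : Prop where
  N_pos : 0 < N
  ρ_pos : 0 < ρ'
  le : ρ' ≤ ρ
  diff : ∀ n, ∀ v ∈ ball (0 : V k l) ρ, MDifferentiableAt 𝓘(ℂ, V k l) 𝓘(ℂ, E) (P n) v
  inj : ∀ n, InjOn (P n) (ball 0 ρ)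
  dinj : ∀ n, ∀ v ∈ ball (0 : V k l) ρ, Function.Injective (mfderiv 𝓘(ℂ, V k l) 𝓘(ℂ, E) (P n) v)
  zero : ∀ n, P n 0 = f^[N * n] p
  near : ∀ ε > 0, ∃ δ > 0, ∀ n, ∀ v ∈ ball (0 : V k l) ρ, ‖v‖ < δ → dist (P n v) (f^[N * n] p) < ε
  near' : ∀ ε > 0, ∃ δ > 0, ∀ n q, dist q (f^[N * n] p) < δ →
    ∃ v ∈ ball (0 : V k l) ρ, ‖v‖ < ε ∧ P n v = q
  maps : ∀ n, MapsTo (H n) (ball 0 ρ') (ball 0 ρ)
  comm : ∀ n, ∀ v ∈ ball (0 : V k l) ρ', P (n + 1) (H n v) = f^[N] (P n v)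
  diffH : ∀ n, DifferentiableOn ℂ (H n) (ball 0 ρ')

/-- Adapted linear frames `e n` of the tangent spaces at the points `f^{Nn} p` (in the uniform charts):
`ℂ^k × 0` corresponds to `Es`, and the derivative of `f^N` is `A n ⊕ B n`. -/
structure Frm (f : X ≃ X) (p : X) (Ep : Submodule ℂ E) (ψ : X → E → X) (χ : X → X → E) (N k l : ℕ)
    (e : ℕ → V k l ≃L[ℂ] E) (A : ℕ → (Fin k → ℂ) →L[ℂ] (Fin k → ℂ))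
    (B : ℕ → (Fin l → ℂ) →L[ℂ] (Fin l → ℂ)) (C₁ c : ℝ) : Prop where
  N_pos : 0 < N
  C_pos : 0 < C₁
  c_pos : 0 < c
  up : ∀ n v, ‖e n v‖ ≤ C₁ * ‖v‖
  low : ∀ n v, ‖v‖ ≤ C₁ * ‖e n v‖
  mem : ∀ z, du (ψ p) 0 (e 0 (z, 0)) ∈ Ep
  dim : Module.finrank ℂ Ep = k
  der : ∀ n v, fderiv ℂ (loc ψ χ (f^[N]) (f^[N * n] p)) 0 (e n v) = e (n + 1) (A n v.1, B n v.2)
  A_le : ∀ n x, ‖A n x‖ ≤ 1 / 8 * ‖x‖
  A_ge : ∀ n x, c * ‖x‖ ≤ ‖A n x‖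
  B_ge : ∀ n y, 8 * ‖y‖ ≤ ‖B n y‖

end

/-- A sequence of hyperbolic germs of `ℂ^k × ℂ^l`, uniform. -/
structure AdH (k l : ℕ) (H : ℕ → V k l → V k l) (A : ℕ → (Fin k → ℂ) →L[ℂ] (Fin k → ℂ))
    (B : ℕ → (Fin l → ℂ) →L[ℂ] (Fin l → ℂ)) (ρ C c : ℝ) : Prop where
  ρ_pos : 0 < ρ
  C_pos : 0 < C
  c_pos : 0 < c
  diff : ∀ n, DifferentiableOn ℂ (H n) (ball 0 ρ)
  zero : ∀ n, H n 0 = 0
  quad : ∀ n, ∀ v ∈ ball (0 : V k l) ρ, ∀ v' ∈ ball (0 : V k l) ρ,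
    ‖(H n v - (A n v.1, B n v.2)) - (H n v' - (A n v'.1, B n v'.2))‖ ≤ C * (‖v‖ + ‖v'‖) * ‖v - v'‖
  A_le : ∀ n x, ‖A n x‖ ≤ 1 / 8 * ‖x‖
  A_ge : ∀ n x, c * ‖x‖ ≤ ‖A n x‖
  B_ge : ∀ n y, 8 * ‖y‖ ≤ ‖B n y‖

/-- The local stable manifolds `{(x, τ n x)}` of a sequence `H n` and the restrictions `F n`. -/
structure IsLSM (k l : ℕ) (r C c : ℝ) (H : ℕ → V k l → V k l)
    (A : ℕ → (Fin k → ℂ) →L[ℂ] (Fin k → ℂ)) (τ : ℕ → (Fin k → ℂ) → (Fin l → ℂ))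
    (F : ℕ → (Fin k → ℂ) → (Fin k → ℂ)) : Prop where
  seq : SeqD k r (1 / 4) C c F A
  diff : ∀ n, DifferentiableOn ℂ (τ n) (ball 0 r)
  le : ∀ n, ∀ x ∈ ball (0 : Fin k → ℂ) r, ‖τ n x‖ ≤ ‖x‖
  inv : ∀ n, ∀ x ∈ ball (0 : Fin k → ℂ) r, H n (x, τ n x) = (F n x, τ (n + 1) (F n x))
  uniq : ∀ n (v : ℕ → V k l), (∀ j, ‖v j‖ < r) → (∀ j, v (j + 1) = H (n + j) (v j)) →
    (v 0).2 = τ n (v 0).1

/-! ## Sequences of linear maps -/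

/-- A sequence of linear maps with bounded steps and uniform contraction with the rate `lam`. -/
structure LSeq (k : ℕ) (Λ : ℕ → (Fin k → ℂ) →L[ℂ] (Fin k → ℂ)) (C c lam : ℝ) : Prop where
  C_pos : 0 < C
  c_pos : 0 < c
  lam_pos : 0 < lam
  lam_lt : lam < 1
  low0 : ∀ x, c * ‖x‖ ≤ ‖Λ 0 x‖
  low : ∀ m x, c * ‖Λ m x‖ ≤ ‖Λ (m + 1) x‖
  up : ∀ m j x, ‖Λ (m + j) x‖ ≤ C * lam ^ j * ‖Λ m x‖

/-- Condition (A): `|Λ_m v|² |w| ≤ C exp(- η m) |v|² |Λ_m w|`. -/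
def ACond (k : ℕ) (Λ : ℕ → (Fin k → ℂ) →L[ℂ] (Fin k → ℂ)) : Prop :=
  ∃ C η : ℝ, 0 < C ∧ 0 < η ∧ ∀ m v w,
    ‖Λ m v‖ ^ 2 * ‖w‖ ≤ C * Real.exp (-(η * m)) * ‖v‖ ^ 2 * ‖Λ m w‖

/-- Condition (B), dimension two: for all large `m` the largest and the smallest stretch `S`, `s` of `Λ m`
(up to constants) satisfy `S^b ≤ s ≤ S^a`, where `b < a + 1`. -/
def BCond (Λ : ℕ → (Fin 2 → ℂ) →L[ℂ] (Fin 2 → ℂ)) : Prop :=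
  ∃ C a b : ℝ, 0 < C ∧ b < a + 1 ∧ ∀ᶠ m : ℕ in atTop, ∃ S s : ℝ, 0 < S ∧ 0 < s ∧
    (∀ x, ‖Λ m x‖ ≤ C * S * ‖x‖) ∧ (∃ x, x ≠ 0 ∧ S * ‖x‖ ≤ C * ‖Λ m x‖) ∧
    (∀ x, s * ‖x‖ ≤ C * ‖Λ m x‖) ∧ (∃ x, x ≠ 0 ∧ ‖Λ m x‖ ≤ C * s * ‖x‖) ∧ S ^ b ≤ s ∧ s ≤ S ^ a

/-- Condition (C): for some `v₀ ≠ 0`, `lam^{2m} dist(v, ℂ v₀) ≤ C exp(- η m) |Λ_m v|`. -/
def CCond (k : ℕ) (Λ : ℕ → (Fin k → ℂ) →L[ℂ] (Fin k → ℂ)) (lam : ℝ) : Prop :=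
  ∃ (v₀ : Fin k → ℂ) (C η : ℝ), v₀ ≠ 0 ∧ 0 < C ∧ 0 < η ∧ ∀ (m : ℕ) v, ∃ c : ℂ,
    lam ^ (2 * m) * ‖v - c • v₀‖ ≤ C * Real.exp (-(η * m)) * ‖Λ m v‖

/-! ## The conditions for a point of a hyperbolic set -/

section

variable {E : Type} [NormedAddCommGroup E] [NormedSpace ℂ E]
variable {X : Type} [MetricSpace X] [ChartedSpace E X]

/-- The norm of `df^m v`, for `v` in the tangent space at `p`. -/
noncomputable def nit (nrm : (x : X) → TangentSpace 𝓘(ℂ, E) x → ℝ) (f : X ≃ X) (p : X) (m : ℕ)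
    (v : TangentSpace 𝓘(ℂ, E) p) : ℝ := nrm (f^[m] p) (dit f m p v)

/-- The linear maps `Λ n` of `ℂ^k` are the derivatives of `f^{Nn}` on `Ep`, up to bounded factors. -/
structure Cmp (nrm : (x : X) → TangentSpace 𝓘(ℂ, E) x → ℝ) (f : X ≃ X) (p : X)
    (Ep : Submodule ℂ (TangentSpace 𝓘(ℂ, E) p)) (N k : ℕ)
    (j : (Fin k → ℂ) →ₗ[ℂ] TangentSpace 𝓘(ℂ, E) p) (Λ : ℕ → (Fin k → ℂ) →L[ℂ] (Fin k → ℂ))
    (a b : ℝ) : Prop where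
  N_pos : 0 < N
  a_pos : 0 < a
  b_pos : 0 < b
  inj : Function.Injective j
  range : LinearMap.range j = Ep
  zero : Λ 0 = ContinuousLinearMap.id ℂ (Fin k → ℂ)
  low : ∀ n z, a * ‖Λ n z‖ ≤ nit nrm f p (N * n) (j z)
  up : ∀ n z, nit nrm f p (N * n) (j z) ≤ b * ‖Λ n z‖

/-- Condition (K) at `p` (`k` is the dimension of `Es p`): there are a basis `e` of `Es p` and weights
`om t m` (positive, decreasing in `m` with bounded steps and with decreasing quotients `om t / om s`,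
`s ≤ t`, tending to zero) with `|df^m e_t| ≤ C om_t(m)` and
`om_s(m) om_t(m) |z_t| ≤ C exp(- η m) |df^m (∑ z_t e_t)|`. -/
def PtK (nrm : (x : X) → TangentSpace 𝓘(ℂ, E) x → ℝ) (f : X ≃ X) (p : X)
    (Ep : Submodule ℂ (TangentSpace 𝓘(ℂ, E) p)) : Prop :=
  ∃ (k : ℕ) (e : Module.Basis (Fin k) ℂ Ep) (om : Fin k → ℕ → ℝ) (C c η : ℝ), 0 < C ∧ 0 < c ∧ 0 < η ∧
    IsW0 c om ∧ (∀ t m, nit nrm f p m (e t) ≤ C * om t m) ∧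
    ∀ m (z : Fin k → ℂ) (s t : Fin k),
      om s m * om t m * ‖z t‖ ≤ C * Real.exp (-(η * m)) * nit nrm f p m (∑ t, z t • e t : Ep)

/-- Condition (A) at `p`: `|df^m v|² |w| ≤ C exp(- η m) |v|² |df^m w|` on `Es p`. -/
def PtA (nrm : (x : X) → TangentSpace 𝓘(ℂ, E) x → ℝ) (f : X ≃ X) (p : X)
    (Ep : Submodule ℂ (TangentSpace 𝓘(ℂ, E) p)) : Prop :=
  ∃ C η : ℝ, 0 < C ∧ 0 < η ∧ ∀ m, ∀ v ∈ Ep, ∀ w ∈ Ep,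
    nit nrm f p m v ^ 2 * nrm p w ≤ C * Real.exp (-(η * m)) * nrm p v ^ 2 * nit nrm f p m w

/-- `S` is the largest and `s` is the smallest stretch `|df^m v| / |v|` of `df^m` on `Es p`. -/
def IsStr (nrm : (x : X) → TangentSpace 𝓘(ℂ, E) x → ℝ) (f : X ≃ X) (p : X)
    (Ep : Submodule ℂ (TangentSpace 𝓘(ℂ, E) p)) (m : ℕ) (S s : ℝ) : Prop :=
  (∀ v ∈ Ep, s * nrm p v ≤ nit nrm f p m v ∧ nit nrm f p m v ≤ S * nrm p v) ∧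
    (∃ v ∈ Ep, v ≠ 0 ∧ nit nrm f p m v = S * nrm p v) ∧
    ∃ v ∈ Ep, v ≠ 0 ∧ nit nrm f p m v = s * nrm p v

/-- Condition (B) at `p`: `dim Es p = 2` and for some `b < a + 1` the largest and smallest stretch `S`, `s`
of `df^m` on `Es p` satisfy `S^b ≤ s ≤ S^a` for all large `m`. -/
def PtB (nrm : (x : X) → TangentSpace 𝓘(ℂ, E) x → ℝ) (f : X ≃ X) (p : X)
    (Ep : Submodule ℂ (TangentSpace 𝓘(ℂ, E) p)) : Prop :=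
  Module.finrank ℂ Ep = 2 ∧ ∃ a b : ℝ, b < a + 1 ∧ ∀ᶠ m : ℕ in atTop, ∃ S s : ℝ, 0 < s ∧
    IsStr nrm f p Ep m S s ∧ S ^ b ≤ s ∧ s ≤ S ^ a

/-- Condition (C) at `p`: for some `v₀ ≠ 0` in `Es p`, for all `m`, `v` there is `c` with
`lam^{2m} |v - c v₀| ≤ C exp(- η m) |df^m v|`. -/
def PtC (nrm : (x : X) → TangentSpace 𝓘(ℂ, E) x → ℝ) (f : X ≃ X) (p : X)
    (Ep : Submodule ℂ (TangentSpace 𝓘(ℂ, E) p)) (lam : ℝ) : Prop :=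
  ∃ (v₀ : TangentSpace 𝓘(ℂ, E) p) (C η : ℝ), v₀ ∈ Ep ∧ v₀ ≠ 0 ∧ 0 < C ∧ 0 < η ∧ ∀ m : ℕ, ∀ v ∈ Ep,
    ∃ c : ℂ, lam ^ (2 * m) * nrm p (v - c • v₀) ≤ C * Real.exp (-(η * m)) * nit nrm f p m v

end

end Pool.Agent.Lib.Bed
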