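import Pool.Agent.Lib.Bed.SpecN

/-!
# Bed, Dfn: the difference of the limit functions of two sections is a function of `U`
-/

set_option autoImplicit false

open scoped Topology
open Set Filter Metric

namespace Pool.Agent.Lib.Bed

namespace sDfnAux

variable {k : ℕ} {S : Sys k} {s : Fin k} {U : ℕ → (Fin k → ℂ) → (Fin s.val → ℂ)} {R : ℝ} {n : ℕ}
  {σ : (Fin s.val → ℂ) → (Fin k → ℂ)} {W : ℕ → (Fin k → ℂ) → ℂ}

theorem W_orb (hU : Lev S s.val U) (hW : IsW S s U R n σ W) (j m : ℕ) (hm : m = n + j)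
    (y : Fin k → ℂ) (hy : y ∈ S.dom m) (hyU : U m y ∈ ball (0 : Fin s.val → ℂ) R) (l : ℕ) :
    W (j + l) (orb S.T m l y) = W j y := by
  subst hm
  induction l with
  | zero => rfl
  | succ l ih =>
    have e : n + (j + l) = n + j + l := (Nat.add_assoc _ _ _).symm
    have h1 := hW.comp (j + l) (orb S.T (n + j) l y)
    rw [e] at h1
    have h2 := h1 (S.orb_mem hy l) (by rw [hU.orb_comp hy l]; exact hyU)
    rw [orb_succ, ← ih, ← h2]
    rfl

end sDfnAux

open sDfnAux in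
theorem sDfn : S_Dfn := by
  intro k S s U hU R A n σ W R' A' n' σ' W' hRR hσ hσ' hW hW'
  obtain ⟨j₀, j₀', hN, hN2⟩ : ∃ j₀ j₀', n + j₀ = n' + j₀' ∧
      ∀ j j', n + j = n' + j' → ∃ l, j = j₀ + l ∧ j' = j₀' + l := by
    rcases le_total n n' with h | h
    · exact ⟨n' - n, 0, by omega, fun j j' hj => ⟨j', by omega, by omega⟩⟩
    · exact ⟨0, n - n', by omega, fun j j' hj => ⟨j, by omega, by omega⟩⟩
  have hball : ball (0 : Fin s.val → ℂ) R ⊆ ball 0 R' := ball_subset_ball hRR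
  have hmem : ∀ u ∈ ball (0 : Fin s.val → ℂ) R, ∀ j', orb S.T n' j' (σ' u) ∈ S.dom (n' + j') :=
    fun u hu j' => S.orb_mem (hσ'.mem u (hball hu)) j'
  have hval : ∀ u ∈ ball (0 : Fin s.val → ℂ) R, ∀ j',
      U (n' + j') (orb S.T n' j' (σ' u)) = u := by
    intro u hu j'
    rw [hU.orb_comp (hσ'.mem u (hball hu)) j', hσ'.val u (hball hu)]
  refine ⟨fun u => W j₀ (orb S.T n' j₀' (σ' u)), ?_, ?_⟩
  · refine (hW.diff j₀).comp ((S.orb_diff n' j₀').comp (hσ'.diff.mono hball)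
      fun u hu => hσ'.mem u (hball hu)) fun u hu => ?_
    have h1 := hmem u hu j₀'
    have h2 := hval u hu j₀'
    rw [← hN] at h1 h2
    refine ⟨h1, ?_⟩
    rw [h2]
    exact hu
  · intro j j' hjj z hz hzU
    set u := U (n + j) z with hu
    have hz' : z ∈ S.dom (n' + j') := by rw [← hjj]; exact hz
    have hu' : U (n' + j') z = u := by rw [← hjj]
    have t1 := hW.lim j z hz hzU
    have t2 := hW'.lim j' z hz' (by rw [hu']; exact hball hzU)
    have hy1 : orb S.T n' j' (σ' u) ∈ S.dom (n + j) := by rw [hjj]; exact hmem u hzU j'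
    have hy2 : U (n + j) (orb S.T n' j' (σ' u)) = u := by rw [hjj]; exact hval u hzU j'
    have t3 := hW.lim j (orb S.T n' j' (σ' u)) hy1 (by rw [hy2]; exact hzU)
    have hlim : W j z - W' j' z = W j (orb S.T n' j' (σ' u)) := by
      refine tendsto_nhds_unique (t1.sub t2) (t3.congr fun i => ?_)
      rw [hy2, hu', ← hu, hjj, orb_add j' i (σ' u)]
      ring
    rw [hlim]
    obtain ⟨l, rfl, rfl⟩ := hN2 j j' hjj
    have h1 := hmem u hzU j₀'
    have h2 := hval u hzU j₀'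
    have h3 := W_orb hU hW j₀ (n' + j₀') hN.symm _ h1 (by rw [h2]; exact hzU) l
    rw [← orb_add] at h3
    exact h3

end Pool.Agent.Lib.Bed
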