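import Pool.Agent.Lib.Bed.SpecC

/-!
# MP_6f050a_an, part C, module Dir: the limit of the most contracted directions
-/

set_option autoImplicit false

open scoped Manifold ContDiff Topology
open Set Filter Metric

namespace Pool.Agent.Lib.Bed

namespace sDirAux

abbrev V2 : Type := Fin 2 → ℂ

/-- the determinant of two vectors -/
def W (v w : V2) : ℂ := v 0 * w 1 - v 1 * w 0

theorem W_le (v w : V2) : ‖W v w‖ ≤ 2 * ‖v‖ * ‖w‖ := by
  unfold W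
  have h1 : ‖v 0 * w 1‖ ≤ ‖v‖ * ‖w‖ := by
    rw [norm_mul]
    exact mul_le_mul (norm_le_pi_norm v 0) (norm_le_pi_norm w 1) (norm_nonneg _) (norm_nonneg _)
  have h2 : ‖v 1 * w 0‖ ≤ ‖v‖ * ‖w‖ := by
    rw [norm_mul]
    exact mul_le_mul (norm_le_pi_norm v 1) (norm_le_pi_norm w 0) (norm_nonneg _) (norm_nonneg _)
  calc ‖v 0 * w 1 - v 1 * w 0‖ ≤ ‖v 0 * w 1‖ + ‖v 1 * w 0‖ := norm_sub_le _ _
    _ ≤ 2 * ‖v‖ * ‖w‖ := by linarith

theorem W_swap (v w : V2) : W w v = -W v w := by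
  unfold W
  ring

theorem dec (v : V2) : v = v 0 • (Pi.single 0 1 : V2) + v 1 • (Pi.single 1 1 : V2) := by
  ext i
  fin_cases i <;> simp

theorem W_map (Λ : V2 →L[ℂ] V2) (v w : V2) :
    W (Λ v) (Λ w) = W (Λ (Pi.single 0 1)) (Λ (Pi.single 1 1)) * W v w := by
  have hv : Λ v = v 0 • Λ (Pi.single 0 1) + v 1 • Λ (Pi.single 1 1) := by
    conv_lhs => rw [dec v]
    rw [map_add, map_smul, map_smul]
  have hw : Λ w = w 0 • Λ (Pi.single 0 1) + w 1 • Λ (Pi.single 1 1) := by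
    conv_lhs => rw [dec w]
    rw [map_add, map_smul, map_smul]
  rw [hv, hw]
  unfold W
  simp only [Pi.add_apply, Pi.smul_apply, smul_eq_mul]
  ring

theorem pluecker (u v w : V2) : W u v • w + W v w • u + W w u • v = 0 := by
  ext i
  fin_cases i
  · simp only [W, Pi.add_apply, Pi.smul_apply, smul_eq_mul, Pi.zero_apply, Fin.zero_eta, Fin.isValue]
    ring
  · simp only [W, Pi.add_apply, Pi.smul_apply, smul_eq_mul, Pi.zero_apply, Fin.mk_one, Fin.isValue]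
    ring

theorem W_tri {u v : V2} (hu : ‖u‖ = 1) (hv : ‖v‖ = 1) (w : V2) :
    ‖W w v‖ ≤ ‖W w u‖ + ‖w‖ * ‖W u v‖ := by
  have h := pluecker u v w
  have h1 : W w v • u = W u v • w + W w u • v := by
    rw [W_swap v w] at *
    have h2 : W u v • w + W w u • v = -(W v w • u) := by
      rw [eq_neg_iff_add_eq_zero]
      rw [← h]
      abel
    rw [h2, neg_smul]
  calc ‖W w v‖ = ‖W w v • u‖ := by rw [norm_smul, hu, mul_one]
    _ = ‖W u v • w + W w u • v‖ := by rw [h1]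
    _ ≤ ‖W u v • w‖ + ‖W w u • v‖ := norm_add_le _ _
    _ = ‖W w u‖ + ‖w‖ * ‖W u v‖ := by
        rw [norm_smul, norm_smul, hv]
        ring

theorem norm_cases (y : V2) : ‖y‖ ≤ ‖y 0‖ ∨ ‖y‖ ≤ ‖y 1‖ := by
  rcases le_total ‖y 0‖ ‖y 1‖ with h | h
  · right
    rw [pi_norm_le_iff_of_nonneg (norm_nonneg _)]
    intro i
    fin_cases i
    · exact h
    · exact le_refl _
  · left
    rw [pi_norm_le_iff_of_nonneg (norm_nonneg _)]
    intro i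
    fin_cases i
    · exact le_refl _
    · exact h

theorem norm_single (i : Fin 2) : ‖(Pi.single i 1 : V2)‖ = 1 := by
  rw [Pi.norm_single, norm_one]

theorem exists_unit (Λ : V2 →L[ℂ] V2) (hN : 0 < ‖Λ‖) : ∃ u : V2, ‖u‖ = 1 ∧ ‖Λ‖ / 2 ≤ ‖Λ u‖ := by
  by_contra hcon
  push Not at hcon
  have h1 : ‖Λ‖ ≤ ‖Λ‖ / 2 := by
    apply ContinuousLinearMap.opNorm_le_bound _ (by positivity)
    intro x
    rcases eq_or_ne x 0 with rfl | hx
    · simp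
    have hx' : 0 < ‖x‖ := norm_pos_iff.2 hx
    have hn : ‖((‖x‖⁻¹ : ℝ) : ℂ)‖ = ‖x‖⁻¹ := by
      rw [Complex.norm_real, Real.norm_of_nonneg (by positivity)]
    have h2 := hcon (((‖x‖⁻¹ : ℝ) : ℂ) • x) (by
      rw [norm_smul, hn, inv_mul_cancel₀ hx'.ne'])
    rw [map_smul, norm_smul, hn] at h2
    rw [inv_mul_lt_iff₀ hx'] at h2
    linarith
  linarith

theorem det_ge (Λ : V2 →L[ℂ] V2) {C₁ s : ℝ} (hC : 0 < C₁) (hs : 0 < s) (hN : 0 < ‖Λ‖)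
    (hlow : ∀ x, s * ‖x‖ ≤ C₁ * ‖Λ x‖) :
    ‖Λ‖ * s ≤ 4 * C₁ * ‖W (Λ (Pi.single 0 1)) (Λ (Pi.single 1 1))‖ := by
  obtain ⟨u, hu, hu2⟩ := exists_unit Λ hN
  have hinj : Function.Injective Λ := by
    rw [injective_iff_map_eq_zero]
    intro x hx
    have h1 := hlow x
    rw [hx, norm_zero, mul_zero] at h1
    have h2 : ‖x‖ ≤ 0 := by
      by_contra hcon
      push Not at hcon
      have := mul_pos hs hcon
      linarith
    exact norm_le_zero_iff.1 h2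
  have hsurj : Function.Surjective Λ :=
    (LinearMap.injective_iff_surjective (f := (Λ : V2 →ₗ[ℂ] V2))).1 hinj
  obtain ⟨i', hi'⟩ : ∃ i' : Fin 2, ‖Λ u‖ ≤ ‖W (Λ u) (Pi.single i' 1)‖ := by
    rcases norm_cases (Λ u) with h | h
    · refine ⟨1, h.trans (le_of_eq ?_)⟩
      simp [W]
    · refine ⟨0, h.trans (le_of_eq ?_)⟩
      simp [W]
  obtain ⟨w, hw⟩ := hsurj (Pi.single i' 1)
  have h3 : s * ‖w‖ ≤ C₁ := by
    have := hlow w
    rw [hw, norm_single, mul_one] at this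
    exact this
  have h4 : ‖Λ u‖ ≤ ‖W (Λ (Pi.single 0 1)) (Λ (Pi.single 1 1))‖ * (2 * ‖w‖) := by
    refine hi'.trans ?_
    rw [← hw, W_map, norm_mul]
    refine mul_le_mul_of_nonneg_left ?_ (norm_nonneg _)
    have := W_le u w
    rw [hu, mul_one] at this
    exact this
  have h5 : ‖Λ‖ / 2 * s ≤ ‖W (Λ (Pi.single 0 1)) (Λ (Pi.single 1 1))‖ * (2 * C₁) := by
    calc ‖Λ‖ / 2 * s ≤ ‖W (Λ (Pi.single 0 1)) (Λ (Pi.single 1 1))‖ * (2 * ‖w‖) * s :=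
          mul_le_mul_of_nonneg_right (hu2.trans h4) hs.le
      _ = ‖W (Λ (Pi.single 0 1)) (Λ (Pi.single 1 1))‖ * (2 * (s * ‖w‖)) := by ring
      _ ≤ _ := by
          refine mul_le_mul_of_nonneg_left ?_ (norm_nonneg _)
          linarith
  linarith

/-- the distance to the most contracted direction -/
theorem W_dir (Λ : V2 →L[ℂ] V2) {C₁ s : ℝ} (hC : 0 < C₁) (hs : 0 < s) (hN : 0 < ‖Λ‖)
    (hlow : ∀ x, s * ‖x‖ ≤ C₁ * ‖Λ x‖) {y : V2} (hy : ‖Λ y‖ ≤ C₁ * s) (x : V2) :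
    ‖W x y‖ ≤ 8 * C₁ ^ 2 * (‖Λ x‖ / ‖Λ‖) := by
  have h1 := det_ge Λ hC hs hN hlow
  have h2 : ‖W (Λ (Pi.single 0 1)) (Λ (Pi.single 1 1))‖ * ‖W x y‖ ≤ 2 * ‖Λ x‖ * (C₁ * s) := by
    rw [← norm_mul, ← W_map]
    refine (W_le _ _).trans ?_
    exact mul_le_mul_of_nonneg_left hy (by positivity)
  have h3 : ‖Λ‖ * s * ‖W x y‖ ≤ 4 * C₁ * (2 * ‖Λ x‖ * (C₁ * s)) := by
    calc ‖Λ‖ * s * ‖W x y‖ ≤ 4 * C₁ * ‖W (Λ (Pi.single 0 1)) (Λ (Pi.single 1 1))‖ * ‖W x y‖ :=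
          mul_le_mul_of_nonneg_right h1 (norm_nonneg _)
      _ = 4 * C₁ * (‖W (Λ (Pi.single 0 1)) (Λ (Pi.single 1 1))‖ * ‖W x y‖) := by ring
      _ ≤ _ := mul_le_mul_of_nonneg_left h2 (by positivity)
  have h4 : s * (‖W x y‖ * ‖Λ‖) ≤ s * (8 * C₁ ^ 2 * ‖Λ x‖) := by
    calc s * (‖W x y‖ * ‖Λ‖) = ‖Λ‖ * s * ‖W x y‖ := by ring
      _ ≤ _ := h3
      _ = _ := by ring
  have h5 := le_of_mul_le_mul_left h4 hs
  rw [← mul_div_assoc, le_div_iff₀ hN]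
  exact h5

theorem low_pow {C₁ S N b : ℝ} (hC : 0 < C₁) (hS : 0 < S) (hN : 0 < N) (h1 : S ≤ C₁ * N)
    (h2 : N ≤ C₁ * S) : min (C₁ ^ b) (C₁ ^ (-b)) * N ^ b ≤ S ^ b := by
  rcases le_total 0 b with hb | hb
  · calc min (C₁ ^ b) (C₁ ^ (-b)) * N ^ b ≤ C₁ ^ (-b) * N ^ b :=
        mul_le_mul_of_nonneg_right (min_le_right _ _) (by positivity)
      _ ≤ C₁ ^ (-b) * (C₁ * S) ^ b :=
        mul_le_mul_of_nonneg_left (Real.rpow_le_rpow hN.le h2 hb) (by positivity)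
      _ = S ^ b := by
        rw [Real.mul_rpow hC.le hS.le, ← mul_assoc, ← Real.rpow_add hC, neg_add_cancel,
          Real.rpow_zero, one_mul]
  · calc min (C₁ ^ b) (C₁ ^ (-b)) * N ^ b ≤ C₁ ^ b * N ^ b :=
        mul_le_mul_of_nonneg_right (min_le_left _ _) (by positivity)
      _ = (C₁ * N) ^ b := by rw [Real.mul_rpow hC.le hN.le]
      _ ≤ S ^ b := Real.rpow_le_rpow_of_nonpos hS h1 hb

end sDirAux

open sDirAux in
/-- **Dir.** -/
theorem sDir : S_Dir := by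
  intro Λ C c lam hL C₁ a b hC₁ ha hev
  obtain ⟨hC, hc, hlam, hlam1, hlow0, hlow, hup⟩ := hL
  -- the norms
  have hN0 : ∀ m, 0 < ‖Λ m‖ := by
    intro m
    induction m with
    | zero =>
      have h1 := hlow0 (Pi.single 0 1)
      rw [norm_single, mul_one] at h1
      have h2 := (Λ 0).le_opNorm (Pi.single 0 1)
      rw [norm_single, mul_one] at h2
      linarith
    | succ m ih =>
      obtain ⟨u, hu, hu2⟩ := exists_unit (Λ m) ih
      have h1 := hlow m u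
      have h2 := (Λ (m + 1)).le_opNorm u
      rw [hu, mul_one] at h2
      have h3 : 0 < c * ‖Λ m u‖ := mul_pos hc (by linarith)
      linarith
  have hNlow : ∀ m, c * ‖Λ m‖ ≤ ‖Λ (m + 1)‖ := by
    intro m
    have h1 : ‖Λ m‖ ≤ ‖Λ (m + 1)‖ / c := by
      apply ContinuousLinearMap.opNorm_le_bound _ (by positivity)
      intro x
      rw [div_mul_eq_mul_div, le_div_iff₀ hc]
      calc ‖Λ m x‖ * c = c * ‖Λ m x‖ := by ring
        _ ≤ ‖Λ (m + 1) x‖ := hlow m x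
        _ ≤ _ := (Λ (m + 1)).le_opNorm x
    rw [le_div_iff₀ hc] at h1
    linarith
  have hNup : ∀ m j, ‖Λ (m + j)‖ ≤ C * lam ^ j * ‖Λ m‖ := by
    intro m j
    apply ContinuousLinearMap.opNorm_le_bound _ (by positivity)
    intro x
    calc ‖Λ (m + j) x‖ ≤ C * lam ^ j * ‖Λ m x‖ := hup m j x
      _ ≤ C * lam ^ j * (‖Λ m‖ * ‖x‖) :=
        mul_le_mul_of_nonneg_left ((Λ m).le_opNorm x) (by positivity)
      _ = _ := by ring
  -- the data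
  obtain ⟨m₀, hm₀⟩ := eventually_atTop.1 hev
  have hdat : ∀ m, ∃ (S s : ℝ) (x : V2), m₀ ≤ m → 0 < S ∧ 0 < s ∧ S ≤ C₁ * ‖Λ m‖ ∧ ‖Λ m‖ ≤ C₁ * S ∧
      (∀ x, s * ‖x‖ ≤ C₁ * ‖Λ m x‖) ∧ ‖x‖ = 1 ∧ ‖Λ m x‖ ≤ C₁ * s ∧ S ^ b ≤ s ∧ s ≤ S ^ a := by
    intro m
    by_cases hm : m₀ ≤ m
    · obtain ⟨S, s, hS, hs, h1, ⟨x, hx, h2⟩, h3, ⟨y, hy, h4⟩, h5, h6⟩ := hm₀ m hm
      have hx' : 0 < ‖x‖ := norm_pos_iff.2 hx
      have hy' : 0 < ‖y‖ := norm_pos_iff.2 hy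
      have hn : ‖((‖y‖⁻¹ : ℝ) : ℂ)‖ = ‖y‖⁻¹ := by
        rw [Complex.norm_real, Real.norm_of_nonneg (by positivity)]
      refine ⟨S, s, ((‖y‖⁻¹ : ℝ) : ℂ) • y, fun _ => ⟨hS, hs, ?_, ?_, h3, ?_, ?_, h5, h6⟩⟩
      · have h7 : S * ‖x‖ ≤ C₁ * ‖Λ m‖ * ‖x‖ := by
          refine h2.trans ?_
          rw [mul_assoc]
          exact mul_le_mul_of_nonneg_left ((Λ m).le_opNorm x) hC₁.le
        exact le_of_mul_le_mul_right h7 hx'
      · apply ContinuousLinearMap.opNorm_le_bound _ (by positivity)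
        exact h1
      · rw [norm_smul, hn, inv_mul_cancel₀ hy'.ne']
      · rw [map_smul, norm_smul, hn, inv_mul_le_iff₀ hy']
        linarith
    · exact ⟨0, 0, 0, fun h => absurd h hm⟩
  choose S s x hx using hdat
  -- (2)
  obtain ⟨C₆, hC₆, h2⟩ : ∃ C₆ : ℝ, 0 < C₆ ∧ ∀ m, m₀ ≤ m → ‖W (x m) (x (m + 1))‖ ≤ C₆ * ‖Λ m‖ ^ (a - 1) := by
    refine ⟨8 * C₁ ^ 2 * (C * (C₁ * C₁ ^ a) / c), by positivity, ?_⟩
    intro m hm
    obtain ⟨hS, hs, h1, h2, h3, h4, h5, h6, h7⟩ := hx m hm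
    obtain ⟨hS', hs', h1', h2', h3', h4', h5', h6', h7'⟩ := hx (m + 1) (by omega)
    have h8 := W_dir (Λ (m + 1)) hC₁ hs' (hN0 _) h3' h5' (x m)
    have h9 : ‖Λ (m + 1) (x m)‖ ≤ C * (C₁ * s m) := by
      have h10 := hup m 1 (x m)
      rw [pow_one] at h10
      calc ‖Λ (m + 1) (x m)‖ ≤ C * lam * ‖Λ m (x m)‖ := h10
        _ ≤ C * 1 * ‖Λ m (x m)‖ := by gcongr
        _ = C * ‖Λ m (x m)‖ := by ring
        _ ≤ _ := mul_le_mul_of_nonneg_left h5 hC.le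
    have h11 : s m ≤ C₁ ^ a * ‖Λ m‖ ^ a := by
      refine h7.trans ?_
      rw [← Real.mul_rpow hC₁.le (hN0 m).le]
      exact Real.rpow_le_rpow hS.le h1 (by linarith)
    have h12 : ‖Λ (m + 1) (x m)‖ / ‖Λ (m + 1)‖ ≤ C * (C₁ * (C₁ ^ a * ‖Λ m‖ ^ a)) / (c * ‖Λ m‖) := by
      apply div_le_div₀ (by positivity) _ (mul_pos hc (hN0 m)) (hNlow m)
      refine h9.trans ?_
      gcongr
    calc ‖W (x m) (x (m + 1))‖ ≤ 8 * C₁ ^ 2 * (‖Λ (m + 1) (x m)‖ / ‖Λ (m + 1)‖) := h8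
      _ ≤ 8 * C₁ ^ 2 * (C * (C₁ * (C₁ ^ a * ‖Λ m‖ ^ a)) / (c * ‖Λ m‖)) := by gcongr
      _ = _ := by
        rw [Real.rpow_sub (hN0 m), Real.rpow_one]
        field_simp
  -- (3)
  obtain ⟨C₇, hC₇, h3⟩ : ∃ C₇ : ℝ, 0 < C₇ ∧ ∀ m, m₀ ≤ m → ∀ j, ‖W (x m) (x (m + j))‖ ≤ C₇ * ‖Λ m‖ ^ (a - 1) := by
    have hr0 : 0 ≤ lam ^ (a - 1) := by positivity
    have hr1 : lam ^ (a - 1) < 1 := Real.rpow_lt_one hlam.le hlam1 (by linarith)
    refine ⟨C₆ * C ^ (a - 1) * (1 - lam ^ (a - 1))⁻¹, by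
      have : 0 < 1 - lam ^ (a - 1) := by linarith
      positivity, ?_⟩
    intro m hm j
    have hstep : ∀ j, ‖W (x m) (x (m + j))‖ ≤
        ∑ i ∈ Finset.range j, C₆ * C ^ (a - 1) * ‖Λ m‖ ^ (a - 1) * (lam ^ (a - 1)) ^ i := by
      intro j
      induction j with
      | zero =>
        have : W (x m) (x (m + 0)) = 0 := by
          unfold W
          rw [add_zero]
          ring
        rw [this, norm_zero, Finset.sum_range_zero]
      | succ j ih =>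
        obtain ⟨hS, hs, h1, -, -, h4, h5, h6, h7⟩ := hx m hm
        obtain ⟨-, -, -, -, -, h4', -, -, -⟩ := hx (m + j) (by omega)
        obtain ⟨-, -, -, -, -, h4'', -, -, -⟩ := hx (m + j + 1) (by omega)
        have h8 := W_tri h4' h4'' (x m)
        rw [h4, one_mul] at h8
        rw [Finset.sum_range_succ, ← add_assoc]
        refine h8.trans (add_le_add ih ?_)
        refine (h2 (m + j) (by omega)).trans ?_
        have h9 : ‖Λ (m + j)‖ ^ (a - 1) ≤ (C * lam ^ j * ‖Λ m‖) ^ (a - 1) :=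
          Real.rpow_le_rpow (norm_nonneg _) (hNup m j) (by linarith)
        have h10 : (C * lam ^ j * ‖Λ m‖) ^ (a - 1) =
            C ^ (a - 1) * (lam ^ (a - 1)) ^ j * ‖Λ m‖ ^ (a - 1) := by
          rw [Real.mul_rpow (by positivity) (norm_nonneg _), Real.mul_rpow hC.le (by positivity),
            ← Real.rpow_natCast lam j, ← Real.rpow_mul hlam.le, mul_comm (j : ℝ) (a - 1),
            Real.rpow_mul hlam.le, Real.rpow_natCast]
        calc C₆ * ‖Λ (m + j)‖ ^ (a - 1) ≤ C₆ * (C ^ (a - 1) * (lam ^ (a - 1)) ^ j * ‖Λ m‖ ^ (a - 1)) := by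
              rw [← h10]
              exact mul_le_mul_of_nonneg_left h9 hC₆.le
          _ = _ := by ring
    refine (hstep j).trans ?_
    rw [← Finset.mul_sum]
    have hg : ∑ i ∈ Finset.range j, (lam ^ (a - 1)) ^ i ≤ (1 - lam ^ (a - 1))⁻¹ :=
      (summable_geometric_of_lt_one hr0 hr1).sum_le_tsum _ (fun i _ => by positivity) |>.trans
        (le_of_eq (tsum_geometric_of_lt_one hr0 hr1))
    calc C₆ * C ^ (a - 1) * ‖Λ m‖ ^ (a - 1) * ∑ i ∈ Finset.range j, (lam ^ (a - 1)) ^ i ≤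
        C₆ * C ^ (a - 1) * ‖Λ m‖ ^ (a - 1) * (1 - lam ^ (a - 1))⁻¹ :=
          mul_le_mul_of_nonneg_left hg (by positivity)
      _ = _ := by ring
  -- (4)
  obtain ⟨v₀, hv₀, h4⟩ : ∃ v₀ : V2, ‖v₀‖ = 1 ∧ ∀ m, m₀ ≤ m → ‖W (x m) v₀‖ ≤ C₇ * ‖Λ m‖ ^ (a - 1) := by
    have hcpt : IsCompact (sphere (0 : V2) 1) := isCompact_sphere 0 1
    obtain ⟨v₀, hv₀, φ, hφ, hlim⟩ := hcpt.tendsto_subseq (x := fun j => x (m₀ + j)) (fun j => by
      rw [mem_sphere_zero_iff_norm]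
      exact (hx (m₀ + j) (by omega)).2.2.2.2.2.1)
    rw [mem_sphere_zero_iff_norm] at hv₀
    refine ⟨v₀, hv₀, ?_⟩
    intro m hm
    have hcont : Continuous fun w : V2 => ‖W (x m) w‖ := by
      unfold W
      fun_prop
    have hlim2 : Tendsto (fun j => ‖W (x m) (x (m₀ + φ j))‖) atTop (𝓝 ‖W (x m) v₀‖) :=
      (hcont.tendsto v₀).comp hlim
    refine le_of_tendsto hlim2 ?_
    filter_upwards [eventually_ge_atTop m] with j hj
    have hj' : m ≤ m₀ + φ j := (hj.trans (hφ.id_le j)).trans (Nat.le_add_left _ _)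
    obtain ⟨i, hi⟩ := Nat.exists_eq_add_of_le hj'
    rw [hi]
    exact h3 m hm i
  -- the constants
  obtain ⟨kb, hkb⟩ : ∃ kb, kb = min (C₁ ^ b) (C₁ ^ (-b)) := ⟨_, rfl⟩
  have hkb0 : 0 < kb := by
    rw [hkb]
    exact lt_min (by positivity) (by positivity)
  refine ⟨v₀, C₇ + C₁ * C₁ ^ a + 8 * C₁ ^ 2 + C₁ * C₇ / kb + C₁ / kb, hv₀, by positivity, ?_⟩
  rw [eventually_atTop]
  refine ⟨m₀, ?_⟩
  intro m hm
  obtain ⟨hS, hs, g1, g2, g3, g4, g5, g6, g7⟩ := hx m hm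
  have hNm := hN0 m
  have hsa : s m ≤ C₁ ^ a * ‖Λ m‖ ^ a := by
    refine g7.trans ?_
    rw [← Real.mul_rpow hC₁.le (hN0 m).le]
    exact Real.rpow_le_rpow hS.le g1 (by linarith)
  have hsb : kb * ‖Λ m‖ ^ b ≤ s m := by
    rw [hkb]
    exact (low_pow hC₁ hS hNm g1 g2).trans g6
  have hNb : 0 < ‖Λ m‖ ^ b := by positivity
  have hNa : 0 < ‖Λ m‖ ^ a := by positivity
  have hNa1 : 0 < ‖Λ m‖ ^ (a - 1) := by positivity
  have hxle : ∀ y : V2, ‖y‖ ≤ C₁ / kb * ‖Λ m‖ ^ (-b) * ‖Λ m y‖ := by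
    intro y
    have h5 : kb * ‖Λ m‖ ^ b * ‖y‖ ≤ C₁ * ‖Λ m y‖ :=
      (mul_le_mul_of_nonneg_right hsb (norm_nonneg _)).trans (g3 y)
    rw [Real.rpow_neg hNm.le]
    have h6 : ‖y‖ ≤ C₁ * ‖Λ m y‖ / (kb * ‖Λ m‖ ^ b) := by
      rw [le_div_iff₀ (by positivity)]
      linarith
    refine h6.trans (le_of_eq ?_)
    field_simp
  refine ⟨?_, ?_⟩
  · -- (5)
    obtain ⟨i, hi⟩ : ∃ i : Fin 2, 1 ≤ ‖W (Pi.single i 1) (x m)‖ := by
      rcases norm_cases (x m) with h | h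
      · refine ⟨1, ?_⟩
        rw [g4] at h
        refine h.trans (le_of_eq ?_)
        simp [W]
      · refine ⟨0, ?_⟩
        rw [g4] at h
        refine h.trans (le_of_eq ?_)
        simp [W]
    have hp := pluecker (x m) v₀ (Pi.single i 1)
    have hp2 := congrArg (Λ m) hp
    rw [map_add, map_add, map_smul, map_smul, map_smul, map_zero] at hp2
    have hp3 : W (Pi.single i 1) (x m) • Λ m v₀ =
        -(W (x m) v₀ • Λ m (Pi.single i 1) + W v₀ (Pi.single i 1) • Λ m (x m)) := by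
      rw [eq_neg_iff_add_eq_zero, ← hp2]
      abel
    have h5 : ‖W v₀ (Pi.single i 1)‖ ≤ 1 := by
      rw [← hv₀]
      fin_cases i
      · simp only [W, Fin.zero_eta, Fin.isValue, ne_eq, one_ne_zero, not_false_eq_true,
          Pi.single_eq_of_ne, mul_zero, Pi.single_eq_same, mul_one, zero_sub, norm_neg]
        exact norm_le_pi_norm v₀ 1
      · simp only [W, Fin.mk_one, Fin.isValue, Pi.single_eq_same, mul_one, ne_eq, zero_ne_one,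
          not_false_eq_true, Pi.single_eq_of_ne, mul_zero, sub_zero]
        exact norm_le_pi_norm v₀ 0
    have h6 : ‖Λ m (Pi.single i 1)‖ ≤ ‖Λ m‖ := by
      have := (Λ m).le_opNorm (Pi.single i 1)
      rwa [norm_single, mul_one] at this
    calc ‖Λ m v₀‖ = 1 * ‖Λ m v₀‖ := by ring
      _ ≤ ‖W (Pi.single i 1) (x m)‖ * ‖Λ m v₀‖ := mul_le_mul_of_nonneg_right hi (norm_nonneg _)
      _ = ‖W (x m) v₀ • Λ m (Pi.single i 1) + W v₀ (Pi.single i 1) • Λ m (x m)‖ := by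
          rw [← norm_smul, hp3, norm_neg]
      _ ≤ ‖W (x m) v₀‖ * ‖Λ m (Pi.single i 1)‖ + ‖W v₀ (Pi.single i 1)‖ * ‖Λ m (x m)‖ := by
          refine (norm_add_le _ _).trans ?_
          rw [norm_smul, norm_smul]
      _ ≤ C₇ * ‖Λ m‖ ^ (a - 1) * ‖Λ m‖ + 1 * (C₁ * (C₁ ^ a * ‖Λ m‖ ^ a)) := by
          refine add_le_add (mul_le_mul (h4 m hm) h6 (norm_nonneg _) (by positivity))
            (mul_le_mul h5 (g5.trans ?_) (norm_nonneg _) zero_le_one)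
          exact mul_le_mul_of_nonneg_left hsa hC₁.le
      _ = (C₇ + C₁ * C₁ ^ a) * ‖Λ m‖ ^ a := by
          rw [Real.rpow_sub hNm, Real.rpow_one]
          field_simp
      _ ≤ _ := by
          refine mul_le_mul_of_nonneg_right ?_ hNa.le
          have h7 : 0 ≤ 8 * C₁ ^ 2 := by positivity
          have h8 : 0 ≤ C₁ * C₇ / kb := by positivity
          have h9 : 0 ≤ C₁ / kb := by positivity
          linarith
  · intro y
    constructor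
    · have h5 : ‖W y v₀‖ ≤ ‖W y (x m)‖ + ‖y‖ * ‖W (x m) v₀‖ := W_tri g4 hv₀ y
      have h6 := W_dir (Λ m) hC₁ hs hNm g3 g5 y
      have h7 : ‖y‖ * ‖W (x m) v₀‖ ≤ C₁ / kb * ‖Λ m‖ ^ (-b) * ‖Λ m y‖ * (C₇ * ‖Λ m‖ ^ (a - 1)) :=
        mul_le_mul (hxle y) (h4 m hm) (norm_nonneg _) (by positivity)
      have h8 : ‖Λ m‖ ^ (-b) * ‖Λ m‖ ^ (a - 1) = ‖Λ m‖ ^ (a - 1 - b) := by
        rw [← Real.rpow_add hNm]
        congr 1
        ring
      have h9 : C₁ / kb * ‖Λ m‖ ^ (-b) * ‖Λ m y‖ * (C₇ * ‖Λ m‖ ^ (a - 1)) =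
          C₁ * C₇ / kb * ‖Λ m‖ ^ (a - 1 - b) * ‖Λ m y‖ := by
        rw [← h8]
        ring
      rw [h9] at h7
      have hP : 0 ≤ ‖Λ m‖ ^ (a - 1 - b) := by positivity
      have hY : 0 ≤ ‖Λ m y‖ := norm_nonneg _
      have hinv : 0 ≤ 1 / ‖Λ m‖ := by positivity
      have k1 : 0 ≤ 8 * C₁ ^ 2 := by positivity
      have k2 : 0 ≤ C₁ * C₇ / kb := by positivity
      have k3 : 0 ≤ C₁ / kb := by positivity
      have k4 : 0 ≤ C₁ * C₁ ^ a := by positivity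
      calc ‖y 0 * v₀ 1 - y 1 * v₀ 0‖ = ‖W y v₀‖ := rfl
        _ ≤ 8 * C₁ ^ 2 * (‖Λ m y‖ / ‖Λ m‖) + C₁ * C₇ / kb * ‖Λ m‖ ^ (a - 1 - b) * ‖Λ m y‖ := by
            linarith
        _ = (8 * C₁ ^ 2 * (1 / ‖Λ m‖) + C₁ * C₇ / kb * ‖Λ m‖ ^ (a - 1 - b)) * ‖Λ m y‖ := by ring
        _ ≤ ((C₇ + C₁ * C₁ ^ a + 8 * C₁ ^ 2 + C₁ * C₇ / kb + C₁ / kb) * (1 / ‖Λ m‖) +
            (C₇ + C₁ * C₁ ^ a + 8 * C₁ ^ 2 + C₁ * C₇ / kb + C₁ / kb) * ‖Λ m‖ ^ (a - 1 - b)) *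
              ‖Λ m y‖ := by
            refine mul_le_mul_of_nonneg_right (add_le_add ?_ ?_) hY
            · exact mul_le_mul_of_nonneg_right (by linarith) hinv
            · exact mul_le_mul_of_nonneg_right (by linarith) hP
        _ = _ := by ring
    · refine (hxle y).trans ?_
      refine mul_le_mul_of_nonneg_right (mul_le_mul_of_nonneg_right ?_ (by positivity))
        (norm_nonneg _)
      have k1 : 0 ≤ 8 * C₁ ^ 2 := by positivity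
      have k2 : 0 ≤ C₁ * C₇ / kb := by positivity
      have k4 : 0 ≤ C₁ * C₁ ^ a := by positivity
      linarith

end Pool.Agent.Lib.Bed
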