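import Pool.Agent.Lib.Bed.SpecM

/-!
# Stable manifolds: invariance and dimension of the bundles along the orbit of `p`
-/

set_option autoImplicit false

open scoped Manifold ContDiff Topology
open Set Filter Metric

namespace Pool.Agent.Lib.Bed

namespace sDmAux

section

variable {E : Type} [NormedAddCommGroup E] [NormedSpace ℂ E]
variable {X : Type} [MetricSpace X] [ChartedSpace E X]

theorem md_iter {g : X → X} (hg : MDifferentiable 𝓘(ℂ, E) 𝓘(ℂ, E) g) (n : ℕ) :
    MDifferentiable 𝓘(ℂ, E) 𝓘(ℂ, E) (g^[n]) := by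
  induction n with
  | zero => exact mdifferentiable_id
  | succ n ih =>
    rw [Function.iterate_succ']
    exact hg.comp ih

theorem dg_comp {g h : X → X} {x : X} (hg : MDifferentiableAt 𝓘(ℂ, E) 𝓘(ℂ, E) g (h x))
    (hh : MDifferentiableAt 𝓘(ℂ, E) 𝓘(ℂ, E) h x) (v : E) :
    dg (g ∘ h) x v = dg g (h x) (dg h x v) := by
  have e := mfderiv_comp x hg hh
  exact congrArg (fun L : TangentSpace 𝓘(ℂ, E) x →L[ℂ] TangentSpace 𝓘(ℂ, E) (g (h x)) => L v) e

theorem dg_id (x : X) (v : E) : dg (E := E) (id : X → X) x v = v := by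
  have e : mfderiv 𝓘(ℂ, E) 𝓘(ℂ, E) (id : X → X) x = ContinuousLinearMap.id ℂ _ := mfderiv_id
  exact congrArg (fun L : TangentSpace 𝓘(ℂ, E) x →L[ℂ] TangentSpace 𝓘(ℂ, E) x => L v) e

theorem dg_add {g : X → X} (hg : MDifferentiable 𝓘(ℂ, E) 𝓘(ℂ, E) g) (n m : ℕ) (x : X) (v : E) :
    dg (g^[n + m]) x v = dg (g^[m]) (g^[n] x) (dg (g^[n]) x v) := by
  rw [Nat.add_comm, Function.iterate_add]
  exact dg_comp (md_iter hg m _) (md_iter hg n _) v

theorem dg_succ {g : X → X} (hg : MDifferentiable 𝓘(ℂ, E) 𝓘(ℂ, E) g) (n : ℕ) (x : X) (v : E) :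
    dg (g^[n + 1]) x v = dg g (g^[n] x) (dg (g^[n]) x v) := by
  rw [Function.iterate_succ']
  exact dg_comp (hg _) (md_iter hg n _) v

theorem dg_symm (f : X ≃ X) (hf : MDifferentiable 𝓘(ℂ, E) 𝓘(ℂ, E) f)
    (hs : MDifferentiable 𝓘(ℂ, E) 𝓘(ℂ, E) f.symm) (n : ℕ) (x : X) (v : E) :
    dg (f.symm^[n]) (f^[n] x) (dg (f^[n]) x v) = v := by
  rw [← dg_comp (md_iter hs n _) (md_iter hf n _) v]
  have e : (⇑f.symm)^[n] ∘ (⇑f)^[n] = id := by
    funext y
    exact (Function.LeftInverse.iterate f.symm_apply_apply n) y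
  rw [e, dg_id]

theorem map_iter (f : X ≃ X) (K : Set X) (hK : ∀ x ∈ K, ∀ n : ℕ, f^[n] x ∈ K)
    (hf : MDifferentiable 𝓘(ℂ, E) 𝓘(ℂ, E) f) (F : X → Submodule ℂ E)
    (h : ∀ x ∈ K, (F x).map (dg f x).toLinearMap = F (f x)) (x : X) (hx : x ∈ K) (n : ℕ) :
    (F x).map (dg (f^[n]) x).toLinearMap = F (f^[n] x) := by
  induction n with
  | zero =>
    have e : (dg (E := E) (f^[0]) x).toLinearMap = LinearMap.id := by
      ext v
      exact dg_id x v
    rw [e, Submodule.map_id]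
    rfl
  | succ n ih =>
    have e : (dg (E := E) (f^[n + 1]) x).toLinearMap =
        (dg f (f^[n] x)).toLinearMap ∘ₗ (dg (f^[n]) x).toLinearMap := by
      ext v
      exact dg_succ hf n x v
    rw [e, Submodule.map_comp, ih, h _ (hK x hx n), ← Function.iterate_succ_apply' (⇑f) n x]

theorem fin_iter (f : X ≃ X) (hf : MDifferentiable 𝓘(ℂ, E) 𝓘(ℂ, E) f)
    (hs : MDifferentiable 𝓘(ℂ, E) 𝓘(ℂ, E) f.symm) (F G : Submodule ℂ E) (x : X) (n : ℕ)
    (h : F.map (dg (f^[n]) x).toLinearMap = G) : Module.finrank ℂ G = Module.finrank ℂ F := by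
  have hinj : Function.Injective (dg (E := E) (f^[n]) x).toLinearMap := by
    intro v w hvw
    have h1 := dg_symm f hf hs n x v
    have h2 := dg_symm f hf hs n x w
    have h3 : dg (E := E) (f^[n]) x v = dg (f^[n]) x w := hvw
    rw [← h1, ← h2, h3]
  rw [← h]
  exact (LinearEquiv.finrank_eq (Submodule.equivMapOfInjective _ hinj F)).symm

end

end sDmAux

open sDmAux in
theorem sDm : S_Dm := by
  intro E _ _ _ X _ _ _ nrm f K Es Eu C lam H x hx n
  have hK : ∀ x ∈ K, ∀ n : ℕ, f^[n] x ∈ K := by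
    intro x hx n
    induction n with
    | zero => exact hx
    | succ n ih =>
      rw [Function.iterate_succ_apply', ← H.image]
      exact mem_image_of_mem _ ih
  have hms := map_iter f K hK H.hol (sE Es) H.map_s x hx n
  have hmu := map_iter f K hK H.hol (sE Eu) H.map_u x hx n
  refine ⟨hK x hx n, ?_, ?_, ?_, ?_, ?_, ?_⟩
  · intro v hv
    rw [← hms]
    exact Submodule.mem_map_of_mem hv
  · intro v hv
    rw [← hmu]
    exact Submodule.mem_map_of_mem hv
  · exact fin_iter f H.hol H.hol_symm _ _ x n hms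
  · exact fin_iter f H.hol H.hol_symm _ _ x n hmu
  · intro v hv
    have h := dg_symm f H.hol H.hol_symm n x v
    rw [hv, map_zero] at h
    exact h.symm
  · intro m v
    exact dg_add H.hol n m x v

end Pool.Agent.Lib.Bed
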