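import Pool.Agent.Lib.Bed.SpecC

/-!
# MP_6f050a_an: Fin, the final assembly
-/

set_option autoImplicit false

open scoped Manifold ContDiff Topology
open Set Filter Metric

namespace Pool.Agent.Lib.Bed

/-- **Fin.** -/
theorem sFin : S_Fin := by
  intro hSet hK hA hDir hB hC hPK hPA hPB hPC
  intro E _ _ _ X _ _ _ nrm f K Es Eu C lam hF hH p hp hcond
  obtain ⟨N, k, A, F, j, r, C', c, a₁, b₁, C₂, c₂, hk, hseq, hck, hcmp, hls⟩ :=
    hSet E X nrm f K Es Eu C lam p hF hH hp
  have hnn : ∀ v, 0 ≤ nrm p v := by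
    intro v
    by_cases hv : v = 0
    · have h := hF.smul p 0 v
      rw [abs_zero, zero_mul, Complex.ofReal_zero, zero_smul] at h
      rw [hv, h]
    · exact (hF.pos p v hv).le
  have hKC : KCond k (prodL A (ContinuousLinearMap.id ℂ (Fin k → ℂ))) := by
    rcases hcond with h | h | h | h
    · exact hPK E X nrm f p (Es p) N k j _ a₁ b₁ hcmp h
    · exact hA k _ C₂ c₂ (lam ^ N) hls
        (hPA E X nrm f p (Es p) N k j _ a₁ b₁ hnn hcmp h)
    · have h2 : k = 2 := by
        rw [← hk]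
        exact h.1
      subst h2
      exact hB hA hDir _ C₂ c₂ (lam ^ N) hls
        (hPB E X nrm f p (Es p) N j _ a₁ b₁ (hF.pos p) hnn hcmp h)
    · exact hC k _ C₂ c₂ (lam ^ N) hls
        (hPC E X nrm f p (Es p) N k j _ a₁ b₁ hcmp lam hH.lam_pos h)
  have hb : BasinCk k r F := hK k r (1 / 4) C' c F A hseq hKC
  rw [hk]
  exact hck hb

end Pool.Agent.Lib.Bed
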