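import Pool.Agent.Lib.Bed.SpecM

set_option autoImplicit false

open scoped Manifold ContDiff Topology
open Set Filter Metric

namespace Pool.Agent.Lib.Bed

namespace sFrameAux

/-- uniform frames of the subspaces -/
theorem frame1 (E : Type) [NormedAddCommGroup E] [NormedSpace ℂ E] [FiniteDimensional ℂ E] :
    ∃ c₁ c₂ : ℝ, 0 < c₁ ∧ 0 < c₂ ∧ ∀ (F : Submodule ℂ E) (k : ℕ), Module.finrank ℂ F = k →
      ∃ ι : (Fin k → ℂ) →ₗ[ℂ] E, (∀ z, ι z ∈ F) ∧ (∀ v ∈ F, ∃ z, ι z = v) ∧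
        (∀ z, ‖ι z‖ ≤ c₁ * ‖z‖) ∧ ∀ z, ‖z‖ ≤ c₂ * ‖ι z‖ := by
  obtain ⟨T⟩ : Nonempty (E ≃L[ℂ] EuclideanSpace ℂ (Fin (Module.finrank ℂ E))) :=
    ⟨ContinuousLinearEquiv.ofFinrankEq (by rw [finrank_euclideanSpace_fin])⟩
  refine ⟨(Module.finrank ℂ E : ℝ) *
    ‖(T.symm : EuclideanSpace ℂ (Fin (Module.finrank ℂ E)) →L[ℂ] E)‖ + 1,
    ‖(T : E →L[ℂ] EuclideanSpace ℂ (Fin (Module.finrank ℂ E)))‖ + 1, by positivity,
    by positivity, ?_⟩
  intro F k hk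
  obtain ⟨F', hF'⟩ : ∃ F' : Submodule ℂ (EuclideanSpace ℂ (Fin (Module.finrank ℂ E))),
      F' = F.map (T.toLinearEquiv : E →ₗ[ℂ] EuclideanSpace ℂ (Fin (Module.finrank ℂ E))) :=
    ⟨_, rfl⟩
  have hfr : Module.finrank ℂ F' = k := by
    rw [← hk, hF']
    exact LinearEquiv.finrank_map_eq T.toLinearEquiv F
  have hmem : ∀ y ∈ F', T.symm y ∈ F := by
    intro y hy
    rw [hF', Submodule.mem_map] at hy
    obtain ⟨v, hv, e⟩ := hy
    rw [← e]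
    have h2 : T.symm ((T.toLinearEquiv : E →ₗ[ℂ] EuclideanSpace ℂ (Fin (Module.finrank ℂ E))) v) = v :=
      T.symm_apply_apply v
    rw [h2]
    exact hv
  have hkd : k ≤ Module.finrank ℂ E := by
    rw [← hk]
    exact Submodule.finrank_le F
  let b : OrthonormalBasis (Fin k) ℂ F' := (stdOrthonormalBasis ℂ F').reindex (finCongr hfr)
  let ι : (Fin k → ℂ) →ₗ[ℂ] E :=
    (T.symm.toLinearEquiv : EuclideanSpace ℂ (Fin (Module.finrank ℂ E)) →ₗ[ℂ] E) ∘ₗ F'.subtype ∘ₗ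
      (b.toBasis.equivFun.symm : (Fin k → ℂ) →ₗ[ℂ] F')
  have hι : ∀ z, ι z = T.symm ((b.toBasis.equivFun.symm z : F') :
      EuclideanSpace ℂ (Fin (Module.finrank ℂ E))) := fun z => rfl
  refine ⟨ι, ?_, ?_, ?_, ?_⟩
  · intro z
    rw [hι]
    exact hmem _ (b.toBasis.equivFun.symm z : F').2
  · intro v hv
    have h1 : T v ∈ F' := by
      rw [hF']
      exact Submodule.mem_map_of_mem (f := (T.toLinearEquiv :
        E →ₗ[ℂ] EuclideanSpace ℂ (Fin (Module.finrank ℂ E)))) hv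
    refine ⟨b.toBasis.equivFun ⟨T v, h1⟩, ?_⟩
    rw [hι, LinearEquiv.symm_apply_apply]
    exact T.symm_apply_apply v
  · intro z
    rw [hι]
    have h1 : ‖((b.toBasis.equivFun.symm z : F') : EuclideanSpace ℂ (Fin (Module.finrank ℂ E)))‖ ≤
        (Module.finrank ℂ E : ℝ) * ‖z‖ := by
      change ‖(b.toBasis.equivFun.symm z : F')‖ ≤ _
      rw [Module.Basis.equivFun_symm_apply]
      refine (norm_sum_le _ _).trans ?_
      have h2 : ∀ i ∈ (Finset.univ : Finset (Fin k)), ‖z i • b.toBasis i‖ ≤ ‖z‖ := by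
        intro i _
        rw [norm_smul, b.coe_toBasis, b.norm_eq_one, mul_one]
        exact norm_le_pi_norm z i
      refine (Finset.sum_le_card_nsmul _ _ _ h2).trans ?_
      rw [Finset.card_univ, Fintype.card_fin, nsmul_eq_mul]
      exact mul_le_mul_of_nonneg_right (by exact_mod_cast hkd) (norm_nonneg z)
    have h2 := (T.symm : EuclideanSpace ℂ (Fin (Module.finrank ℂ E)) →L[ℂ] E).le_opNorm
      ((b.toBasis.equivFun.symm z : F') : EuclideanSpace ℂ (Fin (Module.finrank ℂ E)))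
    have h3 := norm_nonneg (T.symm : EuclideanSpace ℂ (Fin (Module.finrank ℂ E)) →L[ℂ] E)
    have h4 := norm_nonneg z
    calc _ ≤ ‖(T.symm : EuclideanSpace ℂ (Fin (Module.finrank ℂ E)) →L[ℂ] E)‖ *
          ‖((b.toBasis.equivFun.symm z : F') : EuclideanSpace ℂ (Fin (Module.finrank ℂ E)))‖ := h2
      _ ≤ ‖(T.symm : EuclideanSpace ℂ (Fin (Module.finrank ℂ E)) →L[ℂ] E)‖ *
          ((Module.finrank ℂ E : ℝ) * ‖z‖) := mul_le_mul_of_nonneg_left h1 h3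
      _ ≤ _ := by nlinarith
  · intro z
    have h1 : ‖z‖ ≤ ‖(b.toBasis.equivFun.symm z : F')‖ := by
      rw [pi_norm_le_iff_of_nonneg (norm_nonneg _)]
      intro i
      have h2 : z i = b.repr (b.toBasis.equivFun.symm z) i := by
        rw [← b.coe_toBasis_repr_apply, ← Module.Basis.equivFun_apply, LinearEquiv.apply_symm_apply]
      rw [h2]
      refine (PiLp.norm_apply_le _ i).trans ?_
      rw [LinearIsometryEquiv.norm_map]
    have h2 : ‖(b.toBasis.equivFun.symm z : F')‖ = ‖T (ι z)‖ := by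
      rw [hι, T.apply_symm_apply, Submodule.coe_norm]
    rw [h2] at h1
    have h3 := (T : E →L[ℂ] EuclideanSpace ℂ (Fin (Module.finrank ℂ E))).le_opNorm (ι z)
    have h4 := norm_nonneg (ι z)
    have h5 : ‖T (ι z)‖ ≤ ‖(T : E →L[ℂ] EuclideanSpace ℂ (Fin (Module.finrank ℂ E)))‖ * ‖ι z‖ := h3
    nlinarith

end sFrameAux

open sFrameAux in
theorem sFrame : S_Frame := by
  intro E _ _ _
  obtain ⟨c₁, c₂, hc₁, hc₂, hfr⟩ := frame1 E
  refine ⟨2 * c₁ + c₂, by positivity, ?_⟩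
  intro F G k l γ hF hG hFG hγ hang
  obtain ⟨ι, hι1, hι2, hι3, hι4⟩ := hfr F k hF
  obtain ⟨κ, hκ1, hκ2, hκ3, hκ4⟩ := hfr G l hG
  let L : V k l →ₗ[ℂ] E := ι.coprod κ
  have hL : ∀ z w, L (z, w) = ι z + κ w := fun z w => by simp [L]
  have hlow : ∀ z w, ‖(z, w)‖ ≤ c₂ * (1 + γ) * ‖ι z + κ w‖ := by
    intro z w
    have h1 := hang (ι z) (hι1 z) (κ w) (hκ1 w)
    have h2 : ‖κ w‖ ≤ ‖ι z + κ w‖ + ‖ι z‖ := by
      have h3 : κ w = (ι z + κ w) - ι z := by abel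
      calc ‖κ w‖ = ‖(ι z + κ w) - ι z‖ := by rw [← h3]
        _ ≤ _ := norm_sub_le _ _
    have h4 := hι4 z
    have h5 := hκ4 w
    have h6 := norm_nonneg (ι z + κ w)
    rw [Prod.norm_def]
    refine max_le ?_ ?_
    · calc ‖z‖ ≤ c₂ * ‖ι z‖ := h4
        _ ≤ c₂ * (γ * ‖ι z + κ w‖) := mul_le_mul_of_nonneg_left h1 hc₂.le
        _ ≤ c₂ * (1 + γ) * ‖ι z + κ w‖ := by nlinarith [mul_nonneg hc₂.le h6]
    · calc ‖w‖ ≤ c₂ * ‖κ w‖ := h5
        _ ≤ c₂ * (‖ι z + κ w‖ + γ * ‖ι z + κ w‖) :=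
          mul_le_mul_of_nonneg_left (by linarith) hc₂.le
        _ = c₂ * (1 + γ) * ‖ι z + κ w‖ := by ring
  have hinj : Function.Injective L := by
    rw [injective_iff_map_eq_zero]
    rintro ⟨z, w⟩ h
    have h1 := hlow z w
    rw [← hL, h, norm_zero, mul_zero] at h1
    exact norm_le_zero_iff.mp h1
  have hsurj : Function.Surjective L := by
    intro v
    have h1 : v ∈ F ⊔ G := by rw [hFG.sup_eq_top]; trivial
    obtain ⟨a, ha, b, hb, rfl⟩ := Submodule.mem_sup.mp h1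
    obtain ⟨z, rfl⟩ := hι2 a ha
    obtain ⟨w, rfl⟩ := hκ2 b hb
    exact ⟨(z, w), hL z w⟩
  let e : V k l ≃L[ℂ] E := (LinearEquiv.ofBijective L ⟨hinj, hsurj⟩).toContinuousLinearEquiv
  have he : ∀ z w, e (z, w) = ι z + κ w := fun z w => hL z w
  refine ⟨e, ?_, ?_, ?_, ?_⟩
  · intro z
    rw [he, map_zero, add_zero]
    exact hι1 z
  · intro w
    rw [he, map_zero, zero_add]
    exact hκ1 w
  · rintro ⟨z, w⟩
    rw [he]
    have h1 : ‖z‖ ≤ ‖(z, w)‖ := norm_fst_le (z, w)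
    have h2 : ‖w‖ ≤ ‖(z, w)‖ := norm_snd_le (z, w)
    have h3 := norm_nonneg ((z, w) : V k l)
    calc ‖ι z + κ w‖ ≤ ‖ι z‖ + ‖κ w‖ := norm_add_le _ _
      _ ≤ c₁ * ‖z‖ + c₁ * ‖w‖ := add_le_add (hι3 z) (hκ3 w)
      _ ≤ c₁ * ‖(z, w)‖ + c₁ * ‖(z, w)‖ := add_le_add (mul_le_mul_of_nonneg_left h1 hc₁.le)
          (mul_le_mul_of_nonneg_left h2 hc₁.le)
      _ ≤ (2 * c₁ + c₂) * ‖(z, w)‖ := by nlinarith
  · rintro ⟨z, w⟩
    rw [he]
    have h3 := norm_nonneg (ι z + κ w)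
    refine (hlow z w).trans (mul_le_mul_of_nonneg_right ?_ h3)
    exact mul_le_mul_of_nonneg_right (by linarith) (by linarith)

end Pool.Agent.Lib.Bed
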