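import Pool.Agent.Lib.Bed.SpecM
import Pool.Agent.Lib.Osgood

/-!
# MP_6f050a_an, Frm: adapted frames along the orbit of `p`
-/

set_option autoImplicit false

open scoped Manifold ContDiff Topology
open Set Filter Metric

namespace Pool.Agent.Lib.Bed

namespace sFrmAux

section lin

variable {E : Type} [NormedAddCommGroup E] [NormedSpace ℂ E] [FiniteDimensional ℂ E]

theorem comap_compl {D : E →ₗ[ℂ] E} (hD : Function.Injective D) {F G : Submodule ℂ E}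
    (h : IsCompl F G) : IsCompl (F.comap D) (G.comap D) := by
  have hs : Function.Surjective D := LinearMap.injective_iff_surjective.1 hD
  constructor
  · rw [Submodule.disjoint_def]
    intro v hv hw
    have h1 : D v = 0 := (Submodule.disjoint_def.1 h.disjoint) (D v) hv hw
    exact hD (by rw [h1, map_zero])
  · rw [codisjoint_iff, eq_top_iff]
    intro v _
    have h1 : D v ∈ F ⊔ G := by
      rw [h.sup_eq_top]
      trivial
    obtain ⟨s, hs1, u, hu1, hsu⟩ := Submodule.mem_sup.1 h1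
    obtain ⟨s', rfl⟩ := hs s
    obtain ⟨u', rfl⟩ := hs u
    refine Submodule.mem_sup.2 ⟨s', hs1, u', hu1, hD ?_⟩
    rw [map_add, hsu]

theorem comap_finrank {D : E →ₗ[ℂ] E} (hD : Function.Injective D) (F : Submodule ℂ E) :
    Module.finrank ℂ (F.comap D) = Module.finrank ℂ F := by
  have hs : Function.Surjective D := LinearMap.injective_iff_surjective.1 hD
  have h1 := Submodule.map_comap_eq_of_surjective hs F
  have h2 := LinearEquiv.finrank_map_eq (LinearEquiv.ofBijective D ⟨hD, hs⟩) (F.comap D)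
  have h3 : (F.comap D).map ((LinearEquiv.ofBijective D ⟨hD, hs⟩ : E ≃ₗ[ℂ] E) : E →ₗ[ℂ] E) = F := h1
  rw [h3] at h2
  exact h2.symm

omit [FiniteDimensional ℂ E] in
/-- a vector of the first summand has coordinates in the first factor -/
theorem coord_fst {k l : ℕ} (e : V k l ≃L[ℂ] E) {F G : Submodule ℂ E} (h : IsCompl F G)
    (hF : ∀ z, e (z, 0) ∈ F) (hG : ∀ w, e (0, w) ∈ G) {u : E} (hu : u ∈ F) :
    e ((e.symm u).1, 0) = u := by
  have h1 : e ((e.symm u).1, 0) + e (0, (e.symm u).2) = u := by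
    rw [← map_add, Prod.mk_add_mk, add_zero, zero_add]
    exact e.apply_symm_apply u
  have h2 : e (0, (e.symm u).2) ∈ F := by
    have h3 : e (0, (e.symm u).2) = u - e ((e.symm u).1, 0) := by
      rw [eq_sub_iff_add_eq, add_comm]
      exact h1
    rw [h3]
    exact F.sub_mem hu (hF _)
  have h4 : e (0, (e.symm u).2) = 0 := (Submodule.disjoint_def.1 h.disjoint) _ h2 (hG _)
  rw [h4, add_zero] at h1
  exact h1

omit [FiniteDimensional ℂ E] in
theorem coord_snd {k l : ℕ} (e : V k l ≃L[ℂ] E) {F G : Submodule ℂ E} (h : IsCompl F G)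
    (hF : ∀ z, e (z, 0) ∈ F) (hG : ∀ w, e (0, w) ∈ G) {u : E} (hu : u ∈ G) :
    e (0, (e.symm u).2) = u := by
  have h1 : e ((e.symm u).1, 0) + e (0, (e.symm u).2) = u := by
    rw [← map_add, Prod.mk_add_mk, add_zero, zero_add]
    exact e.apply_symm_apply u
  have h2 : e ((e.symm u).1, 0) ∈ G := by
    have h3 : e ((e.symm u).1, 0) = u - e (0, (e.symm u).2) := by
      rw [eq_sub_iff_add_eq]
      exact h1
    rw [h3]
    exact G.sub_mem hu (hG _)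
  have h4 : e ((e.symm u).1, 0) = 0 := (Submodule.disjoint_def.1 h.disjoint) _ (hF _) h2
  rw [h4, zero_add] at h1
  exact h1

end lin

section

variable {E : Type} [NormedAddCommGroup E] [NormedSpace ℂ E]
variable {X : Type} [MetricSpace X] [ChartedSpace E X] [IsManifold 𝓘(ℂ, E) 1 X]

theorem nE_zero {nrm : (x : X) → TangentSpace 𝓘(ℂ, E) x → ℝ} (hF : IsFinsler nrm) (x : X) :
    nE nrm x (0 : E) = 0 := by
  have h : nE nrm x (((0 : ℝ) : ℂ) • (0 : E)) = |0| * nE nrm x (0 : E) := hF.smul x 0 (0 : E)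
  rw [smul_zero, abs_zero, zero_mul] at h
  exact h

omit [IsManifold 𝓘(ℂ, E) 1 X] in
theorem iter {f : X → X} (hf : MDifferentiable 𝓘(ℂ, E) 𝓘(ℂ, E) f) (n : ℕ) :
    MDifferentiable 𝓘(ℂ, E) 𝓘(ℂ, E) (f^[n]) := by
  induction n with
  | zero => exact mdifferentiable_id
  | succ n ih =>
    rw [Function.iterate_succ]
    exact ih.comp hf

omit [IsManifold 𝓘(ℂ, E) 1 X] in
theorem inv_iter {f : X ≃ X} (hf : MDifferentiable 𝓘(ℂ, E) 𝓘(ℂ, E) f)
    (hf' : MDifferentiable 𝓘(ℂ, E) 𝓘(ℂ, E) f.symm) (n : ℕ) (x : X) (v : E) :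
    dg (f.symm^[n]) (f^[n] x) (dg (f^[n]) x v) = v := by
  have h1 := mfderiv_comp x (iter hf' n (f^[n] x)) (iter hf n x)
  have h2 : (⇑f.symm)^[n] ∘ (⇑f)^[n] = id := by
    funext y
    exact Function.LeftInverse.iterate f.left_inv n y
  rw [h2, mfderiv_id] at h1
  have h3 := congrArg (fun L : TangentSpace 𝓘(ℂ, E) x →L[ℂ] TangentSpace 𝓘(ℂ, E) _ => L v) h1
  exact h3.symm

end

end sFrmAux

open sFrmAux

theorem sFrm : S_Frm := by
  intro hFrame hDm E _ _ _ X _ _ _ nrm f K Es Eu C lam ψ χ ρ a b hF hH hU hL hang p hp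
  obtain ⟨C', hC', hang⟩ := hang
  obtain ⟨CF, hCF, hfr⟩ := hFrame E
  have ha := hU.a_pos
  have hb := hU.b_pos
  have hCp := hH.C_pos
  set γ : ℝ := C' * b / a with hγ
  have hγ0 : 0 ≤ γ := by positivity
  set C₁ : ℝ := CF * (1 + γ) with hC₁
  have hC₁p : 0 < C₁ := by positivity
  have hCFC : CF ≤ C₁ := by
    rw [hC₁]
    nlinarith
  -- the derivative of the chart
  have hDinj : ∀ x ∈ K, Function.Injective (du (ψ x) (0 : E)).toLinearMap := by
    intro x hx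
    rw [injective_iff_map_eq_zero]
    intro w hw
    have h1 := hU.low x hx w
    have h2 : du (ψ x) (0 : E) w = 0 := hw
    rw [h2, nE_zero hF] at h1
    by_contra h3
    have h4 : 0 < ‖w‖ := norm_pos_iff.2 h3
    have := mul_pos ha h4
    linarith
  have hcontr : ∀ x ∈ K, ∀ v ∈ sE Es x, ∀ n : ℕ,
      nE nrm (f^[n] x) (dg (f^[n]) x v) ≤ C * lam ^ n * nE nrm x v := hH.contr
  have hexp : ∀ x ∈ K, ∀ v ∈ sE Eu x, ∀ n : ℕ,
      nE nrm x v ≤ C * lam ^ n * nE nrm (f^[n] x) (dg (f^[n]) x v) := hH.expand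
  have hcompl : ∀ x ∈ K, IsCompl (sE Es x) (sE Eu x) := hH.compl
  let Fs : X → Submodule ℂ E := fun x => (sE Es x).comap (du (ψ x) (0 : E)).toLinearMap
  let Fu : X → Submodule ℂ E := fun x => (sE Eu x).comap (du (ψ x) (0 : E)).toLinearMap
  have hFc : ∀ x ∈ K, IsCompl (Fs x) (Fu x) := fun x hx => comap_compl (hDinj x hx) (hcompl x hx)
  have hangle : ∀ x ∈ K, ∀ v ∈ Fs x, ∀ w ∈ Fu x, ‖v‖ ≤ γ * ‖v + w‖ := by
    intro x hx v hv w hw
    have h1 := hU.low x hx v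
    have h2 := hang x hx _ hv _ hw
    have h3 := hU.up x hx (v + w)
    rw [map_add] at h3
    have h4 : a * ‖v‖ ≤ C' * (b * ‖v + w‖) := by
      refine (h1.trans h2).trans ?_
      exact mul_le_mul_of_nonneg_left h3 hC'.le
    rw [hγ, div_mul_eq_mul_div, le_div_iff₀ ha]
    linarith
  -- the frames
  have hex : ∀ n : ℕ, ∃ e : V (Module.finrank ℂ (sE Es p)) (Module.finrank ℂ (sE Eu p)) ≃L[ℂ] E,
      (∀ z, e (z, 0) ∈ Fs (f^[n] p)) ∧ (∀ w, e (0, w) ∈ Fu (f^[n] p)) ∧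
      (∀ v, ‖e v‖ ≤ CF * ‖v‖) ∧ ∀ v, ‖v‖ ≤ CF * (1 + γ) * ‖e v‖ := by
    intro n
    obtain ⟨hx, _, _, h4, h5, _⟩ := hDm E X nrm f K Es Eu C lam hH p hp n
    exact hfr (Fs (f^[n] p)) (Fu (f^[n] p)) _ _ γ
      ((comap_finrank (hDinj _ hx) _).trans h4) ((comap_finrank (hDinj _ hx) _).trans h5)
      (hFc _ hx) hγ0 (hangle _ hx)
  choose e' he1 he2 he3 he4 using hex
  -- the number of steps
  obtain ⟨N, hN0, hN⟩ : ∃ N : ℕ, 0 < N ∧ C₁ ^ 2 * (C * lam ^ N * b / a) ≤ 1 / 8 := by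
    have h1 : Tendsto (fun n : ℕ => C₁ ^ 2 * (C * lam ^ n * b / a)) atTop (𝓝 0) := by
      have h2 := (tendsto_pow_atTop_nhds_zero_of_lt_one hH.lam_pos.le hH.lam_lt).const_mul
        (C₁ ^ 2 * (C * b / a))
      rw [mul_zero] at h2
      refine h2.congr fun n => ?_
      ring
    have h3 := (h1.eventually (gt_mem_nhds (show (0 : ℝ) < 1 / 8 by norm_num))).and
      (eventually_gt_atTop 0)
    obtain ⟨N, h4, h5⟩ := h3.exists
    exact ⟨N, h5, h4.le⟩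
  set q : ℝ := C * lam ^ N * b / a with hq
  have hlam := hH.lam_pos
  have hq0 : 0 ≤ q := by positivity
  let x : ℕ → X := fun n => f^[N * n] p
  have hxK : ∀ n, x n ∈ K := fun n => (hDm E X nrm f K Es Eu C lam hH p hp (N * n)).1
  have hxs : ∀ n, f^[N] (x n) = x (n + 1) := by
    intro n
    show f^[N] (f^[N * n] p) = f^[N * (n + 1)] p
    rw [← Function.iterate_add_apply, Nat.mul_succ, Nat.add_comm]
  have hxs' : ∀ n, f.symm^[N] (x (n + 1)) = x n := by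
    intro n
    rw [← hxs]
    exact Function.LeftInverse.iterate f.left_inv N (x n)
  obtain ⟨⟨ρ₁, hL1⟩, ρ₂, hL2⟩ := hL N
  let L : ℕ → E →L[ℂ] E := fun n => fderiv ℂ (loc ψ χ (f^[N]) (x n)) 0
  have hLd : ∀ n w, du (ψ (x (n + 1))) (0 : E) (L n w) = dg (f^[N]) (x n) (du (ψ (x n)) (0 : E) w) := by
    intro n w
    have h1 := hL1.deriv (x n) (hxK n) w
    rw [hxs n] at h1
    exact h1
  have hLs : ∀ n, ∀ w ∈ Fs (x n), L n w ∈ Fs (x (n + 1)) := by
    intro n w hw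
    show du (ψ (x (n + 1))) (0 : E) (L n w) ∈ sE Es (x (n + 1))
    rw [hLd, ← hxs n]
    exact (hDm E X nrm f K Es Eu C lam hH (x n) (hxK n) N).2.1 _ hw
  have hLu : ∀ n, ∀ w ∈ Fu (x n), L n w ∈ Fu (x (n + 1)) := by
    intro n w hw
    show du (ψ (x (n + 1))) (0 : E) (L n w) ∈ sE Eu (x (n + 1))
    rw [hLd, ← hxs n]
    exact (hDm E X nrm f K Es Eu C lam hH (x n) (hxK n) N).2.2.1 _ hw
  have hLc : ∀ n, ∀ w ∈ Fs (x n), ‖L n w‖ ≤ q * ‖w‖ := by
    intro n w hw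
    have h1 := hU.low (x (n + 1)) (hxK (n + 1)) (L n w)
    have h2 := hcontr (x n) (hxK n) _ hw N
    have h3 := hU.up (x n) (hxK n) w
    rw [hxs n] at h2
    rw [hLd] at h1
    have h4 : a * ‖L n w‖ ≤ C * lam ^ N * (b * ‖w‖) := by
      refine (h1.trans h2).trans ?_
      exact mul_le_mul_of_nonneg_left h3 (by positivity)
    rw [hq, div_mul_eq_mul_div, le_div_iff₀ ha]
    linarith
  have hLe : ∀ n, ∀ w ∈ Fu (x n), ‖w‖ ≤ q * ‖L n w‖ := by
    intro n w hw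
    have h1 := hU.low (x n) (hxK n) w
    have h2 := hexp (x n) (hxK n) _ hw N
    have h3 := hU.up (x (n + 1)) (hxK (n + 1)) (L n w)
    rw [hxs n] at h2
    rw [hLd] at h3
    have h4 : a * ‖w‖ ≤ C * lam ^ N * (b * ‖L n w‖) := by
      refine (h1.trans h2).trans ?_
      exact mul_le_mul_of_nonneg_left h3 (by positivity)
    rw [hq, div_mul_eq_mul_div, le_div_iff₀ ha]
    linarith
  -- the lower bound
  have hLi : ∀ n w, ρ₂ * ‖w‖ ≤ ‖L n w‖ := by
    intro n w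
    set L' : E →L[ℂ] E := fderiv ℂ (loc ψ χ (f.symm^[N]) (x (n + 1))) 0 with hL'
    have h1 : ‖L'‖ ≤ 1 / ρ₂ := Osgood.norm_fderiv_le hL2.pos (hL2.diff _ (hxK (n + 1)))
      (fun v hv => (hL2.small _ (hxK (n + 1)) v hv).le)
    have h2 := hL2.deriv (x (n + 1)) (hxK (n + 1)) (L n w)
    rw [hxs' n, hLd] at h2
    have h3 := inv_iter hH.hol hH.hol_symm N (x n) (du (ψ (x n)) (0 : E) w)
    rw [hxs n] at h3
    rw [h3] at h2
    have h4 : L' (L n w) = w := hDinj (x n) (hxK n) h2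
    have h5 := L'.le_opNorm (L n w)
    rw [h4] at h5
    have h6 : ‖w‖ ≤ 1 / ρ₂ * ‖L n w‖ :=
      h5.trans (mul_le_mul_of_nonneg_right h1 (norm_nonneg _))
    rw [one_div, inv_mul_eq_div, le_div_iff₀ hL2.pos] at h6
    linarith
  let e : ℕ → V (Module.finrank ℂ (sE Es p)) (Module.finrank ℂ (sE Eu p)) ≃L[ℂ] E :=
    fun n => e' (N * n)
  have hes : ∀ n z, e n (z, 0) ∈ Fs (x n) := fun n z => he1 (N * n) z
  have heu : ∀ n w, e n (0, w) ∈ Fu (x n) := fun n w => he2 (N * n) w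
  have hup : ∀ n v, ‖e n v‖ ≤ C₁ * ‖v‖ := fun n v =>
    (he3 (N * n) v).trans (mul_le_mul_of_nonneg_right hCFC (norm_nonneg _))
  have hlow : ∀ n v, ‖v‖ ≤ C₁ * ‖e n v‖ := fun n v => he4 (N * n) v
  let A : ℕ → (Fin (Module.finrank ℂ (sE Es p)) → ℂ) →L[ℂ] (Fin (Module.finrank ℂ (sE Es p)) → ℂ) :=
    fun n => (ContinuousLinearMap.fst ℂ _ (Fin (Module.finrank ℂ (sE Eu p)) → ℂ)).comp
      (((e (n + 1)).symm.toContinuousLinearMap).comp ((L n).comp
        (((e n).toContinuousLinearMap).comp (ContinuousLinearMap.inl ℂ _ _))))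
  let B : ℕ → (Fin (Module.finrank ℂ (sE Eu p)) → ℂ) →L[ℂ] (Fin (Module.finrank ℂ (sE Eu p)) → ℂ) :=
    fun n => (ContinuousLinearMap.snd ℂ (Fin (Module.finrank ℂ (sE Es p)) → ℂ) _).comp
      (((e (n + 1)).symm.toContinuousLinearMap).comp ((L n).comp
        (((e n).toContinuousLinearMap).comp (ContinuousLinearMap.inr ℂ _ _))))
  have hA : ∀ n z, e (n + 1) (A n z, 0) = L n (e n (z, 0)) := fun n z =>
    coord_fst (e (n + 1)) (hFc _ (hxK (n + 1))) (hes (n + 1)) (heu (n + 1)) (hLs n _ (hes n z))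
  have hB : ∀ n y, e (n + 1) (0, B n y) = L n (e n (0, y)) := fun n y =>
    coord_snd (e (n + 1)) (hFc _ (hxK (n + 1))) (hes (n + 1)) (heu (n + 1)) (hLu n _ (heu n y))
  have hn1 : ∀ z : Fin (Module.finrank ℂ (sE Es p)) → ℂ,
      ‖((z, 0) : V (Module.finrank ℂ (sE Es p)) (Module.finrank ℂ (sE Eu p)))‖ = ‖z‖ := by
    intro z
    rw [Prod.norm_mk, norm_zero, max_eq_left (norm_nonneg _)]
  have hn2 : ∀ y : Fin (Module.finrank ℂ (sE Eu p)) → ℂ,
      ‖((0, y) : V (Module.finrank ℂ (sE Es p)) (Module.finrank ℂ (sE Eu p)))‖ = ‖y‖ := by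
    intro y
    rw [Prod.norm_mk, norm_zero, max_eq_right (norm_nonneg _)]
  refine ⟨N, _, _, e, A, B, C₁, ρ₂ / (C₁ * C₁), ⟨hN0, hC₁p, ?_, hup, hlow, ?_, rfl, ?_, ?_, ?_, ?_⟩⟩
  · have := hL2.pos
    positivity
  · exact fun z => he1 0 z
  · intro n v
    show L n (e n v) = _
    have h1 : v = (v.1, 0) + (0, v.2) := by
      rw [Prod.mk_add_mk, add_zero, zero_add]
    have h2 : ((A n v.1, B n v.2) : V _ _) = (A n v.1, 0) + (0, B n v.2) := by
      rw [Prod.mk_add_mk, add_zero, zero_add]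
    rw [h2, map_add, hA, hB, ← map_add, ← map_add, ← h1]
  · intro n z
    have h1 := hlow (n + 1) (A n z, 0)
    rw [hA, hn1] at h1
    have h2 := hLc n _ (hes n z)
    have h3 := hup n (z, 0)
    rw [hn1] at h3
    have h4 : ‖L n (e n (z, 0))‖ ≤ q * (C₁ * ‖z‖) :=
      h2.trans (mul_le_mul_of_nonneg_left h3 hq0)
    calc ‖A n z‖ ≤ C₁ * ‖L n (e n (z, 0))‖ := h1
      _ ≤ C₁ * (q * (C₁ * ‖z‖)) := mul_le_mul_of_nonneg_left h4 hC₁p.le
      _ = (C₁ ^ 2 * q) * ‖z‖ := by ring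
      _ ≤ 1 / 8 * ‖z‖ := mul_le_mul_of_nonneg_right hN (norm_nonneg _)
  · intro n z
    have h1 := hup (n + 1) (A n z, 0)
    rw [hA, hn1] at h1
    have h2 := hLi n (e n (z, 0))
    have h3 := hlow n (z, 0)
    rw [hn1] at h3
    rw [div_mul_eq_mul_div, div_le_iff₀ (by positivity)]
    have h4 : ρ₂ * ‖z‖ ≤ ρ₂ * (C₁ * ‖e n (z, 0)‖) := mul_le_mul_of_nonneg_left h3 hL2.pos.le
    have h5 : C₁ * (ρ₂ * ‖e n (z, 0)‖) ≤ C₁ * (C₁ * ‖A n z‖) :=
      mul_le_mul_of_nonneg_left (h2.trans h1) hC₁p.le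
    calc ρ₂ * ‖z‖ ≤ ρ₂ * (C₁ * ‖e n (z, 0)‖) := h4
      _ = C₁ * (ρ₂ * ‖e n (z, 0)‖) := by ring
      _ ≤ C₁ * (C₁ * ‖A n z‖) := h5
      _ = ‖A n z‖ * (C₁ * C₁) := by ring
  · intro n y
    have h1 := hlow n (0, y)
    rw [hn2] at h1
    have h2 := hLe n _ (heu n y)
    have h3 := hup (n + 1) (0, B n y)
    rw [hB, hn2] at h3
    have h4 : ‖e n (0, y)‖ ≤ q * (C₁ * ‖B n y‖) := h2.trans (mul_le_mul_of_nonneg_left h3 hq0)
    have h5 : ‖y‖ ≤ 1 / 8 * ‖B n y‖ := by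
      calc ‖y‖ ≤ C₁ * ‖e n (0, y)‖ := h1
        _ ≤ C₁ * (q * (C₁ * ‖B n y‖)) := mul_le_mul_of_nonneg_left h4 hC₁p.le
        _ = (C₁ ^ 2 * q) * ‖B n y‖ := by ring
        _ ≤ 1 / 8 * ‖B n y‖ := mul_le_mul_of_nonneg_right hN (norm_nonneg _)
    linarith

end Pool.Agent.Lib.Bed
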