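import Pool.Agent.Lib.Bed.SpecN

/-!
# MP_6f050a_an, part N: GDx, existence of the data
-/

set_option autoImplicit false

open scoped Topology
open Set Filter Metric

namespace Pool.Agent.Lib.Bed

theorem sGDx : S_GDx := by
  intro hWei hTPa hTPb hOB hDI hSec hLim hDfn hCou k S s U hU
  have h1 : ∀ i : ℕ, ∃ (A : ℝ) (n : ℕ) (σ : (Fin s.val → ℂ) → (Fin k → ℂ)),
      Sec S s.val U ((i : ℝ) + 2) A n σ := fun i =>
    hSec hTPa hTPb hOB hDI k S s.val U s.isLt.le hU ((i : ℝ) + 2)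
  choose A n σ hσ using h1
  have h2 : ∀ i : ℕ, ∃ W : ℕ → (Fin k → ℂ) → ℂ, IsW S s U ((i : ℝ) + 2) (n i) (σ i) W := fun i =>
    hLim hWei hTPa hDI k S s U hU _ _ _ _ (hσ i)
  choose W hW using h2
  have h3 : ∀ i : ℕ, ∃ D : (Fin s.val → ℂ) → ℂ, DifferentiableOn ℂ D (ball 0 ((i : ℝ) + 2)) ∧
      ∀ j j', n i + j = n (i + 1) + j' → ∀ z ∈ S.dom (n i + j),
        U (n i + j) z ∈ ball (0 : Fin s.val → ℂ) ((i : ℝ) + 2) →
        W i j z - W (i + 1) j' z = D (U (n i + j) z) := by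
    intro i
    refine hDfn k S s U hU ((i : ℝ) + 2) (A i) (n i) (σ i) (W i) (((i + 1 : ℕ) : ℝ) + 2)
      (A (i + 1)) (n (i + 1)) (σ (i + 1)) (W (i + 1)) ?_ (hσ i) (hσ (i + 1)) (hW i) (hW (i + 1))
    push_cast
    linarith
  choose D hD hDW using h3
  obtain ⟨E, hE, hED⟩ := hCou hWei s.val D hD
  refine ⟨A, n, σ, W, E, hU, hσ, hW, hE, ?_⟩
  intro i j j' hjj z hz hUz
  rw [hDW i j j' hjj z hz (ball_subset_ball (by linarith) hUz), hED i _ hUz]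

end Pool.Agent.Lib.Bed
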