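import Pool.Agent.Lib.Bed.SpecN

/-!
# MP_6f050a_an, Bed/Glu: the new coordinate is well defined
-/

set_option autoImplicit false

open scoped Topology
open Set Filter Metric

namespace Pool.Agent.Lib.Bed

namespace sGluAux

variable {k : ℕ} {S : Sys k} {s : Fin k} {U : ℕ → (Fin k → ℂ) → (Fin s.val → ℂ)} {A : ℕ → ℝ}
  {n : ℕ → ℕ} {σ : ℕ → (Fin s.val → ℂ) → (Fin k → ℂ)} {W : ℕ → ℕ → (Fin k → ℂ) → ℂ}
  {E : ℕ → (Fin s.val → ℂ) → ℂ}

theorem pt (g : GD S s U A n σ W E) {i j m l : ℕ} (h : m + l = n i + j) {z : Fin k → ℂ}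
    (hz : z ∈ S.dom m) : orb S.T m l z ∈ S.dom (n i + j) ∧
      U (n i + j) (orb S.T m l z) = U m z := by
  rw [← h]
  exact ⟨S.orb_mem hz l, g.lev.orb_comp hz l⟩

theorem ball_mono {u : Fin s.val → ℂ} {i : ℕ} (hu : u ∈ ball (0 : Fin s.val → ℂ) (i + 1)) :
    u ∈ ball (0 : Fin s.val → ℂ) (i + 2) :=
  ball_subset_ball (by linarith) hu

theorem step (g : GD S s U A n σ W E) {i j m l : ℕ} (h : m + l = n i + j) {z : Fin k → ℂ}
    (hz : z ∈ S.dom m) (hu : U m z ∈ ball (0 : Fin s.val → ℂ) (i + 1)) :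
    W i (j + 1) (orb S.T m (l + 1) z) = W i j (orb S.T m l z) := by
  obtain ⟨h1, h2⟩ := pt g h hz
  rw [orb_succ, h]
  refine (g.w i).comp j _ h1 ?_
  rw [h2]
  exact ball_mono hu

theorem steps (g : GD S s U A n σ W E) {i j m l : ℕ} (h : m + l = n i + j) {z : Fin k → ℂ}
    (hz : z ∈ S.dom m) (hu : U m z ∈ ball (0 : Fin s.val → ℂ) (i + 1)) (c : ℕ) :
    W i (j + c) (orb S.T m (l + c) z) = W i j (orb S.T m l z) := by
  induction c with
  | zero => rfl
  | succ c ih =>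
    rw [← ih]
    exact step g (i := i) (j := j + c) (l := l + c) (by omega) hz hu

theorem pair (g : GD S s U A n σ W E) {i j j' m l l' : ℕ} (h : m + l = n i + j)
    (h' : m + l' = n i + j') {z : Fin k → ℂ} (hz : z ∈ S.dom m)
    (hu : U m z ∈ ball (0 : Fin s.val → ℂ) (i + 1)) :
    W i j (orb S.T m l z) = W i j' (orb S.T m l' z) := by
  have h1 := steps g h hz hu l'
  have h2 := steps g h' hz hu l
  rw [← h1, ← h2]
  have e1 : j + l' = j' + l := by omega
  have e2 : l + l' = l' + l := by omega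
  rw [e1, e2]

theorem up (g : GD S s U A n σ W E) {i j j' m l l' : ℕ} (h : m + l = n i + j)
    (h' : m + l' = n (i + 1) + j') {z : Fin k → ℂ} (hz : z ∈ S.dom m)
    (hu : U m z ∈ ball (0 : Fin s.val → ℂ) (i + 1)) :
    W i j (orb S.T m l z) - E i (U m z) = W (i + 1) j' (orb S.T m l' z) - E (i + 1) (U m z) := by
  have hu' : U m z ∈ ball (0 : Fin s.val → ℂ) ((i + 1 : ℕ) + 1) := by
    refine ball_subset_ball ?_ hu
    push_cast
    linarith
  have h1 := steps g h hz hu l'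
  have h2 := steps g h' hz hu' l
  have e2 : l' + l = l + l' := by omega
  have hp : m + (l + l') = n i + (j + l') := by omega
  obtain ⟨h3, h4⟩ := pt g hp hz
  have h5 := g.glue i (j + l') (j' + l) (by omega) _ h3 (by rw [h4]; exact hu)
  rw [h4] at h5
  rw [e2] at h2
  rw [h1, h2] at h5
  linear_combination h5

/-- the value with the canonical pair -/
private noncomputable def v (S : Sys k) (U : ℕ → (Fin k → ℂ) → (Fin s.val → ℂ)) (n : ℕ → ℕ)
    (W : ℕ → ℕ → (Fin k → ℂ) → ℂ) (E : ℕ → (Fin s.val → ℂ) → ℂ) (i m : ℕ) (z : Fin k → ℂ) : ℂ :=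
  W i m (orb S.T m (n i) z) - E i (U m z)

theorem v_up (g : GD S s U A n σ W E) {i i' m : ℕ} (h : i ≤ i') {z : Fin k → ℂ}
    (hz : z ∈ S.dom m) (hu : U m z ∈ ball (0 : Fin s.val → ℂ) (i + 1)) :
    v S U n W E i m z = v S U n W E i' m z := by
  induction i', h using Nat.le_induction with
  | base => rfl
  | succ i' hi ih =>
    rw [ih]
    refine up g (Nat.add_comm _ _) (Nat.add_comm _ _) hz ?_
    refine ball_subset_ball ?_ hu
    have : (i : ℝ) ≤ i' := by exact_mod_cast hi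
    linarith

end sGluAux

open sGluAux in
theorem sGlu : S_Glu := by
  intro k S s U A n σ W E g
  refine ⟨fun m z => v S U n W E ⌈‖U m z‖⌉₊ m z, ?_⟩
  intro i j m l h z hz hu
  have h1 : W i j (orb S.T m l z) = W i m (orb S.T m (n i) z) :=
    pair g h (Nat.add_comm _ _) hz hu
  rw [h1]
  change v S U n W E ⌈‖U m z‖⌉₊ m z = v S U n W E i m z
  have h2 : U m z ∈ ball (0 : Fin s.val → ℂ) ((⌈‖U m z‖⌉₊ : ℕ) + 1) := by
    rw [mem_ball_zero_iff]
    have := Nat.le_ceil ‖U m z‖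
    linarith
  rcases le_total i ⌈‖U m z‖⌉₊ with h3 | h3
  · exact (v_up g h3 hz hu).symm
  · exact v_up g h3 hz h2

end Pool.Agent.Lib.Bed
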