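import Pool.Agent.Lib.Bed.SpecM

/-!
# MP_6f050a_an, part M, HInj: the maps `H n` are injective immersions
-/

set_option autoImplicit false

open scoped Manifold ContDiff Topology
open Set Filter Metric

namespace Pool.Agent.Lib.Bed

namespace sHInjAux

variable {E : Type} [NormedAddCommGroup E] [NormedSpace ℂ E]
variable {X : Type} [MetricSpace X] [ChartedSpace E X]

theorem mdiff_iter {g : X → X} (hg : MDifferentiable 𝓘(ℂ, E) 𝓘(ℂ, E) g) (N : ℕ) :
    MDifferentiable 𝓘(ℂ, E) 𝓘(ℂ, E) (g^[N]) := by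
  induction N with
  | zero => exact mdifferentiable_id
  | succ N ih =>
    rw [Function.iterate_succ]
    exact ih.comp hg

theorem left_inv_iter {X : Type} (f : X ≃ X) (N : ℕ) : (f.symm : X → X)^[N] ∘ (f : X → X)^[N] = id := by
  funext x
  exact (Function.LeftInverse.iterate f.symm_apply_apply N) x

/-- the derivative of an iterate of an automorphism is injective -/
theorem dinj_iter (f : X ≃ X) (hf : MDifferentiable 𝓘(ℂ, E) 𝓘(ℂ, E) f)
    (hf' : MDifferentiable 𝓘(ℂ, E) 𝓘(ℂ, E) f.symm) (N : ℕ) (x : X) (w : TangentSpace 𝓘(ℂ, E) x)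
    (hw : mfderiv 𝓘(ℂ, E) 𝓘(ℂ, E) ((f : X → X)^[N]) x w = 0) : w = 0 := by
  have h1 := (mdiff_iter hf N x).hasMFDerivAt
  have h2 := (mdiff_iter hf' N ((f : X → X)^[N] x)).hasMFDerivAt
  have h3 := HasMFDerivAt.comp x h2 h1
  rw [left_inv_iter] at h3
  have h4 := hasMFDerivAt_unique h3 (hasMFDerivAt_id x)
  have h5 := congrArg (fun L => L w) h4
  have h6 : mfderiv 𝓘(ℂ, E) 𝓘(ℂ, E) ((f.symm : X → X)^[N]) ((f : X → X)^[N] x)
      (mfderiv 𝓘(ℂ, E) 𝓘(ℂ, E) ((f : X → X)^[N]) x w) = w := h5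
  rw [hw, map_zero] at h6
  exact h6.symm

end sHInjAux

open sHInjAux in
theorem sHInj : S_HInj := by
  intro E _ _ X _ _ f p N k l P H ρ ρ' hf hf' hP
  have hsub : ball (0 : V k l) ρ' ⊆ ball 0 ρ := ball_subset_ball hP.le
  refine ⟨?_, ?_⟩
  · intro n v hv v' hv' hvv
    have h1 : (f : X → X)^[N] (P n v) = (f : X → X)^[N] (P n v') := by
      rw [← hP.comm n v hv, ← hP.comm n v' hv', hvv]
    exact hP.inj n (hsub hv) (hsub hv') (f.injective.iterate N h1)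
  · intro n v hv w hw
    have hop : ball (0 : V k l) ρ' ∈ 𝓝 v := isOpen_ball.mem_nhds hv
    have h1 : HasMFDerivAt 𝓘(ℂ, V k l) 𝓘(ℂ, V k l) (H n) v (fderiv ℂ (H n) v) :=
      (((hP.diffH n).differentiableAt hop).hasFDerivAt).hasMFDerivAt
    have h2 := (hP.diff (n + 1) (H n v) (hP.maps n hv)).hasMFDerivAt
    have h3 := HasMFDerivAt.comp v h2 h1
    have h4 := (hP.diff n v (hsub hv)).hasMFDerivAt
    have h5 := (mdiff_iter hf N (P n v)).hasMFDerivAt
    have h6 := HasMFDerivAt.comp v h5 h4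
    have heq : (P (n + 1) ∘ H n) =ᶠ[𝓝 v] ((f : X → X)^[N] ∘ P n) := by
      filter_upwards [hop] with y hy
      exact hP.comm n y hy
    have h7 := hasMFDerivAt_unique h3 (h6.congr_of_eventuallyEq heq)
    have h8 := congrArg (fun L => L w) h7
    have h9 : mfderiv 𝓘(ℂ, V k l) 𝓘(ℂ, E) (P (n + 1)) (H n v) (fderiv ℂ (H n) v w) =
        mfderiv 𝓘(ℂ, E) 𝓘(ℂ, E) ((f : X → X)^[N]) (P n v)
          (mfderiv 𝓘(ℂ, V k l) 𝓘(ℂ, E) (P n) v w) := h8
    rw [hw] at h9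
    have hz : mfderiv 𝓘(ℂ, V k l) 𝓘(ℂ, E) (P (n + 1)) (H n v)
        (0 : TangentSpace 𝓘(ℂ, V k l) (H n v)) = 0 := map_zero _
    have h10 := dinj_iter f hf hf' N (P n v) _ (h9.symm.trans hz)
    have hz' : mfderiv 𝓘(ℂ, V k l) 𝓘(ℂ, E) (P n) v
        (0 : TangentSpace 𝓘(ℂ, V k l) v) = 0 := map_zero _
    exact hP.dinj n v (hsub hv) (h10.trans hz'.symm)

end Pool.Agent.Lib.Bed
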