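import Pool.Agent.Lib.Bed.SpecN

/-!
# Stable manifolds: all the coordinates (induction)
-/

set_option autoImplicit false

open scoped Topology
open Set Filter Metric

namespace Pool.Agent.Lib.Bed

namespace sIndAux

theorem base {k : ℕ} (S : Sys k) : ∃ U : ℕ → (Fin k → ℂ) → (Fin 0 → ℂ), Lev S 0 U := by
  refine ⟨fun _ _ => fun i => i.elim0, ?_, ?_, ?_, ?_, ?_⟩
  · intro m
    exact differentiableOn_const _
  · intro m z _
    rfl
  · intro m z _ z' _ _ t ht
    exact absurd ht (Nat.not_lt_zero _)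
  · intro m z _ w _ t ht
    exact absurd ht (Nat.not_lt_zero _)
  · intro A
    obtain ⟨M, ε, _, _, hM⟩ := S.near (max A 0)
    refine ⟨M, max A 0, ?_⟩
    intro m hm u _ ζ hζ
    have h1 : wn S.κ m ζ ≤ max A 0 :=
      wn_le S.wt (le_max_right _ _) fun t => (hζ t (Nat.zero_le _)).trans (le_max_left _ _)
    exact ⟨ζ, fun _ _ => rfl, h1, (hM m hm).1 ζ h1, Subsingleton.elim _ _⟩

end sIndAux

theorem sInd : S_Ind := by
  intro hWei hTPa hTPb hOB hDI hSec hLim hDfn hCou hGDx hGlu hLvA hLvB k S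
  have key : ∀ s : ℕ, s ≤ k → ∃ U : ℕ → (Fin k → ℂ) → (Fin s → ℂ), Lev S s U := by
    intro s
    induction s with
    | zero => exact fun _ => sIndAux.base S
    | succ s ih =>
      intro hs
      obtain ⟨U, hU⟩ := ih (by omega)
      have hU' : Lev S (⟨s, hs⟩ : Fin k).val U := hU
      obtain ⟨A, n, σ, W, E, hGD⟩ := hGDx hWei hTPa hTPb hOB hDI hSec hLim hDfn hCou k S
        (⟨s, hs⟩ : Fin k) U hU'
      obtain ⟨V, hV⟩ := hGlu k S (⟨s, hs⟩ : Fin k) U A n σ W E hGD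
      obtain ⟨h1, h2, h3, h4⟩ := hLvA k S (⟨s, hs⟩ : Fin k) U A n σ W E V hGD hV
      have h5 := hLvB hTPa hOB hDI k S (⟨s, hs⟩ : Fin k) U A n σ W E V hGD hV
      exact ⟨fun m z => (Fin.snoc (U m z) (V m z) : Fin (s + 1) → ℂ), h1, h2, h3, h4, h5⟩
  exact key k le_rfl

end Pool.Agent.Lib.Bed
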