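import Pool.Agent.Lib.Bed.SpecK

/-!
# MP_6f050a_an, part K: KLin, bounds of the products
-/

set_option autoImplicit false

open scoped Topology
open Set Filter Metric

namespace Pool.Agent.Lib.Bed

theorem sKLin : S_KLin := by
  intro k Λ e om C c η h j m hjm x
  have hwt : IsWt om := ⟨h.w.pos, h.w.anti, h.w.ratio⟩
  obtain ⟨z, rfl⟩ := e.surjective x
  set K : ℝ := C * Real.exp (-(η * j)) * ‖Λ j (e z)‖ with hK
  have h0 : 0 < om 0 j := h.w.pos 0 j
  have h0m : 0 < om 0 m := h.w.pos 0 m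
  have hC := h.C_pos
  have h1 : ∀ t : Fin (k + 1), ‖z t • Λ m (e (Pi.single t 1))‖ ≤ C * (K * om 0 m / om 0 j ^ 2) := by
    intro t
    rw [norm_smul]
    have h2 := h.k2 j z 0 t
    have h3 : om t m * om 0 j ≤ om t j * om 0 m := ratio' hwt (Fin.zero_le t) hjm
    have h4 : ‖z t‖ * om t m ≤ K * om 0 m / om 0 j ^ 2 := by
      rw [le_div_iff₀ (by positivity)]
      calc ‖z t‖ * om t m * om 0 j ^ 2 = ‖z t‖ * om 0 j * (om t m * om 0 j) := by ring
        _ ≤ ‖z t‖ * om 0 j * (om t j * om 0 m) :=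
            mul_le_mul_of_nonneg_left h3 (mul_nonneg (norm_nonneg _) h0.le)
        _ = (om 0 j * om t j * ‖z t‖) * om 0 m := by ring
        _ ≤ K * om 0 m := mul_le_mul_of_nonneg_right h2 h0m.le
    calc ‖z t‖ * ‖Λ m (e (Pi.single t 1))‖ ≤ ‖z t‖ * (C * om t m) :=
          mul_le_mul_of_nonneg_left (h.k1 t m) (norm_nonneg _)
      _ = C * (‖z t‖ * om t m) := by ring
      _ ≤ C * (K * om 0 m / om 0 j ^ 2) := mul_le_mul_of_nonneg_left h4 hC.le
  have h5 : Λ m (e z) = ∑ t, z t • Λ m (e (Pi.single t 1)) := by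
    have h6 : z = ∑ t, z t • (Pi.single t 1 : Fin (k + 1) → ℂ) := by
      conv_lhs => rw [← Finset.univ_sum_single z]
      refine Finset.sum_congr rfl fun t _ => ?_
      rw [← Pi.single_smul, smul_eq_mul, mul_one]
    conv_lhs => rw [h6]
    rw [map_sum, map_sum]
    refine Finset.sum_congr rfl fun t _ => ?_
    rw [map_smul, map_smul]
  rw [h5]
  calc ‖∑ t, z t • Λ m (e (Pi.single t 1))‖ ≤ ∑ t, ‖z t • Λ m (e (Pi.single t 1))‖ :=
        norm_sum_le _ _
    _ ≤ ∑ _t : Fin (k + 1), C * (K * om 0 m / om 0 j ^ 2) := Finset.sum_le_sum fun t _ => h1 t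
    _ = (k + 1) * C ^ 2 * Real.exp (-(η * j)) * om 0 m / om 0 j ^ 2 * ‖Λ j (e z)‖ := by
      rw [Finset.sum_const, Finset.card_univ, Fintype.card_fin, nsmul_eq_mul, hK]
      push_cast
      ring

end Pool.Agent.Lib.Bed
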