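import Pool.Agent.Lib.Bed.SpecK

/-!
# Orbits decay like `om 0`
-/

set_option autoImplicit false

open scoped Topology
open Set Filter Metric

namespace Pool.Agent.Lib.Bed

namespace sKOrbAux

variable {k : ℕ} {r D C c : ℝ} {f : ℕ → (Fin k → ℂ) → (Fin k → ℂ)}
  {L : ℕ → (Fin k → ℂ) →L[ℂ] (Fin k → ℂ)}

theorem prod_low (h : SeqD k r D C c f L) (m : ℕ) (x : Fin k → ℂ) :
    c ^ m * ‖x‖ ≤ ‖prodL L (ContinuousLinearMap.id ℂ (Fin k → ℂ)) m x‖ := by
  induction m with
  | zero => simp [prodL]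
  | succ m ih =>
    change _ ≤ ‖L m (prodL L (ContinuousLinearMap.id ℂ (Fin k → ℂ)) m x)‖
    refine le_trans ?_ (h.low m _)
    rw [pow_succ', mul_assoc]
    exact mul_le_mul_of_nonneg_left ih h.c_pos.le

theorem prod_surj (h : SeqD k r D C c f L) (m : ℕ) (y : Fin k → ℂ) :
    ∃ x, prodL L (ContinuousLinearMap.id ℂ (Fin k → ℂ)) m x = y := by
  have hinj : Function.Injective
      (prodL L (ContinuousLinearMap.id ℂ (Fin k → ℂ)) m : (Fin k → ℂ) →ₗ[ℂ] (Fin k → ℂ)) := by
    rw [injective_iff_map_eq_zero]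
    intro x hx
    have h1 := prod_low h m x
    have h2 : prodL L (ContinuousLinearMap.id ℂ (Fin k → ℂ)) m x = 0 := hx
    rw [h2, norm_zero] at h1
    have h3 : 0 < c ^ m := pow_pos h.c_pos m
    have h4 : ‖x‖ ≤ 0 := by
      by_contra h5
      push Not at h5
      exact absurd h1 (not_le.2 (mul_pos h3 h5))
    exact norm_le_zero_iff.1 h4
  exact LinearMap.injective_iff_surjective.1 hinj y

theorem prod_anti (h : SeqD k r D C c f L) (j i : ℕ) (x : Fin k → ℂ) :
    ‖prodL L (ContinuousLinearMap.id ℂ (Fin k → ℂ)) (j + i) x‖ ≤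
      ‖prodL L (ContinuousLinearMap.id ℂ (Fin k → ℂ)) j x‖ := by
  induction i with
  | zero => exact le_rfl
  | succ i ih =>
    change ‖L (j + i) (prodL L (ContinuousLinearMap.id ℂ (Fin k → ℂ)) (j + i) x)‖ ≤ _
    refine le_trans (h.contrL _ _) (le_trans ?_ ih)
    exact mul_le_of_le_one_left (norm_nonneg _) h.D_lt.le

theorem f_zero (h : SeqD k r D C c f L) (n : ℕ) : f n 0 = 0 := by
  have h1 := h.contr n 0 (mem_ball_self h.r_pos)
  rw [norm_zero, mul_zero] at h1
  exact norm_le_zero_iff.1 h1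

theorem orb_bd (h : SeqD k r D C c f L) (n : ℕ) {x : Fin k → ℂ} (hx : x ∈ ball (0 : Fin k → ℂ) r)
    (i : ℕ) : ‖orb f n i x‖ ≤ D ^ i * ‖x‖ ∧ orb f n i x ∈ ball (0 : Fin k → ℂ) r := by
  induction i with
  | zero => exact ⟨by simp, hx⟩
  | succ i ih =>
    have h1 : ‖orb f n (i + 1) x‖ ≤ D * ‖orb f n i x‖ := h.contr (n + i) _ ih.2
    refine ⟨?_, ?_⟩
    · refine h1.trans ?_
      rw [pow_succ', mul_assoc]
      exact mul_le_mul_of_nonneg_left ih.1 h.D_pos.le
    · have h2 := ih.2
      rw [mem_ball_zero_iff] at h2 ⊢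
      refine lt_of_le_of_lt h1 (lt_of_le_of_lt ?_ h2)
      exact mul_le_of_le_one_left (norm_nonneg _) h.D_lt.le

theorem rem_bd (h : SeqD k r D C c f L) (n : ℕ) {x : Fin k → ℂ}
    (hx : x ∈ ball (0 : Fin k → ℂ) r) : ‖f n x - L n x‖ ≤ C * ‖x‖ ^ 2 := by
  have h1 := h.quad n x hx 0 (mem_ball_self h.r_pos)
  rw [f_zero h, map_zero, sub_zero, sub_zero, sub_zero, norm_zero, add_zero] at h1
  calc _ ≤ _ := h1
    _ = _ := by ring

end sKOrbAux

open sKOrbAux

theorem sKOrb : S_KOrb := by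
  intro hBoot hKLin k r D C c f L e om C₁ c₁ η hS hK n
  have hw := hK.w
  set P : ℕ → (Fin (k + 1) → ℂ) →L[ℂ] (Fin (k + 1) → ℂ) :=
    prodL L (ContinuousLinearMap.id ℂ (Fin (k + 1) → ℂ)) with hP
  have hlin := hKLin k P e om C₁ c₁ η hK
  set C' : ℝ := (k + 1) * C₁ ^ 2 with hC'
  have hC'0 : 0 ≤ C' := by positivity
  have hom : ∀ m, 0 < om 0 m := hw.pos 0
  set Km : ℝ := max 1 (C' * (c₁⁻¹) ^ 2) with hKm
  have hKm1 : 1 ≤ Km := le_max_left _ _
  have hKm0 : 0 < Km := lt_of_lt_of_le one_pos hKm1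
  set CB : ℝ := r + C' * r / om 0 n ^ 2 + Km * C with hCB
  have hr := hS.r_pos
  have hC := hS.C_pos
  have ht2 : 0 ≤ C' * r / om 0 n ^ 2 := by positivity
  have ht3 : 0 ≤ Km * C := by positivity
  have hCB0 : 0 < CB := by linarith
  obtain ⟨CC, hCC⟩ := hBoot CB D c₁ η (fun i => om 0 (n + i)) hCB0 hS.D_pos hS.D_lt hK.c_pos
    hK.c_lt hK.η_pos (fun m => hom _) (fun m => hw.anti 0 (n + m)) (fun m => hw.step 0 (n + m))
  refine ⟨CC, fun x hx i => ?_⟩
  -- the remainders
  have hF := fun i => orb_bd hS n hx i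
  have hxr : ‖x‖ ≤ r := (mem_ball_zero_iff.1 hx).le
  obtain ⟨a, ha⟩ := prod_surj hS n x
  choose b hb using fun j : ℕ =>
    prod_surj hS (n + j + 1) (f (n + j) (orb f n j x) - L (n + j) (orb f n j x))
  have hFeq : ∀ i, orb f n i x = P (n + i) a + ∑ j ∈ Finset.range i, P (n + i) (b j) := by
    intro i
    induction i with
    | zero =>
      rw [Finset.sum_range_zero, add_zero]
      exact ha.symm
    | succ i ih =>
      have h1 : orb f n (i + 1) x = L (n + i) (orb f n i x) + P (n + i + 1) (b i) := by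
        rw [hP, hb i]
        change f (n + i) (orb f n i x) = _
        abel
      have h2 : ∀ v, P (n + (i + 1)) v = L (n + i) (P (n + i) v) := fun v => rfl
      rw [h1, Finset.sum_range_succ, ih, map_add, map_sum, h2 a, add_assoc]
      congr 1
  have hmain : ∀ i, ‖orb f n i x‖ ≤ CB * om 0 (n + i) + CB * ∑ j ∈ Finset.range i,
      min 1 (om 0 (n + i) * Real.exp (-(η * j)) / om 0 (n + j) ^ 2) * ‖orb f n j x‖ ^ 2 := by
    intro i
    rw [hFeq i]
    refine (norm_add_le _ _).trans (add_le_add ?_ ?_)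
    · have h1 := hlin n (n + i) (Nat.le_add_right _ _) a
      have h2 : P n a = x := ha
      rw [h2] at h1
      refine h1.trans ?_
      have h3 : Real.exp (-(η * n)) ≤ 1 := by
        rw [Real.exp_le_one_iff]
        have := hK.η_pos
        have : (0 : ℝ) ≤ η * n := by positivity
        linarith
      have h4 : C' * Real.exp (-(η * n)) * om 0 (n + i) / om 0 n ^ 2 * ‖x‖ ≤
          C' * 1 * om 0 (n + i) / om 0 n ^ 2 * r := by
        have := hom (n + i)
        have := hom n
        gcongr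
      refine h4.trans ?_
      have h5 : C' * 1 * om 0 (n + i) / om 0 n ^ 2 * r = (C' * r / om 0 n ^ 2) * om 0 (n + i) := by
        ring
      rw [h5]
      have := hom (n + i)
      gcongr
      linarith
    · refine (norm_sum_le _ _).trans ?_
      rw [Finset.mul_sum]
      refine Finset.sum_le_sum fun j hj => ?_
      rw [Finset.mem_range] at hj
      have hR : ‖P (n + j + 1) (b j)‖ ≤ C * ‖orb f n j x‖ ^ 2 := by
        rw [hP, hb j]
        exact rem_bd hS (n + j) (hF j).2
      have e1 : ‖P (n + i) (b j)‖ ≤ ‖P (n + j + 1) (b j)‖ := by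
        have h1 := prod_anti hS (n + j + 1) (i - (j + 1)) (b j)
        have h2 : n + j + 1 + (i - (j + 1)) = n + i := by omega
        rw [h2] at h1
        exact h1
      set t : ℝ := om 0 (n + i) * Real.exp (-(η * j)) / om 0 (n + j) ^ 2 with ht
      have ht0 : 0 ≤ t := by
        have := hom (n + i)
        have := hom (n + j)
        positivity
      have e2 : ‖P (n + i) (b j)‖ ≤ (C' * (c₁⁻¹) ^ 2) * t * ‖P (n + j + 1) (b j)‖ := by
        refine (hlin (n + j + 1) (n + i) (by omega) (b j)).trans ?_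
        refine mul_le_mul_of_nonneg_right ?_ (norm_nonneg _)
        have hc1 := hK.c_pos
        have h1 : c₁ * om 0 (n + j) ≤ om 0 (n + j + 1) := hw.step 0 (n + j)
        have h2 : 0 < c₁ * om 0 (n + j) := mul_pos hc1 (hom _)
        have h3 : Real.exp (-(η * ((n + j + 1 : ℕ) : ℝ))) ≤ Real.exp (-(η * j)) := by
          rw [Real.exp_le_exp]
          push_cast
          have := hK.η_pos
          nlinarith [mul_nonneg this.le (Nat.cast_nonneg (α := ℝ) n)]
        have h4 : C' * Real.exp (-(η * ((n + j + 1 : ℕ) : ℝ))) * om 0 (n + i) /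
            om 0 (n + j + 1) ^ 2 ≤
            C' * Real.exp (-(η * j)) * om 0 (n + i) / (c₁ * om 0 (n + j)) ^ 2 := by
          have := hom (n + i)
          gcongr
        refine h4.trans (le_of_eq ?_)
        rw [ht]
        have := (hom (n + j)).ne'
        field_simp
      have e3 : ‖P (n + i) (b j)‖ ≤ Km * min 1 t * ‖P (n + j + 1) (b j)‖ := by
        rcases le_total 1 t with h | h
        · rw [min_eq_left h, mul_one]
          exact e1.trans (le_mul_of_one_le_left (norm_nonneg _) hKm1)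
        · rw [min_eq_right h]
          refine e2.trans ?_
          gcongr
          exact le_max_right _ _
      have hmin : 0 ≤ min 1 t := le_min zero_le_one ht0
      calc ‖P (n + i) (b j)‖ ≤ Km * min 1 t * ‖P (n + j + 1) (b j)‖ := e3
        _ ≤ Km * min 1 t * (C * ‖orb f n j x‖ ^ 2) := by gcongr
        _ = (Km * C) * (min 1 t * ‖orb f n j x‖ ^ 2) := by ring
        _ ≤ CB * (min 1 t * ‖orb f n j x‖ ^ 2) := by
          gcongr
          linarith
  refine hCC (fun i => ‖orb f n i x‖) (fun _ => norm_nonneg _) (fun i => ?_) hmain i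
  refine (hF i).1.trans ?_
  rw [mul_comm]
  have h1 : ‖x‖ ≤ CB := by linarith
  have := hS.D_pos
  gcongr

end Pool.Agent.Lib.Bed
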