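import Pool.Agent.Lib.Bed.SpecK

/-!
# MP_6f050a_an, part K: KSeq, condition (K) implies that the basin is `ℂ^k`
-/

set_option autoImplicit false

open scoped Topology
open Set Filter Metric

namespace Pool.Agent.Lib.Bed

namespace sKSeqAux

theorem prodL_inj {k : ℕ} {r D C c : ℝ} {f : ℕ → (Fin k → ℂ) → (Fin k → ℂ)}
    {L : ℕ → (Fin k → ℂ) →L[ℂ] (Fin k → ℂ)} (h : SeqD k r D C c f L) (m : ℕ) :
    Function.Injective (prodL L (ContinuousLinearMap.id ℂ (Fin k → ℂ)) m) := by
  induction m with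
  | zero => exact fun x y hxy => hxy
  | succ m ih =>
    intro x y hxy
    apply ih
    have h1 : L m (prodL L (ContinuousLinearMap.id ℂ (Fin k → ℂ)) m x) =
        L m (prodL L (ContinuousLinearMap.id ℂ (Fin k → ℂ)) m y) := hxy
    have h2 := h.low m (prodL L (ContinuousLinearMap.id ℂ (Fin k → ℂ)) m x -
      prodL L (ContinuousLinearMap.id ℂ (Fin k → ℂ)) m y)
    rw [map_sub, h1, sub_self, norm_zero] at h2
    have h3 : ‖prodL L (ContinuousLinearMap.id ℂ (Fin k → ℂ)) m x -
      prodL L (ContinuousLinearMap.id ℂ (Fin k → ℂ)) m y‖ = 0 := by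
      have h4 := norm_nonneg (prodL L (ContinuousLinearMap.id ℂ (Fin k → ℂ)) m x -
        prodL L (ContinuousLinearMap.id ℂ (Fin k → ℂ)) m y)
      have h5 := h.c_pos
      nlinarith
    exact sub_eq_zero.mp (norm_eq_zero.mp h3)

theorem exists_equiv {k : ℕ} {r D C c : ℝ} {f : ℕ → (Fin k → ℂ) → (Fin k → ℂ)}
    {L : ℕ → (Fin k → ℂ) →L[ℂ] (Fin k → ℂ)} (h : SeqD k r D C c f L)
    (e : (Fin k → ℂ) ≃L[ℂ] (Fin k → ℂ)) (m : ℕ) :
    ∃ A : (Fin k → ℂ) ≃L[ℂ] (Fin k → ℂ), ∀ z, A z =
      prodL L (ContinuousLinearMap.id ℂ (Fin k → ℂ)) m (e z) := by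
  have hinj : Function.Injective
      ((prodL L (ContinuousLinearMap.id ℂ (Fin k → ℂ)) m).toLinearMap ∘ₗ
        e.toContinuousLinearMap.toLinearMap) := by
    intro x y hxy
    exact e.injective (prodL_inj h m hxy)
  exact ⟨(LinearEquiv.ofInjectiveEndo _ hinj).toContinuousLinearEquiv, fun z => rfl⟩

end sKSeqAux

open sKSeqAux

theorem sKSeq : S_KSeq := by
  intro hNF hBoot hKLin hKOrb hKSys k r D C c f L hs hK
  rcases k with _ | k
  · refine ⟨fun _ x => x, fun n => differentiableOn_id, fun n x _ => Subsingleton.elim _ _,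
      fun n x _ y _ _ => Subsingleton.elim _ _, fun n x _ w _ => Subsingleton.elim _ _, ?_⟩
    intro u
    refine ⟨0, u, ?_, rfl⟩
    have h1 : u = 0 := Subsingleton.elim _ _
    rw [h1]
    exact mem_ball_self hs.r_pos
  obtain ⟨e, om, C₁, c₁, η, hC₁, hc₁, hη, hw, hk1, hk2⟩ := hK
  have hdata : KData k (prodL L (ContinuousLinearMap.id ℂ (Fin (k + 1) → ℂ))) e om C₁
      (min c₁ (1 / 2)) η := by
    refine ⟨hC₁, lt_min hc₁ (by norm_num), (min_le_right _ _).trans_lt (by norm_num), hη, ?_, hk1,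
      hk2⟩
    refine ⟨hw.pos, hw.anti, fun t m => ?_, hw.ratio, hw.lim⟩
    exact (mul_le_mul_of_nonneg_right (min_le_left _ _) (hw.pos t m).le).trans (hw.step t m)
  have horb := hKOrb hBoot hKLin k r D C c f L e om C₁ (min c₁ (1 / 2)) η hs hdata
  obtain ⟨S, hdom, hT⟩ := hKSys k r D C c f L e om C₁ (min c₁ (1 / 2)) η hs hdata horb
  obtain ⟨U, hUd, hUc, hUi, hUdi, hUs⟩ := hNF (k + 1) S
  choose A hA using exists_equiv hs e
  have hmem : ∀ n, ∀ x ∈ ball (0 : Fin (k + 1) → ℂ) r, (A n).symm x ∈ S.dom n := by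
    intro n x hx
    rw [hdom n]
    have h1 := hA n ((A n).symm x)
    rw [ContinuousLinearEquiv.apply_symm_apply] at h1
    change prodL L (ContinuousLinearMap.id ℂ (Fin (k + 1) → ℂ)) n (e ((A n).symm x)) ∈ ball 0 r
    rw [← h1]
    exact hx
  refine ⟨fun n x => U n ((A n).symm x), ?_, ?_, ?_, ?_, ?_⟩
  · intro n
    exact (hUd n).comp (A n).symm.differentiable.differentiableOn (fun x hx => hmem n x hx)
  · intro n x hx
    have h1 := hT n _ (hmem n x hx)
    rw [← hA, ← hA, ContinuousLinearEquiv.apply_symm_apply] at h1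
    have h2 : (A (n + 1)).symm (f n x) = S.T n ((A n).symm x) := by
      rw [← h1, ContinuousLinearEquiv.symm_apply_apply]
    change U (n + 1) ((A (n + 1)).symm (f n x)) = U n ((A n).symm x)
    rw [h2]
    exact hUc n _ (hmem n x hx)
  · intro n x hx y hy hxy
    exact (A n).symm.injective (hUi n (hmem n x hx) (hmem n y hy) hxy)
  · intro n x hx w hw0
    have h1 : DifferentiableAt ℂ (U n) ((A n).symm x) :=
      (hUd n).differentiableAt ((S.open_dom n).mem_nhds (hmem n x hx))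
    have h2 : fderiv ℂ (fun x => U n ((A n).symm x)) x w =
        fderiv ℂ (U n) ((A n).symm x) ((A n).symm w) := by
      have h3 : HasFDerivAt (fun x => U n ((A n).symm x))
          ((fderiv ℂ (U n) ((A n).symm x)).comp
            ((A n).symm : (Fin (k + 1) → ℂ) →L[ℂ] (Fin (k + 1) → ℂ))) x :=
        h1.hasFDerivAt.comp x (A n).symm.hasFDerivAt
      rw [h3.fderiv]
      rfl
    change fderiv ℂ (fun x => U n ((A n).symm x)) x w = 0 at hw0
    rw [h2] at hw0
    have h4 := hUdi n _ (hmem n x hx) _ hw0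
    exact (A n).symm.map_eq_zero_iff.mp h4
  · intro u
    obtain ⟨m, z, hz, hu⟩ := hUs u
    refine ⟨m, A m z, ?_, ?_⟩
    · rw [hdom m] at hz
      rw [hA m z]
      exact hz
    · change U m ((A m).symm (A m z)) = u
      rw [ContinuousLinearEquiv.symm_apply_apply]
      exact hu

end Pool.Agent.Lib.Bed
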