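import Pool.Agent.Lib.Bed.SpecK

/-!
# MP_6f050a_an, KSys: the normalised system of a sequence with condition (K)
-/

set_option autoImplicit false

open scoped Topology
open Set Filter Metric

namespace Pool.Agent.Lib.Bed

namespace sKSysAux

/-- an injective endomorphism of `ℂ^k` has an inverse -/
theorem exists_inv {k : ℕ} (A : (Fin k → ℂ) →L[ℂ] (Fin k → ℂ)) (hA : ∀ x, A x = 0 → x = 0) :
    ∃ B : (Fin k → ℂ) →L[ℂ] (Fin k → ℂ), (∀ x, B (A x) = x) ∧ ∀ x, A (B x) = x := by
  have hinj : Function.Injective A.toLinearMap := by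
    rw [injective_iff_map_eq_zero]
    exact hA
  let e := LinearEquiv.ofInjectiveEndo A.toLinearMap hinj
  refine ⟨LinearMap.toContinuousLinearMap (e.symm : (Fin k → ℂ) →ₗ[ℂ] (Fin k → ℂ)), ?_, ?_⟩
  · intro x
    exact e.symm_apply_apply x
  · intro x
    exact e.apply_symm_apply x

theorem prodL_inj {k : ℕ} {L : ℕ → (Fin k → ℂ) →L[ℂ] (Fin k → ℂ)} {c : ℝ} (hc : 0 < c)
    (low : ∀ n x, c * ‖x‖ ≤ ‖L n x‖) (m : ℕ) (x : Fin k → ℂ)
    (h : prodL L (ContinuousLinearMap.id ℂ (Fin k → ℂ)) m x = 0) : x = 0 := by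
  induction m with
  | zero => exact h
  | succ m ih =>
    apply ih
    have h1 : L m (prodL L (ContinuousLinearMap.id ℂ (Fin k → ℂ)) m x) = 0 := h
    have h2 := low m (prodL L (ContinuousLinearMap.id ℂ (Fin k → ℂ)) m x)
    rw [h1, norm_zero] at h2
    have h3 : ‖prodL L (ContinuousLinearMap.id ℂ (Fin k → ℂ)) m x‖ ≤ 0 := by
      by_contra h4
      push Not at h4
      have := mul_pos hc h4
      linarith
    exact norm_le_zero_iff.1 h3

section

variable {k : ℕ} {Λ : ℕ → (Fin (k + 1) → ℂ) →L[ℂ] (Fin (k + 1) → ℂ)}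
  {e : (Fin (k + 1) → ℂ) ≃L[ℂ] (Fin (k + 1) → ℂ)} {om : Fin (k + 1) → ℕ → ℝ} {C c η : ℝ}

/-- the weights -/
noncomputable def kap (om : Fin (k + 1) → ℕ → ℝ) (t : Fin (k + 1)) (m : ℕ) : ℝ := om t m / om 0 m

theorem kap_wt (h : IsW0 c om) : IsWt (kap om) where
  pos t m := div_pos (h.pos t m) (h.pos 0 m)
  anti t m := by
    unfold kap
    rw [div_le_div_iff₀ (h.pos 0 _) (h.pos 0 _)]
    exact h.ratio 0 t (Fin.zero_le t) m
  ratio s t hst m := by
    unfold kap
    rw [div_mul_div_comm, div_mul_div_comm, mul_comm (om 0 m) (om 0 (m + 1))]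
    exact div_le_div_of_nonneg_right (h.ratio s t hst m)
      (mul_nonneg (h.pos 0 _).le (h.pos 0 _).le)

theorem kap_step (h : IsW0 c om) (t : Fin (k + 1)) (m : ℕ) :
    c * kap om t m ≤ kap om t (m + 1) := by
  unfold kap
  rw [← mul_div_assoc, div_le_div_iff₀ (h.pos 0 _) (h.pos 0 _)]
  have h1 := h.step t m
  have h2 := h.anti 0 m
  have h3 := h.pos 0 (m + 1)
  have h4 := h.pos t (m + 1)
  calc c * om t m * om 0 (m + 1) ≤ om t (m + 1) * om 0 (m + 1) :=
        mul_le_mul_of_nonneg_right h1 h3.le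
    _ ≤ om t (m + 1) * om 0 m := mul_le_mul_of_nonneg_left h2 h4.le

theorem wn_step (h : IsW0 c om) (hc : 0 < c) (m : ℕ) (z : Fin (k + 1) → ℂ) :
    c * wn (kap om) m z ≤ wn (kap om) (m + 1) z := by
  have h1 : wn (kap om) m z ≤ wn (kap om) (m + 1) z / c := by
    refine wn_le (kap_wt h) (div_nonneg wn_nonneg hc.le) fun t => ?_
    rw [le_div_iff₀ hc]
    calc kap om t m * ‖z t‖ * c = c * kap om t m * ‖z t‖ := by ring
      _ ≤ kap om t (m + 1) * ‖z t‖ :=
        mul_le_mul_of_nonneg_right (kap_step h t m) (norm_nonneg _)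
      _ ≤ _ := le_wn (kap_wt h) t
  rw [le_div_iff₀ hc] at h1
  linarith

theorem upper (hK : KData k Λ e om C c η) (m : ℕ) (z : Fin (k + 1) → ℂ) :
    ‖Λ m (e z)‖ ≤ (k + 1) * C * om 0 m * wn (kap om) m z := by
  have h1 : z = ∑ t, z t • (Pi.single t 1 : Fin (k + 1) → ℂ) := by
    ext s
    simp [Finset.sum_apply, Pi.single_apply]
  have h2 : Λ m (e z) = ∑ t, z t • Λ m (e (Pi.single t 1)) := by
    conv_lhs => rw [h1]
    simp only [map_sum, map_smul]
  rw [h2]
  have h3 : ∀ t : Fin (k + 1), ‖z t • Λ m (e (Pi.single t 1))‖ ≤ C * om 0 m * wn (kap om) m z := by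
    intro t
    rw [norm_smul]
    have h4 := hK.k1 t m
    have h5 := le_wn (z := z) (m := m) (kap_wt hK.w) t
    have h6 : om t m = om 0 m * kap om t m := by
      unfold kap
      field_simp [(hK.w.pos 0 m).ne']
    calc ‖z t‖ * ‖Λ m (e (Pi.single t 1))‖ ≤ ‖z t‖ * (C * om t m) :=
          mul_le_mul_of_nonneg_left h4 (norm_nonneg _)
      _ = C * om 0 m * (kap om t m * ‖z t‖) := by rw [h6]; ring
      _ ≤ _ := mul_le_mul_of_nonneg_left h5 (mul_nonneg hK.C_pos.le (hK.w.pos 0 m).le)
  calc ‖∑ t, z t • Λ m (e (Pi.single t 1))‖ ≤ ∑ t, ‖z t • Λ m (e (Pi.single t 1))‖ :=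
        norm_sum_le _ _
    _ ≤ ∑ _t : Fin (k + 1), C * om 0 m * wn (kap om) m z := Finset.sum_le_sum fun t _ => h3 t
    _ = _ := by
      rw [Finset.sum_const, Finset.card_univ, Fintype.card_fin, nsmul_eq_mul]
      push_cast
      ring

theorem lower (hK : KData k Λ e om C c η) (m : ℕ) (z : Fin (k + 1) → ℂ) :
    wn (kap om) m z ≤ C * Real.exp (-(η * m)) * ‖Λ m (e z)‖ / om 0 m ^ 2 := by
  have h0 := hK.w.pos 0 m
  have hC := hK.C_pos
  refine wn_le (kap_wt hK.w) (by positivity) fun t => ?_
  rw [le_div_iff₀ (by positivity)]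
  have h1 := hK.k2 m z 0 t
  have h2 : kap om t m * ‖z t‖ * om 0 m ^ 2 = om 0 m * om t m * ‖z t‖ := by
    unfold kap
    field_simp
  rw [h2]
  exact h1

end

theorem summ {η : ℝ} (hη : 0 < η) (K : ℝ) (n : ℕ) :
    Summable fun m : ℕ => K * Real.exp (-(η * ((n + m : ℕ) : ℝ))) := by
  have h1 : Summable fun m : ℕ => Real.exp ((m : ℝ) * (-η)) :=
    Real.summable_exp_nat_mul_iff.2 (by linarith)
  have h2 := h1.mul_left (K * Real.exp (-(η * n)))
  refine h2.congr fun m => ?_
  rw [mul_assoc, ← Real.exp_add]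
  congr 2
  push_cast
  ring

end sKSysAux

open sKSysAux

theorem sKSys : S_KSys := by
  intro k r D C c f L e om C₁ c₁ η hS hK horb
  set Λ : ℕ → (Fin (k + 1) → ℂ) →L[ℂ] (Fin (k + 1) → ℂ) :=
    prodL L (ContinuousLinearMap.id ℂ (Fin (k + 1) → ℂ)) with hΛ
  have hΛs : ∀ m x, Λ (m + 1) x = L m (Λ m x) := fun m x => rfl
  have hinv : ∀ m, ∃ B : (Fin (k + 1) → ℂ) →L[ℂ] (Fin (k + 1) → ℂ),
      (∀ x, B (Λ m (e x)) = x) ∧ ∀ x, Λ m (e (B x)) = x := by
    intro m
    exact exists_inv ((Λ m).comp (e : (Fin (k + 1) → ℂ) →L[ℂ] (Fin (k + 1) → ℂ)))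
      fun x hx => e.map_eq_zero_iff.1 (prodL_inj hS.c_pos hS.low m _ hx)
  choose N hN1 hN2 using hinv
  have hf0 : ∀ m, f m 0 = 0 := by
    intro m
    have h := hS.contr m 0 (mem_ball_self hS.r_pos)
    rw [norm_zero, mul_zero] at h
    exact norm_le_zero_iff.1 h
  have hwt := kap_wt hK.w
  have hom := hK.w.pos 0
  have hC₁ := hK.C_pos
  have hc₁ := hK.c_pos
  have hη := hK.η_pos
  -- the maps
  let T : ℕ → (Fin (k + 1) → ℂ) → (Fin (k + 1) → ℂ) := fun m z => N (m + 1) (f m (Λ m (e z)))
  have hT : ∀ m z, Λ (m + 1) (e (T m z)) = f m (Λ m (e z)) := fun m z => hN2 (m + 1) _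
  have hmapb : ∀ m, ∀ x ∈ ball (0 : Fin (k + 1) → ℂ) r, f m x ∈ ball (0 : Fin (k + 1) → ℂ) r := by
    intro m x hx
    have h1 := hS.contr m x hx
    rw [mem_ball_zero_iff] at hx ⊢
    have h2 : D * ‖x‖ ≤ ‖x‖ := by
      have := mul_le_mul_of_nonneg_right hS.D_lt.le (norm_nonneg x)
      linarith
    linarith
  -- the increments
  have hinc : ∀ m z, T m z - z = N (m + 1) (f m (Λ m (e z)) - L m (Λ m (e z))) := by
    intro m z
    have h1 : z = N (m + 1) (L m (Λ m (e z))) := by
      rw [← hΛs]
      exact (hN1 (m + 1) z).symm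
    rw [map_sub, ← h1]
  -- bound of `N (m + 1) v`
  have hNb : ∀ m v, wn (kap om) (m + 1) (N (m + 1) v) ≤
      C₁ / c₁ ^ 2 * Real.exp (-(η * m)) * ‖v‖ / om 0 m ^ 2 := by
    intro m v
    have h1 := lower hK (m + 1) (N (m + 1) v)
    rw [hN2] at h1
    refine h1.trans ?_
    have h2 : (c₁ * om 0 m) ^ 2 ≤ om 0 (m + 1) ^ 2 :=
      pow_le_pow_left₀ (mul_nonneg hc₁.le (hom m).le) (hK.w.step 0 m) 2
    have h3 : Real.exp (-(η * ((m + 1 : ℕ) : ℝ))) ≤ Real.exp (-(η * m)) := by
      apply Real.exp_le_exp.2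
      push_cast
      nlinarith
    have h4 : 0 < (c₁ * om 0 m) ^ 2 := by
      have := hom m
      positivity
    calc C₁ * Real.exp (-(η * ((m + 1 : ℕ) : ℝ))) * ‖v‖ / om 0 (m + 1) ^ 2
        ≤ C₁ * Real.exp (-(η * m)) * ‖v‖ / (c₁ * om 0 m) ^ 2 := by
          apply div_le_div₀ (by positivity) _ h4 h2
          exact mul_le_mul_of_nonneg_right (mul_le_mul_of_nonneg_left h3 hC₁.le) (norm_nonneg _)
      _ = _ := by
          have := hom m
          field_simp
  let S : Sys (k + 1) :=
    { dom := fun m => {z | Λ m (e z) ∈ ball 0 r}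
      T := T
      κ := kap om
      wt := hwt
      open_dom := by
        intro m
        exact isOpen_ball.preimage ((Λ m).continuous.comp e.continuous)
      diff := by
        intro m
        have h1 : DifferentiableOn ℂ (fun z => f m (Λ m (e z))) {z | Λ m (e z) ∈ ball 0 r} := by
          apply (hS.diff m).comp (t := ball 0 r)
          · exact ((Λ m).differentiable.comp e.differentiable).differentiableOn
          · exact fun z hz => hz
        exact (N (m + 1)).differentiable.comp_differentiableOn h1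
      maps := by
        intro m z hz
        show Λ (m + 1) (e (T m z)) ∈ ball 0 r
        rw [hT]
        exact hmapb m _ hz
      inj := by
        intro m z hz z' hz' h
        have h1 : f m (Λ m (e z)) = f m (Λ m (e z')) := by
          rw [← hT, ← hT]
          exact congrArg (fun w => Λ (m + 1) (e w)) h
        have h2 := hS.inj m hz hz' h1
        have h3 := congrArg (N m) h2
        rwa [hN1, hN1] at h3
      dinj := by
        intro m z hz w hw
        have hd : DifferentiableAt ℂ (f m) (Λ m (e z)) :=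
          (hS.diff m).differentiableAt (isOpen_ball.mem_nhds hz)
        have hd2 : HasFDerivAt (fun z => Λ m (e z))
            ((Λ m).comp (e : (Fin (k + 1) → ℂ) →L[ℂ] (Fin (k + 1) → ℂ))) z :=
          ((Λ m).comp (e : (Fin (k + 1) → ℂ) →L[ℂ] (Fin (k + 1) → ℂ))).hasFDerivAt
        have hd3 : HasFDerivAt (fun z => f m (Λ m (e z)))
            ((fderiv ℂ (f m) (Λ m (e z))).comp
              ((Λ m).comp (e : (Fin (k + 1) → ℂ) →L[ℂ] (Fin (k + 1) → ℂ)))) z :=
          hd.hasFDerivAt.comp z hd2
        have hd4 : HasFDerivAt (T m) ((N (m + 1)).comp ((fderiv ℂ (f m) (Λ m (e z))).comp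
              ((Λ m).comp (e : (Fin (k + 1) → ℂ) →L[ℂ] (Fin (k + 1) → ℂ))))) z :=
          (N (m + 1)).hasFDerivAt.comp z hd3
        rw [hd4.fderiv] at hw
        have hw1 : N (m + 1) (fderiv ℂ (f m) (Λ m (e z)) (Λ m (e w))) = 0 := hw
        have hw2 : fderiv ℂ (f m) (Λ m (e z)) (Λ m (e w)) = 0 := by
          have h5 := hN2 (m + 1) (fderiv ℂ (f m) (Λ m (e z)) (Λ m (e w)))
          rw [hw1, map_zero, map_zero] at h5
          exact h5.symm
        have hw3 := hS.dinj m _ hz _ hw2
        have h6 := hN1 m w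
        rw [hw3, map_zero] at h6
        exact h6.symm
      T_zero := by
        intro m
        show N (m + 1) (f m (Λ m (e 0))) = 0
        rw [map_zero, map_zero, hf0, map_zero]
      near := by
        intro A
        have hlim : Tendsto (fun m => ((k + 1) * C₁ * |A|) * om 0 m) atTop (𝓝 0) := by
          have h := (hK.w.lim 0).const_mul ((k + 1) * C₁ * |A|)
          rwa [mul_zero] at h
        obtain ⟨M, hM⟩ := eventually_atTop.1 (hlim.eventually (gt_mem_nhds hS.r_pos))
        have hsmall : ∀ m ≥ M, ∀ z, wn (kap om) m z ≤ A →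
            ‖Λ m (e z)‖ ≤ (k + 1) * C₁ * om 0 m * |A| ∧ Λ m (e z) ∈ ball 0 r := by
          intro m hm z hz
          have h1 := upper hK m z
          have h2 : (k + 1) * C₁ * om 0 m * wn (kap om) m z ≤ (k + 1) * C₁ * om 0 m * |A| := by
            apply mul_le_mul_of_nonneg_left (hz.trans (le_abs_self A))
            have := hom m
            positivity
          have h3 := hM m hm
          refine ⟨h1.trans h2, ?_⟩
          rw [mem_ball_zero_iff]
          linarith
        refine ⟨M, fun m => (C₁ / c₁ ^ 3 * (2 * C * ((k + 1) * C₁) ^ 2 * |A|)) *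
          Real.exp (-(η * ((0 + m : ℕ) : ℝ))), ?_, summ hη _ 0, ?_⟩
        · intro m
          have := hS.C_pos
          positivity
        · intro m hm
          refine ⟨fun z hz => (hsmall m hm z hz).2, fun z z' hz hz' => ?_⟩
          obtain ⟨hx, hxb⟩ := hsmall m hm z hz
          obtain ⟨hx', hxb'⟩ := hsmall m hm z' hz'
          have h1 : (T m z - z) - (T m z' - z') = N (m + 1) ((f m (Λ m (e z)) - L m (Λ m (e z))) -
              (f m (Λ m (e z')) - L m (Λ m (e z')))) := by
            rw [hinc, hinc, ← map_sub]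
          rw [h1]
          set v := (f m (Λ m (e z)) - L m (Λ m (e z))) - (f m (Λ m (e z')) - L m (Λ m (e z')))
            with hv
          have h2 : ‖v‖ ≤ C * (‖Λ m (e z)‖ + ‖Λ m (e z')‖) * ‖Λ m (e z) - Λ m (e z')‖ :=
            hS.quad m _ hxb _ hxb'
          have h3 : ‖Λ m (e z) - Λ m (e z')‖ ≤ (k + 1) * C₁ * om 0 m * wn (kap om) m (z - z') := by
            have := upper hK m (z - z')
            rwa [map_sub, map_sub] at this
          have h4 : ‖v‖ ≤ C * (2 * ((k + 1) * C₁ * om 0 m * |A|)) *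
              ((k + 1) * C₁ * om 0 m * wn (kap om) m (z - z')) := by
            refine h2.trans (mul_le_mul ?_ h3 (norm_nonneg _) ?_)
            · exact mul_le_mul_of_nonneg_left (by linarith) hS.C_pos.le
            · have := hS.C_pos
              have := hom m
              positivity
          have h5 := hNb m v
          have h6 := wn_step hK.w hc₁ m (N (m + 1) v)
          have h7 : c₁ * wn (kap om) m (N (m + 1) v) ≤ C₁ / c₁ ^ 2 * Real.exp (-(η * m)) *
              (C * (2 * ((k + 1) * C₁ * om 0 m * |A|)) *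
              ((k + 1) * C₁ * om 0 m * wn (kap om) m (z - z'))) / om 0 m ^ 2 := by
            refine (h6.trans h5).trans ?_
            apply div_le_div_of_nonneg_right _ (by positivity)
            apply mul_le_mul_of_nonneg_left h4
            positivity
          have h8 : wn (kap om) m (N (m + 1) v) ≤ (C₁ / c₁ ^ 2 * Real.exp (-(η * m)) *
              (C * (2 * ((k + 1) * C₁ * om 0 m * |A|)) *
              ((k + 1) * C₁ * om 0 m * wn (kap om) m (z - z'))) / om 0 m ^ 2) / c₁ := by
            rw [le_div_iff₀ hc₁]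
            linarith
          refine h8.trans (le_of_eq ?_)
          have h9 := (hom m).ne'
          beta_reduce
          rw [Nat.zero_add]
          field_simp
      bdd := by
        intro n
        obtain ⟨C', hC'⟩ := horb n
        refine ⟨C₁ * Real.exp (-(η * n)) * r / om 0 n ^ 2 +
          ∑' i : ℕ, (C₁ / c₁ ^ 2 * (C * C' ^ 2)) * Real.exp (-(η * ((n + i : ℕ) : ℝ))), ?_⟩
        intro z hz i
        have hz' : Λ n (e z) ∈ ball 0 r := hz
        have hx : ∀ i, Λ (n + i) (e (orb T n i z)) = orb f n i (Λ n (e z)) := by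
          intro i
          induction i with
          | zero => rfl
          | succ i ih =>
            rw [orb_succ, orb_succ, ← ih]
            exact hT (n + i) _
        have hxb : ∀ i, orb f n i (Λ n (e z)) ∈ ball (0 : Fin (k + 1) → ℂ) r := by
          intro i
          induction i with
          | zero => exact hz'
          | succ i ih => exact hmapb (n + i) _ ih
        have hstep : ∀ i, wn (kap om) (n + (i + 1)) (orb T n (i + 1) z) ≤
            wn (kap om) (n + i) (orb T n i z) +
            (C₁ / c₁ ^ 2 * (C * C' ^ 2)) * Real.exp (-(η * ((n + i : ℕ) : ℝ))) := by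
          intro i
          set y := orb T n i z with hy
          have h1 : orb T n (i + 1) z = y + (T (n + i) y - y) := by
            rw [orb_succ]
            abel
          rw [h1]
          refine wn_add_le.trans (add_le_add (wn_anti hwt) ?_)
          rw [hinc, hx i]
          set x := orb f n i (Λ n (e z)) with hxdef
          have h2 : ‖f (n + i) x - L (n + i) x‖ ≤ C * (C' * om 0 (n + i)) ^ 2 := by
            have h3 := hS.quad (n + i) x (hxb i) 0 (mem_ball_self hS.r_pos)
            rw [hf0, map_zero, sub_zero, sub_zero, sub_zero, norm_zero, add_zero] at h3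
            have h4 : ‖x‖ ≤ C' * om 0 (n + i) := hC' _ hz' i
            have h5 : ‖x‖ ^ 2 ≤ (C' * om 0 (n + i)) ^ 2 := pow_le_pow_left₀ (norm_nonneg _) h4 2
            calc ‖f (n + i) x - L (n + i) x‖ ≤ C * ‖x‖ * ‖x‖ := h3
              _ = C * ‖x‖ ^ 2 := by ring
              _ ≤ _ := mul_le_mul_of_nonneg_left h5 hS.C_pos.le
          refine (hNb (n + i) _).trans ?_
          have h6 : C₁ / c₁ ^ 2 * Real.exp (-(η * ((n + i : ℕ) : ℝ))) *
              ‖f (n + i) x - L (n + i) x‖ / om 0 (n + i) ^ 2 ≤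
              C₁ / c₁ ^ 2 * Real.exp (-(η * ((n + i : ℕ) : ℝ))) *
              (C * (C' * om 0 (n + i)) ^ 2) / om 0 (n + i) ^ 2 := by
            apply div_le_div_of_nonneg_right _ (by positivity)
            apply mul_le_mul_of_nonneg_left h2
            positivity
          refine h6.trans (le_of_eq ?_)
          have h9 := (hom (n + i)).ne'
          field_simp
        have hsum : ∀ i, wn (kap om) (n + i) (orb T n i z) ≤ wn (kap om) n z +
            ∑ j ∈ Finset.range i,
              (C₁ / c₁ ^ 2 * (C * C' ^ 2)) * Real.exp (-(η * ((n + j : ℕ) : ℝ))) := by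
          intro i
          induction i with
          | zero => simp
          | succ i ih =>
            rw [Finset.sum_range_succ]
            have := hstep i
            linarith
        have hnn : ∀ j : ℕ, 0 ≤ (C₁ / c₁ ^ 2 * (C * C' ^ 2)) *
            Real.exp (-(η * ((n + j : ℕ) : ℝ))) := by
          intro j
          have := hS.C_pos
          positivity
        have h1 := (summ hη (C₁ / c₁ ^ 2 * (C * C' ^ 2)) n).sum_le_tsum (Finset.range i)
          (fun j _ => hnn j)
        have h2 := lower hK n z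
        have h3 : C₁ * Real.exp (-(η * n)) * ‖Λ n (e z)‖ / om 0 n ^ 2 ≤
            C₁ * Real.exp (-(η * n)) * r / om 0 n ^ 2 := by
          apply div_le_div_of_nonneg_right _ (by positivity)
          apply mul_le_mul_of_nonneg_left _ (by positivity)
          exact (mem_ball_zero_iff.1 hz').le
        have h4 := hsum i
        linarith }
  exact ⟨S, fun m => rfl, fun m z _ => hT m z⟩

end Pool.Agent.Lib.Bed
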