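import Pool.Agent.Lib.Bed.SpecM

/-!
# MP_6f050a_an, part M, LSM: the local stable manifolds of a sequence of hyperbolic germs
-/

set_option autoImplicit false

open scoped Manifold ContDiff Topology
open Set Filter Metric

namespace Pool.Agent.Lib.Bed

namespace sLSMAux

variable {k l : ℕ} {H : ℕ → V k l → V k l} {A : ℕ → (Fin k → ℂ) →L[ℂ] (Fin k → ℂ)}
  {B : ℕ → (Fin l → ℂ) →L[ℂ] (Fin l → ℂ)} {ρ C c r : ℝ} {τ : ℕ → (Fin k → ℂ) → (Fin l → ℂ)}

/-- the point of the graph -/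
def gr (τ : ℕ → (Fin k → ℂ) → (Fin l → ℂ)) (n : ℕ) (x : Fin k → ℂ) : V k l := (x, τ n x)

theorem norm_gr (hle : ∀ n, ∀ x ∈ ball (0 : Fin k → ℂ) r, ‖τ n x‖ ≤ ‖x‖) {n : ℕ}
    {x : Fin k → ℂ} (hx : x ∈ ball (0 : Fin k → ℂ) r) : ‖gr τ n x‖ = ‖x‖ := by
  rw [Prod.norm_def]
  exact max_eq_left (hle n x hx)

theorem norm_gr_sub (hlip : ∀ n, ∀ x ∈ ball (0 : Fin k → ℂ) r, ∀ y ∈ ball (0 : Fin k → ℂ) r,
    ‖τ n x - τ n y‖ ≤ ‖x - y‖) {n : ℕ} {x y : Fin k → ℂ} (hx : x ∈ ball (0 : Fin k → ℂ) r)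
    (hy : y ∈ ball (0 : Fin k → ℂ) r) : ‖gr τ n x - gr τ n y‖ = ‖x - y‖ := by
  rw [Prod.norm_def]
  exact max_eq_left (hlip n x hx y hy)

theorem mapsTo_gr (hrρ : r ≤ ρ) (hle : ∀ n, ∀ x ∈ ball (0 : Fin k → ℂ) r, ‖τ n x‖ ≤ ‖x‖) (n : ℕ) :
    MapsTo (gr τ n) (ball 0 r) (ball 0 ρ) := by
  intro x hx
  rw [mem_ball_zero_iff, norm_gr hle hx]
  exact (mem_ball_zero_iff.1 hx).trans_le hrρ

theorem diff_gr (hd : ∀ n, DifferentiableOn ℂ (τ n) (ball 0 r)) (n : ℕ) :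
    DifferentiableOn ℂ (gr τ n) (ball 0 r) :=
  differentiableOn_id.prodMk (hd n)

/-- one step of the expansion transversal to the graph -/
theorem step (hH : AdH k l H A B ρ C c) (hr : 0 < r) (hrρ : r ≤ ρ) (hCr : C * r ≤ 1 / 64)
    (hle : ∀ n, ∀ x ∈ ball (0 : Fin k → ℂ) r, ‖τ n x‖ ≤ ‖x‖)
    (hlip : ∀ n, ∀ x ∈ ball (0 : Fin k → ℂ) r, ∀ y ∈ ball (0 : Fin k → ℂ) r,
      ‖τ n x - τ n y‖ ≤ ‖x - y‖)
    (hcon : ∀ n, ∀ x ∈ ball (0 : Fin k → ℂ) r, ‖(H n (x, τ n x)).1‖ ≤ ‖x‖ / 4)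
    (hinv : ∀ n, ∀ x ∈ ball (0 : Fin k → ℂ) r,
      (H n (x, τ n x)).2 = τ (n + 1) (H n (x, τ n x)).1)
    (m : ℕ) (v v' : V k l) (hv : ‖v‖ < r) (hv' : ‖v'‖ < r) (hvv : v' = H m v) :
    7 * ‖v.2 - τ m v.1‖ ≤ ‖v'.2 - τ (m + 1) v'.1‖ := by
  have hx : v.1 ∈ ball (0 : Fin k → ℂ) r := by
    rw [mem_ball_zero_iff]
    exact (norm_fst_le v).trans_lt hv
  have hx' : v'.1 ∈ ball (0 : Fin k → ℂ) r := by
    rw [mem_ball_zero_iff]
    exact (norm_fst_le v').trans_lt hv'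
  have hg : ‖gr τ m v.1‖ < r := by
    rw [norm_gr hle hx]
    exact mem_ball_zero_iff.1 hx
  set z : Fin k → ℂ := (H m (gr τ m v.1)).1 with hz
  have hzr : z ∈ ball (0 : Fin k → ℂ) r := by
    rw [mem_ball_zero_iff]
    have h1 := hcon m v.1 hx
    have h2 := mem_ball_zero_iff.1 hx
    have h3 : ‖z‖ ≤ ‖v.1‖ / 4 := h1
    linarith [norm_nonneg v.1]
  have hz2 : (H m (gr τ m v.1)).2 = τ (m + 1) z := hinv m v.1 hx
  have hq := hH.quad m v (mem_ball_zero_iff.2 (hv.trans_le hrρ)) (gr τ m v.1)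
    (mem_ball_zero_iff.2 (hg.trans_le hrρ))
  have hdist : ‖v - gr τ m v.1‖ = ‖v.2 - τ m v.1‖ := by
    rw [Prod.norm_def]
    have h1 : (v - gr τ m v.1).1 = 0 := sub_self v.1
    rw [h1, norm_zero]
    exact max_eq_right (norm_nonneg _)
  rw [hdist] at hq
  set δ := ‖v.2 - τ m v.1‖ with hδ
  have hδ0 : 0 ≤ δ := norm_nonneg _
  have hbound : C * (‖v‖ + ‖gr τ m v.1‖) * δ ≤ 1 / 32 * δ := by
    refine mul_le_mul_of_nonneg_right ?_ hδ0
    have h1 : C * (‖v‖ + ‖gr τ m v.1‖) ≤ C * (2 * r) := by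
      refine mul_le_mul_of_nonneg_left ?_ hH.C_pos.le
      linarith
    linarith
  have hq' := hq.trans hbound
  -- the first component
  have h1 : ‖v'.1 - z‖ ≤ 1 / 32 * δ := by
    refine le_trans ?_ ((norm_fst_le _).trans hq')
    apply le_of_eq
    congr 1
    rw [hvv, hz]
    change (H m v).1 - (H m (gr τ m v.1)).1 =
      ((H m v).1 - A m v.1) - ((H m (gr τ m v.1)).1 - A m v.1)
    abel
  -- the second component
  have h2 : ‖(v'.2 - τ (m + 1) z) - B m (v.2 - τ m v.1)‖ ≤ 1 / 32 * δ := by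
    refine le_trans ?_ ((norm_snd_le _).trans hq')
    apply le_of_eq
    congr 1
    rw [hvv, ← hz2, map_sub]
    change (H m v).2 - (H m (gr τ m v.1)).2 - (B m v.2 - B m (τ m v.1)) =
      ((H m v).2 - B m v.2) - ((H m (gr τ m v.1)).2 - B m (τ m v.1))
    abel
  have h3 : 8 * δ ≤ ‖B m (v.2 - τ m v.1)‖ := hH.B_ge m _
  have h4 : ‖B m (v.2 - τ m v.1)‖ ≤ ‖v'.2 - τ (m + 1) z‖ + 1 / 32 * δ := by
    have h5 : ‖B m (v.2 - τ m v.1)‖ ≤ ‖v'.2 - τ (m + 1) z‖ +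
        ‖(v'.2 - τ (m + 1) z) - B m (v.2 - τ m v.1)‖ := by
      have h6 := norm_sub_le (v'.2 - τ (m + 1) z)
        ((v'.2 - τ (m + 1) z) - B m (v.2 - τ m v.1))
      rwa [sub_sub_cancel] at h6
    linarith
  have h7 : ‖v'.2 - τ (m + 1) z‖ ≤ ‖v'.2 - τ (m + 1) v'.1‖ + 1 / 32 * δ := by
    have h8 : v'.2 - τ (m + 1) z =
        (v'.2 - τ (m + 1) v'.1) + (τ (m + 1) v'.1 - τ (m + 1) z) := by abel
    rw [h8]
    refine (norm_add_le _ _).trans ?_
    have h9 := hlip (m + 1) v'.1 hx' z hzr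
    linarith
  linarith

end sLSMAux

open sLSMAux in
theorem sLSM : S_LSM := by
  intro k l H A B ρ C c hH hinj hdinj r τ hr hrρ hCr hd hle hlip hcon hinv
  have hpair : ∀ n, ∀ x ∈ ball (0 : Fin k → ℂ) r, H n (gr τ n x) =
      ((H n (gr τ n x)).1, τ (n + 1) (H n (gr τ n x)).1) := fun n x hx =>
    Prod.ext rfl (hinv n x hx)
  have hFd : ∀ n, DifferentiableOn ℂ (fun x => H n (gr τ n x)) (ball 0 r) := fun n =>
    (hH.diff n).comp (diff_gr hd n) (mapsTo_gr hrρ hle n)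
  have hFd1 : ∀ n, DifferentiableOn ℂ (fun x => (H n (gr τ n x)).1) (ball 0 r) := fun n =>
    (hFd n).fst
  have hFm : ∀ n, ∀ x ∈ ball (0 : Fin k → ℂ) r, (H n (gr τ n x)).1 ∈ ball (0 : Fin k → ℂ) r := by
    intro n x hx
    rw [mem_ball_zero_iff]
    have h1 : ‖(H n (gr τ n x)).1‖ ≤ ‖x‖ / 4 := hcon n x hx
    have h2 := mem_ball_zero_iff.1 hx
    linarith [norm_nonneg x]
  refine ⟨fun n x => (H n (gr τ n x)).1, ?_, hd, hle, fun n x hx => hpair n x hx, ?_⟩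
  · refine ⟨hr, by norm_num, by norm_num, hH.C_pos, hH.c_pos, hFd1, ?_, ?_, ?_, ?_, ?_, hH.A_ge⟩
    · intro n x hx y hy hxy
      have hxy' : (H n (gr τ n x)).1 = (H n (gr τ n y)).1 := hxy
      have h1 : H n (gr τ n x) = H n (gr τ n y) := by
        rw [hpair n x hx, hpair n y hy, hxy']
      have h2 := hinj n (mapsTo_gr hrρ hle n hx) (mapsTo_gr hrρ hle n hy) h1
      exact congrArg Prod.fst h2
    · intro n x hx w hw
      have hop : ball (0 : Fin k → ℂ) r ∈ 𝓝 x := isOpen_ball.mem_nhds hx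
      have hτ : DifferentiableAt ℂ (τ n) x := (hd n).differentiableAt hop
      have hτ' : DifferentiableAt ℂ (τ (n + 1)) ((H n (gr τ n x)).1) :=
        (hd (n + 1)).differentiableAt (isOpen_ball.mem_nhds (hFm n x hx))
      have hHx : DifferentiableAt ℂ (H n) (gr τ n x) :=
        (hH.diff n).differentiableAt (isOpen_ball.mem_nhds (mapsTo_gr hrρ hle n hx))
      have hF : HasFDerivAt (fun x => (H n (gr τ n x)).1)
          (fderiv ℂ (fun x => (H n (gr τ n x)).1) x) x :=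
        ((hFd1 n).differentiableAt hop).hasFDerivAt
      have hgr : HasFDerivAt (gr τ n)
          ((ContinuousLinearMap.id ℂ (Fin k → ℂ)).prod (fderiv ℂ (τ n) x)) x :=
        (hasFDerivAt_id x).prodMk hτ.hasFDerivAt
      have hcomp : HasFDerivAt (fun x => H n (gr τ n x))
          ((fderiv ℂ (H n) (gr τ n x)).comp
            ((ContinuousLinearMap.id ℂ (Fin k → ℂ)).prod (fderiv ℂ (τ n) x))) x :=
        HasFDerivAt.comp x hHx.hasFDerivAt hgr
      have hcomp2 : HasFDerivAt (fun x => ((H n (gr τ n x)).1, τ (n + 1) (H n (gr τ n x)).1))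
          ((fderiv ℂ (fun x => (H n (gr τ n x)).1) x).prod
            ((fderiv ℂ (τ (n + 1)) ((H n (gr τ n x)).1)).comp
              (fderiv ℂ (fun x => (H n (gr τ n x)).1) x))) x :=
        hF.prodMk (HasFDerivAt.comp x hτ'.hasFDerivAt hF)
      have heq : (fun x => H n (gr τ n x)) =ᶠ[𝓝 x]
          fun x => ((H n (gr τ n x)).1, τ (n + 1) (H n (gr τ n x)).1) := by
        filter_upwards [hop] with y hy
        exact hpair n y hy
      have huniq := hcomp.unique (hcomp2.congr_of_eventuallyEq heq)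
      have h1 := congrArg (fun L => L w) huniq
      have h2 : fderiv ℂ (H n) (gr τ n x) (w, fderiv ℂ (τ n) x w) = 0 := by
        have h3 : fderiv ℂ (H n) (gr τ n x) (w, fderiv ℂ (τ n) x w) =
            (fderiv ℂ (fun x => (H n (gr τ n x)).1) x w,
              fderiv ℂ (τ (n + 1)) ((H n (gr τ n x)).1)
                (fderiv ℂ (fun x => (H n (gr τ n x)).1) x w)) := h1
        rw [h3, hw, map_zero]
        rfl
      have h4 := hdinj n (gr τ n x) (mapsTo_gr hrρ hle n hx) _ h2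
      exact congrArg Prod.fst h4
    · intro n x hx
      have h1 : ‖(H n (gr τ n x)).1‖ ≤ ‖x‖ / 4 := hcon n x hx
      change ‖(H n (gr τ n x)).1‖ ≤ 1 / 4 * ‖x‖
      linarith
    · intro n x hx y hy
      have hq := hH.quad n (gr τ n x) (mapsTo_gr hrρ hle n hx) (gr τ n y)
        (mapsTo_gr hrρ hle n hy)
      rw [norm_gr hle hx, norm_gr hle hy, norm_gr_sub hlip hx hy] at hq
      exact (norm_fst_le _).trans hq
    · intro n x
      have h1 := hH.A_le n x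
      linarith [norm_nonneg x]
  · intro n v hv hv'
    by_contra hne
    have hδ0 : 0 < ‖(v 0).2 - τ n (v 0).1‖ := norm_pos_iff.2 (sub_ne_zero.2 hne)
    have hgrow : ∀ j, 7 ^ j * ‖(v 0).2 - τ n (v 0).1‖ ≤ ‖(v j).2 - τ (n + j) (v j).1‖ := by
      intro j
      induction j with
      | zero => simp
      | succ j ih =>
        have h1 := step hH hr hrρ hCr hle hlip hcon hinv (n + j) (v j) (v (j + 1)) (hv j)
          (hv (j + 1)) (hv' j)
        calc 7 ^ (j + 1) * ‖(v 0).2 - τ n (v 0).1‖ = 7 * (7 ^ j * ‖(v 0).2 - τ n (v 0).1‖) := by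
              ring
          _ ≤ 7 * ‖(v j).2 - τ (n + j) (v j).1‖ := by linarith
          _ ≤ _ := h1
    have hbd : ∀ j, ‖(v j).2 - τ (n + j) (v j).1‖ ≤ 2 * r := by
      intro j
      have h1 : (v j).1 ∈ ball (0 : Fin k → ℂ) r := by
        rw [mem_ball_zero_iff]
        exact (norm_fst_le _).trans_lt (hv j)
      have h2 := hle (n + j) _ h1
      have h3 := norm_sub_le (v j).2 (τ (n + j) (v j).1)
      have h4 := norm_snd_le (v j)
      have h5 := norm_fst_le (v j)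
      have h6 := hv j
      linarith
    obtain ⟨j, hj⟩ := pow_unbounded_of_one_lt (2 * r / ‖(v 0).2 - τ n (v 0).1‖)
      (by norm_num : (1 : ℝ) < 7)
    rw [div_lt_iff₀ hδ0] at hj
    have h1 := hgrow j
    have h2 := hbd j
    linarith

end Pool.Agent.Lib.Bed
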