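import Pool.Agent.Lib.Bed.SpecN

set_option autoImplicit false

open scoped Topology
open Set Filter Metric

namespace Pool.Agent.Lib.Bed

namespace sLimAux

variable {k : ℕ} {s : Fin k}

/-- the domain -/
def DD (S : Sys k) (U : ℕ → (Fin k → ℂ) → (Fin s.val → ℂ)) (R : ℝ) (n j : ℕ) :
    Set (Fin k → ℂ) := {z | z ∈ S.dom (n + j) ∧ U (n + j) z ∈ ball 0 R}

/-- the differences of the coordinates -/
def GG (S : Sys k) (s : Fin k) (U : ℕ → (Fin k → ℂ) → (Fin s.val → ℂ)) (n : ℕ)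
    (σ : (Fin s.val → ℂ) → (Fin k → ℂ)) (j i : ℕ) (z : Fin k → ℂ) : ℂ :=
  orb S.T (n + j) i z s - orb S.T n (j + i) (σ (U (n + j) z)) s

variable {S : Sys k} {U : ℕ → (Fin k → ℂ) → (Fin s.val → ℂ)} {R A : ℝ} {n : ℕ}
  {σ : (Fin s.val → ℂ) → (Fin k → ℂ)}

theorem isOpen_DD (hL : Lev S s.val U) (j : ℕ) : IsOpen (DD S U R n j) :=
  (hL.diff (n + j)).continuousOn.isOpen_inter_preimage (S.open_dom _) isOpen_ball

theorem hasFDerivAt_GG (hL : Lev S s.val U) (hσ : Sec S s.val U R A n σ) (j i : ℕ)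
    {z : Fin k → ℂ} (hz : z ∈ DD S U R n j) :
    ∃ g : (Fin s.val → ℂ) →L[ℂ] ℂ, HasFDerivAt (GG S s U n σ j i)
      ((ContinuousLinearMap.proj (R := ℂ) (φ := fun _ : Fin k => ℂ) s).comp
        (fderiv ℂ (orb S.T (n + j) i) z) - g.comp (fderiv ℂ (U (n + j)) z)) z := by
  have h1 : HasFDerivAt (orb S.T (n + j) i) (fderiv ℂ (orb S.T (n + j) i) z) z :=
    ((S.orb_diff (n + j) i).differentiableAt ((S.open_dom _).mem_nhds hz.1)).hasFDerivAt
  have h2 : HasFDerivAt (U (n + j)) (fderiv ℂ (U (n + j)) z) z :=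
    ((hL.diff (n + j)).differentiableAt ((S.open_dom _).mem_nhds hz.1)).hasFDerivAt
  have h3 : DifferentiableAt ℂ (fun v => orb S.T n (j + i) (σ v) s) (U (n + j) z) := by
    have h4 : DifferentiableOn ℂ (fun v => orb S.T n (j + i) (σ v)) (ball 0 R) :=
      (S.orb_diff n (j + i)).comp hσ.diff hσ.mem
    exact (differentiableAt_pi.mp (h4.differentiableAt (isOpen_ball.mem_nhds hz.2))) s
  refine ⟨fderiv ℂ (fun v => orb S.T n (j + i) (σ v) s) (U (n + j) z), ?_⟩
  have h5 := (hasFDerivAt_pi'.mp h1) s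
  have h6 := h3.hasFDerivAt.comp z h2
  exact h5.sub h6

theorem diff_GG (hL : Lev S s.val U) (hσ : Sec S s.val U R A n σ) (j i : ℕ) :
    DifferentiableOn ℂ (GG S s U n σ j i) (DD S U R n j) := by
  intro z hz
  obtain ⟨g, hg⟩ := hasFDerivAt_GG hL hσ j i hz
  exact hg.differentiableAt.differentiableWithinAt

theorem fderiv_GG (hL : Lev S s.val U) (hσ : Sec S s.val U R A n σ) (j i : ℕ)
    {z : Fin k → ℂ} (hz : z ∈ DD S U R n j) {w : Fin k → ℂ}
    (hw : fderiv ℂ (U (n + j)) z w = 0) :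
    fderiv ℂ (GG S s U n σ j i) z w = fderiv ℂ (orb S.T (n + j) i) z w s := by
  obtain ⟨g, hg⟩ := hasFDerivAt_GG hL hσ j i hz
  rw [hg.fderiv]
  simp [hw]

/-- the increments -/
theorem incr (hTPa : S_TPa) (hDI : S_DI) (hL : Lev S s.val U) (hσ : Sec S s.val U R A n σ)
    (j : ℕ) : ∃ (l : ℕ) (b : ℕ → ℝ), Summable b ∧ ∀ i, ∀ z ∈ DD S U R n j,
      ‖GG S s U n σ j (l + (i + 1)) z - GG S s U n σ j (l + i) z‖ ≤ b i := by
  obtain ⟨A₁, hA₁⟩ := S.bdd (n + j)
  obtain ⟨M, ε, hε0, hεs, hεt, hM⟩ := hDI k S (max A A₁) (1 / 8) (by norm_num)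
  have hm : n + j + M ≥ M := by omega
  obtain ⟨hD1, -⟩ := hM (n + j + M) hm
  have hκ := S.wt.pos s (n + j + M)
  refine ⟨M, fun i => 2 * (2 * max A A₁ / S.κ s (n + j + M)) * ε (n + j + M + i), ?_, ?_⟩
  · have h1 : Summable fun i => ε (n + j + M + i) := by
      have h2 := (summable_nat_add_iff (n + j + M)).mpr hεs
      refine h2.congr fun i => ?_
      rw [add_comm]
    exact h1.mul_left _
  · intro i z hz
    have hu := hz.2
    -- the two points
    have hx : ∀ i, orb S.T (n + j + M) i (orb S.T (n + j) M z) = orb S.T (n + j) (M + i) z :=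
      fun i => (orb_add M i z).symm
    have hy : ∀ i, orb S.T (n + j + M) i (orb S.T n (j + M) (σ (U (n + j) z))) =
        orb S.T n (j + (M + i)) (σ (U (n + j) z)) := by
      intro i
      rw [← add_assoc j M i, orb_add (j + M) i, add_assoc n j M]
    have hxd : orb S.T (n + j) M z ∈ S.dom (n + j + M) := S.orb_mem hz.1 M
    have hyd : orb S.T n (j + M) (σ (U (n + j) z)) ∈ S.dom (n + j + M) := by
      have h1 := S.orb_mem (hσ.mem _ hu) (j + M)
      rwa [← add_assoc] at h1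
    have hUx : U (n + j + M) (orb S.T (n + j) M z) = U (n + j) z := hL.orb_comp hz.1 M
    have hUy : U (n + j + M) (orb S.T n (j + M) (σ (U (n + j) z))) = U (n + j) z := by
      have h1 := hL.orb_comp (hσ.mem _ hu) (j + M)
      rw [← add_assoc] at h1
      rw [h1, hσ.val _ hu]
    have hbx : ∀ i, wn S.κ (n + j + M + i) (orb S.T (n + j + M) i (orb S.T (n + j) M z)) ≤
        max A A₁ := by
      intro i
      rw [hx i, add_assoc (n + j) M i]
      exact (hA₁ z hz.1 (M + i)).trans (le_max_right _ _)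
    have hby : ∀ i, wn S.κ (n + j + M + i)
        (orb S.T (n + j + M) i (orb S.T n (j + M) (σ (U (n + j) z)))) ≤ max A A₁ := by
      intro i
      rw [hy i]
      have h1 := hσ.bdd _ hu (j + (M + i))
      have h2 : n + (j + (M + i)) = n + j + M + i := by omega
      rw [h2] at h1
      exact h1.trans (le_max_left _ _)
    have h5 := hTPa k (fun t i => S.κ t (n + j + M + i)) (fun i => ε (n + j + M + i))
      (fun i => orb S.T (n + j + M) i (orb S.T (n + j) M z) -
        orb S.T (n + j + M) i (orb S.T n (j + M) (σ (U (n + j) z)))) s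
      (2 * max A A₁ / S.κ s (n + j + M)) (S.wt.shift _) (fun i => hε0 _) ?_ (hεt _ hm) ?_ ?_ ?_ i
    · have h6 := h5.2
      simp only [hx, hy] at h6
      exact h6
    · have h2 := (summable_nat_add_iff (n + j + M)).mpr hεs
      refine h2.congr fun i => ?_
      rw [add_comm]
    · intro i
      exact hD1 _ _ hbx hby i
    · intro t ht
      exact hL.lim (n + j + M) _ hxd _ hyd (by rw [hUx, hUy]) t ht
    · intro t _
      have h6 : (2 * max A A₁ / S.κ s (n + j + M)) * S.κ s (n + j + M + 0) = 2 * max A A₁ := by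
        rw [add_zero]
        field_simp
      show S.κ t (n + j + M + 0) * ‖_‖ ≤ _ * S.κ s (n + j + M + 0)
      rw [h6]
      refine (le_wn S.wt t).trans (wn_sub_le.trans ?_)
      have h7 := hbx 0
      have h8 := hby 0
      linarith

end sLimAux

open sLimAux in
theorem sLim : S_Lim := by
  intro hWei hTPa hDI k S s U hL R A n σ hσ
  have key : ∀ j, ∃ H : (Fin k → ℂ) → ℂ, DifferentiableOn ℂ H (DD S U R n j) ∧
      (∀ z ∈ DD S U R n j, Tendsto (fun i => GG S s U n σ j i z) atTop (𝓝 (H z))) ∧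
      ∀ z ∈ DD S U R n j, ∀ w, Tendsto (fun i => fderiv ℂ (GG S s U n σ j i) z w) atTop
        (𝓝 (fderiv ℂ H z w)) := by
    intro j
    obtain ⟨l, b, hb, hinc⟩ := incr hTPa hDI hL hσ j
    obtain ⟨H, h1, h2, -, h3⟩ := hWei (Fin k → ℂ) ℂ (DD S U R n j)
      (fun i => GG S s U n σ j (l + i)) b (isOpen_DD hL j) (fun i => diff_GG hL hσ j (l + i)) hb
      hinc
    refine ⟨H, h1, fun z hz => ?_, fun z hz w => ?_⟩
    · refine (tendsto_add_atTop_iff_nat l).mp ?_
      refine (h2 z hz).congr fun i => ?_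
      rw [add_comm]
    · refine (tendsto_add_atTop_iff_nat l).mp ?_
      refine (h3 z hz w).congr fun i => ?_
      rw [add_comm]
  choose W hW1 hW2 hW3 using key
  refine ⟨W, fun j => hW1 j, ?_, ?_, ?_⟩
  · intro j z hz hu
    have hz' : S.T (n + j) z ∈ S.dom (n + (j + 1)) := S.maps (n + j) hz
    have hU' : U (n + (j + 1)) (S.T (n + j) z) = U (n + j) z := hL.comp (n + j) z hz
    have h1 := hW2 (j + 1) (S.T (n + j) z) ⟨hz', by rw [hU']; exact hu⟩
    have h2 := hW2 j z ⟨hz, hu⟩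
    have h3 := (tendsto_add_atTop_iff_nat 1).mpr h2
    have h4 : (fun i => GG S s U n σ (j + 1) i (S.T (n + j) z)) =
        fun i => GG S s U n σ j (i + 1) z := by
      funext i
      unfold GG
      rw [hU', orb_succ' i z, add_assoc j 1 i, add_comm 1 i]
      rfl
    rw [h4] at h1
    exact tendsto_nhds_unique h1 h3
  · intro j z hz hu
    exact hW2 j z ⟨hz, hu⟩
  · intro j z hz hu w hw
    refine (hW3 j z ⟨hz, hu⟩ w).congr fun i => ?_
    exact fderiv_GG hL hσ j i ⟨hz, hu⟩ hw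

end Pool.Agent.Lib.Bed
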