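import Pool.Agent.Lib.Bed.SpecM

/-!
# MP_6f050a_an, Loc: a holomorphic map in the uniform charts
-/

set_option autoImplicit false

open scoped Manifold ContDiff Topology
open Set Filter Metric

namespace Pool.Agent.Lib.Bed

theorem sLoc : S_Loc := by
  intro hUCf E _ _ X _ _ nrm K ψ χ ρ a b hK hU g hg hgK ε hε
  obtain ⟨δ₁, hδ₁, h1⟩ := hU.near' ε hε
  obtain ⟨δ₂, hδ₂, h2⟩ := hUCf X X K univ g hK isOpen_univ (subset_univ K)
    hg.continuous.continuousOn δ₁ hδ₁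
  obtain ⟨δ₃, hδ₃, h3⟩ := hU.near δ₂ hδ₂
  have hρ := hU.ρ_pos
  have hsub : ball (0 : E) (min δ₃ ρ) ⊆ ball 0 ρ := ball_subset_ball (min_le_right _ _)
  have key : ∀ x ∈ K, ∀ v ∈ ball (0 : E) (min δ₃ ρ), ∃ v' ∈ ball (0 : E) ρ, ‖v'‖ < ε ∧
      ψ (g x) v' = g (ψ x v) ∧ loc ψ χ g x v = v' := by
    intro x hx v hv
    have hv3 : ‖v‖ < δ₃ := (mem_ball_zero_iff.1 hv).trans_le (min_le_left _ _)
    have h4 := h3 x hx v (hsub hv) hv3
    have h5 := (h2 x hx _ h4).2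
    obtain ⟨v', hv', hv'ε, hv'g⟩ := h1 (g x) (hgK hx) _ h5
    refine ⟨v', hv', hv'ε, hv'g, ?_⟩
    unfold loc
    rw [← hv'g]
    exact hU.left (g x) (hgK hx) v' hv'
  have hd : ∀ x ∈ K, ∀ v ∈ ball (0 : E) (min δ₃ ρ),
      MDifferentiableAt 𝓘(ℂ, E) 𝓘(ℂ, E) (loc ψ χ g x) v := by
    intro x hx v hv
    obtain ⟨v', hv', -, hv'g, -⟩ := key x hx v hv
    have h4 := hU.diff' (g x) (hgK hx) v' hv'
    rw [hv'g] at h4
    exact h4.comp v ((hg (ψ x v)).comp v (hU.diff x hx v (hsub hv)))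
  have hzero : ∀ x ∈ K, loc ψ χ g x 0 = 0 := by
    intro x hx
    unfold loc
    rw [hU.zero x hx]
    have h4 := hU.left (g x) (hgK hx) 0 (mem_ball_self hρ)
    rwa [hU.zero (g x) (hgK hx)] at h4
  have hpos : 0 < min δ₃ ρ := lt_min hδ₃ hρ
  refine ⟨min δ₃ ρ, hpos, min_le_right _ _, ?_, ?_, ?_, hzero, ?_⟩
  · intro x hx v hv
    exact (mdifferentiableAt_iff_differentiableAt.1 (hd x hx v hv)).differentiableWithinAt
  · intro x hx v hv
    obtain ⟨v', -, hv'ε, -, h4⟩ := key x hx v hv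
    rw [h4]
    exact hv'ε
  · intro x hx v hv
    obtain ⟨v', -, -, hv'g, h4⟩ := key x hx v hv
    rw [h4]
    exact hv'g
  · intro x hx w
    have h0 : (0 : E) ∈ ball (0 : E) (min δ₃ ρ) := mem_ball_self hpos
    have hev : (ψ (g x) ∘ loc ψ χ g x) =ᶠ[𝓝 (0 : E)] (g ∘ ψ x) := by
      filter_upwards [isOpen_ball.mem_nhds h0] with v hv
      obtain ⟨v', -, -, hv'g, h4⟩ := key x hx v hv
      change ψ (g x) (loc ψ χ g x v) = g (ψ x v)
      rw [h4]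
      exact hv'g
    have hL := hd x hx 0 h0
    have hψ : MDifferentiableAt 𝓘(ℂ, E) 𝓘(ℂ, E) (ψ (g x)) (loc ψ χ g x 0) := by
      rw [hzero x hx]
      exact hU.diff (g x) (hgK hx) 0 (mem_ball_self hρ)
    have hψx := hU.diff x hx 0 (mem_ball_self hρ)
    have e1 : du (ψ (g x) ∘ loc ψ χ g x) 0 w =
        du (ψ (g x)) (loc ψ χ g x 0) (du (loc ψ χ g x) 0 w) := by
      have h5 := mfderiv_comp (0 : E) hψ hL
      exact congrArg (fun A : E →L[ℂ] E => A w) h5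
    have e2 : du (g ∘ ψ x) 0 w = dg g (ψ x 0) (du (ψ x) 0 w) := by
      have h5 := mfderiv_comp (0 : E) (hg (ψ x 0)) hψx
      exact congrArg (fun A : E →L[ℂ] E => A w) h5
    have e3 : du (ψ (g x) ∘ loc ψ χ g x) 0 w = du (g ∘ ψ x) 0 w := by
      have h5 := hev.mfderiv_eq (I := 𝓘(ℂ, E)) (I' := 𝓘(ℂ, E))
      exact congrArg (fun A : E →L[ℂ] E => A w) h5
    have e4 : du (loc ψ χ g x) 0 w = fderiv ℂ (loc ψ χ g x) 0 w := by
      unfold du
      rw [mfderiv_eq_fderiv]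
    rw [e1, e2, hzero x hx, e4, hU.zero x hx] at e3
    exact e3

end Pool.Agent.Lib.Bed
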