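import Pool.Agent.Lib.Bed.SpecN

/-!
# Bed/LvA: the new functions `(U, V)`
-/

set_option autoImplicit false

open scoped Topology
open Set Filter Metric

namespace Pool.Agent.Lib.Bed

namespace sLvAAux

variable {k : ℕ} {S : Sys k} {s : Fin k} {U : ℕ → (Fin k → ℂ) → (Fin s.val → ℂ)} {A : ℕ → ℝ}
  {n : ℕ → ℕ} {σ : ℕ → (Fin s.val → ℂ) → (Fin k → ℂ)} {W : ℕ → ℕ → (Fin k → ℂ) → ℂ}
  {E : ℕ → (Fin s.val → ℂ) → ℂ} {V : ℕ → (Fin k → ℂ) → ℂ}

theorem exists_i (u : Fin s.val → ℂ) : ∃ i : ℕ, u ∈ ball (0 : Fin s.val → ℂ) (i + 1) := by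
  obtain ⟨i, hi⟩ := exists_nat_gt ‖u‖
  refine ⟨i, ?_⟩
  rw [mem_ball_zero_iff]
  linarith

theorem ball_sub (i : ℕ) : ball (0 : Fin s.val → ℂ) ((i : ℝ) + 1) ⊆ ball 0 ((i : ℝ) + 2) :=
  ball_subset_ball (by linarith)

theorem U_diffAt (hG : GD S s U A n σ W E) {m : ℕ} {z : Fin k → ℂ} (hz : z ∈ S.dom m) :
    DifferentiableAt ℂ (U m) z :=
  (hG.lev.diff m).differentiableAt ((S.open_dom m).mem_nhds hz)

theorem orb_diffAt {m : ℕ} {z : Fin k → ℂ} (hz : z ∈ S.dom m) (l : ℕ) :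
    DifferentiableAt ℂ (orb S.T m l) z :=
  (S.orb_diff m l).differentiableAt ((S.open_dom m).mem_nhds hz)

theorem nhds_ball (hG : GD S s U A n σ W E) {m : ℕ} {z : Fin k → ℂ} (hz : z ∈ S.dom m) {R : ℝ}
    (hi : U m z ∈ ball (0 : Fin s.val → ℂ) R) :
    ∀ᶠ z' in 𝓝 z, z' ∈ S.dom m ∧ U m z' ∈ ball (0 : Fin s.val → ℂ) R := by
  have h1 : ∀ᶠ z' in 𝓝 z, z' ∈ S.dom m := (S.open_dom m).mem_nhds hz
  have h2 : ∀ᶠ z' in 𝓝 z, U m z' ∈ ball (0 : Fin s.val → ℂ) R :=
    (U_diffAt hG hz).continuousAt (isOpen_ball.mem_nhds hi)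
  exact h1.and h2

theorem W_diffAt (hG : GD S s U A n σ W E) {j : ℕ} {x : Fin k → ℂ} {i : ℕ}
    (hx : x ∈ S.dom (n i + j)) (hi : U (n i + j) x ∈ ball (0 : Fin s.val → ℂ) ((i : ℝ) + 2)) :
    DifferentiableAt ℂ (W i j) x :=
  ((hG.w i).diff j).differentiableAt (nhds_ball hG hx hi)

theorem orb_mem' {m : ℕ} {z : Fin k → ℂ} (hz : z ∈ S.dom m) (l : ℕ) :
    orb S.T m l z ∈ S.dom (l + m) := by
  rw [Nat.add_comm]
  exact S.orb_mem hz l

theorem U_orb (hG : GD S s U A n σ W E) {m : ℕ} {z : Fin k → ℂ} (hz : z ∈ S.dom m) (l : ℕ) :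
    U (l + m) (orb S.T m l z) = U m z := by
  rw [Nat.add_comm]
  exact hG.lev.orb_comp hz l

theorem V_loc (hG : GD S s U A n σ W E) (hV : IsV S s U n W E V) {m : ℕ} {z : Fin k → ℂ}
    (hz : z ∈ S.dom m) {i : ℕ} (hi : U m z ∈ ball (0 : Fin s.val → ℂ) (i + 1)) :
    ∀ᶠ z' in 𝓝 z, V m z' = W i m (orb S.T m (n i) z') - E i (U m z') := by
  filter_upwards [nhds_ball hG hz hi] with z' hz'
  exact hV i m m (n i) (Nat.add_comm _ _) z' hz'.1 hz'.2

theorem V_fderiv (hG : GD S s U A n σ W E) (hV : IsV S s U n W E V) {m : ℕ} {z : Fin k → ℂ}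
    (hz : z ∈ S.dom m) {i : ℕ} (hi : U m z ∈ ball (0 : Fin s.val → ℂ) (i + 1)) :
    HasFDerivAt (V m) ((fderiv ℂ (W i m) (orb S.T m (n i) z)).comp
      (fderiv ℂ (orb S.T m (n i)) z) - (fderiv ℂ (E i) (U m z)).comp (fderiv ℂ (U m) z)) z := by
  have h1 : DifferentiableAt ℂ (W i m) (orb S.T m (n i) z) :=
    W_diffAt hG (orb_mem' hz (n i)) (by rw [U_orb hG hz]; exact ball_sub i hi)
  have h2 : DifferentiableAt ℂ (E i) (U m z) :=
    (hG.diffE i).differentiableAt (isOpen_ball.mem_nhds hi)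
  have h3 := (h1.hasFDerivAt.comp z (orb_diffAt hz (n i)).hasFDerivAt).sub
    (h2.hasFDerivAt.comp z (U_diffAt hG hz).hasFDerivAt)
  exact h3.congr_of_eventuallyEq (V_loc hG hV hz hi)

theorem snoc_diffAt (hG : GD S s U A n σ W E) (hV : IsV S s U n W E V) {m : ℕ} {z : Fin k → ℂ}
    (hz : z ∈ S.dom m) :
    DifferentiableAt ℂ (fun z => (Fin.snoc (U m z) (V m z) : Fin (s.val + 1) → ℂ)) z := by
  obtain ⟨i, hi⟩ := exists_i (U m z)
  rw [differentiableAt_pi]
  intro t
  refine Fin.lastCases ?_ ?_ t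
  · simp only [Fin.snoc_last]
    exact (V_fderiv hG hV hz hi).differentiableAt
  · intro t
    simp only [Fin.snoc_castSucc]
    exact differentiableAt_pi.1 (U_diffAt hG hz) t

theorem snoc_fderiv (hG : GD S s U A n σ W E) (hV : IsV S s U n W E V) {m : ℕ} {z : Fin k → ℂ}
    (hz : z ∈ S.dom m) {w : Fin k → ℂ}
    (h : fderiv ℂ (fun z => (Fin.snoc (U m z) (V m z) : Fin (s.val + 1) → ℂ)) z w = 0) :
    fderiv ℂ (U m) z w = 0 ∧ fderiv ℂ (V m) z w = 0 := by
  have h1 := (snoc_diffAt hG hV hz).hasFDerivAt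
  constructor
  · ext t
    have h2 := hasFDerivAt_pi'.1 h1 t.castSucc
    simp only [Fin.snoc_castSucc] at h2
    have h3 := hasFDerivAt_pi'.1 (U_diffAt hG hz).hasFDerivAt t
    have h4 := congrArg (fun L : (Fin k → ℂ) →L[ℂ] ℂ => L w) (h3.unique h2)
    simp only [ContinuousLinearMap.comp_apply, ContinuousLinearMap.proj_apply] at h4
    rw [h4, h]
    rfl
  · have h2 := hasFDerivAt_pi'.1 h1 (Fin.last _)
    simp only [Fin.snoc_last] at h2
    rw [h2.fderiv, ContinuousLinearMap.comp_apply, h, map_zero]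

end sLvAAux

open sLvAAux in
theorem sLvA : S_LvA := by
  intro k S s U A n σ W E V hG hV
  refine ⟨?_, ?_, ?_, ?_⟩
  · intro m z hz
    exact (snoc_diffAt hG hV hz).differentiableWithinAt
  · intro m z hz
    have h1 : U (m + 1) (S.T m z) = U m z := hG.lev.comp m z hz
    obtain ⟨i, hi⟩ := exists_i (U m z)
    have h2 := hV i (m + 1) (m + 1) (n i) (Nat.add_comm _ _) (S.T m z) (S.maps m hz)
      (by rw [h1]; exact hi)
    have h3 := hV i (m + 1) m (n i + 1) (by omega) z hz hi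
    have h4 : V (m + 1) (S.T m z) = V m z := by
      rw [h2, h3, h1, orb_succ']
    rw [h1, h4]
  · intro m z hz z' hz' heq t ht
    have hU : U m z = U m z' := by
      ext t
      have h1 := congrFun heq t.castSucc
      rwa [Fin.snoc_castSucc, Fin.snoc_castSucc] at h1
    have hVV : V m z = V m z' := by
      have h1 := congrFun heq (Fin.last _)
      rwa [Fin.snoc_last, Fin.snoc_last] at h1
    by_cases hts : t.val < s.val
    · exact hG.lev.lim m z hz z' hz' hU t hts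
    · have hts' : t = s := Fin.ext (by omega)
      subst hts'
      obtain ⟨i, hi⟩ := exists_i (U m z)
      have hi' : U m z' ∈ ball (0 : Fin t.val → ℂ) (i + 1) := by rw [← hU]; exact hi
      have hW : W i m (orb S.T m (n i) z) = W i m (orb S.T m (n i) z') := by
        have h2 := hV i m m (n i) (Nat.add_comm _ _) z hz hi
        have h3 := hV i m m (n i) (Nat.add_comm _ _) z' hz' hi'
        rw [h2, h3, hU] at hVV
        exact sub_left_injective hVV
      have h4 := (hG.w i).lim m _ (orb_mem' hz (n i))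
        (by rw [U_orb hG hz]; exact ball_sub i hi)
      have h5 := (hG.w i).lim m _ (orb_mem' hz' (n i))
        (by rw [U_orb hG hz']; exact ball_sub i hi')
      rw [U_orb hG hz] at h4
      rw [U_orb hG hz', ← hU, ← hW] at h5
      have h6 := h4.sub h5
      rw [sub_self] at h6
      rw [← tendsto_add_atTop_iff_nat (n i)]
      refine h6.congr fun i' => ?_
      rw [Nat.add_comm i' (n i), orb_add (n i) i' z, orb_add (n i) i' z', Nat.add_comm m (n i)]
      ring
  · intro m z hz w hw t ht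
    obtain ⟨hUw, hVw⟩ := snoc_fderiv hG hV hz hw
    by_cases hts : t.val < s.val
    · exact hG.lev.dlim m z hz w hUw t hts
    · have hts' : t = s := Fin.ext (by omega)
      subst hts'
      obtain ⟨i, hi⟩ := exists_i (U m z)
      have h1 := (V_fderiv hG hV hz hi).fderiv
      rw [h1] at hVw
      rw [sub_apply, ContinuousLinearMap.comp_apply,
        ContinuousLinearMap.comp_apply, hUw, map_zero, sub_zero] at hVw
      have hxm := orb_mem' hz (n i)
      have h2 : fderiv ℂ (U (n i + m)) (orb S.T m (n i) z) (fderiv ℂ (orb S.T m (n i)) z w) = 0 := by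
        have h3 := (U_diffAt hG hxm).hasFDerivAt.comp z (orb_diffAt hz (n i)).hasFDerivAt
        have h4 : U m =ᶠ[𝓝 z] U (n i + m) ∘ orb S.T m (n i) := by
          have h5 : ∀ᶠ z' in 𝓝 z, z' ∈ S.dom m := (S.open_dom m).mem_nhds hz
          filter_upwards [h5] with z' hz'
          exact (U_orb hG hz' (n i)).symm
        have h5 := (h3.congr_of_eventuallyEq h4).fderiv
        rw [h5] at hUw
        exact hUw
      have h3 := (hG.w i).dlim m _ hxm
        (by rw [U_orb hG hz]; exact ball_sub i hi) _ h2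
      rw [hVw] at h3
      rw [← tendsto_add_atTop_iff_nat (n i)]
      refine h3.congr fun i' => ?_
      have h6 : orb S.T m (i' + n i) = orb S.T (n i + m) i' ∘ orb S.T m (n i) := by
        ext1 z'
        rw [Nat.add_comm i' (n i), orb_add, Nat.add_comm m (n i)]
        rfl
      rw [h6, fderiv_comp z (orb_diffAt hxm i') (orb_diffAt hz (n i))]
      rfl

end Pool.Agent.Lib.Bed
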