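import Pool.Agent.Lib.Bed.SpecN

/-!
# MP_6f050a_an, LvB: the new functions `(U, V)`, solvability
-/

set_option autoImplicit false

open scoped Topology
open Set Filter Metric

namespace Pool.Agent.Lib.Bed

namespace sLvBAux

theorem bnd (hTPa : S_TPa) {k : ℕ} {κ : Fin k → ℕ → ℝ} (hκ : IsWt κ) {ε : ℕ → ℝ} {m : ℕ}
    (hε : ∀ j, 0 ≤ ε j) (hs : Summable ε) (h8 : ∑' j, ε (m + j) ≤ 1 / 8) (Δ : ℕ → Fin k → ℂ)
    (s : Fin k) (Q : ℝ)
    (hΔ : ∀ i, wn κ (m + i) (Δ (i + 1) - Δ i) ≤ ε (m + i) * wn κ (m + i) (Δ i))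
    (hl : ∀ t : Fin k, t < s → Tendsto (fun i => Δ i t) atTop (𝓝 0))
    (h0 : ∀ t : Fin k, s ≤ t → κ t m * ‖Δ 0 t‖ ≤ Q * κ s m) {L : ℂ}
    (hL : Tendsto (fun i => Δ i s) atTop (𝓝 L)) : ‖L - Δ 0 s‖ ≤ Q / 4 := by
  have hs' : Summable fun j => ε (m + j) := by
    have h := (summable_nat_add_iff m).2 hs
    simpa only [Nat.add_comm] using h
  have hQ : 0 ≤ Q := by
    have h1 := h0 s le_rfl
    have h2 : 0 ≤ κ s m * ‖Δ 0 s‖ := mul_nonneg (hκ.pos s m).le (norm_nonneg _)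
    by_contra h3
    push Not at h3
    have := mul_neg_of_neg_of_pos h3 (hκ.pos s m)
    linarith
  have h1 := hTPa k (fun t j => κ t (m + j)) (fun j => ε (m + j)) Δ s Q (hκ.shift m)
    (fun j => hε _) hs' h8 (fun j => hΔ j) hl (fun t ht => h0 t ht)
  have h2 := dist_le_tsum_of_dist_le_of_tendsto₀ (f := fun i => Δ i s)
    (fun l => 2 * Q * ε (m + l)) (fun l => by
      rw [dist_comm, dist_eq_norm]
      exact (h1 l).2) (hs'.mul_left _) hL
  rw [tsum_mul_left, dist_comm, dist_eq_norm] at h2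
  have h3 : 2 * Q * ∑' l, ε (m + l) ≤ 2 * Q * (1 / 8) :=
    mul_le_mul_of_nonneg_left h8 (by positivity)
  calc ‖L - Δ 0 s‖ ≤ 2 * Q * ∑' l, ε (m + l) := h2
    _ ≤ 2 * Q * (1 / 8) := h3
    _ = Q / 4 := by ring

/-- a perturbation of the identity is surjective -/
theorem fix {h : ℂ → ℂ} {a₀ c : ℂ} {ρ : ℝ} (hρ : ρ = 2 * (‖c‖ + ‖h a₀‖))
    (hh : ∀ a ∈ closedBall a₀ ρ, ∀ a' ∈ closedBall a₀ ρ,
      ‖(h a - h a') - (a - a')‖ ≤ ‖a - a'‖ / 4) : ∃ a ∈ closedBall a₀ ρ, h a = c := by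
  have hρ0 : 0 ≤ ρ := by
    rw [hρ]
    positivity
  have ha₀ : a₀ ∈ closedBall a₀ ρ := mem_closedBall_self hρ0
  let Φ : ℂ → ℂ := fun a => a - h a + c
  have hmap : MapsTo Φ (closedBall a₀ ρ) (closedBall a₀ ρ) := by
    intro a ha
    rw [mem_closedBall, dist_eq_norm] at ha ⊢
    have h1 := hh a (by rwa [mem_closedBall, dist_eq_norm]) a₀ ha₀
    have h2 : Φ a - a₀ = -((h a - h a₀) - (a - a₀)) + (c - h a₀) := by
      show a - h a + c - a₀ = _
      ring
    rw [h2]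
    calc ‖-((h a - h a₀) - (a - a₀)) + (c - h a₀)‖
        ≤ ‖(h a - h a₀) - (a - a₀)‖ + (‖c‖ + ‖h a₀‖) := by
          refine (norm_add_le _ _).trans ?_
          rw [norm_neg]
          have := norm_sub_le c (h a₀)
          linarith
      _ ≤ ρ := by linarith
  have hlip : LipschitzWith (1 / 4) (hmap.restrict Φ _ _) := by
    refine LipschitzWith.of_dist_le_mul fun a a' => ?_
    have h1 := hh a.1 a.2 a'.1 a'.2
    rw [Subtype.dist_eq, Subtype.dist_eq, dist_eq_norm, dist_eq_norm]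
    show ‖(a.1 - h a.1 + c) - (a'.1 - h a'.1 + c)‖ ≤ ((1 / 4 : NNReal) : ℝ) * ‖a.1 - a'.1‖
    have h2 : (a.1 - h a.1 + c) - (a'.1 - h a'.1 + c) =
        -((h a.1 - h a'.1) - (a.1 - a'.1)) := by ring
    rw [h2, norm_neg]
    refine h1.trans (le_of_eq ?_)
    push_cast
    ring
  have hcon : ContractingWith (1 / 4) (hmap.restrict Φ _ _) := by
    refine ⟨?_, hlip⟩
    rw [← NNReal.coe_lt_coe]
    push_cast
    norm_num
  obtain ⟨a, ha, hfix, _⟩ := hcon.exists_fixedPoint' isClosed_closedBall.isComplete hmap ha₀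
    (edist_ne_top _ _)
  refine ⟨a, ha, ?_⟩
  have h3 : a - h a + c = a := hfix
  have h4 : c - h a = 0 := by
    have : c - h a = (a - h a + c) - a := by ring
    rw [this, h3, sub_self]
  exact (sub_eq_zero.1 h4).symm

end sLvBAux

open sLvBAux

theorem sLvB : S_LvB := by
  intro hTPa hOB hDI k S s U AA n σ W E V hGD hV A
  by_cases hA : A < 0
  · exact ⟨0, 0, fun m _ u hu => absurd (hu.trans_lt hA) (not_lt.2 (norm_nonneg u))⟩
  push Not at hA
  obtain ⟨i, hi⟩ := exists_nat_gt A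
  have hi1 : A < i + 1 := by linarith
  obtain ⟨B, hB⟩ : ∃ B : ℝ, ∀ u ∈ closedBall (0 : Fin s.val → ℂ) A, ‖E i u‖ ≤ B := by
    apply (isCompact_closedBall _ _).exists_bound_of_continuousOn
    exact (hGD.diffE i).continuousOn.mono (closedBall_subset_ball hi1)
  have hB0 : 0 ≤ B := (norm_nonneg _).trans (hB 0 (mem_closedBall_self hA))
  set As : ℝ := max (AA i) 0 with hAs
  have hAs0 : 0 ≤ As := le_max_right _ _
  set K₀ : ℝ := S.κ s 0 with hK₀
  have hK₀p : 0 < K₀ := S.wt.pos s 0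
  set A₂ : ℝ := 2 * (A + As) + 2 * K₀ * (A + B) + 1 with hA₂
  have hA₂A : A ≤ A₂ := by
    have : 0 ≤ 2 * K₀ * (A + B) := by positivity
    linarith
  obtain ⟨M₁, A₁', hsolv⟩ := hGD.lev.solv A₂
  set A₁ : ℝ := max A₁' 0 with hA₁
  obtain ⟨M₂, hM₂⟩ := hOB k S A₁
  obtain ⟨M₃, ε, hε, hεs, hε8, hM₃⟩ := hDI k S (max (2 * A₁) As) (1 / 8) (by norm_num)
  refine ⟨max (max M₁ M₂) (max M₃ (n i)), A₁, fun m hm u hu ζ hζ => ?_⟩
  have hm1 : M₁ ≤ m := (le_max_left _ _).trans ((le_max_left _ _).trans hm)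
  have hm2 : M₂ ≤ m := (le_max_right _ _).trans ((le_max_left _ _).trans hm)
  have hm3 : M₃ ≤ m := (le_max_left _ _).trans ((le_max_right _ _).trans hm)
  have hm4 : n i ≤ m := (le_max_right _ _).trans ((le_max_right _ _).trans hm)
  obtain ⟨j, rfl⟩ : ∃ j, m = n i + j := ⟨m - n i, by omega⟩
  set m := n i + j with hmdef
  have hκm : 0 < S.κ s m := S.wt.pos s m
  have hκK : S.κ s m ≤ K₀ := κ_anti' S.wt s (Nat.zero_le m)
  set u₀ : Fin s.val → ℂ := Fin.init u with hu₀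
  have hu₀n : ‖u₀‖ ≤ A := by
    rw [pi_norm_le_iff_of_nonneg hA]
    exact fun t => (norm_le_pi_norm u t.castSucc).trans hu
  have hus : ‖u (Fin.last s.val)‖ ≤ A := (norm_le_pi_norm u _).trans hu
  have hu₀1 : u₀ ∈ ball (0 : Fin s.val → ℂ) (i + 1) := by
    rw [mem_ball_zero_iff]
    linarith
  have hu₀2 : u₀ ∈ ball (0 : Fin s.val → ℂ) (i + 2) := by
    rw [mem_ball_zero_iff]
    linarith
  -- the solutions
  have hex : ∀ a : ℂ, ∃ z : Fin k → ℂ, S.κ s m * ‖a‖ ≤ A₂ →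
      (∀ t : Fin k, s < t → z t = ζ t) ∧ z s = a ∧ wn S.κ m z ≤ A₁ ∧ z ∈ S.dom m ∧ U m z = u₀ := by
    intro a
    by_cases ha : S.κ s m * ‖a‖ ≤ A₂
    · obtain ⟨z, h1, h2, h3, h4⟩ := hsolv m hm1 u₀ (hu₀n.trans hA₂A) (Function.update ζ s a) (by
        intro t ht
        by_cases hts : t = s
        · subst hts
          rw [Function.update_self]
          exact ha
        · rw [Function.update_of_ne hts]
          have h5 : s.val + 1 ≤ t.val := by
            have : t.val ≠ s.val := fun h => hts (Fin.ext h)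
            omega
          exact (hζ t h5).trans hA₂A)
      refine ⟨z, fun _ => ⟨fun t ht => ?_, ?_, h2.trans (le_max_left _ _), h3, h4⟩⟩
      · rw [h1 t (le_of_lt ht), Function.update_of_ne (ne_of_gt ht)]
      · rw [h1 s le_rfl, Function.update_self]
    · exact ⟨0, fun h => absurd h ha⟩
  choose g hg using hex
  have hgb : ∀ a : ℂ, S.κ s m * ‖a‖ ≤ A₂ → ∀ l,
      wn S.κ (m + l) (orb S.T m l (g a)) ≤ max (2 * A₁) As := fun a ha l =>
    ((hM₂ m hm2 _ (hg a ha).2.2.1 l).2).trans (le_max_left _ _)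
  set h : ℂ → ℂ := fun a => W i j (g a) with hh
  -- the limit property
  set y : Fin k → ℂ := orb S.T (n i) j (σ i u₀) with hy
  have hlim : ∀ z ∈ S.dom m, U m z = u₀ →
      Tendsto (fun l => orb S.T m l z s - orb S.T m l y s) atTop (𝓝 (W i j z)) := by
    intro z hz hUz
    have h1 := (hGD.w i).lim j z hz (by
      have h2 : U (n i + j) z = u₀ := hUz
      rw [h2]
      exact hu₀2)
    have h2 : U (n i + j) z = u₀ := hUz
    rw [h2] at h1
    refine h1.congr fun l => ?_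
    rw [orb_add]
  -- (1)
  have hone : ∀ a : ℂ, S.κ s m * ‖a‖ ≤ A₂ → ∀ a' : ℂ, S.κ s m * ‖a'‖ ≤ A₂ →
      ‖(h a - h a') - (a - a')‖ ≤ ‖a - a'‖ / 4 := by
    intro a ha a' ha'
    obtain ⟨p1, p2, p3, p4, p5⟩ := hg a ha
    obtain ⟨q1, q2, q3, q4, q5⟩ := hg a' ha'
    have hL : Tendsto (fun l => (orb S.T m l (g a) - orb S.T m l (g a')) s) atTop
        (𝓝 (h a - h a')) := by
      have h3 := (hlim _ p4 p5).sub (hlim _ q4 q5)
      refine h3.congr fun l => ?_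
      rw [Pi.sub_apply]
      ring
    have h1 := bnd hTPa S.wt hε hεs (hε8 m hm3)
      (fun l => orb S.T m l (g a) - orb S.T m l (g a')) s ‖a - a'‖
      ((hM₃ m hm3).1 _ _ (hgb a ha) (hgb a' ha'))
      (fun t ht => hGD.lev.lim m _ p4 _ q4 (p5.trans q5.symm) t ht)
      (fun t ht => by
        show S.κ t m * ‖g a t - g a' t‖ ≤ ‖a - a'‖ * S.κ s m
        rcases eq_or_lt_of_le ht with h3 | h3
        · subst h3
          rw [p2, q2, mul_comm]
        · rw [p1 t h3, q1 t h3, sub_self, norm_zero, mul_zero]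
          positivity) hL
    have h2 : (orb S.T m 0 (g a) - orb S.T m 0 (g a')) s = a - a' := by
      show g a s - g a' s = a - a'
      rw [p2, q2]
    have h4 : ‖h a - h a' - (orb S.T m 0 (g a) - orb S.T m 0 (g a')) s‖ ≤ ‖a - a'‖ / 4 := h1
    rw [h2] at h4
    exact h4
  -- (2)
  have hσmem := (hGD.sec i).mem u₀ hu₀2
  have hym : y ∈ S.dom m := S.orb_mem hσmem j
  have hUy : U m y = u₀ := by
    have h1 := hGD.lev.orb_comp hσmem j
    exact h1.trans ((hGD.sec i).val u₀ hu₀2)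
  have hyb : ∀ l, wn S.κ (m + l) (orb S.T m l y) ≤ As := by
    intro l
    have h1 := (hGD.sec i).bdd u₀ hu₀2 (j + l)
    rw [orb_add, ← Nat.add_assoc] at h1
    exact h1.trans (le_max_left _ _)
  have hy0 : wn S.κ m y ≤ As := hyb 0
  have hyt : ∀ t, S.κ t m * ‖y t‖ ≤ As := fun t => (le_wn S.wt t).trans hy0
  have ha₀ : S.κ s m * ‖y s‖ ≤ A₂ := by
    have h1 : 0 ≤ 2 * K₀ * (A + B) := by positivity
    have := hyt s
    linarith
  obtain ⟨p1, p2, p3, p4, p5⟩ := hg (y s) ha₀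
  have htwo : S.κ s m * ‖h (y s)‖ ≤ (A + As) / 4 := by
    have hL : Tendsto (fun l => (orb S.T m l (g (y s)) - orb S.T m l y) s) atTop
        (𝓝 (h (y s))) := hlim _ p4 p5
    have h1 := bnd hTPa S.wt hε hεs (hε8 m hm3)
      (fun l => orb S.T m l (g (y s)) - orb S.T m l y) s ((A + As) / S.κ s m)
      ((hM₃ m hm3).1 _ _ (hgb (y s) ha₀) (fun l => (hyb l).trans (le_max_right _ _)))
      (fun t ht => hGD.lev.lim m _ p4 _ hym (p5.trans hUy.symm) t ht)
      (fun t ht => by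
        show S.κ t m * ‖g (y s) t - y t‖ ≤ (A + As) / S.κ s m * S.κ s m
        rw [div_mul_cancel₀ _ hκm.ne']
        rcases eq_or_lt_of_le ht with h3 | h3
        · subst h3
          rw [p2, sub_self, norm_zero, mul_zero]
          positivity
        · have h4 := hζ t h3
          have h5 := hyt t
          have h6 := norm_sub_le (g (y s) t) (y t)
          have h7 := mul_le_mul_of_nonneg_left h6 (S.wt.pos t m).le
          rw [p1 t h3] at h7 ⊢
          rw [mul_add] at h7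
          linarith) hL
    have h2 : ‖h (y s) - (orb S.T m 0 (g (y s)) - orb S.T m 0 y) s‖ ≤
        ((A + As) / S.κ s m) / 4 := h1
    have h3 : (orb S.T m 0 (g (y s)) - orb S.T m 0 y) s = 0 := by
      show g (y s) s - y s = 0
      rw [p2, sub_self]
    rw [h3, sub_zero, div_div, mul_comm (S.κ s m) 4, ← div_div, le_div_iff₀ hκm] at h2
    linarith
  -- (3)
  set c : ℂ := u (Fin.last s.val) + E i u₀ with hc
  have hcn : ‖c‖ ≤ A + B :=
    (norm_add_le _ _).trans (add_le_add hus (hB u₀ (mem_closedBall_zero_iff.2 hu₀n)))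
  have hρ : ∀ a ∈ closedBall (y s) (2 * (‖c‖ + ‖h (y s)‖)), S.κ s m * ‖a‖ ≤ A₂ := by
    intro a ha
    rw [mem_closedBall, dist_eq_norm] at ha
    have h1 : ‖a‖ ≤ ‖y s‖ + 2 * (‖c‖ + ‖h (y s)‖) := by
      have h2 : a = y s + (a - y s) := by ring
      calc ‖a‖ = ‖y s + (a - y s)‖ := by rw [← h2]
        _ ≤ ‖y s‖ + ‖a - y s‖ := norm_add_le _ _
        _ ≤ _ := by linarith
    have h2 : S.κ s m * ‖c‖ ≤ K₀ * (A + B) :=
      mul_le_mul hκK hcn (norm_nonneg _) hK₀p.le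
    have h3 := hyt s
    have h4 := mul_le_mul_of_nonneg_left h1 hκm.le
    have h5 : S.κ s m * (‖y s‖ + 2 * (‖c‖ + ‖h (y s)‖)) = S.κ s m * ‖y s‖ +
        2 * (S.κ s m * ‖c‖) + 2 * (S.κ s m * ‖h (y s)‖) := by ring
    rw [h5] at h4
    linarith
  obtain ⟨a, ha, hac⟩ := fix (h := h) (a₀ := y s) (c := c) rfl
    (fun a ha a' ha' => hone a (hρ a ha) a' (hρ a' ha'))
  obtain ⟨q1, q2, q3, q4, q5⟩ := hg a (hρ a ha)
  refine ⟨g a, fun t ht => q1 t ht, q3, q4, ?_⟩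
  have hVg : V m (g a) = u (Fin.last s.val) := by
    have h1 := hV i j m 0 rfl (g a) q4 (by rw [q5]; exact hu₀1)
    rw [h1, q5]
    show h a - E i u₀ = _
    rw [hac]
    ring
  rw [q5, hVg]
  exact Fin.snoc_init_self u

end Pool.Agent.Lib.Bed
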