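import Pool.Agent.Lib.Bed.SpecN

/-!
# MP_6f050a_an, part N: NF, the direct limit of a normalised system
-/

set_option autoImplicit false

open scoped Topology
open Set Filter Metric

namespace Pool.Agent.Lib.Bed

namespace sNFAux

theorem fderiv_orb_add {k : ℕ} (S : Sys k) {m : ℕ} {z : Fin k → ℂ} (hz : z ∈ S.dom m) (l i : ℕ)
    (w : Fin k → ℂ) : fderiv ℂ (orb S.T m (l + i)) z w =
      fderiv ℂ (orb S.T (m + l) i) (orb S.T m l z) (fderiv ℂ (orb S.T m l) z w) := by
  induction i with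
  | zero =>
    have h3 : orb S.T (m + l) 0 = id := rfl
    rw [h3, fderiv_id]
    rfl
  | succ i ih =>
    have h1 := S.fderiv_orb_succ hz (l + i) w
    have h2 := S.fderiv_orb_succ (S.orb_mem hz l) i (fderiv ℂ (orb S.T m l) z w)
    rw [← Nat.add_assoc, h1, h2, ih, orb_add, Nat.add_assoc]

end sNFAux

open sNFAux

theorem sNF : S_NF := by
  intro hTPa hTPb hDI k S U hU
  refine ⟨hU.diff, hU.comp, ?_, ?_, ?_⟩
  · intro m z hz z' hz' hzz
    obtain ⟨A, hA⟩ := S.bdd m
    obtain ⟨M, ε, hε0, hεs, hεδ, hinc⟩ := hDI k S A (1 / 8) (by norm_num)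
    have hM : m + M ≥ M := Nat.le_add_left _ _
    have hA1 : ∀ z ∈ S.dom m, ∀ i, wn S.κ (m + M + i) (orb S.T (m + M) i (orb S.T m M z)) ≤ A := by
      intro z hz i
      rw [← orb_add, Nat.add_assoc]
      exact hA z hz (M + i)
    have h0 := hTPb hTPa k (fun t j => S.κ t (m + M + j)) (fun j => ε (m + M + j))
      (fun j => orb S.T (m + M) j (orb S.T m M z) - orb S.T (m + M) j (orb S.T m M z'))
      (S.wt.shift (m + M)) (fun j => hε0 _)
      ((summable_nat_add_iff (m + M)).mpr hεs |>.congr (fun j => by rw [Nat.add_comm]))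
      (hεδ (m + M) hM)
      (fun j => (hinc (m + M) hM).1 _ _ (hA1 z hz) (hA1 z' hz') j) ?_ 0
    · have h1 : orb S.T m M z - orb S.T m M z' = 0 := h0
      exact S.orb_inj m M hz hz' (sub_eq_zero.mp h1)
    · intro t
      have h1 := hU.lim m z hz z' hz' hzz t t.isLt
      have h2 := (tendsto_add_atTop_iff_nat M).mpr h1
      refine h2.congr fun j => ?_
      rw [Nat.add_comm j M, orb_add, orb_add]
      rfl
  · intro m z hz w hw
    obtain ⟨A, hA⟩ := S.bdd m
    obtain ⟨M, ε, hε0, hεs, hεδ, hinc⟩ := hDI k S A (1 / 8) (by norm_num)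
    have hM : m + M ≥ M := Nat.le_add_left _ _
    have hA1 : ∀ z ∈ S.dom m, ∀ i, wn S.κ (m + M + i) (orb S.T (m + M) i (orb S.T m M z)) ≤ A := by
      intro z hz i
      rw [← orb_add, Nat.add_assoc]
      exact hA z hz (M + i)
    have h0 := hTPb hTPa k (fun t j => S.κ t (m + M + j)) (fun j => ε (m + M + j))
      (fun j => fderiv ℂ (orb S.T (m + M) j) (orb S.T m M z) (fderiv ℂ (orb S.T m M) z w))
      (S.wt.shift (m + M)) (fun j => hε0 _)
      ((summable_nat_add_iff (m + M)).mpr hεs |>.congr (fun j => by rw [Nat.add_comm]))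
      (hεδ (m + M) hM)
      (fun j => (hinc (m + M) hM).2 _ (S.orb_mem hz M) (hA1 z hz) _ j) ?_ 0
    · have h3 : orb S.T (m + M) 0 = id := rfl
      have h1 : fderiv ℂ (orb S.T m M) z w = 0 := by
        have h4 : fderiv ℂ (orb S.T (m + M) 0) (orb S.T m M z) (fderiv ℂ (orb S.T m M) z w) = 0 := h0
        rw [h3, fderiv_id] at h4
        exact h4
      exact S.orb_dinj hz M w h1
    · intro t
      have h1 := hU.dlim m z hz w hw t t.isLt
      have h2 := (tendsto_add_atTop_iff_nat M).mpr h1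
      refine h2.congr fun j => ?_
      rw [Nat.add_comm j M, fderiv_orb_add S hz]
  · intro u
    obtain ⟨M, A', h⟩ := hU.solv ‖u‖
    obtain ⟨ζ, _, _, hζ, hu⟩ := h M le_rfl u le_rfl 0 (fun t ht => absurd ht (not_le.mpr t.isLt))
    exact ⟨M, ζ, hζ, hu⟩

end Pool.Agent.Lib.Bed
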