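import Pool.Agent.Lib.Bed.SpecM

/-!
# Stable manifolds, module NrC: the norm in a chart
-/

set_option autoImplicit false

open scoped Manifold ContDiff Topology
open Set Filter Metric

namespace Pool.Agent.Lib.Bed

/-- **NrC.** -/
theorem sNrC : S_NrC := by
  intro E _ _ _ X _ _ _ nrm hnrm x₀
  have hopen : IsOpen (chartAt E x₀).target := (chartAt E x₀).open_target
  constructor
  · have h1 : ContMDiffOn 𝓘(ℂ, E) 𝓘(ℂ, E) 1 (chartAt E x₀).symm (chartAt E x₀).target :=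
      contMDiffOn_chart_symm
    have h2 := h1.continuousOn_tangentMapWithin le_rfl hopen.uniqueMDiffOn
    have h3 := hnrm.cont.comp_continuousOn h2
    have h4 : Continuous (fun q : E × E => (tangentBundleModelSpaceHomeomorph 𝓘(ℂ, E)).symm q) :=
      (tangentBundleModelSpaceHomeomorph 𝓘(ℂ, E)).symm.continuous
    have h5 := h3.comp (h4.continuousOn (s := (chartAt E x₀).target ×ˢ univ)) (by
      intro q hq
      exact hq.1)
    refine h5.congr ?_
    intro q hq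
    have h6 : mfderivWithin 𝓘(ℂ, E) 𝓘(ℂ, E) (chartAt E x₀).symm (chartAt E x₀).target q.1 =
        mfderiv 𝓘(ℂ, E) 𝓘(ℂ, E) (chartAt E x₀).symm q.1 := mfderivWithin_of_isOpen hopen hq.1
    change nrm ((chartAt E x₀).symm q.1)
        (mfderiv 𝓘(ℂ, E) 𝓘(ℂ, E) (chartAt E x₀).symm q.1 q.2) =
      nrm ((chartAt E x₀).symm q.1)
        (mfderivWithin 𝓘(ℂ, E) 𝓘(ℂ, E) (chartAt E x₀).symm (chartAt E x₀).target q.1 q.2)
    rw [h6]
  · intro y hy w hw
    have h1 : MDifferentiableAt 𝓘(ℂ, E) 𝓘(ℂ, E) (chartAt E x₀).symm y :=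
      mdifferentiableAt_atlas_symm (chart_mem_atlas E x₀) hy
    have h2 : MDifferentiableAt 𝓘(ℂ, E) 𝓘(ℂ, E) (chartAt E x₀) ((chartAt E x₀).symm y) :=
      mdifferentiableAt_atlas (chart_mem_atlas E x₀) ((chartAt E x₀).map_target hy)
    have h3 := mfderiv_comp y h2 h1
    have h4 : mfderiv 𝓘(ℂ, E) 𝓘(ℂ, E) ((chartAt E x₀) ∘ (chartAt E x₀).symm) y =
        ContinuousLinearMap.id ℂ (TangentSpace 𝓘(ℂ, E) y) := by
      have h5 : ((chartAt E x₀) ∘ (chartAt E x₀).symm) =ᶠ[𝓝 y] id := by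
        filter_upwards [hopen.mem_nhds hy] with z hz
        exact (chartAt E x₀).right_inv hz
      rw [h5.mfderiv_eq]
      exact mfderiv_id
    rw [h4] at h3
    have h6 : (ContinuousLinearMap.id ℂ (TangentSpace 𝓘(ℂ, E) y)) w =
        (mfderiv 𝓘(ℂ, E) 𝓘(ℂ, E) (chartAt E x₀) ((chartAt E x₀).symm y))
          (mfderiv 𝓘(ℂ, E) 𝓘(ℂ, E) (chartAt E x₀).symm y w) := by
      rw [h3]
      rfl
    have hw' : mfderiv 𝓘(ℂ, E) 𝓘(ℂ, E) (chartAt E x₀).symm y w = 0 := hw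
    rw [hw', map_zero] at h6
    exact h6

end Pool.Agent.Lib.Bed
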