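import Pool.Agent.Lib.Bed.SpecN

/-!
# MP_6f050a_an, OB: orbits of small points stay small
-/

set_option autoImplicit false

open scoped Topology
open Set Filter Metric

namespace Pool.Agent.Lib.Bed

namespace sOBAux

theorem tail {ε : ℕ → ℝ} {δ : ℝ} (hδ : 0 < δ) (M : ℕ) :
    ∃ M' ≥ M, ∀ m ≥ M', ∑' j, ε (m + j) ≤ δ := by
  have h1 : Tendsto (fun i => ∑' k, ε (k + i)) atTop (𝓝 0) := tendsto_sum_nat_add ε
  obtain ⟨M₁, hM₁⟩ := Filter.eventually_atTop.1 (h1.eventually_le_const hδ)
  refine ⟨max M M₁, le_max_left _ _, fun m hm => ?_⟩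
  have h2 := hM₁ m ((le_max_right _ _).trans hm)
  have h3 : (fun j => ε (m + j)) = fun j => ε (j + m) := by
    funext j
    rw [add_comm]
  rw [h3]
  exact h2

end sOBAux

open sOBAux in
theorem sOB : S_OB := by
  intro k S A
  obtain ⟨M, ε, hε0, hεs, hnear⟩ := S.near (2 * |A|)
  obtain ⟨M', hM', htail⟩ := tail (ε := ε) (one_half_pos (α := ℝ)) M
  refine ⟨M', fun m hm z hz => ?_⟩
  have hA : 0 ≤ A := wn_nonneg.trans hz
  have habs : |A| = A := abs_of_nonneg hA
  have hs : ∀ i, ∑ j ∈ Finset.range i, ε (m + j) ≤ 1 / 2 := by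
    intro i
    have h1 : Summable fun j => ε (m + j) := by
      have h2 := (summable_nat_add_iff m).2 hεs
      refine h2.congr fun j => ?_
      rw [add_comm]
    exact (h1.sum_le_tsum _ (fun j _ => hε0 _)).trans (htail m hm)
  have hs0 : ∀ i, 0 ≤ ∑ j ∈ Finset.range i, ε (m + j) := fun i =>
    Finset.sum_nonneg fun j _ => hε0 _
  have key : ∀ i, wn S.κ (m + i) (orb S.T m i z) ≤
      A * (1 + 2 * ∑ j ∈ Finset.range i, ε (m + j)) := by
    intro i
    induction i with
    | zero => simpa using hz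
    | succ i ih =>
      have hmi : m + i ≥ M := by omega
      obtain ⟨-, hn2⟩ := hnear (m + i) hmi
      have hb : wn S.κ (m + i) (orb S.T m i z) ≤ 2 * |A| := by
        rw [habs]
        refine ih.trans ?_
        nlinarith [hs i]
      have h1 := hn2 (orb S.T m i z) 0 hb (by rw [wn_zero]; positivity)
      rw [S.T_zero, sub_zero, sub_zero, sub_zero] at h1
      have h2 : wn S.κ (m + i) (S.T (m + i) (orb S.T m i z)) ≤
          (1 + ε (m + i)) * wn S.κ (m + i) (orb S.T m i z) := by
        have h3 : S.T (m + i) (orb S.T m i z) =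
            orb S.T m i z + (S.T (m + i) (orb S.T m i z) - orb S.T m i z) := by
          rw [add_sub_cancel]
        rw [h3]
        refine wn_add_le.trans ?_
        linarith
      have h4 : wn S.κ (m + (i + 1)) (orb S.T m (i + 1) z) ≤
          wn S.κ (m + i) (S.T (m + i) (orb S.T m i z)) := wn_anti S.wt
      refine h4.trans (h2.trans ?_)
      rw [Finset.sum_range_succ]
      have h5 : (1 + ε (m + i)) * wn S.κ (m + i) (orb S.T m i z) ≤
          (1 + ε (m + i)) * (A * (1 + 2 * ∑ j ∈ Finset.range i, ε (m + j))) :=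
        mul_le_mul_of_nonneg_left ih (by linarith [hε0 (m + i)])
      refine h5.trans ?_
      have h6 : ε (m + i) * (∑ j ∈ Finset.range i, ε (m + j)) ≤ ε (m + i) * (1 / 2) :=
        mul_le_mul_of_nonneg_left (hs i) (hε0 _)
      have h7 : (1 + ε (m + i)) * (1 + 2 * ∑ j ∈ Finset.range i, ε (m + j)) ≤
          1 + 2 * (∑ j ∈ Finset.range i, ε (m + j) + ε (m + i)) := by
        linarith
      calc (1 + ε (m + i)) * (A * (1 + 2 * ∑ j ∈ Finset.range i, ε (m + j)))
          = A * ((1 + ε (m + i)) * (1 + 2 * ∑ j ∈ Finset.range i, ε (m + j))) := by ring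
        _ ≤ A * (1 + 2 * (∑ j ∈ Finset.range i, ε (m + j) + ε (m + i))) :=
          mul_le_mul_of_nonneg_left h7 hA
  intro i
  have h2A : wn S.κ (m + i) (orb S.T m i z) ≤ 2 * A := by
    refine (key i).trans ?_
    nlinarith [hs i]
  exact ⟨(hnear (m + i) (by omega)).1 _ (by rw [habs]; exact h2A), h2A⟩

end Pool.Agent.Lib.Bed
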