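import Pool.Agent.Lib.Bed.SpecC

/-!
# MP_6f050a_an: PB, translation of the condition (B)
-/

set_option autoImplicit false

open scoped Manifold ContDiff Topology
open Set Filter Metric

namespace Pool.Agent.Lib.Bed

namespace sPBAux

variable {E : Type} [NormedAddCommGroup E] [NormedSpace ℂ E]
variable {X : Type} [MetricSpace X] [ChartedSpace E X]

/-- at the time `0` -/
lemma nit_zero (nrm : (x : X) → TangentSpace 𝓘(ℂ, E) x → ℝ) (f : X ≃ X) (p : X)
    (v : TangentSpace 𝓘(ℂ, E) p) : nit nrm f p 0 v = nrm p v := by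
  unfold nit dit
  have h : mfderiv 𝓘(ℂ, E) 𝓘(ℂ, E) (id : X → X) p =
      ContinuousLinearMap.id ℂ (TangentSpace 𝓘(ℂ, E) p) := mfderiv_id
  change nrm p (mfderiv 𝓘(ℂ, E) 𝓘(ℂ, E) (id : X → X) p v) = nrm p v
  rw [h]
  rfl

lemma bounds (nrm : (x : X) → TangentSpace 𝓘(ℂ, E) x → ℝ) (f : X ≃ X) (p : X)
    (Ep : Submodule ℂ (TangentSpace 𝓘(ℂ, E) p)) (N k : ℕ)
    (j : (Fin k → ℂ) →ₗ[ℂ] TangentSpace 𝓘(ℂ, E) p) (Λ : ℕ → (Fin k → ℂ) →L[ℂ] (Fin k → ℂ))
    (a b : ℝ) (h : Cmp nrm f p Ep N k j Λ a b) (z : Fin k → ℂ) :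
    a * ‖z‖ ≤ nrm p (j z) ∧ nrm p (j z) ≤ b * ‖z‖ := by
  have h1 := h.low 0 z
  have h2 := h.up 0 z
  rw [Nat.mul_zero, nit_zero, h.zero] at h1 h2
  exact ⟨h1, h2⟩

lemma le_div_mul {a b x y : ℝ} (ha : 0 < a) (h : a * x ≤ b * y) : x ≤ b / a * y := by
  rw [div_mul_eq_mul_div, le_div_iff₀ ha]
  linarith

end sPBAux

open sPBAux in
/-- **PB.** -/
theorem sPB : S_PB := by
  intro E _ _ _ X _ _ nrm f p Ep N j Λ a b hpos hnn hC hB
  obtain ⟨-, a', b', hab, hev⟩ := hB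
  have ha := hC.a_pos
  have hb := hC.b_pos
  have hbd := bounds nrm f p Ep N 2 j Λ a b hC
  have hjne : ∀ z, j z ≠ 0 → z ≠ 0 := by
    rintro z hz rfl
    exact hz (map_zero j)
  refine ⟨b / a, a', b', by positivity, hab, ?_⟩
  have htend : Tendsto (fun m : ℕ => N * m) atTop atTop :=
    Filter.tendsto_id.const_mul_atTop' hC.N_pos
  filter_upwards [htend.eventually hev] with m hm
  obtain ⟨S, s, hs, ⟨hall, ⟨v, hv, hv0, hvS⟩, w, hw, hw0, hws⟩, hSs, hsS⟩ := hm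
  have hvp : 0 < nrm p v := hpos v hv0
  have hsS' : s ≤ S := by
    have h1 := (hall v hv).1
    rw [hvS] at h1
    exact le_of_mul_le_mul_right h1 hvp
  have hS : 0 < S := lt_of_lt_of_le hs hsS'
  have hmem : ∀ z, j z ∈ Ep := by
    intro z
    rw [← hC.range]
    exact ⟨z, rfl⟩
  have hsurj : ∀ u ∈ Ep, ∃ z, j z = u := by
    intro u hu
    rw [← hC.range] at hu
    exact hu
  refine ⟨S, s, hS, hs, ?_, ?_, ?_, ?_, hSs, hsS⟩
  · intro z
    have h1 := hC.low m z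
    have h2 := (hall (j z) (hmem z)).2
    have h3 := mul_le_mul_of_nonneg_left (hbd z).2 hS.le
    have h4 : a * ‖Λ m z‖ ≤ b * (S * ‖z‖) := by linarith
    have h5 := le_div_mul ha h4
    linarith
  · obtain ⟨z, rfl⟩ := hsurj v hv
    refine ⟨z, hjne z hv0, ?_⟩
    have h1 := hC.up m z
    have h2 := mul_le_mul_of_nonneg_left (hbd z).1 hS.le
    rw [hvS] at h1
    exact le_div_mul ha (by linarith)
  · intro z
    have h1 := hC.up m z
    have h2 := mul_le_mul_of_nonneg_left (hbd z).1 hs.le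
    have h3 := (hall (j z) (hmem z)).1
    exact le_div_mul ha (by linarith)
  · obtain ⟨z, rfl⟩ := hsurj w hw
    refine ⟨z, hjne z hw0, ?_⟩
    have h1 := hC.low m z
    have h2 := mul_le_mul_of_nonneg_left (hbd z).2 hs.le
    rw [hws] at h1
    have h4 : a * ‖Λ m z‖ ≤ b * (s * ‖z‖) := by linarith
    have h5 := le_div_mul ha h4
    linarith

end Pool.Agent.Lib.Bed
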