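import Pool.Agent.Lib.Bed.SpecC

/-!
# MP_6f050a_an: translation of the condition (C)
-/

set_option autoImplicit false

open scoped Manifold ContDiff Topology
open Set Filter Metric

namespace Pool.Agent.Lib.Bed

namespace sPCAux

theorem nit_zero {E : Type} [NormedAddCommGroup E] [NormedSpace ℂ E] {X : Type} [MetricSpace X]
    [ChartedSpace E X] (nrm : (x : X) → TangentSpace 𝓘(ℂ, E) x → ℝ) (f : X ≃ X) (p : X)
    (v : TangentSpace 𝓘(ℂ, E) p) : nit nrm f p 0 v = nrm p v := by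
  show nrm p (mfderiv 𝓘(ℂ, E) 𝓘(ℂ, E) (id : X → X) p v) = nrm p v
  rw [mfderiv_id]
  rfl

theorem ineq {a b C e L x y m1 m2 : ℝ} (ha : 0 < a) (hC : 0 < C) (he : 0 < e)
    (hL : 0 < L) (h1 : a * x ≤ m1) (h2 : m2 ≤ b * y) (h : L * m1 ≤ C * e * m2) :
    L * x ≤ C * b / a * e * y := by
  have e1 : L * (a * x) ≤ L * m1 := mul_le_mul_of_nonneg_left h1 hL.le
  have e2 : C * e * m2 ≤ C * e * (b * y) := mul_le_mul_of_nonneg_left h2 (by positivity)
  have e3 := e1.trans (h.trans e2)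
  have e4 : C * b / a * e * y = (C * e * (b * y)) / a := by
    field_simp
  rw [e4, le_div_iff₀ ha]
  calc L * x * a = L * (a * x) := by ring
    _ ≤ _ := e3

end sPCAux

theorem sPC : S_PC := by
  intro E _ _ _ X _ _ nrm f p Ep N k j Λ a b hc lam hlam hC
  obtain ⟨v₀, C, η, hv₀, hne, hC, hη, h⟩ := hC
  have hN : (0 : ℝ) < N := by exact_mod_cast hc.N_pos
  have ha := hc.a_pos
  have hb := hc.b_pos
  have hmem : ∀ z, j z ∈ Ep := fun z => by
    rw [← hc.range]
    exact LinearMap.mem_range_self j z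
  have hlow : ∀ z, a * ‖z‖ ≤ nrm p (j z) := by
    intro z
    have h1 := hc.low 0 z
    rw [hc.zero, Nat.mul_zero, sPCAux.nit_zero] at h1
    exact h1
  rw [← hc.range] at hv₀
  obtain ⟨z₀, hz₀⟩ := hv₀
  refine ⟨z₀, C * b / a, η * N, ?_, by positivity, by positivity, fun m v => ?_⟩
  · rintro rfl
    rw [map_zero] at hz₀
    exact hne hz₀.symm
  · obtain ⟨c, h1⟩ := h (N * m) (j v) (hmem v)
    refine ⟨c, ?_⟩
    have h2 : -(η * ((N * m : ℕ) : ℝ)) = -(η * N * m) := by
      push_cast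
      ring
    have h3 : lam ^ (2 * (N * m)) = (lam ^ N) ^ (2 * m) := by
      rw [← pow_mul]
      congr 1
      ring
    have h4 : j v - c • v₀ = j (v - c • z₀) := by
      rw [map_sub, map_smul, hz₀]
    rw [h2, h3, h4] at h1
    exact sPCAux.ineq ha hC (Real.exp_pos _) (by positivity) (hlow _) (hc.up m v) h1

end Pool.Agent.Lib.Bed
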