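import Pool.Agent.Lib.Bed.SpecC

/-!
# Stable manifolds, module PK: translation of the condition (K)
-/

set_option autoImplicit false

open scoped Manifold ContDiff Topology
open Set Filter Metric

namespace Pool.Agent.Lib.Bed

namespace sPKAux

variable {k : ℕ} {c : ℝ} {om : Fin k → ℕ → ℝ}

theorem anti' (h : IsW0 c om) (t : Fin k) : Antitone (om t) := antitone_nat_of_succ_le (h.anti t)

theorem ratio' (h : IsW0 c om) {s t : Fin k} (hst : s ≤ t) {i j : ℕ} (hij : i ≤ j) :
    om t j * om s i ≤ om t i * om s j := by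
  have h1 : Antitone fun j => om t j / om s j := by
    refine antitone_nat_of_succ_le fun m => ?_
    rw [div_le_div_iff₀ (h.pos _ _) (h.pos _ _)]
    exact h.ratio s t hst m
  have h2 := h1 hij
  simp only at h2
  rw [div_le_div_iff₀ (h.pos _ _) (h.pos _ _)] at h2
  exact h2

theorem step' (h : IsW0 c om) (hc : 0 < c) (t : Fin k) (m i : ℕ) : c ^ i * om t m ≤ om t (m + i) := by
  induction i with
  | zero => simp
  | succ i ih =>
    calc c ^ (i + 1) * om t m = c * (c ^ i * om t m) := by ring
      _ ≤ c * om t (m + i) := mul_le_mul_of_nonneg_left ih hc.le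
      _ ≤ om t (m + i + 1) := h.step t (m + i)

theorem sub (h : IsW0 c om) (hc : 0 < c) {N : ℕ} (hN : 0 < N) :
    IsW0 (c ^ N) fun t n => om t (N * n) where
  pos t m := h.pos _ _
  anti t m := anti' h t (Nat.mul_le_mul_left N (Nat.le_succ m))
  step t m := by
    rw [Nat.mul_succ]
    exact step' h hc t (N * m) N
  ratio s t hst m := ratio' h hst (Nat.mul_le_mul_left N (Nat.le_succ m))
  lim t := by
    have h1 : Tendsto (fun n : ℕ => N * n) atTop atTop :=
      tendsto_id.const_mul_atTop' hN
    exact (h.lim t).comp h1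

end sPKAux

open sPKAux in
/-- **PK.** -/
theorem sPK : S_PK := by
  intro E _ _ _ X _ _ nrm f p Ep N k j Λ a b hC hK
  obtain ⟨k', e, om, C, c, η, hC0, hc, hη, hW, h1, h2⟩ := hK
  have hN := hC.N_pos
  have ha := hC.a_pos
  have hb := hC.b_pos
  obtain ⟨je, hje⟩ : ∃ je : (Fin k → ℂ) ≃ₗ[ℂ] Ep, ∀ z, ((je z : Ep) : TangentSpace 𝓘(ℂ, E) p) = j z := by
    refine ⟨(LinearEquiv.ofInjective j hC.inj).trans (LinearEquiv.ofEq _ _ hC.range), fun z => ?_⟩
    rfl
  have hk : k' = k := by
    have e1 := je.finrank_eq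
    have e2 := Module.finrank_eq_card_basis e
    rw [e2, Module.finrank_fin_fun, Fintype.card_fin] at e1
    exact e1.symm
  subst hk
  obtain ⟨e', he'⟩ : ∃ e' : (Fin k' → ℂ) ≃L[ℂ] (Fin k' → ℂ), ∀ z,
      j (e' z) = ((∑ t, z t • e t : Ep) : TangentSpace 𝓘(ℂ, E) p) := by
    refine ⟨(e.equivFun.symm.trans je.symm).toContinuousLinearEquiv, fun z => ?_⟩
    rw [← hje]
    have e1 : (e.equivFun.symm.trans je.symm).toContinuousLinearEquiv z =
        je.symm (e.equivFun.symm z) := rfl
    rw [e1, LinearEquiv.apply_symm_apply, Module.Basis.equivFun_symm_apply]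
  refine ⟨e', fun t n => om t (N * n), C / a + C * b, c ^ N, η * N, by positivity, by positivity,
    by positivity, sub hW hc hN, ?_, ?_⟩
  · intro t n
    have e1 := hC.low n (e' (Pi.single t 1))
    have e2 : j (e' (Pi.single t 1)) = ((e t : Ep) : TangentSpace 𝓘(ℂ, E) p) := by
      rw [he']
      have e3 : (∑ s, (Pi.single t (1 : ℂ) : Fin k' → ℂ) s • e s) = e t := by
        rw [Finset.sum_eq_single t]
        · simp
        · intro s _ hs
          rw [Pi.single_eq_of_ne hs, zero_smul]
        · intro h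
          exact absurd (Finset.mem_univ t) h
      rw [e3]
    rw [e2] at e1
    have e4 := e1.trans (h1 t (N * n))
    have hom := hW.pos t (N * n)
    have e5 : ‖Λ n (e' (Pi.single t 1))‖ ≤ C / a * om t (N * n) := by
      rw [div_mul_eq_mul_div, le_div_iff₀ ha]
      linarith
    have e6 : 0 ≤ C * b * om t (N * n) := by positivity
    calc ‖Λ n (e' (Pi.single t 1))‖ ≤ C / a * om t (N * n) := e5
      _ ≤ (C / a + C * b) * om t (N * n) := by linarith
  · intro n z s t
    have e1 := h2 (N * n) z s t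
    have e2 := hC.up n (e' z)
    rw [he'] at e2
    have e3 : Real.exp (-(η * ((N * n : ℕ) : ℝ))) = Real.exp (-(η * N * n)) := by
      congr 1
      push_cast
      ring
    rw [e3] at e1
    have e4 : 0 ≤ C * Real.exp (-(η * N * n)) := by positivity
    have e5 := mul_le_mul_of_nonneg_left e2 e4
    have e6 : 0 ≤ C / a * Real.exp (-(η * N * n)) * ‖Λ n (e' z)‖ := by positivity
    calc om s (N * n) * om t (N * n) * ‖z t‖ ≤
          C * Real.exp (-(η * N * n)) * (b * ‖Λ n (e' z)‖) := e1.trans e5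
      _ = C * b * Real.exp (-(η * N * n)) * ‖Λ n (e' z)‖ := by ring
      _ ≤ (C / a + C * b) * Real.exp (-(η * N * n)) * ‖Λ n (e' z)‖ := by
          have : (C / a + C * b) * Real.exp (-(η * N * n)) * ‖Λ n (e' z)‖ =
            C / a * Real.exp (-(η * N * n)) * ‖Λ n (e' z)‖ +
              C * b * Real.exp (-(η * N * n)) * ‖Λ n (e' z)‖ := by ring
          rw [this]
          linarith

end Pool.Agent.Lib.Bed
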