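import Pool.Agent.Lib.Bed.SpecM
import Pool.Agent.Lib.Osgood

/-!
# MP_6f050a_an, task Quad: the quadratic estimate
-/

set_option autoImplicit false

open Set Filter Metric

namespace Pool.Agent.Lib.Bed

/-- Task Quad. -/
theorem sQuad : S_Quad := by
  intro E F _ _ _ _ _ _ ρ M R hρ hR hM h0 v hv v' hv'
  let _ : NormedSpace ℝ E := NormedSpace.complexToReal
  have _hF : CompleteSpace F := FiniteDimensional.complete ℂ F
  have hM0 : 0 ≤ M := (norm_nonneg _).trans (hM 0 (mem_ball_self hρ))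
  have h1 : ∀ w ∈ ball (0 : E) (3 * ρ / 4), ‖fderiv ℂ R w‖ ≤ 4 * M / ρ := by
    intro w hw
    have h := Pool.Agent.Lib.Osgood.norm_fderiv_le' (r := 3 * ρ / 4) (by linarith) hR hM
      (ball_subset_closedBall hw)
    refine h.trans (le_of_eq ?_)
    field_simp
    ring
  have hd1 : DifferentiableOn ℂ (fderiv ℂ R) (ball 0 ρ) :=
    Pool.Agent.Lib.Osgood.differentiableOn_fderiv isOpen_ball hR
  have hd1' : DifferentiableOn ℂ (fderiv ℂ R) (ball 0 (3 * ρ / 4)) :=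
    hd1.mono (ball_subset_ball (by linarith))
  have h2 : ∀ w ∈ ball (0 : E) (ρ / 2), ‖fderiv ℂ (fderiv ℂ R) w‖ ≤ 16 * M / ρ ^ 2 := by
    intro w hw
    have h := Pool.Agent.Lib.Osgood.norm_fderiv_le' (r := ρ / 2) (by linarith) hd1' h1
      (ball_subset_closedBall hw)
    refine h.trans (le_of_eq ?_)
    field_simp
    ring
  have hdat : ∀ w ∈ ball (0 : E) (ρ / 2), DifferentiableAt ℂ (fderiv ℂ R) w := fun w hw =>
    hd1.differentiableAt (isOpen_ball.mem_nhds (ball_subset_ball (by linarith) hw))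
  have hRat : ∀ w ∈ ball (0 : E) (ρ / 2), DifferentiableAt ℂ R w := fun w hw =>
    hR.differentiableAt (isOpen_ball.mem_nhds (ball_subset_ball (by linarith) hw))
  have h3 : ∀ w ∈ ball (0 : E) (ρ / 2), ‖fderiv ℂ R w‖ ≤ 16 * M / ρ ^ 2 * ‖w‖ := by
    intro w hw
    have h := Convex.norm_image_sub_le_of_norm_fderiv_le (𝕜 := ℂ) hdat h2
      (convex_ball (0 : E) (ρ / 2)) (mem_ball_self (by linarith)) hw
    rwa [h0, sub_zero, sub_zero] at h
  have hc : 0 ≤ 16 * M / ρ ^ 2 := by positivity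
  have hconv : Convex ℝ (ball (0 : E) (ρ / 2) ∩ closedBall 0 (‖v‖ + ‖v'‖)) :=
    (convex_ball _ _).inter (convex_closedBall _ _)
  have h4 : ∀ w ∈ ball (0 : E) (ρ / 2) ∩ closedBall 0 (‖v‖ + ‖v'‖),
      ‖fderiv ℂ R w‖ ≤ 16 * M / ρ ^ 2 * (‖v‖ + ‖v'‖) := by
    intro w hw
    refine (h3 w hw.1).trans (mul_le_mul_of_nonneg_left ?_ hc)
    simpa using hw.2
  have hvm : v ∈ ball (0 : E) (ρ / 2) ∩ closedBall 0 (‖v‖ + ‖v'‖) := by
    refine ⟨hv, ?_⟩
    rw [mem_closedBall, dist_zero_right]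
    linarith [norm_nonneg v']
  have hvm' : v' ∈ ball (0 : E) (ρ / 2) ∩ closedBall 0 (‖v‖ + ‖v'‖) := by
    refine ⟨hv', ?_⟩
    rw [mem_closedBall, dist_zero_right]
    linarith [norm_nonneg v]
  exact Convex.norm_image_sub_le_of_norm_fderiv_le (𝕜 := ℂ) (fun w hw => hRat w hw.1) h4 hconv
    hvm' hvm

end Pool.Agent.Lib.Bed
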