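import Pool.Agent.Lib.Bed.SpecN
import Pool.Agent.Lib.Osgood

/-!
# MP_6f050a_an, Sec: holomorphic sections over balls
-/

set_option autoImplicit false

open scoped Topology
open Set Filter Metric

namespace Pool.Agent.Lib.Bed

namespace sSecAux

/-- extension by zero -/
noncomputable def iot (s k : ℕ) : (Fin s → ℂ) →L[ℂ] (Fin k → ℂ) :=
  ContinuousLinearMap.pi fun t : Fin k =>
    if h : t.val < s then ContinuousLinearMap.proj (R := ℂ) (φ := fun _ : Fin s => ℂ) ⟨t.val, h⟩ else 0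

theorem iot_lt {s k : ℕ} (v : Fin s → ℂ) (t : Fin k) (h : t.val < s) : iot s k v t = v ⟨t.val, h⟩ := by
  simp [iot, h]

theorem iot_ge {s k : ℕ} (v : Fin s → ℂ) (t : Fin k) (h : s ≤ t.val) : iot s k v t = 0 := by
  simp [iot, Nat.not_lt.2 h]

theorem iot_inj {s k : ℕ} (hsk : s ≤ k) {v w : Fin s → ℂ} (h : iot s k v = iot s k w) : v = w := by
  ext i
  have h1 := congrFun h ⟨i.val, lt_of_lt_of_le i.2 hsk⟩
  have h2 := iot_lt v (⟨i.val, lt_of_lt_of_le i.2 hsk⟩ : Fin k) i.2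
  have h3 := iot_lt w (⟨i.val, lt_of_lt_of_le i.2 hsk⟩ : Fin k) i.2
  rw [h2, h3] at h1
  exact h1

/-- the point with vanishing coordinates from `s` on -/
theorem iot_of {s k : ℕ} (hsk : s ≤ k) (z : Fin k → ℂ) (hz : ∀ t : Fin k, s ≤ t.val → z t = 0) :
    iot s k (fun i : Fin s => z ⟨i.val, lt_of_lt_of_le i.2 hsk⟩) = z := by
  ext t
  rcases Nat.lt_or_ge t.val s with h | h
  · rw [iot_lt _ t h]
  · rw [iot_ge _ t h, hz t h]

/-- the consequence of the two-point lemmas -/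
theorem two (hTPa : S_TPa) (hTPb : S_TPb) {k s : ℕ} {κ : Fin k → ℕ → ℝ}
    (hκ : IsWt κ) {ε : ℕ → ℝ} {n : ℕ} (hε : ∀ j, 0 ≤ ε j) (hs : Summable ε)
    (h8 : ∑' j, ε (n + j) ≤ 1 / 8) (Δ : ℕ → Fin k → ℂ)
    (hΔ : ∀ i, wn κ (n + i) (Δ (i + 1) - Δ i) ≤ ε (n + i) * wn κ (n + i) (Δ i))
    (hl : ∀ t : Fin k, t.val < s → Tendsto (fun i => Δ i t) atTop (𝓝 0))
    (h0 : ∀ t : Fin k, s ≤ t.val → Δ 0 t = 0) : Δ 0 = 0 := by
  have hs' : Summable fun j => ε (n + j) := by
    have h := (summable_nat_add_iff n).2 hs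
    simpa only [Nat.add_comm] using h
  rcases Nat.lt_or_ge s k with h | h
  · have h1 := hTPa k (fun t j => κ t (n + j)) (fun j => ε (n + j)) Δ ⟨s, h⟩ 0 (hκ.shift n)
      (fun j => hε _) hs' h8 (fun j => by
        have := hΔ j
        exact this) (fun t ht => hl t ht) (fun t ht => by
        have h2 : s ≤ t.val := ht
        rw [h0 t h2, norm_zero, mul_zero, zero_mul]) 0
    have h2 : wn (fun t j => κ t (n + j)) 0 (Δ 0) ≤ 0 := by
      have h3 := h1.1
      rw [mul_zero, zero_mul] at h3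
      exact h3
    ext t
    have h3 := le_wn (z := Δ 0) (m := 0) (hκ.shift n) t
    have h4 : 0 < κ t (n + 0) := hκ.pos t _
    have h5 : κ t (n + 0) * ‖Δ 0 t‖ ≤ 0 := h3.trans h2
    have h6 : ‖Δ 0 t‖ ≤ 0 := by
      by_contra h7
      push Not at h7
      have := mul_pos h4 h7
      linarith
    exact norm_le_zero_iff.1 h6
  · exact hTPb hTPa k (fun t j => κ t (n + j)) (fun j => ε (n + j)) Δ (hκ.shift n)
      (fun j => hε _) hs' h8 (fun j => by
        have := hΔ j
        exact this) (fun t => hl t (lt_of_lt_of_le t.2 h)) 0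

end sSecAux

open sSecAux

theorem sSec : S_Sec := by
  intro hTPa hTPb hOB hDI k S s U hsk hU R
  obtain ⟨M₀, A₀, hsolv⟩ := hU.solv (max R 1)
  obtain ⟨M₁, hM₁⟩ := hOB k S (|A₀| + 1)
  obtain ⟨M₂, ε, hε, hεs, hε8, hM₂⟩ := hDI k S (2 * (|A₀| + 1)) (1 / 8) (by norm_num)
  set n := max M₀ (max M₁ M₂) with hn
  have hn0 : M₀ ≤ n := le_max_left _ _
  have hn1 : M₁ ≤ n := (le_max_left _ _).trans (le_max_right _ _)
  have hn2 : M₂ ≤ n := (le_max_right _ _).trans (le_max_right _ _)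
  set V : Set (Fin s → ℂ) := {v | iot s k v ∈ S.dom n ∧ wn S.κ n (iot s k v) < |A₀| + 1} with hV
  have hVo : IsOpen V := by
    apply IsOpen.inter
    · exact (S.open_dom n).preimage (iot s k).continuous
    · exact isOpen_lt (continuous_wn.comp (iot s k).continuous) continuous_const
  have hVb : ∀ v ∈ V, ∀ i, wn S.κ (n + i) (orb S.T n i (iot s k v)) ≤ 2 * (|A₀| + 1) :=
    fun v hv i => (hM₁ n hn1 _ hv.2.le i).2
  have hG : DifferentiableOn ℂ (fun v => U n (iot s k v)) V :=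
    (hU.diff n).comp (iot s k).differentiable.differentiableOn fun v hv => hv.1
  -- (1)
  have hinj : ∀ v ∈ V, ∀ v' ∈ V, U n (iot s k v) = U n (iot s k v') → v = v' := by
    intro v hv v' hv' h
    have h1 := two hTPa hTPb S.wt hε hεs (hε8 n hn2)
      (fun i => orb S.T n i (iot s k v) - orb S.T n i (iot s k v'))
      ((hM₂ n hn2).1 _ _ (hVb v hv) (hVb v' hv'))
      (fun t ht => hU.lim n _ hv.1 _ hv'.1 h t ht)
      (fun t ht => by
        show iot s k v t - iot s k v' t = 0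
        rw [iot_ge v t ht, iot_ge v' t ht, sub_zero])
    exact iot_inj hsk (sub_eq_zero.1 h1)
  -- (2)
  have hdinj : ∀ v ∈ V, ∀ w, fderiv ℂ (U n) (iot s k v) (iot s k w) = 0 → w = 0 := by
    intro v hv w h
    have h0 : fderiv ℂ (orb S.T n 0) (iot s k v) (iot s k w) = iot s k w := by
      have h3 : orb S.T n 0 = id := rfl
      rw [h3, fderiv_id]
      rfl
    have h1 := two hTPa hTPb S.wt hε hεs (hε8 n hn2)
      (fun i => fderiv ℂ (orb S.T n i) (iot s k v) (iot s k w))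
      (fun i => (hM₂ n hn2).2 _ hv.1 (hVb v hv) (iot s k w) i)
      (fun t ht => hU.dlim n _ hv.1 _ h t ht)
      (fun t ht => by
        show fderiv ℂ (orb S.T n 0) (iot s k v) (iot s k w) t = 0
        rw [h0, iot_ge w t ht])
    have h2 : fderiv ℂ (orb S.T n 0) (iot s k v) (iot s k w) = 0 := h1
    rw [h0] at h2
    exact iot_inj hsk (h2.trans (map_zero _).symm)
  -- (3)
  have hex : ∀ u : Fin s → ℂ, ∃ v : Fin s → ℂ, u ∈ ball (0 : Fin s → ℂ) R →
      v ∈ V ∧ U n (iot s k v) = u := by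
    intro u
    by_cases hu : u ∈ ball (0 : Fin s → ℂ) R
    · have hu' : ‖u‖ ≤ max R 1 := (mem_ball_zero_iff.1 hu).le.trans (le_max_left _ _)
      obtain ⟨ζ, h1, h2, h3, h4⟩ := hsolv n hn0 u hu' 0 (fun t _ => by
        show S.κ t n * ‖(0 : ℂ)‖ ≤ _
        rw [norm_zero, mul_zero]
        exact le_trans zero_le_one (le_max_right _ _))
      refine ⟨fun i : Fin s => ζ ⟨i.val, lt_of_lt_of_le i.2 hsk⟩, fun _ => ?_⟩
      have h5 := iot_of hsk ζ (fun t ht => h1 t ht)
      refine ⟨⟨?_, ?_⟩, ?_⟩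
      · rw [h5]
        exact h3
      · rw [h5]
        have := le_abs_self A₀
        linarith
      · rw [h5]
        exact h4
    · exact ⟨0, fun h => absurd h hu⟩
  choose g hg using hex
  have hgd : DifferentiableOn ℂ g (ball 0 R) := by
    intro u₀ hu₀
    obtain ⟨hv₀, hGv₀⟩ := hg u₀ hu₀
    set v₀ := g u₀ with hv₀def
    set G : (Fin s → ℂ) → (Fin s → ℂ) := fun v => U n (iot s k v) with hGdef
    have hst : HasStrictFDerivAt G (fderiv ℂ G v₀) v₀ :=
      (Osgood.analyticOnNhd hVo hG v₀ hv₀).hasStrictFDerivAt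
    have hfd : ∀ w, fderiv ℂ G v₀ w = fderiv ℂ (U n) (iot s k v₀) (iot s k w) := by
      intro w
      have h1 : HasFDerivAt G ((fderiv ℂ (U n) (iot s k v₀)).comp (iot s k)) v₀ :=
        ((hU.diff n).differentiableAt ((S.open_dom n).mem_nhds hv₀.1)).hasFDerivAt.comp v₀
          (iot s k).hasFDerivAt
      rw [h1.fderiv]
      rfl
    have hinjl : Function.Injective (fderiv ℂ G v₀).toLinearMap := by
      rw [injective_iff_map_eq_zero]
      intro w hw
      apply hdinj v₀ hv₀ w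
      rw [← hfd]
      exact hw
    let e' : (Fin s → ℂ) ≃L[ℂ] (Fin s → ℂ) :=
      (LinearEquiv.ofInjectiveEndo (fderiv ℂ G v₀).toLinearMap hinjl).toContinuousLinearEquiv
    have hst' : HasStrictFDerivAt G (e' : (Fin s → ℂ) →L[ℂ] (Fin s → ℂ)) v₀ := by
      have h1 : (e' : (Fin s → ℂ) →L[ℂ] (Fin s → ℂ)) = fderiv ℂ G v₀ := by
        ext w
        rfl
      rw [h1]
      exact hst
    have hφd := hst'.to_localInverse.hasFDerivAt.differentiableAt
    have hφr := hst'.eventually_right_inverse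
    have hφc := hst'.localInverse_tendsto
    set φ := HasStrictFDerivAt.localInverse G e' v₀ hst' with hφdef
    have hGv : G v₀ = u₀ := hGv₀
    rw [hGv] at hφd hφr hφc
    have heq : g =ᶠ[𝓝 u₀] φ := by
      filter_upwards [hφr, hφc.eventually (hVo.mem_nhds hv₀), isOpen_ball.mem_nhds hu₀] with u h1 h2 h3
      exact hinj (g u) (hg u h3).1 (φ u) h2 ((hg u h3).2.trans h1.symm)
    exact (hφd.congr_of_eventuallyEq heq).differentiableWithinAt
  refine ⟨2 * (|A₀| + 1), n, fun u => iot s k (g u), ?_, ?_, ?_, ?_⟩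
  · exact (iot s k).differentiable.comp_differentiableOn hgd
  · exact fun u hu => (hg u hu).1.1
  · exact fun u hu => (hg u hu).2
  · exact fun u hu i => hVb _ (hg u hu).1 i

end Pool.Agent.Lib.Bed
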