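import Pool.Agent.Lib.Bed.SpecM

/-!
# Bed, Set: the setup
-/

set_option autoImplicit false

open scoped Manifold ContDiff Topology
open Set Filter Metric

namespace Pool.Agent.Lib.Bed

theorem sSet : S_Set := by
  intro hWei hUCf hNrC hUC hLoc hBnd hAng hFrame hDm hFrm hQuad hAd hHInj hTau hLSM hAsA hAsB hCmp
    E _ _ _ X _ _ _ nrm f K Es Eu C lam p hnrm hhyp hp
  have hKf : MapsTo f K K := fun x hx => by
    have h1 : f x ∈ f '' K := mem_image_of_mem f hx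
    rwa [hhyp.image] at h1
  have hKfs : MapsTo f.symm K K := fun x hx => by
    have h1 : x ∈ f '' K := by rw [hhyp.image]; exact hx
    obtain ⟨y, hy, rfl⟩ := h1
    rw [Equiv.symm_apply_apply]
    exact hy
  have hit : ∀ g : X → X, MDifferentiable 𝓘(ℂ, E) 𝓘(ℂ, E) g → ∀ n : ℕ,
      MDifferentiable 𝓘(ℂ, E) 𝓘(ℂ, E) (g^[n]) := by
    intro g hg n
    induction n with
    | zero => exact mdifferentiable_id
    | succ n ih => exact ih.comp hg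
  have hLocG : ∀ g : X → X, MDifferentiable 𝓘(ℂ, E) 𝓘(ℂ, E) g → MapsTo g K K →
      ∀ (ψ : X → E → X) (χ : X → X → E) (ρ a b : ℝ), UCh nrm K ψ χ ρ a b → ∀ (n : ℕ) (ε : ℝ),
      0 < ε → ∃ ρ', ULoc K ψ χ ρ (g^[n]) ρ' ε := fun g hg hK ψ χ ρ a b hU n ε hε =>
    hLoc hUCf E X nrm K ψ χ ρ a b hhyp.compact hU (g^[n]) (hit g hg n) (hK.iterate n) ε hε
  obtain ⟨ψ, χ, ρ, a, b, hU⟩ := hUC hNrC hUCf E X nrm hnrm K hhyp.compact
  have hLocN := hLocG f hhyp.hol hKf ψ χ ρ a b hU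
  have hLocS := hLocG f.symm hhyp.hol_symm hKfs ψ χ ρ a b hU
  have hA := hAng E X nrm f K Es Eu C lam hnrm hhyp fun n =>
    hBnd E X nrm K ψ χ ρ a b hU (f^[n]) (hKf.iterate n) (hLocN n 1 one_pos)
  obtain ⟨N, k, l, e, A, B, C₁, c, hF⟩ := hFrm hFrame hDm E X nrm f K Es Eu C lam ψ χ ρ a b
    hnrm hhyp hU (fun n => ⟨hLocN n 1 one_pos, hLocS n 1 one_pos⟩) hA p hp
  obtain ⟨P, H, ρ₀, ρ', C₂, hP, hH⟩ := hAd hQuad E X nrm f K p (sE Es p) ψ χ ρ a b N k l e A B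
    C₁ c hU hp hKf (fun ε hε => hLocN N ε hε) hF
  obtain ⟨hi, hd⟩ := hHInj E X f p N k l P H ρ₀ ρ' hhyp.hol hhyp.hol_symm hP
  obtain ⟨r, τ, hr, hrρ, hCr, ht1, ht2, ht3, ht4, ht5⟩ := hTau hWei k l H A B ρ' C₂ c hH
  obtain ⟨F, hL⟩ := hLSM k l H A B ρ' C₂ c hH hi hd r τ hr hrρ hCr ht1 ht2 ht3 ht4 ht5
  have hcont : Continuous f := hhyp.hol.continuous
  have hAs := hAsB hUCf E X f K p N k l P H A τ F ρ₀ ρ' r C₂ c hhyp.compact hKf hp hcont hP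
    hrρ hL
  have hCk : BasinCk k r F → IsCk E k (stab f p) := fun h => by
    rw [← hAs]
    exact hAsA E X f p N k l P H A τ F ρ₀ ρ' r C₂ c hhyp.hol hhyp.hol_symm hP hrρ hL h
  obtain ⟨⟨j, a₁, b₁, hC⟩, C₃, c₃, hS⟩ := hCmp hDm E X nrm f K Es Eu C lam p ψ χ ρ a b N k l e
    A B C₁ c hhyp hU hp (hLocN N 1 one_pos) hF
  exact ⟨N, k, A, F, j, r, C₂, c, a₁, b₁, C₃, c₃, hF.dim, hL.seq, hCk, hC, hS⟩

end Pool.Agent.Lib.Bed
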