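import Pool.Agent.Lib.Bed.SpecN

/-!
# Stable manifolds, module TPa: the two-point lemma
-/

set_option autoImplicit false

open scoped Topology
open Set Filter Metric

namespace Pool.Agent.Lib.Bed

namespace sTPaAux

variable {k : ℕ} {κ : Fin k → ℕ → ℝ} {ε : ℕ → ℝ} {Δ : ℕ → Fin k → ℂ}

theorem step (hκ : IsWt κ) (hΔ : ∀ j, wn κ j (Δ (j + 1) - Δ j) ≤ ε j * wn κ j (Δ j)) (t : Fin k)
    (j : ℕ) : κ t j * ‖Δ (j + 1) t - Δ j t‖ ≤ ε j * wn κ j (Δ j) := by
  have h : κ t j * ‖(Δ (j + 1) - Δ j) t‖ ≤ wn κ j (Δ (j + 1) - Δ j) := le_wn hκ t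
  exact h.trans (hΔ j)

theorem step' (hκ : IsWt κ) (hε : ∀ j, 0 ≤ ε j)
    (hΔ : ∀ j, wn κ j (Δ (j + 1) - Δ j) ≤ ε j * wn κ j (Δ j)) (t : Fin k) {m j : ℕ} {N : ℝ}
    {μ : ℕ → ℝ} (hN : 0 ≤ N) (h1 : wn κ j (Δ j) ≤ N * μ j) (h2 : κ t m * μ j ≤ κ t j * μ m) :
    κ t m * ‖Δ (j + 1) t - Δ j t‖ ≤ N * μ m * ε j := by
  have hj := hκ.pos t j
  have hm := hκ.pos t m
  have h3 := step hκ hΔ t j
  have h4 : κ t j * ‖Δ (j + 1) t - Δ j t‖ ≤ ε j * (N * μ j) :=
    h3.trans (mul_le_mul_of_nonneg_left h1 (hε j))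
  have h5 : κ t j * (κ t m * ‖Δ (j + 1) t - Δ j t‖) ≤ κ t j * (N * μ m * ε j) := by
    calc κ t j * (κ t m * ‖Δ (j + 1) t - Δ j t‖) = κ t m * (κ t j * ‖Δ (j + 1) t - Δ j t‖) := by
          ring
      _ ≤ κ t m * (ε j * (N * μ j)) := mul_le_mul_of_nonneg_left h4 hm.le
      _ = (ε j * N) * (κ t m * μ j) := by ring
      _ ≤ (ε j * N) * (κ t j * μ m) :=
          mul_le_mul_of_nonneg_left h2 (mul_nonneg (hε j) hN)
      _ = _ := by ring
  exact le_of_mul_le_mul_left h5 hj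

theorem fwd (hκ : IsWt κ) (hε : ∀ j, 0 ≤ ε j)
    (hΔ : ∀ j, wn κ j (Δ (j + 1) - Δ j) ≤ ε j * wn κ j (Δ j)) (t : Fin k) {m : ℕ} {N : ℝ}
    {μ : ℕ → ℝ} (hN : 0 ≤ N) (h1 : ∀ j < m, wn κ j (Δ j) ≤ N * μ j)
    (h2 : ∀ j < m, κ t m * μ j ≤ κ t j * μ m) :
    κ t m * ‖Δ m t‖ ≤ κ t m * ‖Δ 0 t‖ + N * μ m * ∑ j ∈ Finset.range m, ε j := by
  have h : ∀ i ≤ m, κ t m * ‖Δ i t‖ ≤ κ t m * ‖Δ 0 t‖ + N * μ m * ∑ j ∈ Finset.range i, ε j := by
    intro i
    induction i with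
    | zero => intro _; simp
    | succ i ih =>
      intro hi
      have e1 := ih (by omega)
      have e2 := step' hκ hε hΔ t hN (h1 i (by omega)) (h2 i (by omega))
      have e3 : ‖Δ (i + 1) t‖ ≤ ‖Δ (i + 1) t - Δ i t‖ + ‖Δ i t‖ := by
        calc ‖Δ (i + 1) t‖ = ‖(Δ (i + 1) t - Δ i t) + Δ i t‖ := by rw [sub_add_cancel]
          _ ≤ _ := norm_add_le _ _
      have e4 := mul_le_mul_of_nonneg_left e3 (hκ.pos t m).le
      rw [Finset.sum_range_succ]
      calc κ t m * ‖Δ (i + 1) t‖ ≤ κ t m * ‖Δ (i + 1) t - Δ i t‖ + κ t m * ‖Δ i t‖ := by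
            rw [← mul_add]; exact e4
        _ ≤ N * μ m * ε i + (κ t m * ‖Δ 0 t‖ + N * μ m * ∑ j ∈ Finset.range i, ε j) :=
            add_le_add e2 e1
        _ = _ := by ring
  exact h m le_rfl

theorem bwd (hκ : IsWt κ) (hε : ∀ j, 0 ≤ ε j) (hs : Summable ε)
    (hΔ : ∀ j, wn κ j (Δ (j + 1) - Δ j) ≤ ε j * wn κ j (Δ j)) (t : Fin k) {m : ℕ} {N : ℝ}
    {μ : ℕ → ℝ} (hN : 0 ≤ N) (hμ : 0 ≤ μ m) (h1 : ∀ j, m ≤ j → wn κ j (Δ j) ≤ N * μ j)
    (h2 : ∀ j, m ≤ j → κ t m * μ j ≤ κ t j * μ m)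
    (hlim : Tendsto (fun j => Δ j t) atTop (𝓝 0)) :
    κ t m * ‖Δ m t‖ ≤ N * μ m * ∑' j, ε j := by
  have h : ∀ n, κ t m * ‖Δ m t‖ ≤
      κ t m * ‖Δ (m + n) t‖ + N * μ m * ∑ j ∈ Finset.range n, ε (m + j) := by
    intro n
    induction n with
    | zero => simp
    | succ n ih =>
      have e2 := step' hκ hε hΔ t hN (h1 (m + n) (by omega)) (h2 (m + n) (by omega))
      have e3 : ‖Δ (m + n) t‖ ≤ ‖Δ (m + n + 1) t‖ + ‖Δ (m + n + 1) t - Δ (m + n) t‖ := by
        calc ‖Δ (m + n) t‖ = ‖Δ (m + n + 1) t - (Δ (m + n + 1) t - Δ (m + n) t)‖ := by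
              rw [sub_sub_cancel]
          _ ≤ _ := norm_sub_le _ _
      have e4 := mul_le_mul_of_nonneg_left e3 (hκ.pos t m).le
      rw [Finset.sum_range_succ, ← Nat.add_assoc]
      rw [mul_add] at e4
      calc κ t m * ‖Δ m t‖ ≤ κ t m * ‖Δ (m + n) t‖ +
            N * μ m * ∑ j ∈ Finset.range n, ε (m + j) := ih
        _ ≤ (κ t m * ‖Δ (m + n + 1) t‖ + N * μ m * ε (m + n)) +
            N * μ m * ∑ j ∈ Finset.range n, ε (m + j) := by linarith
        _ = _ := by ring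
  have hsum : ∀ n, ∑ j ∈ Finset.range n, ε (m + j) ≤ ∑' j, ε j := by
    intro n
    have e1 : ∑ j ∈ Finset.range (m + n), ε j ≤ ∑' j, ε j :=
      hs.sum_le_tsum _ fun j _ => hε j
    rw [Finset.sum_range_add] at e1
    have e2 : 0 ≤ ∑ j ∈ Finset.range m, ε j := Finset.sum_nonneg fun j _ => hε j
    linarith
  have h' : ∀ n, κ t m * ‖Δ m t‖ ≤ κ t m * ‖Δ (m + n) t‖ + N * μ m * ∑' j, ε j := by
    intro n
    refine (h n).trans ?_
    have := mul_le_mul_of_nonneg_left (hsum n) (mul_nonneg hN hμ)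
    linarith
  have hl : Tendsto (fun n => κ t m * ‖Δ (m + n) t‖ + N * μ m * ∑' j, ε j) atTop
      (𝓝 (κ t m * ‖(0 : ℂ)‖ + N * μ m * ∑' j, ε j)) := by
    refine Tendsto.add (Tendsto.const_mul _ (Tendsto.norm ?_)) tendsto_const_nhds
    have h3 : Tendsto (fun n => m + n) atTop atTop := tendsto_add_atTop_nat m |>.congr fun n => by
      omega
    exact hlim.comp h3
  rw [norm_zero, mul_zero, zero_add] at hl
  exact ge_of_tendsto' hl h'

/-- The contribution of the starting point. -/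
theorem start (hκ : IsWt κ) {s t : Fin k} (hst : s ≤ t) {Q x : ℝ} (hQ : 0 ≤ Q)
    (h : κ t 0 * x ≤ Q * κ s 0) (m : ℕ) : κ t m * x ≤ Q * κ s m := by
  have h0 := hκ.pos t 0
  have h1 := ratio' hκ hst (Nat.zero_le m)
  have h2 : κ t 0 * (κ t m * x) ≤ κ t 0 * (Q * κ s m) := by
    calc κ t 0 * (κ t m * x) = κ t m * (κ t 0 * x) := by ring
      _ ≤ κ t m * (Q * κ s 0) := mul_le_mul_of_nonneg_left h (hκ.pos t m).le
      _ = Q * (κ t m * κ s 0) := by ring
      _ ≤ Q * (κ t 0 * κ s m) := mul_le_mul_of_nonneg_left h1 hQ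
      _ = _ := by ring
  exact le_of_mul_le_mul_left h2 h0

theorem main (hκ : IsWt κ) (hε : ∀ j, 0 ≤ ε j) (hs : Summable ε) (h8 : ∑' j, ε j ≤ 1 / 8)
    (hΔ : ∀ j, wn κ j (Δ (j + 1) - Δ j) ≤ ε j * wn κ j (Δ j)) :
    ∀ (n : ℕ) (s : Fin k), s.val = n → ∀ Q : ℝ,
    (∀ t, t < s → Tendsto (fun j => Δ j t) atTop (𝓝 0)) →
    (∀ t, s ≤ t → κ t 0 * ‖Δ 0 t‖ ≤ Q * κ s 0) → ∀ j, wn κ j (Δ j) ≤ 2 * Q * κ s j := by
  have hrange : ∀ m, ∑ j ∈ Finset.range m, ε j ≤ 1 / 8 := fun m =>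
    (hs.sum_le_tsum _ fun j _ => hε j).trans h8
  intro n
  induction n with
  | zero =>
    intro s hs0 Q _ h0
    have hQ : 0 ≤ Q := by
      have e1 := h0 s le_rfl
      have e2 : 0 ≤ κ s 0 * ‖Δ 0 s‖ := mul_nonneg (hκ.pos s 0).le (norm_nonneg _)
      exact nonneg_of_mul_nonneg_left (e2.trans e1) (hκ.pos s 0)
    intro j
    induction j using Nat.strong_induction_on with
    | _ m ih =>
      have hm := hκ.pos s m
      refine wn_le hκ (by positivity) fun t => ?_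
      have hst : s ≤ t := by
        rw [Fin.le_def]
        omega
      have e1 := fwd hκ hε hΔ t (m := m) (N := 2 * Q) (μ := κ s) (by positivity) ih
        (fun j hj => ratio' hκ hst hj.le)
      have e2 := start hκ hst hQ (h0 t hst) m
      have e3 := mul_le_mul_of_nonneg_left (hrange m) (show 0 ≤ 2 * Q * κ s m by positivity)
      have e4 : 0 ≤ Q * κ s m := by positivity
      linarith
  | succ n ihn =>
    intro s hsn Q hlim h0
    have hQ : 0 ≤ Q := by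
      have e1 := h0 s le_rfl
      have e2 : 0 ≤ κ s 0 * ‖Δ 0 s‖ := mul_nonneg (hκ.pos s 0).le (norm_nonneg _)
      exact nonneg_of_mul_nonneg_left (e2.trans e1) (hκ.pos s 0)
    obtain ⟨s', hs'⟩ : ∃ s' : Fin k, s'.val = n := ⟨⟨n, by omega⟩, rfl⟩
    have hs's : s' < s := by
      rw [Fin.lt_def]
      omega
    -- a first bound
    obtain ⟨Q', hQ'0, hQ'⟩ : ∃ Q' : ℝ, 0 ≤ Q' ∧ ∀ j, wn κ j (Δ j) ≤ 2 * Q' * κ s' j := by
      have hp := hκ.pos s' 0
      have hsum0 : 0 ≤ ∑ t, κ t 0 * ‖Δ 0 t‖ :=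
        Finset.sum_nonneg fun t _ => mul_nonneg (hκ.pos t 0).le (norm_nonneg _)
      refine ⟨(∑ t, κ t 0 * ‖Δ 0 t‖) / κ s' 0, by positivity, ?_⟩
      refine ihn s' hs' _ (fun t ht => hlim t (ht.trans hs's)) fun t _ => ?_
      rw [div_mul_cancel₀ _ hp.ne']
      exact Finset.single_le_sum (f := fun t => κ t 0 * ‖Δ 0 t‖)
        (fun t _ => mul_nonneg (hκ.pos t 0).le (norm_nonneg _)) (Finset.mem_univ t)
    have hτ : ∀ τ : ℝ, 0 < τ → ∀ j, wn κ j (Δ j) ≤ 2 * Q * (κ s j + τ * κ s' j) := by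
      intro τ hτ
      obtain ⟨μ, hμ⟩ : ∃ μ : ℕ → ℝ, μ = fun j => κ s j + τ * κ s' j := ⟨_, rfl⟩
      have hμj : ∀ j, μ j = κ s j + τ * κ s' j := fun j => by rw [hμ]
      have hμpos : ∀ j, 0 < μ j := fun j => by
        rw [hμj]
        have := hκ.pos s j
        have := hκ.pos s' j
        positivity
      have hbdd : BddAbove (range fun j => wn κ j (Δ j) / μ j) := by
        refine ⟨2 * Q' / τ, ?_⟩
        rintro _ ⟨j, rfl⟩
        simp only
        rw [div_le_div_iff₀ (hμpos j) hτ, hμj]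
        have e1 := mul_le_mul_of_nonneg_right (hQ' j) hτ.le
        have e2 : 0 ≤ 2 * Q' * κ s j := by
          have := hκ.pos s j
          positivity
        linarith
      obtain ⟨N, hNdef⟩ : ∃ N : ℝ, N = ⨆ j, wn κ j (Δ j) / μ j := ⟨_, rfl⟩
      have hN : ∀ j, wn κ j (Δ j) ≤ N * μ j := by
        intro j
        have e1 : wn κ j (Δ j) / μ j ≤ N := by
          rw [hNdef]
          exact le_ciSup hbdd j
        rwa [div_le_iff₀ (hμpos j)] at e1
      have hN0 : 0 ≤ N := by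
        have e1 : wn κ 0 (Δ 0) / μ 0 ≤ N := by
          rw [hNdef]
          exact le_ciSup hbdd 0
        exact (div_nonneg wn_nonneg (hμpos 0).le).trans e1
      have hkey : ∀ m, wn κ m (Δ m) ≤ (Q + N / 8) * μ m := by
        intro m
        have hm := hμpos m
        refine wn_le hκ (by positivity) fun t => ?_
        rcases lt_or_ge t s with hts | hts
        · have hts' : t ≤ s' := by
            rw [Fin.lt_def] at hts
            rw [Fin.le_def]
            omega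
          have e1 := bwd hκ hε hs hΔ t (m := m) (N := N) (μ := μ) hN0 hm.le
            (fun j _ => hN j) (fun j hj => by
              rw [hμj, hμj]
              have a1 := ratio' hκ hts.le hj
              have a2 := mul_le_mul_of_nonneg_left (ratio' hκ hts' hj) hτ.le
              linarith) (hlim t hts)
          have e2 := mul_le_mul_of_nonneg_left h8 (mul_nonneg hN0 hm.le)
          have e3 := mul_nonneg hQ hm.le
          linarith
        · have e1 := fwd hκ hε hΔ t (m := m) (N := N) (μ := μ) hN0 (fun j _ => hN j)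
            (fun j hj => by
              rw [hμj, hμj]
              have a1 := ratio' hκ hts hj.le
              have a2 := mul_le_mul_of_nonneg_left (ratio' hκ (hs's.le.trans hts) hj.le) hτ.le
              linarith)
          have e2 := start hκ hts hQ (h0 t hts) m
          have e3 := mul_le_mul_of_nonneg_left (hrange m) (mul_nonneg hN0 hm.le)
          have e4 : Q * κ s m ≤ Q * μ m := by
            refine mul_le_mul_of_nonneg_left ?_ hQ
            rw [hμj]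
            have := hκ.pos s' m
            have : 0 < τ * κ s' m := by positivity
            linarith
          linarith
      have hNle : N ≤ Q + N / 8 := by
        rw [hNdef]
        refine ciSup_le fun j => ?_
        rw [div_le_iff₀ (hμpos j), ← hNdef]
        exact hkey j
      intro j
      rw [← hμj]
      refine (hN j).trans (mul_le_mul_of_nonneg_right ?_ (hμpos j).le)
      linarith
    intro j
    have hlimτ : Tendsto (fun τ : ℝ => 2 * Q * (κ s j + τ * κ s' j)) (𝓝[>] 0)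
        (𝓝 (2 * Q * (κ s j + 0 * κ s' j))) := by
      have hc : Continuous fun τ : ℝ => 2 * Q * (κ s j + τ * κ s' j) := by fun_prop
      exact (hc.tendsto 0).mono_left nhdsWithin_le_nhds
    rw [zero_mul, add_zero] at hlimτ
    refine ge_of_tendsto hlimτ ?_
    filter_upwards [self_mem_nhdsWithin] with τ hτ'
    exact hτ τ hτ' j

end sTPaAux

open sTPaAux in
/-- **TPa.** Two-point lemma. -/
theorem sTPa : S_TPa := by
  intro k κ ε Δ s Q hκ hε hs h8 hΔ hlim h0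
  have h := main hκ hε hs h8 hΔ s.val s rfl Q hlim h0
  refine fun j => ⟨h j, ?_⟩
  have h1 := step hκ hΔ s j
  have h2 : κ s j * ‖Δ (j + 1) s - Δ j s‖ ≤ κ s j * (2 * Q * ε j) :=
    h1.trans ((mul_le_mul_of_nonneg_left (h j) (hε j)).trans (le_of_eq (by ring)))
  exact le_of_mul_le_mul_left h2 (hκ.pos s j)

end Pool.Agent.Lib.Bed
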