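import Pool.Agent.Lib.Bed.SpecN

/-!
# MP_6f050a_an, TPb: the two-point lemma, uniqueness
-/

set_option autoImplicit false

open scoped Topology
open Set Filter Metric

namespace Pool.Agent.Lib.Bed

namespace sTPbAux

theorem tele {d : ℕ → ℂ} {ε : ℕ → ℝ} {a : ℝ} (m : ℕ) (ha : 0 ≤ a) (hd : Tendsto d atTop (𝓝 0))
    (hε : ∀ j, 0 ≤ ε j) (hs : Summable ε) (hle : ∑' j, ε j ≤ 1 / 8)
    (hstep : ∀ j ≥ m, ‖d (j + 1) - d j‖ ≤ a * ε j) : ‖d m‖ ≤ a / 8 := by
  have h1 : ∀ n, ‖d m‖ ≤ ‖d (m + n)‖ + a * ∑ j ∈ Finset.range n, ε (m + j) := by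
    intro n
    induction n with
    | zero => simp
    | succ n ih =>
      have h2 := hstep (m + n) (by omega)
      have h3 : ‖d (m + n)‖ ≤ ‖d (m + n + 1)‖ + ‖d (m + n + 1) - d (m + n)‖ := by
        have h4 := norm_sub_le (d (m + n + 1)) (d (m + n + 1) - d (m + n))
        rwa [sub_sub_cancel] at h4
      rw [Finset.sum_range_succ, mul_add]
      rw [← add_assoc m n 1]
      linarith
  have h2 : ∀ n, ‖d m‖ ≤ ‖d (m + n)‖ + a / 8 := by
    intro n
    refine (h1 n).trans ?_
    have h3 : ∑ j ∈ Finset.range n, ε (m + j) ≤ 1 / 8 := by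
      have h4 : ∑ j ∈ Finset.range n, ε (m + j) = ∑ j ∈ Finset.Ico m (m + n), ε j := by
        rw [Finset.sum_Ico_eq_sum_range, Nat.add_sub_cancel_left]
      rw [h4]
      exact (hs.sum_le_tsum _ (fun j _ => hε j)).trans hle
    have h5 := mul_le_mul_of_nonneg_left h3 ha
    linarith
  have h3 : Tendsto (fun n => ‖d (m + n)‖ + a / 8) atTop (𝓝 (0 + a / 8)) := by
    refine Tendsto.add ?_ tendsto_const_nhds
    have h4 : Tendsto (fun n => d (m + n)) atTop (𝓝 0) := by
      have h5 := (tendsto_add_atTop_iff_nat m).2 hd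
      refine h5.congr fun n => ?_
      rw [add_comm]
    simpa using h4.norm
  rw [zero_add] at h3
  exact ge_of_tendsto' h3 h2

end sTPbAux

open sTPbAux in
theorem sTPb : S_TPb := by
  intro hTPa k κ ε Δ hκ hε hs hle hstep hlim
  rcases k with _ | k'
  · intro j
    funext t
    exact t.elim0
  · obtain ⟨s, hsdef⟩ : ∃ s : Fin (k' + 1), s = Fin.last k' := ⟨_, rfl⟩
    have hts : ∀ t : Fin (k' + 1), t ≤ s := by
      intro t
      rw [hsdef]
      exact Fin.le_last t
    obtain ⟨N, hN⟩ : ∃ N : ℝ, N = 2 * ‖Δ 0 s‖ := ⟨_, rfl⟩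
    have hN0 : 0 ≤ N := by
      rw [hN]
      positivity
    have h0 : ∀ j, wn κ j (Δ j) ≤ N * κ s j := by
      intro j
      have h1 := hTPa (k' + 1) κ ε Δ s ‖Δ 0 s‖ hκ hε hs hle hstep (fun t _ => hlim t)
        (fun t ht => by
          have h2 : t = s := le_antisymm (hts t) ht
          rw [h2, mul_comm]) j
      rw [hN]
      exact h1.1
    have hiter : ∀ n : ℕ, ∀ j, wn κ j (Δ j) ≤ N * (1 / 8) ^ n * κ s j := by
      intro n
      induction n with
      | zero =>
        intro j
        simpa using h0 j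
      | succ n ih =>
        intro m
        have hNn : 0 ≤ N * (1 / 8) ^ n := by positivity
        refine wn_le hκ (by have := (hκ.pos s m).le; positivity) fun t => ?_
        have hκt : 0 < κ t m := hκ.pos t m
        have h1 : ‖Δ m t‖ ≤ (N * (1 / 8) ^ n * κ s m / κ t m) / 8 := by
          have hκs := (hκ.pos s m).le
          refine tele (d := fun j => Δ j t) m (by positivity) (hlim t) hε hs hle ?_
          intro j hj
          have h2 : κ t j * ‖Δ (j + 1) t - Δ j t‖ ≤ ε j * (N * (1 / 8) ^ n * κ s j) := by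
            have h3 := le_wn (z := Δ (j + 1) - Δ j) (m := j) hκ t
            rw [Pi.sub_apply] at h3
            exact h3.trans ((hstep j).trans (mul_le_mul_of_nonneg_left (ih j) (hε j)))
          have h4 : κ s j * κ t m ≤ κ s m * κ t j := ratio' hκ (hts t) hj
          have hκj : 0 < κ t j := hκ.pos t j
          have h5 : ‖Δ (j + 1) t - Δ j t‖ * (κ t j * κ t m) ≤
              (N * (1 / 8) ^ n * κ s m * ε j) * κ t j := by
            calc ‖Δ (j + 1) t - Δ j t‖ * (κ t j * κ t m)
                = (κ t j * ‖Δ (j + 1) t - Δ j t‖) * κ t m := by ring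
              _ ≤ (ε j * (N * (1 / 8) ^ n * κ s j)) * κ t m :=
                mul_le_mul_of_nonneg_right h2 hκt.le
              _ = (ε j * (N * (1 / 8) ^ n)) * (κ s j * κ t m) := by ring
              _ ≤ (ε j * (N * (1 / 8) ^ n)) * (κ s m * κ t j) :=
                mul_le_mul_of_nonneg_left h4 (mul_nonneg (hε j) hNn)
              _ = (N * (1 / 8) ^ n * κ s m * ε j) * κ t j := by ring
          have h6 : ‖Δ (j + 1) t - Δ j t‖ * κ t m ≤ N * (1 / 8) ^ n * κ s m * ε j := by
            have h7 : (‖Δ (j + 1) t - Δ j t‖ * κ t m) * κ t j ≤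
                (N * (1 / 8) ^ n * κ s m * ε j) * κ t j := by
              calc (‖Δ (j + 1) t - Δ j t‖ * κ t m) * κ t j
                  = ‖Δ (j + 1) t - Δ j t‖ * (κ t j * κ t m) := by ring
                _ ≤ _ := h5
            exact le_of_mul_le_mul_right h7 hκj
          change ‖Δ (j + 1) t - Δ j t‖ ≤ _
          rw [div_mul_eq_mul_div, le_div_iff₀ hκt]
          exact h6
        calc κ t m * ‖Δ m t‖ ≤ κ t m * ((N * (1 / 8) ^ n * κ s m / κ t m) / 8) :=
              mul_le_mul_of_nonneg_left h1 hκt.le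
          _ = N * (1 / 8) ^ (n + 1) * κ s m := by
            field_simp
            ring
    intro j
    have hz : wn κ j (Δ j) ≤ 0 := by
      have h1 : Tendsto (fun n : ℕ => N * (1 / 8 : ℝ) ^ n * κ s j) atTop (𝓝 (N * 0 * κ s j)) :=
        ((tendsto_pow_atTop_nhds_zero_of_lt_one (by norm_num) (by norm_num)).const_mul N).mul_const _
      rw [mul_zero, zero_mul] at h1
      exact ge_of_tendsto' h1 fun n => hiter n j
    funext t
    have h2 := (le_wn (z := Δ j) (m := j) hκ t).trans hz
    have h3 : ‖Δ j t‖ ≤ 0 := by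
      by_contra h4
      push Not at h4
      have := mul_pos (hκ.pos t j) h4
      linarith
    exact norm_le_zero_iff.1 h3

end Pool.Agent.Lib.Bed
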