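import Pool.Agent.Lib.Bed.SpecM

/-!
# MP_6f050a_an, part M: uniform charts near a compact set
-/

set_option autoImplicit false

open scoped Manifold ContDiff Topology
open Set Filter Metric

namespace Pool.Agent.Lib.Bed

namespace sUCAux

theorem exists_min {ι : Type*} (t : Finset ι) (g : ι → ℝ) (hg : ∀ c ∈ t, 0 < g c) :
    ∃ r : ℝ, 0 < r ∧ ∀ c ∈ t, r ≤ g c := by
  classical
  induction t using Finset.induction_on with
  | empty => exact ⟨1, one_pos, fun c hc => absurd hc (Finset.notMem_empty c)⟩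
  | insert c t _ ih =>
    obtain ⟨r, hr, h⟩ := ih fun d hd => hg d (Finset.mem_insert_of_mem hd)
    refine ⟨min r (g c), lt_min hr (hg c (Finset.mem_insert_self c t)), fun d hd => ?_⟩
    rcases Finset.mem_insert.mp hd with h' | h'
    · rw [h']
      exact min_le_right _ _
    · exact (min_le_left _ _).trans (h d h')

theorem exists_max {ι : Type*} (t : Finset ι) (g : ι → ℝ) :
    ∃ r : ℝ, 0 < r ∧ ∀ c ∈ t, g c ≤ r := by
  classical
  induction t using Finset.induction_on with
  | empty => exact ⟨1, one_pos, fun c hc => absurd hc (Finset.notMem_empty c)⟩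
  | insert c t _ ih =>
    obtain ⟨r, hr, h⟩ := ih
    refine ⟨max r (g c), lt_max_of_lt_left hr, fun d hd => ?_⟩
    rcases Finset.mem_insert.mp hd with h' | h'
    · rw [h']
      exact le_max_right _ _
    · exact (h d h').trans (le_max_left _ _)

theorem exists_bounds {Y : Type*} [TopologicalSpace Y] {S : Set Y} (hS : IsCompact S) {F : Y → ℝ}
    (hF : ContinuousOn F S) (hpos : ∀ q ∈ S, 0 < F q) :
    ∃ a b : ℝ, 0 < a ∧ ∀ q ∈ S, a ≤ F q ∧ F q ≤ b := by
  rcases S.eq_empty_or_nonempty with h | h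
  · subst h
    exact ⟨1, 1, one_pos, fun q hq => absurd hq (Set.notMem_empty q)⟩
  · obtain ⟨q₀, hq₀, h1⟩ := hS.exists_isMinOn h hF
    obtain ⟨q₁, hq₁, h2⟩ := hS.exists_isMaxOn h hF
    exact ⟨F q₀, F q₁, hpos q₀ hq₀, fun q hq => ⟨h1 hq, h2 hq⟩⟩

variable {E : Type} [NormedAddCommGroup E] [NormedSpace ℂ E]
variable {X : Type} [MetricSpace X] [ChartedSpace E X]

theorem mdiff_add (y v : E) : MDifferentiableAt 𝓘(ℂ, E) 𝓘(ℂ, E) (fun v => y + v) v :=
  (by fun_prop : DifferentiableAt ℂ (fun v => y + v) v).mdifferentiableAt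

theorem du_trans (g : E → X) (y : E) (hg : MDifferentiableAt 𝓘(ℂ, E) 𝓘(ℂ, E) g y) (w : E) :
    du (fun v => g (y + v)) 0 w = du g y w := by
  have hg' : MDifferentiableAt 𝓘(ℂ, E) 𝓘(ℂ, E) g (y + 0) := by rwa [add_zero]
  have h1 := mfderiv_comp (0 : E) hg' (mdiff_add y 0)
  have h2 : mfderiv 𝓘(ℂ, E) 𝓘(ℂ, E) (fun v => y + v) (0 : E) = ContinuousLinearMap.id ℂ E := by
    rw [mfderiv_eq_fderiv, fderiv_const_add, fderiv_fun_id]
  have h3 : du (fun v => g (y + v)) 0 w = du g (y + 0) (mfderiv 𝓘(ℂ, E) 𝓘(ℂ, E) (fun v => y + v) (0 : E) w) :=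
    congrArg (fun L : E →L[ℂ] E => L w) h1
  rw [h3, h2, add_zero]
  rfl

end sUCAux

open sUCAux

theorem sUC : S_UC := by
  classical
  intro hNr hUCf E _ _ _ X _ _ _ nrm hnrm K hK
  -- radii
  have hR : ∀ x₀ : X, ∃ R : ℝ, 0 < R ∧
      closedBall (chartAt E x₀ x₀) (2 * R) ⊆ (chartAt E x₀).target := by
    intro x₀
    have h1 : (chartAt E x₀).target ∈ 𝓝 (chartAt E x₀ x₀) := chart_target_mem_nhds E x₀
    obtain ⟨r, hr, h2⟩ := (Metric.nhds_basis_closedBall.mem_iff).mp h1
    exact ⟨r / 2, by positivity, by rwa [mul_div_cancel₀ r (two_ne_zero)]⟩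
  choose R hRpos hRsub using hR
  let U : X → Set X := fun x₀ =>
    (chartAt E x₀).source ∩ (chartAt E x₀) ⁻¹' ball (chartAt E x₀ x₀) (R x₀)
  have hU : ∀ x₀ ∈ K, U x₀ ∈ 𝓝 x₀ := by
    intro x₀ _
    refine Filter.inter_mem (chart_source_mem_nhds E x₀) ?_
    exact ((chartAt E x₀).continuousAt (mem_chart_source E x₀)).preimage_mem_nhds
      (ball_mem_nhds _ (hRpos x₀))
  obtain ⟨t, htK, ht⟩ := hK.elim_nhds_subcover U hU
  have hc : ∀ x ∈ K, ∃ c ∈ t, x ∈ U c := by
    intro x hx
    have := ht hx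
    simp only [Set.mem_iUnion, exists_prop] at this
    exact this
  choose! cc hct hcU using hc
  obtain ⟨ρ, hρ, hρR⟩ := exists_min t R (fun c _ => hRpos c)
  have hsrc : ∀ x ∈ K, x ∈ (chartAt E (cc x)).source := fun x hx => (hcU x hx).1
  have hbal : ∀ x ∈ K, chartAt E (cc x) x ∈ ball (chartAt E (cc x) (cc x)) (R (cc x)) :=
    fun x hx => (hcU x hx).2
  have htgt : ∀ x ∈ K, ∀ v ∈ ball (0 : E) ρ, chartAt E (cc x) x + v ∈ (chartAt E (cc x)).target := by
    intro x hx v hv
    refine hRsub (cc x) ?_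
    rw [mem_closedBall, dist_eq_norm]
    have h1 := hbal x hx
    rw [mem_ball, dist_eq_norm] at h1
    rw [mem_ball_zero_iff] at hv
    have h2 := hρR (cc x) (hct x hx)
    have h3 : chartAt E (cc x) x + v - chartAt E (cc x) (cc x) =
        (chartAt E (cc x) x - chartAt E (cc x) (cc x)) + v := by abel
    rw [h3]
    exact (norm_add_le _ _).trans (by linarith)
  have htgt0 : ∀ x ∈ K, chartAt E (cc x) x ∈ (chartAt E (cc x)).target := fun x hx => by
    have := htgt x hx 0 (mem_ball_self hρ)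
    rwa [add_zero] at this
  -- the bounds of the norms
  have hbd : ∀ c : X, ∃ a b : ℝ, 0 < a ∧ ∀ y ∈ closedBall (chartAt E c c) (R c), ∀ w : E, ‖w‖ = 1 →
      a ≤ nE nrm ((chartAt E c).symm y) (du (chartAt E c).symm y w) ∧
      nE nrm ((chartAt E c).symm y) (du (chartAt E c).symm y w) ≤ b := by
    intro c
    obtain ⟨h1, h2⟩ := hNr E X nrm hnrm c
    have hsub : closedBall (chartAt E c c) (R c) ⊆ (chartAt E c).target :=
      (closedBall_subset_closedBall (by linarith [hRpos c])).trans (hRsub c)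
    have hcomp : IsCompact (closedBall (chartAt E c c) (R c) ×ˢ sphere (0 : E) 1) :=
      (isCompact_closedBall _ _).prod (isCompact_sphere _ _)
    obtain ⟨a, b, ha, h3⟩ := exists_bounds hcomp
      (h1.mono (Set.prod_mono hsub (Set.subset_univ _))) (by
        rintro ⟨y, w⟩ ⟨hy, hw⟩
        refine hnrm.pos _ _ fun h0 => ?_
        have h4 := h2 y (hsub hy) w h0
        rw [mem_sphere_zero_iff_norm] at hw
        simp only at hw
        rw [h4, norm_zero] at hw
        exact zero_ne_one hw)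
    refine ⟨a, b, ha, fun y hy w hw => ?_⟩
    exact h3 (y, w) ⟨hy, by rw [mem_sphere_zero_iff_norm]; exact hw⟩
  choose aa bb haa hbnd using hbd
  obtain ⟨a, ha, haa'⟩ := exists_min t aa (fun c _ => haa c)
  obtain ⟨b, hb, hbb'⟩ := exists_max t bb
  let ψ : X → E → X := fun x v => (chartAt E (cc x)).symm (chartAt E (cc x) x + v)
  let χ : X → X → E := fun x q => chartAt E (cc x) q - chartAt E (cc x) x
  have hmsymm : ∀ c : X, ∀ y ∈ (chartAt E c).target,
      MDifferentiableAt 𝓘(ℂ, E) 𝓘(ℂ, E) (chartAt E c).symm y := fun c y hy =>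
    mdifferentiableAt_atlas_symm (chart_mem_atlas E c) hy
  have hm : ∀ c : X, ∀ y ∈ (chartAt E c).source,
      MDifferentiableAt 𝓘(ℂ, E) 𝓘(ℂ, E) (chartAt E c) y := fun c y hy =>
    mdifferentiableAt_atlas (chart_mem_atlas E c) hy
  have hzero : ∀ x ∈ K, ψ x 0 = x := by
    intro x hx
    show (chartAt E (cc x)).symm (chartAt E (cc x) x + 0) = x
    rw [add_zero]
    exact (chartAt E (cc x)).left_inv (hsrc x hx)
  have hdu : ∀ x ∈ K, ∀ w : E, du (ψ x) 0 w = du (chartAt E (cc x)).symm (chartAt E (cc x) x) w :=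
    fun x hx w => du_trans _ _ (hmsymm _ _ (htgt0 x hx)) w
  have hnE0 : ∀ x : X, nE nrm x 0 = 0 := by
    intro x
    have h1 := hnrm.smul x 0 (0 : E)
    have h2 : (((0 : ℝ) : ℂ) • (0 : E)) = (0 : E) := smul_zero _
    rw [abs_zero, zero_mul] at h1
    rw [show nE nrm x 0 = nrm x (((0 : ℝ) : ℂ) • (0 : E)) by rw [h2]; rfl]
    exact h1
  have hnE : ∀ x ∈ K, ∀ w : E, a * ‖w‖ ≤ nE nrm x (du (ψ x) 0 w) ∧
      nE nrm x (du (ψ x) 0 w) ≤ b * ‖w‖ := by
    intro x hx w
    by_cases hw : w = 0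
    · subst hw
      rw [map_zero, hnE0, norm_zero, mul_zero, mul_zero]
      exact ⟨le_rfl, le_rfl⟩
    · have hwn : 0 < ‖w‖ := norm_pos_iff.mpr hw
      set w' : E := ((‖w‖ : ℂ))⁻¹ • w with hw'
      have hw'1 : ‖w'‖ = 1 := by
        rw [hw', norm_smul, norm_inv, Complex.norm_real, norm_norm, inv_mul_cancel₀ hwn.ne']
      have hww : w = ((‖w‖ : ℝ) : ℂ) • w' := by
        rw [hw', smul_smul, mul_inv_cancel₀ (by exact_mod_cast hwn.ne'), one_smul]
      have h1 := hbnd (cc x) (chartAt E (cc x) x) (ball_subset_closedBall (hbal x hx)) w' hw'1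
      rw [(chartAt E (cc x)).left_inv (hsrc x hx), ← hdu x hx] at h1
      have h2 : nE nrm x (du (ψ x) 0 w) = ‖w‖ * nE nrm x (du (ψ x) 0 w') := by
        conv_lhs => rw [hww]
        rw [map_smul]
        have h3 := hnrm.smul x ‖w‖ (du (ψ x) 0 w')
        rw [abs_of_pos hwn] at h3
        exact h3
      rw [h2]
      have h4 := haa' (cc x) (hct x hx)
      have h5 := hbb' (cc x) (hct x hx)
      constructor
      · rw [mul_comm]
        exact mul_le_mul_of_nonneg_left (h4.trans h1.1) hwn.le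
      · rw [mul_comm b]
        exact mul_le_mul_of_nonneg_left (h1.2.trans h5) hwn.le
  refine ⟨ψ, χ, ρ, a, b, hρ, ha, hb, hzero, ?_, ?_, ?_, ?_, ?_, fun x hx w => (hnE x hx w).1,
    fun x hx w => (hnE x hx w).2⟩
  · intro x hx v hv
    exact (hmsymm (cc x) _ (htgt x hx v hv)).comp v (mdiff_add _ v)
  · intro x hx v hv
    show chartAt E (cc x) ((chartAt E (cc x)).symm (chartAt E (cc x) x + v)) - chartAt E (cc x) x = v
    rw [(chartAt E (cc x)).right_inv (htgt x hx v hv)]
    abel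
  · intro x hx v hv
    have h1 : ψ x v ∈ (chartAt E (cc x)).source :=
      (chartAt E (cc x)).map_target (htgt x hx v hv)
    have h2 : MDifferentiableAt 𝓘(ℂ, E) 𝓘(ℂ, E) (fun y => y - chartAt E (cc x) x)
        (chartAt E (cc x) (ψ x v)) :=
      (by fun_prop : DifferentiableAt ℂ (fun y => y - chartAt E (cc x) x)
        (chartAt E (cc x) (ψ x v))).mdifferentiableAt
    exact h2.comp (ψ x v) (hm (cc x) _ h1)
  · intro ε hε
    have h1 : ∀ c : X, ∃ δ > 0, ∀ y ∈ closedBall (chartAt E c c) (R c), ∀ q, dist q y < δ →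
        q ∈ (chartAt E c).target ∧ dist ((chartAt E c).symm q) ((chartAt E c).symm y) < ε := by
      intro c
      refine hUCf E X (closedBall (chartAt E c c) (R c)) (chartAt E c).target (chartAt E c).symm
        (isCompact_closedBall _ _) (chartAt E c).open_target ?_ (chartAt E c).continuousOn_symm ε hε
      exact (closedBall_subset_closedBall (by linarith [hRpos c])).trans (hRsub c)
    choose δ hδ h2 using h1
    obtain ⟨δ', hδ', h3⟩ := exists_min t δ (fun c _ => hδ c)
    refine ⟨δ', hδ', fun x hx v hv hvδ => ?_⟩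
    have h4 := h2 (cc x) (chartAt E (cc x) x) (ball_subset_closedBall (hbal x hx))
      (chartAt E (cc x) x + v) (by
        rw [dist_self_add_left]
        exact hvδ.trans_le (h3 (cc x) (hct x hx)))
    have h5 := h4.2
    rwa [(chartAt E (cc x)).left_inv (hsrc x hx)] at h5
  · intro ε hε
    have h1 : ∀ c : X, ∃ δ > 0, ∀ y ∈ (chartAt E c).symm '' closedBall (chartAt E c c) (R c),
        ∀ q, dist q y < δ →
        q ∈ (chartAt E c).source ∧ dist (chartAt E c q) (chartAt E c y) < min ε ρ := by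
      intro c
      have hsub : closedBall (chartAt E c c) (R c) ⊆ (chartAt E c).target :=
        (closedBall_subset_closedBall (by linarith [hRpos c])).trans (hRsub c)
      refine hUCf X E _ (chartAt E c).source (chartAt E c)
        ((isCompact_closedBall _ _).image_of_continuousOn
          ((chartAt E c).continuousOn_symm.mono hsub)) (chartAt E c).open_source ?_
        (chartAt E c).continuousOn (min ε ρ) (lt_min hε hρ)
      rintro _ ⟨y, hy, rfl⟩
      exact (chartAt E c).map_target (hsub hy)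
    choose δ hδ h2 using h1
    obtain ⟨δ', hδ', h3⟩ := exists_min t δ (fun c _ => hδ c)
    refine ⟨δ', hδ', fun x hx q hq => ?_⟩
    have h4 := h2 (cc x) x ⟨chartAt E (cc x) x, ball_subset_closedBall (hbal x hx),
      (chartAt E (cc x)).left_inv (hsrc x hx)⟩ q (hq.trans_le (h3 (cc x) (hct x hx)))
    obtain ⟨h5, h6⟩ := h4
    rw [dist_eq_norm] at h6
    refine ⟨chartAt E (cc x) q - chartAt E (cc x) x, ?_, h6.trans_le (min_le_left _ _), ?_⟩
    · rw [mem_ball_zero_iff]
      exact h6.trans_le (min_le_right _ _)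
    · show (chartAt E (cc x)).symm (chartAt E (cc x) x + (chartAt E (cc x) q - chartAt E (cc x) x)) = q
      rw [add_sub_cancel]
      exact (chartAt E (cc x)).left_inv h5

end Pool.Agent.Lib.Bed
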