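import Pool.Agent.Lib.Bed.SpecM

/-!
# MP_6f050a_an, Bed/UCf: uniform continuity near a compact set
-/

set_option autoImplicit false

open scoped Topology
open Set Filter Metric

namespace Pool.Agent.Lib.Bed

theorem sUCf : S_UCf := by
  intro X Y _ _ K U g hK hU hKU hg ε hε
  have h1 := hK.uniformContinuousAt_of_continuousAt g
    (fun a ha => hg.continuousAt (hU.mem_nhds (hKU ha))) (Metric.dist_mem_uniformity hε)
  obtain ⟨δ₁, hδ₁, h1⟩ := Metric.mem_uniformity_dist.mp h1
  obtain ⟨δ₂, hδ₂, h2⟩ := hK.exists_thickening_subset_open hU hKU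
  refine ⟨min δ₁ δ₂, lt_min hδ₁ hδ₂, fun x hx q hq => ⟨?_, ?_⟩⟩
  · exact h2 (Metric.mem_thickening_iff.mpr ⟨x, hx, hq.trans_le (min_le_right _ _)⟩)
  · have h3 := h1 (a := x) (b := q) (by
      rw [dist_comm]
      exact hq.trans_le (min_le_left _ _))
    have h4 : dist (g x) (g q) < ε := h3 hx
    rwa [dist_comm] at h4

end Pool.Agent.Lib.Bed
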