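import Pool.Agent.Lib.Bed.SpecN
import Pool.Agent.Lib.Osgood

/-!
# MP_6f050a_an, Bed/Wei: uniform limits of holomorphic maps (telescoping form)
-/

set_option autoImplicit false

open scoped Topology
open Set Filter Metric

namespace Pool.Agent.Lib.Bed

namespace sWeiAux

theorem tel {X : Type*} [NormedAddCommGroup X] [CompleteSpace X] (u : ℕ → X) (b : ℕ → ℝ)
    (hb : Summable b) (h : ∀ i, ‖u (i + 1) - u i‖ ≤ b i) :
    ∃ L, Tendsto u atTop (𝓝 L) ∧ ∀ i, ‖L - u i‖ ≤ ∑' j, b (i + j) := by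
  have h' : ∀ n, dist (u n) (u n.succ) ≤ b n := fun n => by
    rw [dist_comm, dist_eq_norm]
    exact h n
  obtain ⟨L, hL⟩ := cauchySeq_tendsto_of_complete (cauchySeq_of_dist_le_of_summable b h' hb)
  refine ⟨L, hL, fun i => ?_⟩
  rw [← dist_eq_norm, dist_comm]
  exact dist_le_tsum_of_dist_le_of_tendsto b h' hb hL i

/-- the derivatives converge at an interior point -/
theorem der {E F : Type} [NormedAddCommGroup E] [NormedSpace ℂ E]
    [NormedAddCommGroup F] [NormedSpace ℂ F] [CompleteSpace F] (U : Set E) (G : ℕ → E → F)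
    (b : ℕ → ℝ) (hU : IsOpen U) (hG : ∀ i, DifferentiableOn ℂ (G i) U) (hb : Summable b)
    (hGb : ∀ i, ∀ z ∈ U, ‖G (i + 1) z - G i z‖ ≤ b i) (H : E → F)
    (hH : ∀ z ∈ U, Tendsto (fun i => G i z) atTop (𝓝 (H z))) (z : E) (hz : z ∈ U) :
    DifferentiableAt ℂ H z ∧ Tendsto (fun i => fderiv ℂ (G i) z) atTop (𝓝 (fderiv ℂ H z)) := by
  obtain ⟨R, hR, hRU⟩ := Metric.isOpen_iff.mp hU z hz
  have hd : ∀ i, ∀ y ∈ ball z R, DifferentiableAt ℂ (G i) y := fun i y hy =>
    (hG i).differentiableAt (hU.mem_nhds (hRU hy))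
  have hst : ∀ y ∈ ball z (R / 2), ∀ i,
      ‖fderiv ℂ (G (i + 1)) y - fderiv ℂ (G i) y‖ ≤ b i / (R - R / 2) := by
    intro y hy i
    have hyR : y ∈ ball z R := ball_subset_ball (by linarith) hy
    have h1 : fderiv ℂ (G (i + 1)) y - fderiv ℂ (G i) y = fderiv ℂ (G (i + 1) - G i) y :=
      (fderiv_sub (hd (i + 1) y hyR) (hd i y hyR)).symm
    rw [h1]
    refine Osgood.norm_fderiv_le' (z := z) (R := R) (r := R / 2) (by linarith) ?_ ?_
      (ball_subset_closedBall hy)
    · intro w hw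
      exact ((hd (i + 1) w hw).sub (hd i w hw)).differentiableWithinAt
    · intro w hw
      exact hGb i w (hRU hw)
  have hb' : Summable fun i => b i / (R - R / 2) := hb.div_const _
  choose! g' hg1 hg2 using fun (y : E) (hy : y ∈ ball z (R / 2)) =>
    tel (fun i => fderiv ℂ (G i) y) _ hb' (hst y hy)
  have htail : Tendsto (fun i => ∑' j, b (i + j) / (R - R / 2)) atTop (𝓝 0) := by
    have h := tendsto_sum_nat_add fun i => b i / (R - R / 2)
    refine h.congr fun i => ?_
    refine tsum_congr fun j => ?_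
    rw [Nat.add_comm]
  have hunif : TendstoUniformlyOn (fun i y => fderiv ℂ (G i) y) g' atTop (ball z (R / 2)) := by
    rw [Metric.tendstoUniformlyOn_iff]
    intro ε hε
    filter_upwards [htail.eventually (gt_mem_nhds hε)] with i hi y hy
    rw [dist_eq_norm]
    exact (hg2 y hy i).trans_lt hi
  have hzz : z ∈ ball z (R / 2) := mem_ball_self (by linarith)
  have hfd := hasFDerivAt_of_tendstoUniformlyOn isOpen_ball hunif
    (fun i y hy => (hd i y (ball_subset_ball (by linarith) hy)).hasFDerivAt)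
    (fun y hy => hH y (hRU (ball_subset_ball (by linarith) hy))) hzz
  refine ⟨hfd.differentiableAt, ?_⟩
  rw [hfd.fderiv]
  exact hg1 z hzz

end sWeiAux

open sWeiAux in
theorem sWei : S_Wei := by
  intro E F _ _ _ _ _ _ U G b hU hG hb hGb
  have h1 : ∀ z ∈ U, ∃ L, Tendsto (fun i => G i z) atTop (𝓝 L) ∧
      ∀ i, ‖L - G i z‖ ≤ ∑' j, b (i + j) := fun z hz =>
    tel (fun i => G i z) b hb fun i => hGb i z hz
  choose! H hH1 hH2 using h1
  refine ⟨H, fun z hz => ?_, hH1, hH2, fun z hz w => ?_⟩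
  · exact (der U G b hU hG hb hGb H hH1 z hz).1.differentiableWithinAt
  · exact ((ContinuousLinearMap.apply ℂ F w).continuous.tendsto _).comp
      (der U G b hU hG hb hGb H hH1 z hz).2

end Pool.Agent.Lib.Bed
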