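import Pool.Agent.Lib.Bed.SpecC
import Pool.Agent.Lib.Bed.Wei
import Pool.Agent.Lib.Bed.TPa
import Pool.Agent.Lib.Bed.TPb
import Pool.Agent.Lib.Bed.OB
import Pool.Agent.Lib.Bed.DI
import Pool.Agent.Lib.Bed.Sec
import Pool.Agent.Lib.Bed.Lim
import Pool.Agent.Lib.Bed.Dfn
import Pool.Agent.Lib.Bed.Cou
import Pool.Agent.Lib.Bed.GDx
import Pool.Agent.Lib.Bed.Glu
import Pool.Agent.Lib.Bed.LvA
import Pool.Agent.Lib.Bed.LvB
import Pool.Agent.Lib.Bed.Ind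
import Pool.Agent.Lib.Bed.NF
import Pool.Agent.Lib.Bed.Boot
import Pool.Agent.Lib.Bed.KLin
import Pool.Agent.Lib.Bed.KOrb
import Pool.Agent.Lib.Bed.KSys
import Pool.Agent.Lib.Bed.KSeq
import Pool.Agent.Lib.Bed.UCf
import Pool.Agent.Lib.Bed.NrC
import Pool.Agent.Lib.Bed.UC
import Pool.Agent.Lib.Bed.Loc
import Pool.Agent.Lib.Bed.Bnd
import Pool.Agent.Lib.Bed.Ang
import Pool.Agent.Lib.Bed.Frame
import Pool.Agent.Lib.Bed.Dm
import Pool.Agent.Lib.Bed.Frm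
import Pool.Agent.Lib.Bed.Quad
import Pool.Agent.Lib.Bed.Ad
import Pool.Agent.Lib.Bed.HInj
import Pool.Agent.Lib.Bed.Tau
import Pool.Agent.Lib.Bed.LSM
import Pool.Agent.Lib.Bed.AsA
import Pool.Agent.Lib.Bed.AsB
import Pool.Agent.Lib.Bed.Cmp
import Pool.Agent.Lib.Bed.Set
import Pool.Agent.Lib.Bed.CorA
import Pool.Agent.Lib.Bed.Dir
import Pool.Agent.Lib.Bed.CorB
import Pool.Agent.Lib.Bed.CorC
import Pool.Agent.Lib.Bed.PK
import Pool.Agent.Lib.Bed.PA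
import Pool.Agent.Lib.Bed.PB
import Pool.Agent.Lib.Bed.PC
import Pool.Agent.Lib.Bed.Fin

/-!
# MP_6f050a_an: assembly
-/

set_option autoImplicit false

namespace Pool.Agent.Lib.Bed

theorem sInd' (k : ℕ) (S : Sys k) : ∃ U : ℕ → (Fin k → ℂ) → (Fin k → ℂ), Lev S k U :=
  sInd sWei sTPa sTPb sOB sDI sSec sLim sDfn sCou sGDx sGlu sLvA sLvB k S

/-- Condition (K) implies that the basin of a uniformly attracting sequence is `ℂ^k`. -/
theorem kSeqC : KSeqC := by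
  refine sKSeq (fun k S => ?_) sBoot sKLin sKOrb sKSys
  obtain ⟨U, hU⟩ := sInd' k S
  exact ⟨U, sNF sTPa sTPb sDI k S U hU⟩

theorem setupC : SetupC :=
  sSet sWei sUCf sNrC sUC sLoc sBnd sAng sFrame sDm sFrm sQuad sAd sHInj sTau sLSM sAsA sAsB sCmp

/-- The theorem (conditions (K), (A), (B), (C)). -/
theorem bedford : Bedford :=
  sFin setupC kSeqC sCorA sDir sCorB sCorC sPK sPA sPB sPC

end Pool.Agent.Lib.Bed
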