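import Pool.Agent.Lib.Bed.Str

/-!
# Bed: the setup with the strong conclusion
-/

set_option autoImplicit false

open scoped Manifold ContDiff Topology
open Set Filter Metric

namespace Pool.Agent.Lib.Bed

theorem sSet2 (hWei : S_Wei) (hUCf : S_UCf) (hNrC : S_NrC) (hUC : S_UC) (hLoc : S_Loc)
    (hBnd : S_Bnd) (hAng : S_Ang) (hFrame : S_Frame) (hDm : S_Dm) (hFrm : S_Frm) (hQuad : S_Quad)
    (hAd : S_Ad) (hHInj : S_HInj) (hTau : S_Tau) (hLSM : S_LSM) (hAsA2 : S_AsA2) (hAsB : S_AsB)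
    (hAsB2 : S_AsB2) (hCmp : S_Cmp) : SetupC2 := by
  intro
    E _ _ _ X _ _ _ nrm f K Es Eu C lam p hnrm hhyp hp
  have hKf : MapsTo f K K := fun x hx => by
    have h1 : f x ∈ f '' K := mem_image_of_mem f hx
    rwa [hhyp.image] at h1
  have hKfs : MapsTo f.symm K K := fun x hx => by
    have h1 : x ∈ f '' K := by rw [hhyp.image]; exact hx
    obtain ⟨y, hy, rfl⟩ := h1
    rw [Equiv.symm_apply_apply]
    exact hy
  have hit : ∀ g : X → X, MDifferentiable 𝓘(ℂ, E) 𝓘(ℂ, E) g → ∀ n : ℕ,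
      MDifferentiable 𝓘(ℂ, E) 𝓘(ℂ, E) (g^[n]) := by
    intro g hg n
    induction n with
    | zero => exact mdifferentiable_id
    | succ n ih => exact ih.comp hg
  have hLocG : ∀ g : X → X, MDifferentiable 𝓘(ℂ, E) 𝓘(ℂ, E) g → MapsTo g K K →
      ∀ (ψ : X → E → X) (χ : X → X → E) (ρ a b : ℝ), UCh nrm K ψ χ ρ a b → ∀ (n : ℕ) (ε : ℝ),
      0 < ε → ∃ ρ', ULoc K ψ χ ρ (g^[n]) ρ' ε := fun g hg hK ψ χ ρ a b hU n ε hε =>
    hLoc hUCf E X nrm K ψ χ ρ a b hhyp.compact hU (g^[n]) (hit g hg n) (hK.iterate n) ε hε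
  obtain ⟨ψ, χ, ρ, a, b, hU⟩ := hUC hNrC hUCf E X nrm hnrm K hhyp.compact
  have hLocN := hLocG f hhyp.hol hKf ψ χ ρ a b hU
  have hLocS := hLocG f.symm hhyp.hol_symm hKfs ψ χ ρ a b hU
  have hA := hAng E X nrm f K Es Eu C lam hnrm hhyp fun n =>
    hBnd E X nrm K ψ χ ρ a b hU (f^[n]) (hKf.iterate n) (hLocN n 1 one_pos)
  obtain ⟨N, k, l, e, A, B, C₁, c, hF⟩ := hFrm hFrame hDm E X nrm f K Es Eu C lam ψ χ ρ a b
    hnrm hhyp hU (fun n => ⟨hLocN n 1 one_pos, hLocS n 1 one_pos⟩) hA p hp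
  obtain ⟨P, H, ρ₀, ρ', C₂, hP, hH⟩ := hAd hQuad E X nrm f K p (sE Es p) ψ χ ρ a b N k l e A B
    C₁ c hU hp hKf (fun ε hε => hLocN N ε hε) hF
  obtain ⟨hi, hd⟩ := hHInj E X f p N k l P H ρ₀ ρ' hhyp.hol hhyp.hol_symm hP
  obtain ⟨r, τ, hr, hrρ, hCr, ht1, ht2, ht3, ht4, ht5⟩ := hTau hWei k l H A B ρ' C₂ c hH
  obtain ⟨F, hL⟩ := hLSM k l H A B ρ' C₂ c hH hi hd r τ hr hrρ hCr ht1 ht2 ht3 ht4 ht5
  have hcont : Continuous f := hhyp.hol.continuous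
  have hAs := hAsB hUCf E X f K p N k l P H A τ F ρ₀ ρ' r C₂ c hhyp.compact hKf hp hcont hP
    hrρ hL
  have hCk : BasinCk k r F → StabCk E k f p := fun h => by
    obtain ⟨Φ, h1, h2, h3, h4, h5⟩ :=
      hAsA2 E X f p N k l P H A τ F ρ₀ ρ' r C₂ c hhyp.hol hhyp.hol_symm hP hrρ hL h
    refine ⟨Φ, h1, h2, h3, by rw [h4, hAs], ?_⟩
    rw [Metric.tendstoLocallyUniformly_iff]
    intro ε hε u
    obtain ⟨n, hn⟩ := h5 u
    obtain ⟨M, hM⟩ := hAsB2 hUCf E X f K p N k l P H A τ F ρ₀ ρ' r C₂ c hhyp.compact hKf hp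
      hcont hP hrρ hL n ε hε
    refine ⟨_, hn, ?_⟩
    filter_upwards [eventually_ge_atTop M] with m hm
    intro z hz
    rw [dist_comm, Real.dist_eq, sub_zero, abs_of_nonneg dist_nonneg]
    exact hM m hm _ hz
  obtain ⟨⟨j, a₁, b₁, hC⟩, C₃, c₃, hS⟩ := hCmp hDm E X nrm f K Es Eu C lam p ψ χ ρ a b N k l e
    A B C₁ c hhyp hU hp (hLocN N 1 one_pos) hF
  exact ⟨N, k, A, F, j, r, C₂, c, a₁, b₁, C₃, c₃, hF.dim, hL.seq, hCk, hC, hS⟩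

end Pool.Agent.Lib.Bed
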