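import Pool.Agent.Lib.Bed.Main
import Pool.Agent.Lib.Bed.AsA2
import Pool.Agent.Lib.Bed.AsB2
import Pool.Agent.Lib.Bed.Set2
import Pool.Agent.Lib.Bed.Fin2

/-!
# MP_6f050a_an: assembly, strong conclusion
-/

set_option autoImplicit false

namespace Pool.Agent.Lib.Bed

theorem setupC2 : SetupC2 :=
  sSet2 sWei sUCf sNrC sUC sLoc sBnd sAng sFrame sDm sFrm sQuad sAd sHInj sTau sLSM sAsA2 sAsB
    sAsB2 sCmp

/-- The theorem (conditions (K), (A), (B), (C)). -/
theorem bedford2 : Bedford2 :=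
  sFin2 setupC2 kSeqC sCorA sDir sCorB sCorC sPK sPA sPB sPC

end Pool.Agent.Lib.Bed
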