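import Pool.Agent.Lib.Bed.Main2

/-!
# MP_6f050a_an: bunching modulo one direction

`f` acts hyperbolically on the compact set `K` with the rate `lam` on `Es`, `p ∈ K`, and `v₀ ≠ 0` is a vector
in `Es p`.  If `lam^{2m} dist(v, ℂ v₀) ≤ C₁ exp(- η m) |df^m v|` for all `v ∈ Es p` and `m ≥ 0`, then the
stable manifold of `p` is biholomorphic to `ℂ^k`.  Nothing is assumed about the contraction of `v₀`, which
may be arbitrarily fast and irregular.
-/

set_option autoImplicit false

open scoped Manifold

namespace Pool.Agent.Lib.Bed.ModuloLineOld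

open Pool.Agent.Lib.Bed

theorem result (E : Type) [NormedAddCommGroup E] [NormedSpace ℂ E] [FiniteDimensional ℂ E]
    (X : Type) [MetricSpace X] [ChartedSpace E X] [IsManifold 𝓘(ℂ, E) 1 X]
    (nrm : (x : X) → TangentSpace 𝓘(ℂ, E) x → ℝ) (f : X ≃ X) (K : Set X)
    (Es Eu : (x : X) → Submodule ℂ (TangentSpace 𝓘(ℂ, E) x)) (C lam : ℝ)
    (hnrm : IsFinsler nrm) (hf : IsHyp nrm f K Es Eu C lam) (p : X) (hp : p ∈ K)
    (v₀ : TangentSpace 𝓘(ℂ, E) p) (hv₀ : v₀ ∈ Es p) (hv₀' : v₀ ≠ 0) (C₁ η : ℝ) (hη : 0 < η)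
    (hb : ∀ m : ℕ, ∀ v ∈ Es p, ∃ c : ℂ, lam ^ (2 * m) * nrm p (v - c • v₀) ≤
      C₁ * Real.exp (-(η * m)) * nrm (f^[m] p) (dit f m p v)) :
    StabCk E (Module.finrank ℂ (Es p)) f p := by
  refine bedford2 E X nrm f K Es Eu C lam hnrm hf p hp (Or.inr (Or.inr (Or.inr ?_)))
  have hnn : ∀ (x : X) (v : TangentSpace 𝓘(ℂ, E) x), 0 ≤ nrm x v := by
    intro x v
    by_cases hv : v = 0
    · have h := hnrm.smul x 0 v
      rw [abs_zero, zero_mul, Complex.ofReal_zero, zero_smul] at h
      rw [hv, h]
    · exact (hnrm.pos x v hv).le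
  refine ⟨v₀, max C₁ 1, η, hv₀, hv₀', lt_max_of_lt_right one_pos, hη, fun m v hv => ?_⟩
  obtain ⟨c, hc⟩ := hb m v hv
  refine ⟨c, hc.trans ?_⟩
  have h1 : 0 ≤ Real.exp (-(η * m)) := (Real.exp_pos _).le
  have h3 := hnn (f^[m] p) (dit f m p v)
  have h4 : C₁ ≤ max C₁ 1 := le_max_left _ _
  exact mul_le_mul_of_nonneg_right (mul_le_mul_of_nonneg_right h4 h1) h3

end Pool.Agent.Lib.Bed.ModuloLineOld

/-
Claim text of the retired hand-in ModuloLine:

Proves: Let f act hyperbolically on a compact set K of a complex manifold X (with a metric d), p∈K, v₀≠0 in E^s_p; if for some C₁ and η>0, for all m≥0 and v∈E^s_p there is c∈ℂ with lam^{2m}|v-cv₀|≤C₁e^{-ηm}|df^m v|, lam the hyperbolicity rate, then the stable manifold of p is biholomorphic to ℂ^k, k=dim E^s_p.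
Definitions: IsFinsler nrm: |v|=nrm x v are real norms on the spaces T_xX, continuous on TX. dit f m p: the derivative df^m_p. IsHyp nrm f K Es Eu C lam: f is a biholomorphic map of X, K is compact, f(K)=K, T_xX=Es_x⊕Eu_x (x∈K; complex subspaces mapped by df to those at f(x)), C>0, 0<lam<1, |df^n v|≤C lam^n|v| on Es_x, |v|≤C lam^n|df^n v| on Eu_x. stab f p={q: d(f^n q,f^n p)→0}. StabCk E k f p: there is an injective holomorphic immersion Φ:ℂ^k→X with image stab f p and d(f^nΦ(z),f^n p)→0 locally uniformly in z (so Φ is biholomorphic onto the stable manifold).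
Relation: Partial answer to Q1 (any k): the bunching condition (with the square of the uniform rate lam) is needed only modulo one line ℂv₀, whose own contraction may be arbitrarily fast and irregular. Earlier related work: Wold, Peters, Peters–Smit, Abate–Abbondandolo–Majer, Jonsson–Varolin. A 2022 preprint of Bera and Verma (Uniform non-autonomous basins of attraction) announces the full conjecture; we could not check it.
-/
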