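import Pool.Agent.Lib.Bed.SpecC

/-!
# MP_6f050a_an: translation of the condition (A)
-/

set_option autoImplicit false

open scoped Manifold ContDiff Topology
open Set Filter Metric

namespace Pool.Agent.Lib.Bed

namespace sPAAux

theorem nit_zero {E : Type} [NormedAddCommGroup E] [NormedSpace ℂ E] {X : Type} [MetricSpace X]
    [ChartedSpace E X] (nrm : (x : X) → TangentSpace 𝓘(ℂ, E) x → ℝ) (f : X ≃ X) (p : X)
    (v : TangentSpace 𝓘(ℂ, E) p) : nit nrm f p 0 v = nrm p v := by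
  show nrm p (mfderiv 𝓘(ℂ, E) 𝓘(ℂ, E) (id : X → X) p v) = nrm p v
  rw [mfderiv_id]
  rfl

theorem ineq {a b C e x w v y m1 m2 m3 m4 : ℝ} (ha : 0 < a) (hb : 0 < b) (hC : 0 < C) (he : 0 < e)
    (hx : 0 ≤ x) (hw : 0 ≤ w) (hv : 0 ≤ v) (hy : 0 ≤ y)
    (h1 : a * x ≤ m1) (h2 : a * w ≤ m2) (h3 : m3 ≤ b * v) (h3' : 0 ≤ m3) (h4 : m4 ≤ b * y)
    (h4' : 0 ≤ m4) (h : m1 ^ 2 * m2 ≤ C * e * m3 ^ 2 * m4) :
    x ^ 2 * w ≤ C * b ^ 3 / a ^ 3 * e * v ^ 2 * y := by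
  have e1 : (a * x) ^ 2 * (a * w) ≤ m1 ^ 2 * m2 := by
    have h5 : (a * x) ^ 2 ≤ m1 ^ 2 := pow_le_pow_left₀ (by positivity) h1 2
    exact mul_le_mul h5 h2 (by positivity) (by positivity)
  have e2 : C * e * m3 ^ 2 * m4 ≤ C * e * (b * v) ^ 2 * (b * y) := by
    have h5 : m3 ^ 2 ≤ (b * v) ^ 2 := pow_le_pow_left₀ h3' h3 2
    have h6 : C * e * m3 ^ 2 ≤ C * e * (b * v) ^ 2 := mul_le_mul_of_nonneg_left h5 (by positivity)
    exact mul_le_mul h6 h4 h4' (by positivity)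
  have e3 := e1.trans (h.trans e2)
  have ha3 : (0 : ℝ) < a ^ 3 := by positivity
  have e4 : C * b ^ 3 / a ^ 3 * e * v ^ 2 * y = (C * e * (b * v) ^ 2 * (b * y)) / a ^ 3 := by
    field_simp
  rw [e4, le_div_iff₀ ha3]
  calc x ^ 2 * w * a ^ 3 = (a * x) ^ 2 * (a * w) := by ring
    _ ≤ _ := e3

end sPAAux

theorem sPA : S_PA := by
  intro E _ _ _ X _ _ nrm f p Ep N k j Λ a b h0 hc hA
  obtain ⟨C, η, hC, hη, h⟩ := hA
  have hN : (0 : ℝ) < N := by exact_mod_cast hc.N_pos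
  have ha := hc.a_pos
  have hb := hc.b_pos
  have hmem : ∀ z, j z ∈ Ep := fun z => by
    rw [← hc.range]
    exact LinearMap.mem_range_self j z
  have hlow : ∀ z, a * ‖z‖ ≤ nrm p (j z) := by
    intro z
    have h1 := hc.low 0 z
    rw [hc.zero, Nat.mul_zero, sPAAux.nit_zero] at h1
    exact h1
  have hup : ∀ z, nrm p (j z) ≤ b * ‖z‖ := by
    intro z
    have h1 := hc.up 0 z
    rw [hc.zero, Nat.mul_zero, sPAAux.nit_zero] at h1
    exact h1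
  refine ⟨C * b ^ 3 / a ^ 3, η * N, by positivity, by positivity, fun m v w => ?_⟩
  have h1 := h (N * m) (j v) (hmem v) (j w) (hmem w)
  have h2 : -(η * ((N * m : ℕ) : ℝ)) = -(η * N * m) := by
    push_cast
    ring
  rw [h2] at h1
  exact sPAAux.ineq ha hb hC (Real.exp_pos _) (norm_nonneg _) (norm_nonneg _) (norm_nonneg _)
    (norm_nonneg _) (hc.low m v) (hlow w) (hup v) (h0 _) (hc.up m w)
    ((mul_nonneg ha.le (norm_nonneg _)).trans (hc.low m w)) h1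

end Pool.Agent.Lib.Bed
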