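import Pool.Agent.Lib.Bed.Basic

/-!
# MP_6f050a_an, part N: normalised systems (the direct limit is `ℂ^k`)

Every task: prove `theorem sX : S_X` (namespace `Pool.Agent.Lib.Bed`) in the file named in the task; auxiliary lemmas in the
namespace `Pool.Agent.Lib.Bed.sXAux`.  Statements used in a proof are hypotheses inside the definitions.  All proofs are complete
in the docstrings.  Basic facts on `wn`, `orb`, `Sys`, `Lev` are in `Basic.lean`.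

Idea.  The maps `T m` are close to the identity in the weighted norms `wn κ m z = max κ_t(m) |z_t|`, which decrease with `m`.
The first coordinate `z_0` converges along orbits.  For points with the same limit the difference of the second coordinates
converges, and so on.  By induction on `s` one gets holomorphic functions `U = (u_0, ..., u_{s-1})` on the direct limit, and in
the end `k` functions which are a biholomorphic map onto `ℂ^k`.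
-/

set_option autoImplicit false

open scoped Topology
open Set Filter Metric

namespace Pool.Agent.Lib.Bed

/-- **Wei.** Uniform limits of holomorphic maps (telescoping form).

Proof.  `G i z` is a Cauchy sequence, the limit is `H z`, and `‖H z - G i z‖ ≤ ∑' j, b (i + j)` (`b ≥ 0` on `U`; if `U` is empty
take `H = 0`).  Let `z ∈ U`, `ball z (2ρ) ⊆ U`.  By Cauchy's estimate (`Osgood.norm_fderiv_le'` in `Pool.Agent.Lib.Osgood`)
`‖fderiv (G (i+1)) - fderiv (G i)‖ ≤ b i / ρ` on `ball z ρ`, so the derivatives converge uniformly on `ball z ρ`; hence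
(`hasFDerivAt_of_tendstoUniformlyOnFilter` or `hasFDerivAt_of_tendstoUniformlyOn`) `H` is differentiable at `z` and its derivative
is the limit of the derivatives of the `G i` (in operator norm, so also applied to `w`). -/
def S_Wei : Prop := ∀ (E F : Type) [NormedAddCommGroup E] [NormedSpace ℂ E] [FiniteDimensional ℂ E]
  [NormedAddCommGroup F] [NormedSpace ℂ F] [CompleteSpace F] (U : Set E) (G : ℕ → E → F) (b : ℕ → ℝ), IsOpen U →
  (∀ i, DifferentiableOn ℂ (G i) U) → Summable b → (∀ i, ∀ z ∈ U, ‖G (i + 1) z - G i z‖ ≤ b i) →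
  ∃ H : E → F, DifferentiableOn ℂ H U ∧ (∀ z ∈ U, Tendsto (fun i => G i z) atTop (𝓝 (H z))) ∧
    (∀ z ∈ U, ∀ i, ‖H z - G i z‖ ≤ ∑' j, b (i + j)) ∧
    ∀ z ∈ U, ∀ w, Tendsto (fun i => fderiv ℂ (G i) z w) atTop (𝓝 (fderiv ℂ H z w))

/-- **TPa.** Two-point lemma.

Proof.  Write `ν_j = wn κ j (Δ j)`.  Note `Q ≥ 0` (take `t = s`).  Since `κ_t(j) |Δ_{j+1,t} - Δ_{j,t}| ≤ ε_j ν_j`, the second
assertion follows from the first with `t = s` (divide by `κ_s(j)`).  First assertion, by induction on `s.val`.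
Case `s.val = 0`: by strong induction on `m` we show `ν_m ≤ 2 Q κ_s(m)`: for every `t` (`s ≤ t`)
`κ_t(m) |Δ_{m,t}| ≤ κ_t(m) |Δ_{0,t}| + ∑_{j<m} κ_t(m) ε_j ν_j / κ_t(j) ≤ κ_s(m) Q + ∑_{j<m} ε_j 2 Q κ_t(m) κ_s(j) / κ_t(j)
≤ κ_s(m) Q (1 + 2 ∑ ε_j) ≤ 2 Q κ_s(m)`, because `κ_t(m) κ_s(j) ≤ κ_t(j) κ_s(m)` for `j ≤ m` (`ratio'`; in particular `j = 0`).
Case `s.val = s' + 1` (`s'` as an element of `Fin k`, `s' < s`): choose `Q' ≥ 0` with `κ_t(0) |Δ_{0,t}| ≤ Q' κ_{s'}(0)` for all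
`t ≥ s'` (finitely many `t`).  By induction `ν_j ≤ 2 Q' κ_{s'}(j)` for all `j`.  Let `τ > 0` and `μ_j = κ_s(j) + τ κ_{s'}(j)`;
`N = sup_j ν_j / μ_j ≤ 2 Q'/τ` is finite (`ciSup`, bounded above), `ν_j ≤ N μ_j`, `N ≥ 0`.  We show `ν_m ≤ (Q + N/8) μ_m` for all `m`:
(1) for `t < s`, so `t ≤ s'`: as `Δ_{j,t} → 0`, `|Δ_{m,t}| ≤ ∑_{j ≥ m} ε_j ν_j / κ_t(j) ≤ ∑_{j ≥ m} ε_j N μ_j / κ_t(j)` and
`κ_t(m) μ_j ≤ κ_t(j) μ_m` for `j ≥ m` (`ratio'` for `t ≤ s` and `t ≤ s'`), so `κ_t(m) |Δ_{m,t}| ≤ N μ_m ∑ ε_j ≤ N μ_m / 8`;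
(2) for `t ≥ s`: `κ_t(m) |Δ_{m,t}| ≤ κ_t(m) |Δ_{0,t}| + ∑_{j<m} κ_t(m) ε_j N μ_j / κ_t(j) ≤ Q κ_s(m) + N μ_m / 8`, because
`κ_t(m) μ_j ≤ κ_t(j) μ_m` for `j ≤ m` (`ratio'` for `s ≤ t` and `s' ≤ t`).
Hence `N ≤ Q + N/8`, so `N ≤ 2 Q` and `ν_m ≤ 2 Q (κ_s(m) + τ κ_{s'}(m))` for all `τ > 0`; let `τ → 0`. -/
def S_TPa : Prop := ∀ (k : ℕ) (κ : Fin k → ℕ → ℝ) (ε : ℕ → ℝ) (Δ : ℕ → Fin k → ℂ) (s : Fin k) (Q : ℝ), IsWt κ →
  (∀ j, 0 ≤ ε j) → Summable ε → ∑' j, ε j ≤ 1 / 8 → (∀ j, wn κ j (Δ (j + 1) - Δ j) ≤ ε j * wn κ j (Δ j)) →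
  (∀ t, t < s → Tendsto (fun j => Δ j t) atTop (𝓝 0)) → (∀ t, s ≤ t → κ t 0 * ‖Δ 0 t‖ ≤ Q * κ s 0) →
  ∀ j, wn κ j (Δ j) ≤ 2 * Q * κ s j ∧ ‖Δ (j + 1) s - Δ j s‖ ≤ 2 * Q * ε j

/-- **TPb.** Two-point lemma, uniqueness.  (Uses `S_TPa`.)

Proof.  `k = 0` is trivial (`Fin 0` is empty).  Otherwise let `s` be the last index and `Q = ‖Δ 0 s‖`.  By `S_TPa` (the only `t ≥ s`
is `s`) `ν_j = wn κ j (Δ j) ≤ 2 Q κ_s(j)`.  So `N = sup_j ν_j / κ_s(j)` is finite, and for every `t` (as `Δ_{j,t} → 0`)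
`κ_t(m) |Δ_{m,t}| ≤ κ_t(m) ∑_{j ≥ m} ε_j ν_j / κ_t(j) ≤ κ_t(m) ∑_{j ≥ m} ε_j N κ_s(j) / κ_t(j) ≤ N κ_s(m) / 8` by `ratio'`
(`t ≤ s`).  Hence `N ≤ N/8`, `N = 0`, and `Δ j = 0`. -/
def S_TPb : Prop := S_TPa → ∀ (k : ℕ) (κ : Fin k → ℕ → ℝ) (ε : ℕ → ℝ) (Δ : ℕ → Fin k → ℂ), IsWt κ →
  (∀ j, 0 ≤ ε j) → Summable ε → ∑' j, ε j ≤ 1 / 8 → (∀ j, wn κ j (Δ (j + 1) - Δ j) ≤ ε j * wn κ j (Δ j)) →
  (∀ t, Tendsto (fun j => Δ j t) atTop (𝓝 0)) → ∀ j, Δ j = 0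

/-- **OB.** Orbits of small points stay small.

Proof.  Take `M`, `ε` from `S.near (2 * |A|)` and `M' ≥ M` with `∑_{j ≥ M'} ε_j ≤ 1/2` (the tails of a convergent series tend to
zero).  Let `m ≥ M'` and `wn m z ≤ A`.  By induction on `i`: `wn (m+i) (orb m i z) ≤ A ∏_{j<i} (1 + ε_{m+j}) ≤ A exp(1/2) ≤ 2 A`;
in the step use `near` with `z' = 0` (`T 0 = 0`, `wn 0 = 0`): `wn (m+i) (T ζ - ζ) ≤ ε wn ζ`, so
`wn (m+i+1) (T ζ) ≤ wn (m+i) (T ζ) ≤ (1 + ε) wn (m+i) ζ` (`wn_anti`).  The point is in the domain by the first part of `near`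
(`2 A ≤ 2 |A|`). -/
def S_OB : Prop := ∀ (k : ℕ) (S : Sys k) (A : ℝ), ∃ M : ℕ, ∀ m ≥ M, ∀ z, wn S.κ m z ≤ A →
  ∀ i, orb S.T m i z ∈ S.dom (m + i) ∧ wn S.κ (m + i) (orb S.T m i z) ≤ 2 * A

/-- **DI.** The increments of the differences of orbits, and of tangent vectors.

Proof.  Take `M`, `ε` from `S.near (|A| + 1)`, and enlarge `M` so that `∑' j, ε (m + j) ≤ δ` for `m ≥ M`.  First part: `near` for
`orb m i z`, `orb m i z'` at the time `m + i`, and `orb_succ`.  Second part: let `ζ = orb m i z` and `v = fderiv (orb m i) z w`;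
`fderiv (orb m (i+1)) z w = fderiv (T (m+i)) ζ v` (`Sys.fderiv_orb_succ`), so we must show
`wn (fderiv (T (m+i)) ζ v - v) ≤ ε wn v`.  For real `h > 0` small `wn (ζ + h v) ≤ |A| + 1` and (near) `wn (T(ζ + h v) - T ζ - h v) ≤ ε h wn v`;
divide by `h` (`wn_smul`) and let `h → 0` (continuity of `wn`, and `(T(ζ + h v) - T ζ)/h → fderiv T ζ v`, `HasFDerivAt.lim` or the
derivative of `h ↦ T (ζ + h v)`). -/
def S_DI : Prop := ∀ (k : ℕ) (S : Sys k) (A δ : ℝ), 0 < δ → ∃ (M : ℕ) (ε : ℕ → ℝ), (∀ j, 0 ≤ ε j) ∧ Summable ε ∧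
  (∀ m ≥ M, ∑' j, ε (m + j) ≤ δ) ∧ ∀ m ≥ M,
    (∀ z z', (∀ i, wn S.κ (m + i) (orb S.T m i z) ≤ A) → (∀ i, wn S.κ (m + i) (orb S.T m i z') ≤ A) →
      ∀ i, wn S.κ (m + i) ((orb S.T m (i + 1) z - orb S.T m (i + 1) z') - (orb S.T m i z - orb S.T m i z')) ≤
        ε (m + i) * wn S.κ (m + i) (orb S.T m i z - orb S.T m i z')) ∧
    ∀ z ∈ S.dom m, (∀ i, wn S.κ (m + i) (orb S.T m i z) ≤ A) → ∀ w i,
      wn S.κ (m + i) (fderiv ℂ (orb S.T m (i + 1)) z w - fderiv ℂ (orb S.T m i) z w) ≤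
        ε (m + i) * wn S.κ (m + i) (fderiv ℂ (orb S.T m i) z w)

/-- **Sec.** Holomorphic sections over balls.  (Uses `S_TPa`, `S_TPb`, `S_OB`, `S_DI`.)

Proof.  Let `(M₀, A₀)` be from `Lev.solv` for `A = max R 1` (with `ζ = 0`), we may take `A₀ ≥ 0`; let `M₁` be from `S_OB` for `A₀ + 1`
and `(M₂, ε)` from `S_DI` for `2 (A₀ + 1)`, `δ = 1/8`.  Put `n = max M₀ M₁ M₂`, `A = 2 (A₀ + 1)`.  Let
`ι : (Fin s → ℂ) →L (Fin k → ℂ)` be the extension by zero (`(ι v) t = v ⟨t, _⟩` for `t.val < s`, else `0`),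
`V = {v | ι v ∈ dom n, wn n (ι v) < A₀ + 1}` (open) and `G v = U n (ι v)`, holomorphic on `V`.  All points `ι v`, `v ∈ V`, have
orbits bounded by `A`.
(1) `G` is injective on `V`: if `G v = G v'`, `Δ j = orb n j (ι v) - orb n j (ι v')` satisfies the hypotheses of the two-point
lemma for the weights `κ t (n + j)` and `ε (n + j)` (`S_DI`), `Δ_{j,t} → 0` for `t.val < s` (`Lev.lim`), and `Δ_{0,t} = 0` for
`t.val ≥ s`.  If `s < k`: `S_TPa` with `s` and `Q = 0` gives `wn (Δ 0) = 0`, so `Δ 0 = 0` (`le_wn`).  If `s = k`: `S_TPb`.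
So `ι v = ι v'`, `v = v'`.
(2) in the same way `fderiv G v w = 0` implies `w = 0`: `Δ j = fderiv (orb n j) (ι v) (ι w)`; `fderiv (U n) (ι v) (ι w) = 0`,
`Lev.dlim`.  So `fderiv G v` is an injective, hence bijective, linear map of `Fin s → ℂ`.
(3) for `‖u‖ < R` there is, by `Lev.solv`, `ζ'` with `ζ'_t = 0` for `t.val ≥ s`, i.e. `ζ' = ι v`, `wn ζ' ≤ A₀`, `v ∈ V`, `G v = u`.
Choose such `g u = v` and let `σ u = ι (g u)`.
(4) `g` is differentiable at `u₀ ∈ ball 0 R`: let `v₀ = g u₀`.  `G` is analytic near `v₀` (`Osgood.analyticAt`), so it has a strict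
derivative at `v₀`, a linear equivalence; let `φ` be the local inverse (`HasStrictFDerivAt.localInverse`): near `u₀`,
`G (φ u) = u`, `φ u ∈ V`, `φ` is differentiable at `u₀`; by (1) `φ u = g u` near `u₀`.
`Sec` holds: `bdd` from `S_OB`. -/
def S_Sec : Prop := S_TPa → S_TPb → S_OB → S_DI → ∀ (k : ℕ) (S : Sys k) (s : ℕ) (U : ℕ → (Fin k → ℂ) → (Fin s → ℂ)), s ≤ k →
  Lev S s U → ∀ R : ℝ, ∃ (A : ℝ) (n : ℕ) (σ : (Fin s → ℂ) → (Fin k → ℂ)), Sec S s U R A n σ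

/-- **Lim.** The limit of the differences of the coordinates number `s`.  (Uses `S_Wei`, `S_TPa`, `S_DI`.)

Proof.  Fix `j`; `D = {z ∈ dom (n+j) | U (n+j) z ∈ ball 0 R}` is open, and for `z ∈ D` let
`G_i z = orb (n+j) i z s - orb n (j+i) (σ (U z)) s`, holomorphic on `D` (`Sys.orb_diff`).  Let `A₁` be a bound of all orbits starting
in `dom (n+j)` (`S.bdd`), `A₂ = max A A₁`, and `(M, ε)` from `S_DI` for `A₂`, `δ = 1/8`; let `l` be such that `m := n + j + l ≥ M`.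
For `z ∈ D`, `x = orb (n+j) l z` and `y = orb n (j+l) (σ (U z))` are in `dom m`, have orbits bounded by `A₂` (`orb_add`), and
`U m x = U m y` (`Lev.orb_comp`, `Sec.val`).  So `Δ i = orb m i x - orb m i y` satisfies the hypotheses of `S_TPa` for the weights
`κ t (m + i)`, `ε (m + i)`, with `Q = 2 A₂ / κ_s(m)` (`κ_t(m) |Δ_{0,t}| ≤ 2 A₂`), and `Δ_{i,t} → 0` for `t < s` (`Lev.lim`).  Hence
`|G_{l+i+1} z - G_{l+i} z| ≤ 2 Q ε (m + i)` on `D`.  `S_Wei` for `i ↦ G_{l+i}` gives `W j` (extended by `0` outside of `D`),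
holomorphic on `D`, `lim`, and the convergence of the derivatives of `G_i`.  `comp`: `G_i (T z)` at `j + 1` is `G_{i+1} z` at `j`
(`orb_succ'`), the limits agree.  `dlim`: if `fderiv (U (n+j)) z w = 0`, the derivative of `z ↦ orb n (j+i) (σ (U z)) s` at `z` in the
direction `w` vanishes (chain rule), so `fderiv (G_i) z w = fderiv (orb (n+j) i) z w s`. -/
def S_Lim : Prop := S_Wei → S_TPa → S_DI → ∀ (k : ℕ) (S : Sys k) (s : Fin k) (U : ℕ → (Fin k → ℂ) → (Fin s.val → ℂ)),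
  Lev S s.val U → ∀ (R A : ℝ) (n : ℕ) (σ : (Fin s.val → ℂ) → (Fin k → ℂ)), Sec S s.val U R A n σ →
  ∃ W : ℕ → (Fin k → ℂ) → ℂ, IsW S s U R n σ W

/-- **Dfn.** The difference of the limit functions of two sections is a function of `U`.

Proof.  Let `N = max n n'`, `N = n + j₀ = n' + j₀'`, and `D u = W j₀ (orb n' j₀' (σ' u))` for `u ∈ ball 0 R` (`⊆ ball 0 R'`): the
point is in `dom N`, and `U N` of it is `u` (`Lev.orb_comp`, `Sec.val`), so `D` is holomorphic on the ball.  Let now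
`n + j = n' + j'`, `z ∈ dom (n + j)`, `u = U z ∈ ball 0 R`, and `y = orb n' j' (σ' u)` (at the time `n' + j' = n + j`; rewrite along this
equality).  By `IsW.lim` (for `W` at `z` and at `y`, and for `W'` at `z`; `U y = u`), since
`(z - σ) - (z - σ') = σ' - σ` along the orbits (`orb_add`), `W j z - W' j' z = W j y`.  Finally `W j y = D u`: `j ≥ j₀`, and `y` is
the image of `orb n' j₀' (σ' u)` under the maps `T`, so iterate `IsW.comp`. -/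
def S_Dfn : Prop := ∀ (k : ℕ) (S : Sys k) (s : Fin k) (U : ℕ → (Fin k → ℂ) → (Fin s.val → ℂ)), Lev S s.val U →
  ∀ (R A : ℝ) (n : ℕ) (σ : (Fin s.val → ℂ) → (Fin k → ℂ)) (W : ℕ → (Fin k → ℂ) → ℂ) (R' A' : ℝ) (n' : ℕ)
    (σ' : (Fin s.val → ℂ) → (Fin k → ℂ)) (W' : ℕ → (Fin k → ℂ) → ℂ), R ≤ R' → Sec S s.val U R A n σ →
    Sec S s.val U R' A' n' σ' → IsW S s U R n σ W → IsW S s U R' n' σ' W' →
    ∃ D : (Fin s.val → ℂ) → ℂ, DifferentiableOn ℂ D (ball 0 R) ∧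
      ∀ j j', n + j = n' + j' → ∀ z ∈ S.dom (n + j), U (n + j) z ∈ ball (0 : Fin s.val → ℂ) R →
        W j z - W' j' z = D (U (n + j) z)

/-- **Cou.** The additive Cousin problem on an exhaustion of `ℂ^s` by balls.

Proof.  (a) Approximation: if `F` is holomorphic on `ball 0 R` and `0 < R' < R`, `ε > 0`, there is an entire `p` with
`‖F - p‖ ≤ ε` on `ball 0 R'`.  [Either from `s_Runge` in `Pool.Agent.Lib.MP_c2a04f_an.Runge` (closed ball, compact convex), or directly: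
`F` is analytic (`Osgood.analyticOnNhd`); `c_n(u) = (1/n!) iteratedFDeriv ℂ n F 0 (fun _ => u)` is an entire function of `u`, and for
`‖u‖ ≤ R'` the function `ζ ↦ F (ζ u)` is holomorphic and bounded by `B` on `|ζ| < R''/R'`, `R' < R'' < R`, with Taylor coefficients
`c_n(u)` (`Osgood.iteratedDeriv_line`), so `|c_n(u)| ≤ B (R'/R'')^n` and `F u = ∑ c_n(u)`; `p` is a partial sum.  Compare
`MP_c2a04f_an/Taylor.lean`.]
(b) Choose `p_i` entire with `‖D i - p_i‖ ≤ 2^{-i}` on `ball 0 (i+1)`.  Put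
`E i u = ∑_{j ≥ i} (D j u - p_j u) - ∑_{j < i} p_j u` on `ball 0 (i+1)`: the series converges uniformly there, since
`ball 0 (i+1) ⊆ ball 0 (j+1)`; so `E i` is holomorphic (`S_Wei`), and `E i - E (i+1) = (D i - p_i) + p_i = D i`. -/
def S_Cou : Prop := S_Wei → ∀ (s : ℕ) (D : ℕ → (Fin s → ℂ) → ℂ), (∀ i : ℕ, DifferentiableOn ℂ (D i) (ball 0 (i + 2))) →
  ∃ E : ℕ → (Fin s → ℂ) → ℂ, (∀ i : ℕ, DifferentiableOn ℂ (E i) (ball 0 (i + 1))) ∧
    ∀ i : ℕ, ∀ u ∈ ball (0 : Fin s → ℂ) (i + 1), E i u - E (i + 1) u = D i u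

/-- The data of the step from `s` to `s + 1`. -/
structure GD {k : ℕ} (S : Sys k) (s : Fin k) (U : ℕ → (Fin k → ℂ) → (Fin s.val → ℂ)) (A : ℕ → ℝ) (n : ℕ → ℕ)
    (σ : ℕ → (Fin s.val → ℂ) → (Fin k → ℂ)) (W : ℕ → ℕ → (Fin k → ℂ) → ℂ) (E : ℕ → (Fin s.val → ℂ) → ℂ) : Prop where
  lev : Lev S s.val U
  sec : ∀ i : ℕ, Sec S s.val U (i + 2) (A i) (n i) (σ i)
  w : ∀ i : ℕ, IsW S s U (i + 2) (n i) (σ i) (W i)
  diffE : ∀ i : ℕ, DifferentiableOn ℂ (E i) (ball 0 (i + 1))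
  glue : ∀ i j j' : ℕ, n i + j = n (i + 1) + j' → ∀ z ∈ S.dom (n i + j),
    U (n i + j) z ∈ ball (0 : Fin s.val → ℂ) (i + 1) →
    W i j z - W (i + 1) j' z = E i (U (n i + j) z) - E (i + 1) (U (n i + j) z)

/-- `V` is the new coordinate. -/
def IsV {k : ℕ} (S : Sys k) (s : Fin k) (U : ℕ → (Fin k → ℂ) → (Fin s.val → ℂ)) (n : ℕ → ℕ)
    (W : ℕ → ℕ → (Fin k → ℂ) → ℂ) (E : ℕ → (Fin s.val → ℂ) → ℂ) (V : ℕ → (Fin k → ℂ) → ℂ) : Prop :=
  ∀ i j m l : ℕ, m + l = n i + j → ∀ z ∈ S.dom m, U m z ∈ ball (0 : Fin s.val → ℂ) (i + 1) →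
    V m z = W i j (orb S.T m l z) - E i (U m z)

/-- **GDx.** Existence of the data.  (Uses `S_Sec`, `S_Lim`, `S_Dfn`, `S_Cou`, in the form of their conclusions.)

Proof.  `S_Sec` with `R = i + 2`, `S_Lim`, `S_Dfn` for `i` and `i + 1` (`R = i + 2 ≤ R' = i + 3`; casts `((i+1 : ℕ) : ℝ) + 2`), and `S_Cou` for the
resulting `D i`. -/
def S_GDx : Prop := S_Wei → S_TPa → S_TPb → S_OB → S_DI → S_Sec → S_Lim → S_Dfn → S_Cou →
  ∀ (k : ℕ) (S : Sys k) (s : Fin k) (U : ℕ → (Fin k → ℂ) → (Fin s.val → ℂ)), Lev S s.val U →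
  ∃ A n σ W E, GD S s U A n σ W E

/-- **Glu.** The new coordinate is well defined.

Proof.  For `z ∈ dom m` and `i` with `‖U m z‖ < i + 1` let `v_i(z) = W i j (orb m l z) - E i (U m z)`, where `m + l = n i + j`.  It does
not depend on the pair `(l, j)`: passing from `(l, j)` to `(l+1, j+1)` does not change `W i j (orb m l z)` (`IsW.comp`, note
`U (m+l) (orb m l z) = U m z`, `Lev.orb_comp`); any two pairs differ by such steps.  And `v_i(z) = v_{i+1}(z)`: take a pair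
`(l, j)`, `(l, j')` with the same large `l` and use `glue` at the point `orb m l z ∈ dom (m + l)`, `m + l = n i + j = n (i+1) + j'`.  So
`v_i(z) = v_{i'}(z)` for all `i, i' > ‖U m z‖ - 1` (induction).  Define `V m z` as `v_i(z)` for `i = ⌈‖U m z‖⌉₊`. -/
def S_Glu : Prop := ∀ (k : ℕ) (S : Sys k) (s : Fin k) (U : ℕ → (Fin k → ℂ) → (Fin s.val → ℂ)) (A : ℕ → ℝ) (n : ℕ → ℕ)
  (σ : ℕ → (Fin s.val → ℂ) → (Fin k → ℂ)) (W : ℕ → ℕ → (Fin k → ℂ) → ℂ) (E : ℕ → (Fin s.val → ℂ) → ℂ),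
  GD S s U A n σ W E → ∃ V, IsV S s U n W E V

/-- **LvA.** The new functions `(U, V)`: holomorphic, compatible, limits.

Proof.  `U' m z = Fin.snoc (U m z) (V m z)` (`differentiableOn_pi`).  Let `z ∈ dom m`; choose `i` with `‖U m z‖ < i + 1` and
`(l, j)` with `m + l = n i + j`.  Near `z` (open set where `‖U m‖ < i + 1`) `V m = W i j ∘ orb m l - E i ∘ U m` is holomorphic (`IsW.diff`,
`ball 0 (i+1) ⊆ ball 0 (i+2)`, and `U (m+l) (orb m l z) = U m z`).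
`comp`: `V (m+1) (T z) = V m z` by `IsV` with `(l, j)` for `m + 1` and `(l + 1, j)` for `m` (`orb_succ'`).
`lim`: `U' m z = U' m z'` gives `U m z = U m z'` and `V m z = V m z'`, so `W i j (orb m l z) = W i j (orb m l z')`; by `IsW.lim` at
`orb m l z` and `orb m l z'` (same value of `U`, so the same section point) the difference of the coordinates number `s` of the
orbits tends to `0` (`orb_add`; `tendsto_add_atTop_iff_nat` to shift by `l`).  For `t.val < s.val` use `Lev.lim`.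
`dlim`: if `fderiv (U' m) z w = 0` then `fderiv (U m) z w = 0` and `fderiv (V m) z w = 0`, so with `x = orb m l z`,
`v = fderiv (orb m l) z w`: `fderiv (W i j) x v = 0` (the term with `E i` has derivative `0`), and `fderiv (U (m+l)) x v = 0` (since
`U (m+l) ∘ orb m l = U m` near `z`); by `IsW.dlim` `fderiv (orb (m+l) i') x v s → 0`, and this is `fderiv (orb m (l+i')) z w s` (chain rule,
`orb_add`). -/
def S_LvA : Prop := ∀ (k : ℕ) (S : Sys k) (s : Fin k) (U : ℕ → (Fin k → ℂ) → (Fin s.val → ℂ)) (A : ℕ → ℝ) (n : ℕ → ℕ)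
  (σ : ℕ → (Fin s.val → ℂ) → (Fin k → ℂ)) (W : ℕ → ℕ → (Fin k → ℂ) → ℂ) (E : ℕ → (Fin s.val → ℂ) → ℂ)
  (V : ℕ → (Fin k → ℂ) → ℂ), GD S s U A n σ W E → IsV S s U n W E V →
  (∀ m, DifferentiableOn ℂ (fun z => (Fin.snoc (U m z) (V m z) : Fin (s.val + 1) → ℂ)) (S.dom m)) ∧
  (∀ m, ∀ z ∈ S.dom m, (Fin.snoc (U (m + 1) (S.T m z)) (V (m + 1) (S.T m z)) : Fin (s.val + 1) → ℂ) =
    Fin.snoc (U m z) (V m z)) ∧
  (∀ m, ∀ z ∈ S.dom m, ∀ z' ∈ S.dom m, (Fin.snoc (U m z) (V m z) : Fin (s.val + 1) → ℂ) = Fin.snoc (U m z') (V m z') →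
    ∀ t : Fin k, t.val < s.val + 1 → Tendsto (fun i => orb S.T m i z t - orb S.T m i z' t) atTop (𝓝 0)) ∧
  ∀ m, ∀ z ∈ S.dom m, ∀ w, fderiv ℂ (fun z => (Fin.snoc (U m z) (V m z) : Fin (s.val + 1) → ℂ)) z w = 0 →
    ∀ t : Fin k, t.val < s.val + 1 → Tendsto (fun i => fderiv ℂ (orb S.T m i) z w t) atTop (𝓝 0)

/-- **LvB.** The new functions `(U, V)`: solvability.  (Uses `S_TPa`, `S_OB`, `S_DI`.)

Proof.  We may assume `A ≥ 0`; choose `i` with `A < i + 1`; data `n_i, σ_i` (orbits bounded by `A_σ ≥ 0`), `W = W i`, `E = E i`, and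
`B ≥ 0` a bound of `|E|` on the closed ball of radius `A` (compact in `ball 0 (i+1)`).  Let `K₀ = κ_s(0)` and
`A₂ = 2 (A + A_σ) + 2 K₀ (A + B) + 1`.  `Lev.solv` of `U` for `A₂`: `(M₁, A₁)`, `A₁ ≥ 0`.  `S_OB` for `A₁`: `M₂`.  `A₃ = max (2 A₁) A_σ`; `S_DI` for
`A₃`, `δ = 1/8`: `(M₃, ε)`.  Let `M = max` of all and of `n_i`, `A' = A₁`.
Let `m ≥ M`, `m = n_i + j`, `u'` with `‖u'‖ ≤ A`, `u = init u'`, `u_s = u' last`, `ζ` with `κ_t(m) |ζ_t| ≤ A` for `t.val ≥ s + 1`.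
For `a ∈ ℂ` with `κ_s(m) |a| ≤ A₂` let `g(a)` be a solution given by `Lev.solv`: `g(a)_t = ζ_t` for `t > s`, `g(a)_s = a`,
`wn (g a) ≤ A₁`, `g(a) ∈ dom m`, `U (g a) = u`; and `h(a) = W j (g a)`.  All `g(a)` have orbits bounded by `2 A₁ ≤ A₃`.
(1) For `a, a'`: `Δ i = orb m i (g a) - orb m i (g a')`; `Δ_{i,t} → 0` for `t < s` (`Lev.lim`), `Δ_0` has the coordinate `a - a'` at `s`
and `0` at `t > s`; `S_TPa` with `Q = |a - a'|` gives `|Δ_{i+1,s} - Δ_{i,s}| ≤ 2 Q ε (m+i)`, so the limit of `Δ_{i,s}`, which is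
`h(a) - h(a')` (`IsW.lim` twice, same section point), satisfies `|h(a) - h(a') - (a - a')| ≤ 2 Q ∑ ε ≤ |a - a'|/4`.
(2) Let `y = orb n_i j (σ_i u) ∈ dom m`, `a₀ = y_s`, so `κ_s(m) |a₀| ≤ A_σ`.  For `Δ i = orb m i (g a₀) - orb m i y` (`U y = u`): `Δ_{0,s} = 0`,
`κ_t(m) |Δ_{0,t}| ≤ A + A_σ` for `t > s`; `S_TPa` with `Q = (A + A_σ)/κ_s(m)`: the limit of `Δ_{i,s}`, which is `h(a₀)` by `IsW.lim`
(`orb m i y = orb n_i (j+i) (σ_i u)`), has absolute value at most `2 Q/8 ≤ (A + A_σ)/(4 κ_s(m))`.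
(3) Let `c = u_s + E u`, `|c| ≤ A + B`, and `ρ = 2 (|c| + |h(a₀)|)`.  For `|a - a₀| ≤ ρ`:
`κ_s(m) |a| ≤ A_σ + 2 K₀ (A + B) + (A + A_σ)/2 ≤ A₂`.  The map `a ↦ a - h(a) + c` maps the closed disc of radius `ρ` around `a₀` into
itself (`|a - h(a) + c - a₀| ≤ |a - a₀|/4 + |c| + |h(a₀)| ≤ ρ/4 + ρ/2`) and is a contraction with factor `1/4` by (1); so there is `a` with
`h(a) = c` (Banach, `ContractingWith.exists_fixedPoint'` on a complete set).  `ζ' = g(a)`: `V m (g a) = W j (g a) - E u = u_s`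
(`IsV` with `l = 0`; `U (g a) = u ∈ ball 0 (i+1)`). -/
def S_LvB : Prop := S_TPa → S_OB → S_DI → ∀ (k : ℕ) (S : Sys k) (s : Fin k) (U : ℕ → (Fin k → ℂ) → (Fin s.val → ℂ))
  (A : ℕ → ℝ) (n : ℕ → ℕ) (σ : ℕ → (Fin s.val → ℂ) → (Fin k → ℂ)) (W : ℕ → ℕ → (Fin k → ℂ) → ℂ)
  (E : ℕ → (Fin s.val → ℂ) → ℂ) (V : ℕ → (Fin k → ℂ) → ℂ), GD S s U A n σ W E → IsV S s U n W E V →
  ∀ A : ℝ, ∃ (M : ℕ) (A' : ℝ), ∀ m ≥ M, ∀ u : Fin (s.val + 1) → ℂ, ‖u‖ ≤ A → ∀ ζ : Fin k → ℂ,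
    (∀ t : Fin k, s.val + 1 ≤ t.val → S.κ t m * ‖ζ t‖ ≤ A) →
    ∃ ζ' : Fin k → ℂ, (∀ t : Fin k, s.val + 1 ≤ t.val → ζ' t = ζ t) ∧ wn S.κ m ζ' ≤ A' ∧
      ζ' ∈ S.dom m ∧ Fin.snoc (U m ζ') (V m ζ') = u

/-- **Ind.** All coordinates.  (Uses all the above, in the form of their conclusions.)

Proof.  Induction on `s ≤ k`: there is `U` with `Lev S s U`.  `s = 0`: `U m z` is the unique element of `Fin 0 → ℂ`; `solv`: `ζ' = ζ`,
`A' = max A 0` (`wn_le`), `M` from `S.near A'`.  Step: `S_GDx`, `S_Glu`, `S_LvA`, `S_LvB`. -/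
def S_Ind : Prop := S_Wei → S_TPa → S_TPb → S_OB → S_DI → S_Sec → S_Lim → S_Dfn → S_Cou → S_GDx → S_Glu → S_LvA → S_LvB →
  ∀ (k : ℕ) (S : Sys k), ∃ U : ℕ → (Fin k → ℂ) → (Fin k → ℂ), Lev S k U

/-- **NF.** The direct limit of a normalised system is `ℂ^k`.  (Uses `S_TPa`, `S_TPb`, `S_DI`.)

Proof.  `Ψ = U`.  Holomorphic and compatible by `Lev`.  Injective: let `U m z = U m z'`, `z, z' ∈ dom m`; then all coordinates of
`orb m i z - orb m i z'` tend to `0` (`Lev.lim`).  Let `A` be a bound of the orbits starting in `dom m` (`S.bdd`), `(M, ε)` from `S_DI` for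
`A`, `1/8`, and `l` with `m + l ≥ M`.  `S_TPb` for `Δ i = orb (m+l) i (orb m l z) - orb (m+l) i (orb m l z')` gives `Δ 0 = 0`, so
`orb m l z = orb m l z'` and `z = z'` (`Sys.orb_inj`).  In the same way `fderiv (U m) z w = 0` gives
`Δ i = fderiv (orb m (l+i)) z w → 0` (`Lev.dlim`; these are the tangent vectors `fderiv (orb (m+l) i) (orb m l z) v`, `v = fderiv (orb m l) z w`, so
that the second part of `S_DI` applies), so `v = 0` and `w = 0` (`Sys.orb_dinj`).  Surjective: `Lev.solv` with `A = ‖u‖`, `ζ = 0`, `m = M`. -/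
def S_NF : Prop := S_TPa → S_TPb → S_DI → ∀ (k : ℕ) (S : Sys k) (U : ℕ → (Fin k → ℂ) → (Fin k → ℂ)), Lev S k U →
  (∀ m, DifferentiableOn ℂ (U m) (S.dom m)) ∧ (∀ m, ∀ z ∈ S.dom m, U (m + 1) (S.T m z) = U m z) ∧
  (∀ m, InjOn (U m) (S.dom m)) ∧ (∀ m, ∀ z ∈ S.dom m, ∀ w, fderiv ℂ (U m) z w = 0 → w = 0) ∧
  ∀ u, ∃ m, ∃ z ∈ S.dom m, U m z = u

end Pool.Agent.Lib.Bed
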