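import Pool.Agent.Lib.Bed.DefsM
import Pool.Agent.Lib.Bed.SpecN

/-!
# MP_6f050a_an, part M: from a hyperbolic set to sequences of germs

Every task: prove `theorem sX : S_X` (namespace `Pool.Agent.Lib.Bed`) in the file named in the task; auxiliary lemmas in the
namespace `Pool.Agent.Lib.Bed.sXAux`.  Statements used in a proof are hypotheses inside the definitions.  All proofs are complete
in the docstrings.  `TangentSpace 𝓘(ℂ, E) x` is by definition `E`; `nE`, `dg`, `du`, `sE` (file `DefsM.lean`) are `nrm`, `mfderiv`, `Es`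
with the tangent spaces replaced by `E` (all equal by `rfl`).  Cauchy estimates: `Pool.Agent.Lib.Osgood` (`norm_fderiv_le`,
`norm_fderiv_le'`, `differentiableOn_fderiv`, `analyticAt`).
-/

set_option autoImplicit false

open scoped Manifold ContDiff Topology
open Set Filter Metric

namespace Pool.Agent.Lib.Bed

/-- **UCf.** Uniform continuity near a compact set.

Proof.  For every `y ∈ K` there is `δ_y > 0` such that `dist q y < 2 δ_y` implies `q ∈ U` and `dist (g q) (g y) < ε/2`.  Finitely many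
balls `ball y δ_y` cover `K`; let `δ` be the minimum of their `δ_y`.  If `x ∈ K`, `dist q x < δ`, choose `y` with `dist x y < δ_y`;
then `q` and `x` are in `ball y (2 δ_y)`. -/
def S_UCf : Prop := ∀ (X Y : Type) [MetricSpace X] [MetricSpace Y] (K U : Set X) (g : X → Y), IsCompact K → IsOpen U →
  K ⊆ U → ContinuousOn g U → ∀ ε > 0, ∃ δ > 0, ∀ x ∈ K, ∀ q, dist q x < δ → q ∈ U ∧ dist (g q) (g x) < ε

/-- **NrC.** The norm in a chart.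

Proof.  `φ = chartAt E x₀`; `φ.symm` is `C^1` on the open set `φ.target` (`contMDiffOn_chart_symm`), so its tangent map is continuous
over `φ.target` (`ContMDiffOn.continuousOn_tangentMapWithin`, `tangentMapWithin_eq_tangentMap` on open sets or
`mfderivWithin_of_isOpen`).  Compose with `E × E ≃ₜ TangentBundle 𝓘(ℂ, E) E` (`tangentBundleModelSpaceHomeomorph`, or prove directly that
`q ↦ (⟨q.1, q.2⟩ : TangentBundle 𝓘(ℂ, E) E)` is continuous) and with `IsFinsler.cont`.  Injectivity of the derivative: `φ ∘ φ.symm = id` on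
`φ.target`, both are differentiable (`mdifferentiableAt_atlas`, `mdifferentiableAt_atlas_symm`), chain rule. -/
def S_NrC : Prop := ∀ (E : Type) [NormedAddCommGroup E] [NormedSpace ℂ E] [FiniteDimensional ℂ E] (X : Type) [MetricSpace X]
  [ChartedSpace E X] [IsManifold 𝓘(ℂ, E) 1 X] (nrm : (x : X) → TangentSpace 𝓘(ℂ, E) x → ℝ), IsFinsler nrm → ∀ x₀ : X,
  ContinuousOn (fun q : E × E => nE nrm ((chartAt E x₀).symm q.1) (du (chartAt E x₀).symm q.1 q.2))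
    ((chartAt E x₀).target ×ˢ univ) ∧
  ∀ y ∈ (chartAt E x₀).target, ∀ w : E, du (chartAt E x₀).symm y w = 0 → w = 0

/-- **UC.** Uniform charts near a compact set.  (Uses `S_NrC`, `S_UCf`.)

Proof.  If `K` is empty all is trivial (`ρ = a = b = 1`).  For `x₀ ∈ K` let `φ = chartAt E x₀` and `R > 0` (depending on `x₀`) with
`closedBall (φ x₀) (2R) ⊆ φ.target`; `U(x₀) = φ.source ∩ φ⁻¹(ball (φ x₀) R)` is open and contains `x₀`.  Finitely many `U(x₀)`, `x₀ ∈ t`, cover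
`K`; `ρ` is the minimum of their `R`.  For `x ∈ K` choose `c = c(x) ∈ t` with `x ∈ U(c)`, and let `φ = chartAt E c`,
`ψ x v = φ.symm (φ x + v)`, `χ x q = φ q - φ x` (for `v ∈ ball 0 ρ`, `φ x + v ∈ ball (φ c) (2R) ⊆ φ.target`).  `zero`, `left` are clear; `diff`, `diff'`:
`mdifferentiableAt_atlas_symm`, `mdifferentiableAt_atlas` and the translations.
`near`: for each `c ∈ t`, `φ.symm` is uniformly continuous on the compact set `closedBall (φ c) (2R)` (`E` is proper).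
`near'`: for each `c ∈ t` the set `K_c = {x ∈ K | x ∈ φ.source, φ x ∈ closedBall (φ c) R} = K ∩ φ.symm '' closedBall (φ c) R` is compact; apply
`S_UCf` to `K_c`, `U = φ.source`, `g = φ` and `min ε ρ`: if `dist q x < δ` then `v = φ q - φ x` has norm `< min ε ρ` and `ψ x v = q`.
`low`, `up`: `du (ψ x) 0 w = du φ.symm (φ x) w` (chain rule, translation).  For each `c ∈ t` the function of `S_NrC` is continuous and
positive (`IsFinsler.pos`, the derivative is injective) on the compact set `closedBall (φ c) R ×ˢ sphere 0 1`; let `a_c > 0`, `b_c` be bounds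
(if the set is empty take `1`), `a = min a_c`, `b = max b_c`.  For general `w ≠ 0` write `w = ‖w‖ • w'` and use `IsFinsler.smul`. -/
def S_UC : Prop := S_NrC → S_UCf → ∀ (E : Type) [NormedAddCommGroup E] [NormedSpace ℂ E] [FiniteDimensional ℂ E] (X : Type)
  [MetricSpace X] [ChartedSpace E X] [IsManifold 𝓘(ℂ, E) 1 X] (nrm : (x : X) → TangentSpace 𝓘(ℂ, E) x → ℝ),
  IsFinsler nrm → ∀ K : Set X, IsCompact K →
  ∃ (ψ : X → E → X) (χ : X → X → E) (ρ a b : ℝ), UCh nrm K ψ χ ρ a b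

/-- **Loc.** A holomorphic map in the uniform charts.  (Uses `S_UCf`.)

Proof.  `near'` for `min ε ρ` gives `δ₁`; `S_UCf` (`U = univ`, `g`) for `δ₁` gives `δ₂`; `near` for `δ₂` gives `δ₃`; `ρ' = min δ₃ ρ`.  Let `x ∈ K`,
`v ∈ ball 0 ρ'`: `dist (ψ x v) x < δ₂`, `dist (g (ψ x v)) (g x) < δ₁`, `g x ∈ K`, so `g (ψ x v) = ψ (g x) v'` with `v' ∈ ball 0 ρ`, `‖v'‖ < ε`, and
`loc v = χ (g x) (ψ (g x) v') = v'` (`left`).  This gives `small`, `comm`; `zero`: `loc 0 = χ (g x) (g x) = χ (g x) (ψ (g x) 0) = 0`; `diff`: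
`MDifferentiableAt` of `χ (g x)` at `ψ (g x) v' = g (ψ x v)` (`diff'`), of `g`, and of `ψ x` at `v` (`mdifferentiableAt_iff_differentiableAt`).
`deriv`: `ψ (g x) ∘ loc = g ∘ ψ x` near `0`, chain rule at `0` (`mfderiv_comp`, `mfderiv_eq_fderiv`, `loc 0 = 0`, `ψ x 0 = x`). -/
def S_Loc : Prop := S_UCf → ∀ (E : Type) [NormedAddCommGroup E] [NormedSpace ℂ E] (X : Type)
  [MetricSpace X] [ChartedSpace E X] (nrm : (x : X) → TangentSpace 𝓘(ℂ, E) x → ℝ) (K : Set X) (ψ : X → E → X)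
  (χ : X → X → E) (ρ a b : ℝ), IsCompact K → UCh nrm K ψ χ ρ a b → ∀ g : X → X, MDifferentiable 𝓘(ℂ, E) 𝓘(ℂ, E) g →
  MapsTo g K K → ∀ ε > 0, ∃ ρ', ULoc K ψ χ ρ g ρ' ε

/-- **Bnd.** The derivative of `g` is bounded over `K`.  (Uses `S_Loc` in the form of its conclusion, for `ε = 1`.)

Proof.  Let `ρ'` be from the hypothesis for `ε = 1`.  By Cauchy (`Osgood.norm_fderiv_le`) `‖fderiv (loc g x) 0‖ ≤ 1/ρ'`.  `du (ψ x) 0` is injective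
(`low`), hence surjective: `v = du (ψ x) 0 w`, `a ‖w‖ ≤ nE x v`.  By `deriv` and `up`
`nE (g x) (dg g x v) = nE (g x) (du (ψ (g x)) 0 (fderiv (loc g x) 0 w)) ≤ b ‖w‖ / ρ' ≤ b/(a ρ') nE x v`. -/
def S_Bnd : Prop := ∀ (E : Type) [NormedAddCommGroup E] [NormedSpace ℂ E] [FiniteDimensional ℂ E] (X : Type)
  [MetricSpace X] [ChartedSpace E X] (nrm : (x : X) → TangentSpace 𝓘(ℂ, E) x → ℝ) (K : Set X) (ψ : X → E → X)
  (χ : X → X → E) (ρ a b : ℝ), UCh nrm K ψ χ ρ a b → ∀ g : X → X, MapsTo g K K → (∃ ρ', ULoc K ψ χ ρ g ρ' 1) →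
  ∃ M : ℝ, 1 ≤ M ∧ ∀ x ∈ K, ∀ v : E, nE nrm (g x) (dg g x v) ≤ M * nE nrm x v

/-- **Ang.** The angle between `Es` and `Eu` is bounded from below.

Proof.  Let `n` be such that `C lam^n ≤ 1/2` and let `M ≥ 1` be a bound of the derivative `D` of `f^[n]` (hypothesis for `g = f^[n]`, which maps `K`
into itself).  Let `v ∈ Es x`, `w ∈ Eu x`.  `nE (D v) ≤ nE v / 2` (`contr`), `nE w ≤ nE (D w) / 2` (`expand`; `dit f n x` is `dg (f^[n]) x`).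
If `nE w ≤ nE v / 2`: `nE (v + w) ≥ nE v - nE w ≥ nE v / 2` (`nE (-w) = nE w`, `IsFinsler.smul` with `r = -1`).  If `nE w > nE v / 2`:
`M nE (v + w) ≥ nE (D (v + w)) ≥ nE (D w) - nE (D v) ≥ 2 nE w - nE v / 2 ≥ nE v / 2`.  So `C' = 2 M`. -/
def S_Ang : Prop := ∀ (E : Type) [NormedAddCommGroup E] [NormedSpace ℂ E] (X : Type) [MetricSpace X] [ChartedSpace E X] [IsManifold 𝓘(ℂ, E) 1 X]
  (nrm : (x : X) → TangentSpace 𝓘(ℂ, E) x → ℝ) (f : X ≃ X) (K : Set X)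
  (Es Eu : (x : X) → Submodule ℂ (TangentSpace 𝓘(ℂ, E) x)) (C lam : ℝ), IsFinsler nrm → IsHyp nrm f K Es Eu C lam →
  (∀ n : ℕ, ∃ M : ℝ, 1 ≤ M ∧ ∀ x ∈ K, ∀ v : E, nE nrm (f^[n] x) (dg (f^[n]) x v) ≤ M * nE nrm x v) →
  ∃ C' : ℝ, 0 < C' ∧ ∀ x ∈ K, ∀ v ∈ sE Es x, ∀ w ∈ sE Eu x, nE nrm x v ≤ C' * nE nrm x (v + w)

/-- **Frame.** Adapted frames of a splitting, with uniform constants.

Proof.  Let `d = finrank E` and `T : E ≃L EuclideanSpace ℂ (Fin d)` (`ContinuousLinearEquiv.ofFinrankEq`), `‖T x‖ ≤ c₂ ‖x‖`,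
`‖T⁻¹ y‖ ≤ c₁ ‖y‖`.  For a subspace `F` of dimension `k` let `b` be an orthonormal basis of `T(F)` (`stdOrthonormalBasis`, reindexed by `Fin k`) and
`ι_F z = ∑ z_i b_i`; `‖ι_F z‖² = ∑ |z_i|²`, so `‖z‖ ≤ ‖ι_F z‖ ≤ √k ‖z‖ ≤ (d+1) ‖z‖` (sup norm).  Let `e (z, w) = T⁻¹ (ι_F z + ι_G w)`, a linear
equivalence as `E = F ⊕ G`.  `‖e (z, w)‖ ≤ 2 c₁ (d+1) ‖(z, w)‖`.  With `v = T⁻¹ ι_F z ∈ F`, `v' = T⁻¹ ι_G w ∈ G`:
`‖z‖ ≤ ‖T v‖ ≤ c₂ ‖v‖ ≤ c₂ γ ‖v + v'‖`, `‖w‖ ≤ c₂ ‖v'‖ ≤ c₂ (‖v + v'‖ + ‖v‖) ≤ c₂ (1 + γ) ‖v + v'‖`. -/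
def S_Frame : Prop := ∀ (E : Type) [NormedAddCommGroup E] [NormedSpace ℂ E] [FiniteDimensional ℂ E], ∃ C : ℝ, 0 < C ∧
  ∀ (F G : Submodule ℂ E) (k l : ℕ) (γ : ℝ), Module.finrank ℂ F = k → Module.finrank ℂ G = l → IsCompl F G → 0 ≤ γ →
  (∀ v ∈ F, ∀ w ∈ G, ‖v‖ ≤ γ * ‖v + w‖) → ∃ e : V k l ≃L[ℂ] E, (∀ z, e (z, 0) ∈ F) ∧ (∀ w, e (0, w) ∈ G) ∧
    (∀ v, ‖e v‖ ≤ C * ‖v‖) ∧ ∀ v, ‖v‖ ≤ C * (1 + γ) * ‖e v‖

/-- **Dm.** Invariance and dimension of the bundles along the orbit of `p`.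

Proof.  `dit f (n+1) x = mfderiv f (f^[n] x) ∘ dit f n x` (chain rule, `Function.iterate_succ'`).  So `dit f n x` maps `Es x` onto
`Es (f^[n] x)` by induction (`map_s`; `K` is invariant: `image`).  `dit f n x` is injective: `f.symm^[n] ∘ f^[n] = id`, chain rule.  Hence the
dimensions agree (`LinearMap.finrank_map_eq` or `LinearEquiv.finrank_eq` of `Submodule.equivMapOfInjective`). -/
def S_Dm : Prop := ∀ (E : Type) [NormedAddCommGroup E] [NormedSpace ℂ E] [FiniteDimensional ℂ E] (X : Type) [MetricSpace X]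
  [ChartedSpace E X] [IsManifold 𝓘(ℂ, E) 1 X] (nrm : (x : X) → TangentSpace 𝓘(ℂ, E) x → ℝ) (f : X ≃ X) (K : Set X)
  (Es Eu : (x : X) → Submodule ℂ (TangentSpace 𝓘(ℂ, E) x)) (C lam : ℝ), IsHyp nrm f K Es Eu C lam → ∀ x ∈ K, ∀ n : ℕ,
    f^[n] x ∈ K ∧ (∀ v ∈ sE Es x, dg (f^[n]) x v ∈ sE Es (f^[n] x)) ∧ (∀ v ∈ sE Eu x, dg (f^[n]) x v ∈ sE Eu (f^[n] x)) ∧
    Module.finrank ℂ (sE Es (f^[n] x)) = Module.finrank ℂ (sE Es x) ∧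
    Module.finrank ℂ (sE Eu (f^[n] x)) = Module.finrank ℂ (sE Eu x) ∧ (∀ v : E, dg (f^[n]) x v = 0 → v = 0) ∧
    ∀ (m : ℕ) (v : E), dg (f^[n + m]) x v = dg (f^[m]) (f^[n] x) (dg (f^[n]) x v)

/-- **Frm.** Adapted frames along the orbit of `p`.  (Uses `S_Frame`, `S_Dm`, the angle bound, the existence of `ULoc` for `f^[N]` and its
inverse.)

Proof.  Notation: `D_x = du (ψ x) 0 : E → E`, bijective for `x ∈ K` (`low`), `a ‖w‖ ≤ nE x (D_x w) ≤ b ‖w‖`; `Fs x`, `Fu x` the preimages of `Es x`,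
`Eu x` under `D_x` (`IsCompl`, same dimensions; for `x = f^[n] p` these are `k` and `l` by `S_Dm`).  For `v ∈ Fs x`, `w ∈ Fu x`:
`‖v‖ ≤ a⁻¹ nE (D v) ≤ a⁻¹ C' nE (D (v + w)) ≤ a⁻¹ C' b ‖v + w‖`, so `S_Frame` with `γ = C' b / a` gives `e_x` with the constant
`C₁ = C_F (1 + γ)`, for every `x` in the orbit of `p` (`C₁` does not depend on `N`).  Choose `N ≥ 1` with `C₁² a⁻¹ C lam^N b ≤ 1/8`.
Let `x_n = f^[N n] p`, `e n = e_{x_n}`, `L_n = fderiv (loc (f^[N]) x_n) 0`, so `D_{x_{n+1}} L_n w = dg (f^[N]) x_n (D_{x_n} w)` (`ULoc.deriv`,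
`f^[N] x_n = x_{n+1}`).  Hence `L_n` maps `Fs x_n` into `Fs x_{n+1}`, `Fu x_n` into `Fu x_{n+1}`, and
`‖L_n w‖ ≤ a⁻¹ C lam^N b ‖w‖` on `Fs`, `‖w‖ ≤ a⁻¹ C lam^N b ‖L_n w‖` on `Fu` (`contr`, `expand`).  `(e (n+1))⁻¹ L_n e n` maps `ℂ^k × 0` and
`0 × ℂ^l` into themselves (`(e (n+1))⁻¹ (Fs x_{n+1}) = ℂ^k × 0` as `e (n+1)` maps `ℂ^k × 0` into `Fs x_{n+1}`, and the dimensions agree; or use
`IsCompl`); let `A n`, `B n` be the two blocks.  `A_le`, `B_ge`: `‖A n z‖ ≤ C₁ ‖L_n (e n (z,0))‖ ≤ C₁ a⁻¹ C lam^N b C₁ ‖z‖ ≤ ‖z‖/8`, and similarly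
`‖y‖ ≤ ‖B n y‖ / 8`.  `A_ge`: let `L'_n = fderiv (loc (f.symm^[N]) x_{n+1}) 0`, `‖L'_n‖ ≤ 1/ρ''` with the `ρ''` of the hypothesis for `f.symm^[N]`,
`ε = 1` (Cauchy); `D_{x_n} L'_n L_n w = dg (f.symm^[N]) x_{n+1} (dg (f^[N]) x_n (D w)) = D w`, so `L'_n L_n w = w`, `‖w‖ ≤ ‖L_n w‖/ρ''`, and
`‖A n z‖ ≥ C₁⁻¹ ‖L_n (e n (z,0))‖ ≥ C₁⁻¹ ρ'' C₁⁻¹ ‖z‖`. -/
def S_Frm : Prop := S_Frame → S_Dm → ∀ (E : Type) [NormedAddCommGroup E] [NormedSpace ℂ E] [FiniteDimensional ℂ E] (X : Type)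
  [MetricSpace X] [ChartedSpace E X] [IsManifold 𝓘(ℂ, E) 1 X] (nrm : (x : X) → TangentSpace 𝓘(ℂ, E) x → ℝ) (f : X ≃ X) (K : Set X)
  (Es Eu : (x : X) → Submodule ℂ (TangentSpace 𝓘(ℂ, E) x)) (C lam : ℝ) (ψ : X → E → X) (χ : X → X → E) (ρ a b : ℝ),
  IsFinsler nrm → IsHyp nrm f K Es Eu C lam → UCh nrm K ψ χ ρ a b →
  (∀ n : ℕ, (∃ ρ', ULoc K ψ χ ρ (f^[n]) ρ' 1) ∧ ∃ ρ', ULoc K ψ χ ρ (f.symm^[n]) ρ' 1) →
  (∃ C' : ℝ, 0 < C' ∧ ∀ x ∈ K, ∀ v ∈ sE Es x, ∀ w ∈ sE Eu x, nE nrm x v ≤ C' * nE nrm x (v + w)) → ∀ p ∈ K,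
  ∃ (N k l : ℕ) (e : ℕ → V k l ≃L[ℂ] E) (A : ℕ → (Fin k → ℂ) →L[ℂ] (Fin k → ℂ))
    (B : ℕ → (Fin l → ℂ) →L[ℂ] (Fin l → ℂ)) (C₁ c : ℝ), Frm f p (sE Es p) ψ χ N k l e A B C₁ c

/-- **Quad.** A holomorphic map with vanishing derivative at the origin.

Proof.  For `v ∈ ball 0 (3ρ/4)` `‖fderiv R v‖ ≤ M/(ρ/4)` (`Osgood.norm_fderiv_le'`), and `fderiv R` is holomorphic
(`Osgood.differentiableOn_fderiv`), so for `v ∈ ball 0 (ρ/2)` its derivative has norm at most `(4M/ρ)/(ρ/4) = 16 M/ρ²`.  The ball is convex, so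
`‖fderiv R v‖ = ‖fderiv R v - fderiv R 0‖ ≤ 16 M/ρ² ‖v‖` for `v ∈ ball 0 (ρ/2)` (`Convex.norm_image_sub_le_of_norm_fderiv_le`), and again, on the segment
`[v, v']` (all points have norm `≤ max ‖v‖ ‖v'‖ ≤ ‖v‖ + ‖v'‖`), `‖R v - R v'‖ ≤ 16 M/ρ² (‖v‖ + ‖v'‖) ‖v - v'‖`. -/
def S_Quad : Prop := ∀ (E F : Type) [NormedAddCommGroup E] [NormedSpace ℂ E] [FiniteDimensional ℂ E] [NormedAddCommGroup F]
  [NormedSpace ℂ F] [FiniteDimensional ℂ F] (ρ M : ℝ) (R : E → F), 0 < ρ → DifferentiableOn ℂ R (ball 0 ρ) →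
  (∀ v ∈ ball (0 : E) ρ, ‖R v‖ ≤ M) → fderiv ℂ R 0 = 0 → ∀ v ∈ ball (0 : E) (ρ / 2), ∀ v' ∈ ball (0 : E) (ρ / 2),
    ‖R v - R v'‖ ≤ 16 * M / ρ ^ 2 * (‖v‖ + ‖v'‖) * ‖v - v'‖

/-- **Ad.** Adapted parametrisations.  (Uses `S_Quad` and the conclusion of `S_Loc`.)

Proof.  `x_n = f^[N n] p ∈ K`.  Let `ρ₁` be from `ULoc` for `g = f^[N]`, `ε = ρ/C₁²`.  `P n v = ψ x_n (e n v)` on the ball of radius `ρ_P = ρ/C₁`,
`H n v = (e (n+1))⁻¹ (loc (f^[N]) x_n (e n v))` for `‖v‖ < ρ_H = ρ₁/C₁ ≤ ρ_P`: `‖H n v‖ ≤ C₁ ‖loc ..‖ < C₁ ρ/C₁² = ρ_P`.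
(`C₁ ≥ 1` if `E ≠ 0`; in any case use `up`, `low` only.)
`AdP` with `ρ = ρ_P`, `ρ' = ρ_H/2`: `inj` by `left`; `dinj`: `χ x_n ∘ ψ x_n = id` near `e n v`, chain rule, so `mfderiv (ψ x_n)` is injective, and
`mfderiv (P n) v = mfderiv (ψ x_n) (e n v) ∘ e n`; `near`: `‖e n v‖ ≤ C₁ ‖v‖`; `near'`: for `min (ε/C₁) (ρ/C₁²)`, `q = ψ x_n u`, `v = (e n)⁻¹ u`;
`comm`: `ULoc.comm` (`f^[N] x_n = x_{n+1}`).
`AdH` with `ρ = ρ_H/2`: `fderiv (H n) 0 v = (A n v.1, B n v.2)` (`der`, chain rule, `loc 0 = 0`), `‖fderiv (H n) 0‖ ≤ ρ_P/ρ_H` (Cauchy), so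
`R = H n - (A n, B n)` is bounded by `M = 2 ρ_P` on `ball 0 ρ_H` and `fderiv R 0 = 0`; `S_Quad`: `C = 32 ρ_P/ρ_H²`. -/
def S_Ad : Prop := S_Quad → ∀ (E : Type) [NormedAddCommGroup E] [NormedSpace ℂ E] [FiniteDimensional ℂ E] (X : Type)
  [MetricSpace X] [ChartedSpace E X] (nrm : (x : X) → TangentSpace 𝓘(ℂ, E) x → ℝ) (f : X ≃ X) (K : Set X) (p : X)
  (Ep : Submodule ℂ E) (ψ : X → E → X) (χ : X → X → E) (ρ a b : ℝ) (N k l : ℕ) (e : ℕ → V k l ≃L[ℂ] E)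
  (A : ℕ → (Fin k → ℂ) →L[ℂ] (Fin k → ℂ)) (B : ℕ → (Fin l → ℂ) →L[ℂ] (Fin l → ℂ)) (C₁ c : ℝ), UCh nrm K ψ χ ρ a b →
  p ∈ K → MapsTo f K K → (∀ ε > 0, ∃ ρ', ULoc K ψ χ ρ (f^[N]) ρ' ε) → Frm f p Ep ψ χ N k l e A B C₁ c →
  ∃ (P : ℕ → V k l → X) (H : ℕ → V k l → V k l) (ρ₀ ρ' C : ℝ), AdP (E := E) f p N k l P H ρ₀ ρ' ∧ AdH k l H A B ρ' C c

/-- **HInj.** The maps `H n` are injective immersions.

Proof.  If `H n v = H n v'` then (`comm`) `f^[N] (P n v) = f^[N] (P n v')`, so `P n v = P n v'` and `v = v'` (`inj`, `ρ' ≤ ρ`).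
`P (n+1) ∘ H n = f^[N] ∘ P n` near `v`; `mfderiv (P (n+1)) (H n v) (fderiv (H n) v w) = mfderiv f^[N] (P n v) (mfderiv (P n) v w)` (chain rule), and
`mfderiv f^[N]` is injective (`f.symm^[N] ∘ f^[N] = id`), so `fderiv (H n) v w = 0` implies `w = 0` (`dinj`). -/
def S_HInj : Prop := ∀ (E : Type) [NormedAddCommGroup E] [NormedSpace ℂ E] (X : Type)
  [MetricSpace X] [ChartedSpace E X] (f : X ≃ X) (p : X) (N k l : ℕ) (P : ℕ → V k l → X) (H : ℕ → V k l → V k l)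
  (ρ ρ' : ℝ), MDifferentiable 𝓘(ℂ, E) 𝓘(ℂ, E) f → MDifferentiable 𝓘(ℂ, E) 𝓘(ℂ, E) f.symm →
  AdP (E := E) f p N k l P H ρ ρ' →
  (∀ n, InjOn (H n) (ball 0 ρ')) ∧ ∀ n, ∀ v ∈ ball (0 : V k l) ρ', ∀ w, fderiv ℂ (H n) v w = 0 → w = 0

/-- **Tau.** The local stable manifolds of a sequence of hyperbolic germs, existence.  (Uses `S_Wei` of `SpecN.lean`.)

Proof.  Let `r = min ρ (1/(64 C))`, so `C r ≤ 1/64`.  `B n` is bijective, `‖(B n)⁻¹ y‖ ≤ ‖y‖/8`.  Let `a_n(v) = (H n v).1 - A n v.1`,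
`b_n(v) = (H n v).2 - B n v.2`; both satisfy the estimate `quad`, and `|a_n(v)|, |b_n(v)| ≤ C ‖v‖²` (`v' = 0`).
A family `τ = (τ n)` of functions on `ball 0 r` is good if it is holomorphic, `‖τ n x‖ ≤ ‖x‖` and `‖τ n x - τ n y‖ ≤ ‖x - y‖`.
For a good family let `x' = A_n x + a_n(x, τ n x)`: `‖x'‖ ≤ ‖x‖/8 + C ‖x‖² ≤ ‖x‖/4` and `‖x' - y'‖ ≤ ‖x - y‖/8 + 2 C r ‖x - y‖ ≤ ‖x - y‖/4`; let
`(Γτ) n x = (B n)⁻¹ (τ (n+1) x' - b_n(x, τ n x))`.  `Γτ` is good: `‖Γτ n x‖ ≤ (‖x'‖ + C ‖x‖²)/8 ≤ ‖x‖`, `‖Γτ n x - Γτ n y‖ ≤ (‖x-y‖/4 + 2 C r ‖x-y‖)/8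
≤ ‖x - y‖`.  If `τ`, `σ` are good and `‖τ n x - σ n x‖ ≤ d` for all `n`, `x`, then `‖Γτ n x - Γσ n x‖ ≤ (d + 2 C r d + 2 C r d)/8 ≤ d/4`.
Let `τ^0 = 0`, `τ^{i+1} = Γ τ^i`; `‖τ^{i+1} - τ^i‖ ≤ r 4^{-i}`.  By `S_Wei` `τ^i n → τ n` uniformly, holomorphic; `τ` is good and `Γτ = τ` (let `i → ∞` in
`τ^{i+1} n x = (B n)⁻¹ (τ^i (n+1) x'_i - b_n(x, τ^i n x))`, with `x'_i → x'` and the Lipschitz estimate of `τ^i`).  `Γτ = τ` is the equation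
`(H n (x, τ n x)).2 = τ (n+1) ((H n (x, τ n x)).1)`. -/
def S_Tau : Prop := S_Wei →
  ∀ (k l : ℕ) (H : ℕ → V k l → V k l) (A : ℕ → (Fin k → ℂ) →L[ℂ] (Fin k → ℂ))
    (B : ℕ → (Fin l → ℂ) →L[ℂ] (Fin l → ℂ)) (ρ C c : ℝ), AdH k l H A B ρ C c →
  ∃ (r : ℝ) (τ : ℕ → (Fin k → ℂ) → (Fin l → ℂ)), 0 < r ∧ r ≤ ρ ∧ C * r ≤ 1 / 64 ∧
    (∀ n, DifferentiableOn ℂ (τ n) (ball 0 r)) ∧ (∀ n, ∀ x ∈ ball (0 : Fin k → ℂ) r, ‖τ n x‖ ≤ ‖x‖) ∧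
    (∀ n, ∀ x ∈ ball (0 : Fin k → ℂ) r, ∀ y ∈ ball (0 : Fin k → ℂ) r, ‖τ n x - τ n y‖ ≤ ‖x - y‖) ∧
    (∀ n, ∀ x ∈ ball (0 : Fin k → ℂ) r, ‖(H n (x, τ n x)).1‖ ≤ ‖x‖ / 4) ∧
    ∀ n, ∀ x ∈ ball (0 : Fin k → ℂ) r, (H n (x, τ n x)).2 = τ (n + 1) (H n (x, τ n x)).1

/-- **LSM.** The local stable manifolds of a sequence of hyperbolic germs.  (Its hypotheses on `τ` are the conclusion of `S_Tau`.)

Proof.  `F n x = (H n (x, τ n x)).1`.  `SeqD` with `D = 1/4`: `contr` is given; `quad`: `F n x - A n x` is the first component of `R_n(x, τ n x)`, and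
`‖(x, τ n x)‖ ≤ ‖x‖`, `‖(x, τ x) - (y, τ y)‖ ≤ ‖x - y‖`; `contrL`, `low`: `A_le`, `A_ge`; `inj`: `F n x = F n y` gives `H n (x, τ x) = H n (y, τ y)`
(both are `(F n x, τ (n+1) (F n x))`), so `x = y`; `dinj`: differentiate `H n (x, τ n x) = (F n x, τ (n+1) (F n x))` in the direction `w` with
`fderiv (F n) x w = 0`: `fderiv (H n) (x, τ x) (w, fderiv (τ n) x w) = 0`, so `w = 0`.
`uniq`: let `v j = (x_j, y_j)`, `δ_j = ‖y_j - τ (n+j) x_j‖ ≤ 2 r`.  With `m = n + j`, `z = (H m (x_j, τ m x_j)).1`, `‖z‖ < r`, and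
`x_{j+1} = (H m (x_j, y_j)).1`, `‖x_{j+1}‖ < r`:
`y_{j+1} - τ (m+1) x_{j+1} = B m (y_j - τ m x_j) + [b_m(x_j, y_j) - b_m(x_j, τ m x_j)] + [τ (m+1) z - τ (m+1) x_{j+1}]`, where `b_m(v) = (H m v).2 - B m v.2`, and
`‖z - x_{j+1}‖ = ‖a_m(x_j, τ m x_j) - a_m(x_j, y_j)‖ ≤ 2 C r δ_j`.  So `δ_{j+1} ≥ 8 δ_j - 4 C r δ_j ≥ 7 δ_j`, `δ_j ≥ 7^j δ_0`, bounded, so `δ_0 = 0`. -/
def S_LSM : Prop := ∀ (k l : ℕ) (H : ℕ → V k l → V k l) (A : ℕ → (Fin k → ℂ) →L[ℂ] (Fin k → ℂ))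
  (B : ℕ → (Fin l → ℂ) →L[ℂ] (Fin l → ℂ)) (ρ C c : ℝ), AdH k l H A B ρ C c → (∀ n, InjOn (H n) (ball 0 ρ)) →
  (∀ n, ∀ v ∈ ball (0 : V k l) ρ, ∀ w, fderiv ℂ (H n) v w = 0 → w = 0) → ∀ (r : ℝ) (τ : ℕ → (Fin k → ℂ) → (Fin l → ℂ)),
  0 < r → r ≤ ρ → C * r ≤ 1 / 64 →
  (∀ n, DifferentiableOn ℂ (τ n) (ball 0 r)) → (∀ n, ∀ x ∈ ball (0 : Fin k → ℂ) r, ‖τ n x‖ ≤ ‖x‖) →
  (∀ n, ∀ x ∈ ball (0 : Fin k → ℂ) r, ∀ y ∈ ball (0 : Fin k → ℂ) r, ‖τ n x - τ n y‖ ≤ ‖x - y‖) →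
  (∀ n, ∀ x ∈ ball (0 : Fin k → ℂ) r, ‖(H n (x, τ n x)).1‖ ≤ ‖x‖ / 4) →
  (∀ n, ∀ x ∈ ball (0 : Fin k → ℂ) r, (H n (x, τ n x)).2 = τ (n + 1) (H n (x, τ n x)).1) →
  ∃ F : ℕ → (Fin k → ℂ) → (Fin k → ℂ), IsLSM k l r C c H A τ F

/-- **AsA.** The parametrisation of the stable manifold.

Proof.  `G n ξ = P n (ξ, τ n ξ)` for `ξ ∈ B = ball 0 r` (`‖(ξ, τ n ξ)‖ ≤ ‖ξ‖ < r ≤ ρ' ≤ ρ`).  `f^[N] (G n ξ) = G (n+1) (F n ξ)` (`comm`, `inv`), so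
`f^[N j] (G n ξ) = G (n+j) (orb F n j ξ)`, and `Ψ (n+j) (orb F n j ξ) = Ψ n ξ`.  For `u ∈ ℂ^k` choose `n`, `ξ` with `Ψ n ξ = u` and let
`Φ u = f.symm^[N n] (G n ξ)`.  It does not depend on the choice: if `Ψ n ξ = Ψ n' ξ'`, `n ≤ n'`, then `ξ' = orb F n (n'-n) ξ` (injectivity of `Ψ n'`) and
`G n' ξ' = f^[N(n'-n)] (G n ξ)`.  So `Φ (Ψ n ξ) = f.symm^[N n] (G n ξ)` for all `n`, `ξ ∈ B`.
Holomorphic immersion: let `u = Ψ n ξ`; `Ψ n` has a strict derivative at `ξ` (analytic, `Osgood.analyticAt`), injective, hence a linear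
equivalence; the local inverse `θ` (`HasStrictFDerivAt.localInverse`) is differentiable at `u`, `Ψ n (θ u') = u'`, `θ u' ∈ B` for `u'` near `u`, so
`Φ = f.symm^[N n] ∘ G n ∘ θ` near `u`.  The derivative is a composition of injective maps (`dinj` of `P n`; `w ↦ (w, fderiv (τ n) ξ w)`;
`fderiv θ u` is the inverse of `fderiv (Ψ n) ξ`; `mfderiv f.symm^[N n]` is injective).
Injective: for `u`, `u'` choose a common `n` (move the point with smaller `n` forward by `orb F`), `u = Ψ n ξ`, `u' = Ψ n ξ'`; `Φ u = Φ u'` gives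
`G n ξ = G n ξ'`, so `(ξ, τ n ξ) = (ξ', τ n ξ')` (`inj`).  The range is clear. -/
def S_AsA : Prop := ∀ (E : Type) [NormedAddCommGroup E] [NormedSpace ℂ E] (X : Type)
  [MetricSpace X] [ChartedSpace E X] (f : X ≃ X) (p : X) (N k l : ℕ) (P : ℕ → V k l → X) (H : ℕ → V k l → V k l)
  (A : ℕ → (Fin k → ℂ) →L[ℂ] (Fin k → ℂ)) (τ : ℕ → (Fin k → ℂ) → (Fin l → ℂ)) (F : ℕ → (Fin k → ℂ) → (Fin k → ℂ))
  (ρ ρ' r C c : ℝ), MDifferentiable 𝓘(ℂ, E) 𝓘(ℂ, E) f → MDifferentiable 𝓘(ℂ, E) 𝓘(ℂ, E) f.symm →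
  AdP (E := E) f p N k l P H ρ ρ' → r ≤ ρ' → IsLSM k l r C c H A τ F → BasinCk k r F →
  IsCk E k {q | ∃ n, ∃ ξ ∈ ball (0 : Fin k → ℂ) r, P n (ξ, τ n ξ) = f^[N * n] q}

/-- **AsB.** The stable set.  (Uses `S_UCf`.)

Proof.  `x_n = f^[N n] p`, `G n ξ = P n (ξ, τ n ξ)`.
`⊇`: let `G n ξ = f^[N n] q`.  By `comm` and `inv` `f^[N (n+j)] q = G (n+j) (ξ_j)`, `ξ_j = orb F n j ξ`, `‖ξ_j‖ ≤ 4^{-j} r` (`contr`), `‖(ξ_j, τ ξ_j)‖ ≤ ‖ξ_j‖`, so by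
`near` `dist (f^[N m] q) (f^[N m] p) → 0` as `m → ∞`.  For each `i < N`, `S_UCf` for `f^[i]` (continuous) and the compact set `K` gives
`dist (f^[N m + i] q) (f^[N m + i] p) → 0`; hence `q ∈ stab f p` (`n = N m + i`, `m = n / N`, `i = n % N`; finitely many `i`).
`⊆`: let `q ∈ stab f p`, `δ` from `near'` for `ε = r`.  For some `n` and all `j`, `dist (f^[N(n+j)] q) x_{n+j} < δ`, so `f^[N(n+j)] q = P (n+j) (v j)` with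
`v j ∈ ball 0 ρ`, `‖v j‖ < r`.  `P (n+j+1) (H (n+j) (v j)) = f^[N] (P (n+j) (v j)) = P (n+j+1) (v (j+1))` and both points are in `ball 0 ρ` (`maps`), so
`v (j+1) = H (n+j) (v j)`; `uniq` gives `(v 0).2 = τ n (v 0).1`, `ξ = (v 0).1`. -/
def S_AsB : Prop := S_UCf → ∀ (E : Type) [NormedAddCommGroup E] [NormedSpace ℂ E] (X : Type)
  [MetricSpace X] [ChartedSpace E X] (f : X ≃ X) (K : Set X) (p : X) (N k l : ℕ) (P : ℕ → V k l → X)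
  (H : ℕ → V k l → V k l) (A : ℕ → (Fin k → ℂ) →L[ℂ] (Fin k → ℂ)) (τ : ℕ → (Fin k → ℂ) → (Fin l → ℂ))
  (F : ℕ → (Fin k → ℂ) → (Fin k → ℂ)) (ρ ρ' r C c : ℝ), IsCompact K → MapsTo f K K → p ∈ K → Continuous f →
  AdP (E := E) f p N k l P H ρ ρ' → r ≤ ρ' → IsLSM k l r C c H A τ F →
  {q | ∃ n, ∃ ξ ∈ ball (0 : Fin k → ℂ) r, P n (ξ, τ n ξ) = f^[N * n] q} = stab f p

/-- **Cmp.** The linear maps `prodL A id n` are the derivatives of `f^[N n]` on `Es p`, up to bounded factors.  (Uses `S_Dm`.)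

Proof.  `j z = du (ψ p) 0 (e 0 (z, 0))`, an injective linear map into `Es p`; its range is `Es p` (`dim`).  `Λ n = prodL A id n`, `x_n = f^[N n] p`.
Claim: `du (ψ x_n) 0 (e n (Λ n z, 0)) = dg (f^[N n]) p (j z)`.  Induction: `e (n+1) (A n (Λ n z), 0) = fderiv (loc (f^[N]) x_n) 0 (e n (Λ n z, 0))` (`der`, `B n 0 = 0`),
so by `ULoc.deriv` and `f^[N] x_n = x_{n+1}` the left side for `n + 1` is `dg (f^[N]) x_n (dg (f^[N n]) p (j z)) = dg (f^[N (n+1)]) p (j z)` (`S_Dm`, last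
part).  Hence (`UCh.low`, `UCh.up`, `Frm.low`, `Frm.up`) `(a/C₁) ‖Λ n z‖ ≤ nit (N n) (j z) ≤ b C₁ ‖Λ n z‖`.
`LSeq`: `low0`: `Λ 0 = id`, take the constant `min 1 c`; `low`: `A_ge`; `up`: `contr` at `x_n` for `N j` and `v = dg (f^[N n]) p (j z) ∈ Es x_n` gives
`nit (N (n+j)) (j z) ≤ C lam^{N j} nit (N n) (j z)`, so `‖Λ (n+j) z‖ ≤ (C₁/a) C (lam^N)^j b C₁ ‖Λ n z‖`. -/
def S_Cmp : Prop := S_Dm → ∀ (E : Type) [NormedAddCommGroup E] [NormedSpace ℂ E] [FiniteDimensional ℂ E] (X : Type)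
  [MetricSpace X] [ChartedSpace E X] [IsManifold 𝓘(ℂ, E) 1 X] (nrm : (x : X) → TangentSpace 𝓘(ℂ, E) x → ℝ) (f : X ≃ X) (K : Set X)
  (Es Eu : (x : X) → Submodule ℂ (TangentSpace 𝓘(ℂ, E) x)) (C lam : ℝ) (p : X) (ψ : X → E → X) (χ : X → X → E)
  (ρ a b : ℝ) (N k l : ℕ) (e : ℕ → V k l ≃L[ℂ] E) (A : ℕ → (Fin k → ℂ) →L[ℂ] (Fin k → ℂ))
  (B : ℕ → (Fin l → ℂ) →L[ℂ] (Fin l → ℂ)) (C₁ c : ℝ), IsHyp nrm f K Es Eu C lam → UCh nrm K ψ χ ρ a b → p ∈ K →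
  (∃ ρ', ULoc K ψ χ ρ (f^[N]) ρ' 1) → Frm f p (sE Es p) ψ χ N k l e A B C₁ c →
  (∃ (j : (Fin k → ℂ) →ₗ[ℂ] TangentSpace 𝓘(ℂ, E) p) (a₁ b₁ : ℝ),
    Cmp nrm f p (Es p) N k j (prodL A (ContinuousLinearMap.id ℂ (Fin k → ℂ))) a₁ b₁) ∧
  ∃ C₂ c₂ : ℝ, LSeq k (prodL A (ContinuousLinearMap.id ℂ (Fin k → ℂ))) C₂ c₂ (lam ^ N)

/-- The conclusion of the setup: the stable manifold of `p` is the basin of a uniformly attracting sequence `F`, with linear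
parts `A n`, and the products `A (n-1) ... A 0` are the derivatives of `f^{Nn}` on `Es p`, up to bounded factors. -/
def SetupC : Prop :=
  ∀ (E : Type) [NormedAddCommGroup E] [NormedSpace ℂ E] [FiniteDimensional ℂ E] (X : Type)
  [MetricSpace X] [ChartedSpace E X] [IsManifold 𝓘(ℂ, E) 1 X] (nrm : (x : X) → TangentSpace 𝓘(ℂ, E) x → ℝ) (f : X ≃ X)
  (K : Set X) (Es Eu : (x : X) → Submodule ℂ (TangentSpace 𝓘(ℂ, E) x)) (C lam : ℝ) (p : X), IsFinsler nrm →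
  IsHyp nrm f K Es Eu C lam → p ∈ K →
  ∃ (N k : ℕ) (A : ℕ → (Fin k → ℂ) →L[ℂ] (Fin k → ℂ)) (F : ℕ → (Fin k → ℂ) → (Fin k → ℂ))
    (j : (Fin k → ℂ) →ₗ[ℂ] TangentSpace 𝓘(ℂ, E) p) (r C' c a₁ b₁ C₂ c₂ : ℝ),
    Module.finrank ℂ (Es p) = k ∧ SeqD k r (1 / 4) C' c F A ∧ (BasinCk k r F → IsCk E k (stab f p)) ∧
    Cmp nrm f p (Es p) N k j (prodL A (ContinuousLinearMap.id ℂ (Fin k → ℂ))) a₁ b₁ ∧
    LSeq k (prodL A (ContinuousLinearMap.id ℂ (Fin k → ℂ))) C₂ c₂ (lam ^ N)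

/-- **Set.** The setup.  (Uses the conclusions of all statements above.)

Proof.  `MapsTo f K K`, `MapsTo f.symm K K` (`image`), the iterates are `MDifferentiable`.  `S_UC` gives the uniform charts, `S_Loc` (for `f^[n]`,
`f.symm^[n]`), `S_Bnd`, `S_Ang`, `S_Frm`, `S_Ad`, `S_HInj`, `S_Tau`, `S_LSM`, `S_AsA`, `S_AsB`, `S_Cmp`. -/
def S_Set : Prop := S_Wei → S_UCf → S_NrC → S_UC → S_Loc → S_Bnd → S_Ang → S_Frame → S_Dm → S_Frm → S_Quad → S_Ad →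
  S_HInj → S_Tau → S_LSM → S_AsA → S_AsB → S_Cmp → SetupC

end Pool.Agent.Lib.Bed
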