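import Pool.Agent.Lib.Bed.SpecK
import Pool.Agent.Lib.Bed.SpecM

/-!
# MP_6f050a_an, part C: the conditions (A), (B), (C) imply (K); translation to a point of a hyperbolic set; the final theorem

Every task: prove `theorem sX : S_X` (namespace `Pool.Agent.Lib.Bed`) in the file named in the task; auxiliary lemmas in the
namespace `Pool.Agent.Lib.Bed.sXAux`.  Statements used in a proof are hypotheses inside the definitions.  All proofs are complete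
in the docstrings.  Definitions (`LSeq`, `ACond`, `BCond`, `CCond`, `Cmp`, `PtK`, ...) are in `DefsM.lean`, `KCond` in `Defs.lean`.
-/

set_option autoImplicit false

open scoped Manifold ContDiff Topology
open Set Filter Metric

namespace Pool.Agent.Lib.Bed

/-- **CorA.** (A) implies (K).

Proof.  `k = 0`: all conditions on `Fin 0` are empty (`C = c = η = 1`).  Let `k ≥ 1`, `N m = ‖Λ m‖` (operator norm) `> 0` (`low0`, `low`).  `C' = max C 1`;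
`N (m+j) ≤ C' lam^j N m` and `c N m ≤ N (m+1)`.  `om m = ⨆ j, N (m+j)` (bounded above by `C' N m`), `N m ≤ om m ≤ C' N m`, decreasing,
`om (m+1) ≥ N (m+1) ≥ c N m ≥ (c/C') om m`, `om m → 0`.  Take `om t m = om m` for all `t`, `e = id`.  (K1): `‖Λ m (e_t)‖ ≤ N m ≤ om m`.
(K2): `ACond` for unit vectors `v` gives `(N m)² ‖w‖ ≤ C₂ e^{-ηm} ‖Λ m w‖` (the supremum over the unit vectors `v`), and
`om_s om_t |z_t| ≤ C'² (N m)² ‖z‖`. -/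
def S_CorA : Prop := ∀ (k : ℕ) (Λ : ℕ → (Fin k → ℂ) →L[ℂ] (Fin k → ℂ)) (C c lam : ℝ), LSeq k Λ C c lam →
  ACond k Λ → KCond k Λ

/-- **Dir.** Case `a > 1` of (B): the limit of the most contracted directions.

Proof.  For `v, w ∈ ℂ²` let `W(v, w) = v_0 w_1 - v_1 w_0`; `|W(v, w)| ≤ 2 ‖v‖ ‖w‖` (sup norm), `W(Λ v, Λ w) = det Λ · W(v, w)` for linear `Λ`
(`det Λ := W(Λ e_0, Λ e_1)`), and (Plücker) `W(u,v) w + W(v,w) u + W(w,u) v = 0`; so for unit vectors `u`, `v` and any `w`: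
`|W(w, v)| ≤ |W(w, u)| + ‖w‖ |W(u, v)|`.
Let `N m = ‖Λ m‖`.  For large `m` let `S_m, s_m` be as in the hypothesis, so `S_m/C ≤ N_m ≤ C S_m` (`S ‖x‖ ≤ C ‖Λ x‖ ≤ C N ‖x‖`), and `x_m` a unit vector with
`‖Λ m x_m‖ ≤ C s_m`; `s_m ≤ S_m^a ≤ (C N_m)^a`.
(1) `|det Λ_m| ≥ N_m s_m / (4 C)`: let `u` be a unit vector with `‖Λ u‖ ≥ N/2`, `y = Λ u`, `i` an index with `|y_i| = ‖y‖`, `i'` the other index;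
`|W(y, e_{i'})| = ‖y‖`.  `Λ` is bijective; let `Λ w = e_{i'}`, so `s ‖w‖ ≤ C`; `‖y‖ = |det Λ| |W(u, w)| ≤ |det Λ| 2 C/s`.
(2) `|W(x_m, x_{m+1})| ≤ C₆ N_m^{a-1}`: `|W(x_m, x_{m+1})| |det Λ_{m+1}| = |W(Λ_{m+1} x_m, Λ_{m+1} x_{m+1})| ≤ 2 (C_L lam C s_m)(C s_{m+1})` (`up` with `j = 1`, constant `C_L`), and
`|det Λ_{m+1}| ≥ N_{m+1} s_{m+1}/(4C) ≥ c N_m s_{m+1}/(4C)`; so `|W(x_m, x_{m+1})| ≤ C₅ s_m/N_m ≤ C₆ N_m^{a-1}`.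
(3) `|W(x_m, x_{m'})| ≤ ∑_{j ≥ m} C₆ N_j^{a-1} ≤ C₇ N_m^{a-1}` for `m ≤ m'`, as `N_{m+i} ≤ C_L lam^i N_m` and `a > 1` (geometric series with the ratio `lam^{a-1}`).
(4) The unit sphere is compact: a subsequence of `x_m` converges to a unit vector `v₀`; `|W(x_m, v₀)| ≤ C₇ N_m^{a-1}` for `m ≥ m₀`.
(5) `‖Λ m v₀‖ ≤ C₈ N_m^a`: choose `i` with `|W(x_m, e_i)| = 1`; Plücker: `W(x_m, v₀) e_i + W(v₀, e_i) x_m + W(e_i, x_m) v₀ = 0`, so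
`‖Λ m v₀‖ ≤ |W(x_m, v₀)| N_m + ‖Λ m x_m‖`.
(6) for `x ∈ ℂ²`: `|W(x, v₀)| ≤ |W(x, x_m)| + ‖x‖ |W(x_m, v₀)|`, `|W(x, x_m)| |det Λ_m| ≤ 2 ‖Λ m x‖ C s_m`, so `|W(x, x_m)| ≤ 8 C² ‖Λ m x‖/N_m`, and
`‖x‖ ≤ C ‖Λ m x‖/s_m`.  So `|W(x, v₀)| ≤ C₉ ‖Λ m x‖ (1/N_m + N_m^{a-1}/s_m)`; and `s_m ≥ S_m^b ≥ (N_m/C)^b` (if `b ≤ 0` use `S_m^b ≥ (C N_m)^b`). -/
def S_Dir : Prop := ∀ (Λ : ℕ → (Fin 2 → ℂ) →L[ℂ] (Fin 2 → ℂ)) (C c lam : ℝ), LSeq 2 Λ C c lam →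
  ∀ C₁ a b : ℝ, 0 < C₁ → 1 < a → (∀ᶠ m : ℕ in atTop, ∃ S s : ℝ, 0 < S ∧ 0 < s ∧
    (∀ x, ‖Λ m x‖ ≤ C₁ * S * ‖x‖) ∧ (∃ x, x ≠ 0 ∧ S * ‖x‖ ≤ C₁ * ‖Λ m x‖) ∧
    (∀ x, s * ‖x‖ ≤ C₁ * ‖Λ m x‖) ∧ (∃ x, x ≠ 0 ∧ ‖Λ m x‖ ≤ C₁ * s * ‖x‖) ∧ S ^ b ≤ s ∧ s ≤ S ^ a) →
  ∃ (v₀ : Fin 2 → ℂ) (C₂ : ℝ), ‖v₀‖ = 1 ∧ 0 < C₂ ∧ ∀ᶠ m : ℕ in atTop, ‖Λ m v₀‖ ≤ C₂ * ‖Λ m‖ ^ a ∧
    ∀ x : Fin 2 → ℂ, ‖x 0 * v₀ 1 - x 1 * v₀ 0‖ ≤ C₂ * (1 / ‖Λ m‖ + ‖Λ m‖ ^ (a - 1 - b)) * ‖Λ m x‖ ∧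
      ‖x‖ ≤ C₂ * ‖Λ m‖ ^ (-b) * ‖Λ m x‖

/-- **CorB.** (B) implies (K).  (Uses `S_CorA`, `S_Dir`.)

Proof.  Let `N_m = ‖Λ m‖`, `N_m ≤ C_L lam^m N_0 → 0`, and `S_m`, `s_m` from `BCond` (`S_m/C ≤ N_m ≤ C S_m`).  For large `m` `S_m < 1`.
Case `b < 2`: `‖Λ m v‖² ‖w‖ ≤ C² S² ‖v‖² C ‖Λ m w‖/s ≤ C³ S^{2-b} ‖v‖² ‖Λ m w‖`, and `S^{2-b} ≤ (C N_m)^{2-b} ≤ const e^{-ηm}`, `η = (2-b) log (1/lam)`, for large `m`; for the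
finitely many other `m`: `‖Λ m v‖² ‖w‖ ≤ N_m² ‖v‖² ‖Λ m w‖/c^{m+1}` (`low0`, `low`).  So `ACond`, and `S_CorA`.
Case `b ≥ 2`: `a > b - 1 ≥ 1`; `v₀`, `C₂` from `S_Dir`.  Choose `i₀` with `|W(e_{i₀}, v₀)| = 1` (`W(x, v) = x_0 v_1 - x_1 v_0`; `‖v₀‖ = 1`) and
`e z = z_0 e_{i₀} + z_1 v₀`.  `om₀ m = ⨆ j, N_{m+j}` (as in `S_CorA`: `N_m ≤ om₀ m ≤ C' N_m`, decreasing, bounded steps, `→ 0`), `om₁ m = (om₀ m)^a`.  `IsW0`: the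
steps of `om₁` are bounded by the power `a` of the constant; `om₁/om₀ = om₀^{a-1}` is decreasing.  (K1): `N_m ≤ om₀`, `‖Λ m v₀‖ ≤ C₂ N_m^a` for large `m`.
(K2) for `x = e z`: `|z_0| = |W(x, v₀)|`, so `om₀² |z_0| ≤ const (N_m + N_m^{a+1-b}) ‖Λ m x‖`, exponentially small factor (`a + 1 - b > 0`), and `om₁ ≤ const om₀`;
`|z_1| ≤ 2 ‖x‖` (`z_1 v₀ = x - z_0 e_{i₀}`, `|z_0| ≤ ...`; or `‖e⁻¹‖ ‖x‖`), `om₀ om₁ |z_1| ≤ const N_m^{a+1-b} ‖Λ m x‖`.  The finitely many other `m` are absorbed in the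
constant `C` (`‖Λ m x‖ ≥ c^{m+1} ‖x‖`). -/
def S_CorB : Prop := S_CorA → S_Dir → ∀ (Λ : ℕ → (Fin 2 → ℂ) →L[ℂ] (Fin 2 → ℂ)) (C c lam : ℝ), LSeq 2 Λ C c lam →
  BCond Λ → KCond 2 Λ

/-- **CorC.** (C) implies (K).

Proof.  `k ≥ 1` since `v₀ ≠ 0`; `last` is the last index.  Let `e` be a linear equivalence with `e (e_last) = v₀` (extend `v₀` to a basis).  For every `z`,
`c`, `t ≠ last`: `|z_t| ≤ ‖z - c e_last‖ ≤ C₁ ‖e z - c v₀‖`.  Weights: `om t m = lam^m` for `t ≠ last`, `om last m = lam^m κ_m`,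
`κ_m = ⨆ j, lam^{-(m+j)} ‖Λ (m+j) v₀‖` (bounded above by `C ‖Λ 0 v₀‖`, positive, decreasing).  Steps: `κ_m = max (lam^{-m} ‖Λ m v₀‖) κ_{m+1}` and
`lam^{-m} ‖Λ m v₀‖ ≤ lam^{-m} c⁻¹ ‖Λ (m+1) v₀‖ ≤ (lam/c) κ_{m+1}`, so `κ_{m+1} ≥ min 1 (c/lam) κ_m`.  `IsW0` is clear (`ratio`: if `t = last`, `s ≠ last` it is
`κ_{m+1} ≤ κ_m`, otherwise equality).  (K1): `up` with `m = 0`; `‖Λ m v₀‖ ≤ lam^m κ_m`.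
(K2): `om s m ≤ C₂ lam^m` for all `s`.  For `t ≠ last`: `om_s om_t |z_t| ≤ C₂ lam^{2m} C₁ ‖e z - c v₀‖ ≤ C₁ C₂ C e^{-ηm} ‖Λ m (e z)‖` with the `c` of `CCond` for
`v = e z`.  For `t = last`: choose `m' ≥ m` with `κ_m ≤ 2 lam^{-m'} ‖Λ m' v₀‖`; `z_last v₀ = e z - ∑_{t≠last} z_t e(e_t)`, so
`|z_last| ‖Λ m' v₀‖ ≤ ‖Λ m' (e z)‖ + ∑ |z_t| ‖Λ m' (e e_t)‖ ≤ C lam^{m'-m} ‖Λ m (e z)‖ + C₃ lam^{m'} ∑_{t≠last} |z_t|` and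
`om_s om_last |z_last| ≤ C₂ lam^{2m} κ_m |z_last| ≤ 2 C₂ lam^{2m-m'} (...) ≤ 2 C C₂ lam^m ‖Λ m (e z)‖ + 2 C₂ C₃ lam^{2m} ∑_{t≠last} |z_t|`; the first term is
`≤ const e^{-m log (1/lam)} ‖Λ m (e z)‖`, the second was estimated before.  `η' = min η (log (1/lam))`. -/
def S_CorC : Prop := ∀ (k : ℕ) (Λ : ℕ → (Fin k → ℂ) →L[ℂ] (Fin k → ℂ)) (C c lam : ℝ), LSeq k Λ C c lam →
  CCond k Λ lam → KCond k Λ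

/-- **PK.** Translation of the condition (K).

Proof.  The basis `e` of `Ep` has `k'` elements and `j` is an isomorphism of `ℂ^k` onto `Ep`, so `k' = k` (`subst`).  Let `e' : ℂ^k ≃L ℂ^k`,
`e' z = j⁻¹ (∑ z_t e_t)`, `om'_t(n) = om_t(N n)`, `c' = c^N` (`step` iterated `N` times; `IsW0`: monotone in `m`, so all holds for `N n`, `N (n+1)`; `ratio`: the
quotients are decreasing; w.l.o.g. `c ≤ 1`, or note `c^N om(N n) ≤ om(N n + N)` directly), `η' = η N`.  (K1): `‖Λ n (e' e_t)‖ ≤ a⁻¹ nit (N n) (e_t) ≤ a⁻¹ C om_t(N n)`.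
(K2): `om_s(N n) om_t(N n) |z_t| ≤ C e^{-ηNn} nit (N n) (∑ z_t e_t) ≤ C e^{-ηNn} b ‖Λ n (e' z)‖`. -/
def S_PK : Prop := ∀ (E : Type) [NormedAddCommGroup E] [NormedSpace ℂ E] [FiniteDimensional ℂ E] (X : Type) [MetricSpace X]
  [ChartedSpace E X] (nrm : (x : X) → TangentSpace 𝓘(ℂ, E) x → ℝ) (f : X ≃ X) (p : X)
  (Ep : Submodule ℂ (TangentSpace 𝓘(ℂ, E) p)) (N k : ℕ) (j : (Fin k → ℂ) →ₗ[ℂ] TangentSpace 𝓘(ℂ, E) p)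
  (Λ : ℕ → (Fin k → ℂ) →L[ℂ] (Fin k → ℂ)) (a b : ℝ), Cmp nrm f p Ep N k j Λ a b → PtK nrm f p Ep → KCond k Λ

/-- **PA.** Translation of the condition (A).

Proof.  `nit nrm f p 0 v = nrm p v` (`dit f 0 p = id`), so for `n = 0`: `a ‖z‖ ≤ nrm p (j z) ≤ b ‖z‖` (`Λ 0 = id`).  For the time `N n`:
`a³ ‖Λ z‖² ‖w‖ ≤ nit(j z)² nrm(j w) ≤ C e^{-ηNn} nrm(j z)² nit(j w) ≤ C e^{-ηNn} b³ ‖z‖² ‖Λ w‖`, `η' = η N`. -/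
def S_PA : Prop := ∀ (E : Type) [NormedAddCommGroup E] [NormedSpace ℂ E] [FiniteDimensional ℂ E] (X : Type) [MetricSpace X]
  [ChartedSpace E X] (nrm : (x : X) → TangentSpace 𝓘(ℂ, E) x → ℝ) (f : X ≃ X) (p : X)
  (Ep : Submodule ℂ (TangentSpace 𝓘(ℂ, E) p)) (N k : ℕ) (j : (Fin k → ℂ) →ₗ[ℂ] TangentSpace 𝓘(ℂ, E) p)
  (Λ : ℕ → (Fin k → ℂ) →L[ℂ] (Fin k → ℂ)) (a b : ℝ), (∀ v, 0 ≤ nrm p v) → Cmp nrm f p Ep N k j Λ a b →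
  PtA nrm f p Ep → ACond k Λ

/-- **PB.** Translation of the condition (B).

Proof.  As in `S_PA`, `a ‖z‖ ≤ nrm p (j z) ≤ b ‖z‖`, and `j` is onto `Ep`.  For large `n` let `S`, `s` be the stretches of `df^{Nn}` (`0 < s ≤ S`):
`‖Λ z‖ ≤ a⁻¹ nit(j z) ≤ a⁻¹ S b ‖z‖`; for `v = j z ≠ 0` with `nit v = S nrm v`: `S ‖z‖ ≤ S a⁻¹ nrm(j z) = a⁻¹ nit(j z) ≤ a⁻¹ b ‖Λ z‖`;
`s ‖z‖ ≤ s a⁻¹ nrm(j z) ≤ a⁻¹ b ‖Λ z‖`; for `v = j z ≠ 0` with `nit v = s nrm v`: `‖Λ z‖ ≤ a⁻¹ s b ‖z‖`.  So `BCond` with the constant `b/a` and the same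
exponents (`∀ᶠ m` at the times `m = N n`: `Tendsto (N * ·) atTop atTop`). -/
def S_PB : Prop := ∀ (E : Type) [NormedAddCommGroup E] [NormedSpace ℂ E] [FiniteDimensional ℂ E] (X : Type) [MetricSpace X]
  [ChartedSpace E X] (nrm : (x : X) → TangentSpace 𝓘(ℂ, E) x → ℝ) (f : X ≃ X) (p : X)
  (Ep : Submodule ℂ (TangentSpace 𝓘(ℂ, E) p)) (N : ℕ) (j : (Fin 2 → ℂ) →ₗ[ℂ] TangentSpace 𝓘(ℂ, E) p)
  (Λ : ℕ → (Fin 2 → ℂ) →L[ℂ] (Fin 2 → ℂ)) (a b : ℝ), (∀ v, v ≠ 0 → 0 < nrm p v) → (∀ v, 0 ≤ nrm p v) →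
  Cmp nrm f p Ep N 2 j Λ a b → PtB nrm f p Ep → BCond Λ

/-- **PC.** Translation of the condition (C).

Proof.  As in `S_PA`, `a ‖z‖ ≤ nrm p (j z)`.  `v₀ = j z₀`, `z₀ ≠ 0`; `(lam^N)^{2n} ‖z - c z₀‖ ≤ lam^{2Nn} a⁻¹ nrm(j z - c v₀) ≤ a⁻¹ C e^{-ηNn} nit(j z) ≤
a⁻¹ b C e^{-ηNn} ‖Λ z‖`. -/
def S_PC : Prop := ∀ (E : Type) [NormedAddCommGroup E] [NormedSpace ℂ E] [FiniteDimensional ℂ E] (X : Type) [MetricSpace X]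
  [ChartedSpace E X] (nrm : (x : X) → TangentSpace 𝓘(ℂ, E) x → ℝ) (f : X ≃ X) (p : X)
  (Ep : Submodule ℂ (TangentSpace 𝓘(ℂ, E) p)) (N k : ℕ) (j : (Fin k → ℂ) →ₗ[ℂ] TangentSpace 𝓘(ℂ, E) p)
  (Λ : ℕ → (Fin k → ℂ) →L[ℂ] (Fin k → ℂ)) (a b : ℝ), Cmp nrm f p Ep N k j Λ a b →
  ∀ lam : ℝ, 0 < lam → PtC nrm f p Ep lam → CCond k Λ (lam ^ N)

/-- **The theorem.** Let `f` be an automorphism of the complex manifold `X` which acts hyperbolically on the compact set `K` and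
`p ∈ K`.  If one of the conditions (K), (A), (B), (C) is satisfied at `p`, then the stable manifold of `p` is biholomorphic to `ℂ^k`,
`k = dim Es p`: it is the image of an injective holomorphic immersion of `ℂ^k`. -/
def Bedford : Prop := ∀ (E : Type) [NormedAddCommGroup E] [NormedSpace ℂ E] [FiniteDimensional ℂ E] (X : Type)
  [MetricSpace X] [ChartedSpace E X] [IsManifold 𝓘(ℂ, E) 1 X] (nrm : (x : X) → TangentSpace 𝓘(ℂ, E) x → ℝ) (f : X ≃ X)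
  (K : Set X) (Es Eu : (x : X) → Submodule ℂ (TangentSpace 𝓘(ℂ, E) x)) (C lam : ℝ), IsFinsler nrm →
  IsHyp nrm f K Es Eu C lam → ∀ p ∈ K,
  (PtK nrm f p (Es p) ∨ PtA nrm f p (Es p) ∨ PtB nrm f p (Es p) ∨ PtC nrm f p (Es p) lam) →
  IsCk E (Module.finrank ℂ (Es p)) (stab f p)

/-- **Fin.** The final assembly.

Proof.  `SetupC` gives `N, k, A, F, j, ...` with `finrank (Es p) = k`; `Λ = prodL A id`.  In each case `KCond k Λ`: `S_PK`; `S_PA` and `S_CorA`; `S_PB` (`k = 2`: `subst`) and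
`S_CorB`; `S_PC` and `S_CorC` (with `lam^N`).  `KSeqC` gives `BasinCk k r F`.  `nrm p 0 = 0` by `IsFinsler.smul` with `r = 0`. -/
def S_Fin : Prop := SetupC → KSeqC → S_CorA → S_Dir → S_CorB → S_CorC → S_PK → S_PA → S_PB → S_PC → Bedford

end Pool.Agent.Lib.Bed
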