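import Pool.Agent.Lib.Bed.SpecN

/-!
# MP_6f050a_an, part K: uniformly attracting sequences with condition (K)

Every task: prove `theorem sX : S_X` (namespace `Pool.Agent.Lib.Bed`) in the file named in the task; auxiliary lemmas in the
namespace `Pool.Agent.Lib.Bed.sXAux`.  Statements used in a proof are hypotheses inside the definitions.  All proofs are complete
in the docstrings.  Basic facts on `wn`, `orb`, `Sys`, `Lev` are in `Basic.lean`.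
-/

set_option autoImplicit false

open scoped Topology
open Set Filter Metric

namespace Pool.Agent.Lib.Bed

/-- Condition (K) with all the data (dimension `k + 1`). -/
structure KData (k : ℕ) (Λ : ℕ → (Fin (k + 1) → ℂ) →L[ℂ] (Fin (k + 1) → ℂ))
    (e : (Fin (k + 1) → ℂ) ≃L[ℂ] (Fin (k + 1) → ℂ)) (om : Fin (k + 1) → ℕ → ℝ) (C c η : ℝ) : Prop where
  C_pos : 0 < C
  c_pos : 0 < c
  c_lt : c < 1
  η_pos : 0 < η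
  w : IsW0 c om
  k1 : ∀ t m, ‖Λ m (e (Pi.single t 1))‖ ≤ C * om t m
  k2 : ∀ m (z : Fin (k + 1) → ℂ) (s t : Fin (k + 1)),
    om s m * om t m * ‖z t‖ ≤ C * Real.exp (-(η * m)) * ‖Λ m (e z)‖

/-- **Boot.** A bootstrap for a quadratic recursion.

Proof.  Claim: if `0 < t ≤ 1` and there is `B` with `y m ≤ B (om m)^t` for all `m` and all admissible `y` (`Real.rpow`), then the same
holds with `θ = min 1 (t (1 + η₂))` in place of `t`, where `η₂ = η / (4 log (1/c))`.  Proof: as `0 ≤ θ ≤ 1`, `min 1 a ≤ a^θ` for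
`a > 0` (cases `a ≤ 1`, `a ≥ 1`).  So `min 1 (om m e^{-ηj} / om j ^ 2) * y j ^ 2 ≤ B² (om m)^θ e^{-ηθj} (om j)^{-2(θ-t)}`.  As
`om j ≥ c^j om 0` and `0 ≤ θ - t ≤ t η₂ ≤ θ η₂`, `(om j)^{-2(θ-t)} ≤ (om 0)^{-2(θ-t)} c^{-2(θ-t)j} ≤ (om 0)^{-2(θ-t)} e^{2 θ η₂ log(1/c) j} =
(om 0)^{-2(θ-t)} e^{ηθj/2}`.  So the sum is at most `B² (om 0)^{-2(θ-t)} (om m)^θ ∑_j e^{-ηθj/2}`, a geometric series, and
`om m ≤ (om 0)^{1-θ} (om m)^θ` (`om m ≤ om 0`).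
Start: `t = min 1 (log D / log c) > 0`: `D^m ≤ (c^m)^t` (as `c^t ≥ D`) and `c^m ≤ om m / om 0`, so `y m ≤ C (om 0)^{-t} (om m)^t`.
Iterate the claim (`t_n = min 1 (t_0 (1+η₂)^n)`, induction on `n`) until `t_n = 1`. -/
def S_Boot : Prop := ∀ (C D c η : ℝ) (om : ℕ → ℝ), 0 < C → 0 < D → D < 1 → 0 < c → c < 1 → 0 < η →
  (∀ m, 0 < om m) → (∀ m, om (m + 1) ≤ om m) → (∀ m, c * om m ≤ om (m + 1)) →
  ∃ C' : ℝ, ∀ y : ℕ → ℝ, (∀ m, 0 ≤ y m) → (∀ m, y m ≤ C * D ^ m) →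
    (∀ m, y m ≤ C * om m +
      C * ∑ j ∈ Finset.range m, min 1 (om m * Real.exp (-(η * j)) / om j ^ 2) * y j ^ 2) →
    ∀ m, y m ≤ C' * om m

/-- **KLin.** Bounds of the products from the time `j` to the time `m`.

Proof.  Write `x = e z`, `κ_t(m) = om t m / om 0 m`, nonincreasing in `m` (`ratio` for `0 ≤ t`), `w_m = max_t κ_t(m) |z_t|`
(a finite maximum, or an element `t` for which it is attained), `w_m ≤ w_j` for `j ≤ m`.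
`‖Λ m (e z)‖ ≤ ∑_t |z_t| ‖Λ m (e e_t)‖ ≤ C ∑_t om t m |z_t| ≤ (k+1) C (om 0 m) w_m` (`k1`), and
`(om 0 j)² w_j = max_t om 0 j * om t j * |z_t| ≤ C e^{-ηj} ‖Λ j (e z)‖` (`k2` with `s = 0`).  So `C' = (k+1) C²`. -/
def S_KLin : Prop := ∀ (k : ℕ) (Λ : ℕ → (Fin (k + 1) → ℂ) →L[ℂ] (Fin (k + 1) → ℂ))
  (e : (Fin (k + 1) → ℂ) ≃L[ℂ] (Fin (k + 1) → ℂ)) (om : Fin (k + 1) → ℕ → ℝ) (C c η : ℝ), KData k Λ e om C c η →
  ∀ j m, j ≤ m → ∀ x, ‖Λ m x‖ ≤ (k + 1) * C ^ 2 * Real.exp (-(η * j)) * om 0 m / om 0 j ^ 2 * ‖Λ j x‖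

/-- **KOrb.** Orbits decay like `om 0`.  (Uses `S_Boot`, `S_KLin`.)

Proof.  Let `Λ = prodL L id`, `C' = (k+1) C₁²`.  `Λ m` is injective (`low`), hence bijective.  Let `x ∈ ball 0 r`, `F i = orb f n i x`;
`F i ∈ ball 0 r`, `‖F i‖ ≤ D^i r` (`contr`), `f m 0 = 0`.  Let `R i = f (n+i) (F i) - L (n+i) (F i)`; `quad` with `y = 0` gives
`‖R i‖ ≤ C ‖F i‖²`.  Let `Λ n a = x`, `Λ (n+j+1) (b j) = R j`.  By induction `F i = Λ (n+i) a + ∑_{j<i} Λ (n+i) (b j)`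
(`L (n+i) (Λ (n+i) v) = Λ (n+i+1) v`).  By `S_KLin` `‖Λ (n+i) a‖ ≤ C' om₀(n+i) / om₀(n)² r`, and for `j < i`
`‖Λ (n+i) (b j)‖ ≤ ‖R j‖` (`contrL`, `D < 1`) and `‖Λ (n+i) (b j)‖ ≤ C' e^{-η(n+j+1)} om₀(n+i) / om₀(n+j+1)² ‖R j‖ ≤
C' c₁^{-2} e^{-ηj} om₀(n+i) / om₀(n+j)² ‖R j‖`.  So `‖Λ (n+i) (b j)‖ ≤ max 1 (C' c₁^{-2}) min 1 (om₀(n+i) e^{-ηj} / om₀(n+j)²) C ‖F j‖²`.
Apply `S_Boot` to `om i = om₀(n+i)`, `y i = ‖F i‖` (constants: `D`, `c₁`, `η` and a large `C`, which do not depend on `x`). -/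
def S_KOrb : Prop := S_Boot → S_KLin → ∀ (k : ℕ) (r D C c : ℝ) (f : ℕ → (Fin (k + 1) → ℂ) → (Fin (k + 1) → ℂ))
  (L : ℕ → (Fin (k + 1) → ℂ) →L[ℂ] (Fin (k + 1) → ℂ)) (e : (Fin (k + 1) → ℂ) ≃L[ℂ] (Fin (k + 1) → ℂ))
  (om : Fin (k + 1) → ℕ → ℝ) (C₁ c₁ η : ℝ), SeqD (k + 1) r D C c f L →
  KData k (prodL L (ContinuousLinearMap.id ℂ (Fin (k + 1) → ℂ))) e om C₁ c₁ η →
  ∀ n, ∃ C' : ℝ, ∀ x ∈ ball (0 : Fin (k + 1) → ℂ) r, ∀ i, ‖orb f n i x‖ ≤ C' * om 0 (n + i)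

/-- **KSys.** The normalised system of a sequence with condition (K).

Proof.  Let `Λ m = prodL L id m ∘ e`, an invertible linear map (`low`), `κ t m = om t m / om 0 m`, `dom m = {z | Λ m z ∈ ball 0 r}`,
`T m z = (Λ (m+1))⁻¹ (f m (Λ m z))`.  `wt`: `anti` is `ratio` for `0 ≤ t`; `κ t / κ s = om t / om s`.  `maps`, `inj`, `dinj`, `diff`, `T_zero`:
clear (`f m` maps the ball into itself, `f m 0 = 0`).  Facts: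
(a) `‖Λ m z‖ ≤ (k+1) C₁ (om 0 m) wn κ m z` (`k1`); (b) `(om 0 m)² wn κ m z ≤ C₁ e^{-ηm} ‖Λ m z‖` (`k2`, `s = 0`);
(c) `c₁ wn κ m z ≤ wn κ (m+1) z` (`κ t m ≤ κ t (m+1) / c₁`, as `om t m ≤ om t (m+1) / c₁` and `om 0 (m+1) ≤ om 0 m`).
`near`: let `A` be given (w.l.o.g. `A ≥ 0`: replace it by `|A|`); `M` such that `(k+1) C₁ A (om 0 m) < r` for `m ≥ M` (`lim`); then
`wn z ≤ A` gives `z ∈ dom m`.  As `T z - z = (Λ (m+1))⁻¹ ((f m - L m) (Λ m z))`, by (c), (b) and `quad`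
`wn κ m ((T z - z) - (T z' - z')) ≤ c₁⁻¹ C₁ e^{-η(m+1)} (om 0 (m+1))⁻² C (‖Λ m z‖ + ‖Λ m z'‖) ‖Λ m (z - z')‖
≤ c₁⁻¹ C₁ e^{-ηm} (c₁ om 0 m)⁻² C (2 (k+1) C₁ (om 0 m) A) ((k+1) C₁ (om 0 m) wn κ m (z - z')) = const A e^{-ηm} wn κ m (z - z')`,
a summable sequence `ε m`.
`bdd`: let `x ∈ dom n`, `z i = orb T n i x`, `x i = Λ (n+i) (z i) = orb f n i (Λ n x)`, `‖x i‖ ≤ C' om 0 (n+i)` (hypothesis).  With `m = n + i`: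
`wn κ (m+1) (z (i+1) - z i) ≤ C₁ e^{-η(m+1)} (om 0 (m+1))⁻² C ‖x i‖² ≤ const e^{-ηm}` (`quad` with `y = 0`), and `wn κ (m+1) (z i) ≤ wn κ m (z i)`, so
`wn κ m (z i)` is at most `wn κ n (z 0) + const ∑ e^{-ηm}`, and `wn κ n (z 0) ≤ C₁ e^{-ηn} (om 0 n)⁻² r` by (b). -/
def S_KSys : Prop := ∀ (k : ℕ) (r D C c : ℝ) (f : ℕ → (Fin (k + 1) → ℂ) → (Fin (k + 1) → ℂ))
  (L : ℕ → (Fin (k + 1) → ℂ) →L[ℂ] (Fin (k + 1) → ℂ)) (e : (Fin (k + 1) → ℂ) ≃L[ℂ] (Fin (k + 1) → ℂ))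
  (om : Fin (k + 1) → ℕ → ℝ) (C₁ c₁ η : ℝ), SeqD (k + 1) r D C c f L →
  KData k (prodL L (ContinuousLinearMap.id ℂ (Fin (k + 1) → ℂ))) e om C₁ c₁ η →
  (∀ n, ∃ C' : ℝ, ∀ x ∈ ball (0 : Fin (k + 1) → ℂ) r, ∀ i, ‖orb f n i x‖ ≤ C' * om 0 (n + i)) →
  ∃ S : Sys (k + 1),
    (∀ m, S.dom m = {z | prodL L (ContinuousLinearMap.id ℂ (Fin (k + 1) → ℂ)) m (e z) ∈ ball 0 r}) ∧
    ∀ m, ∀ z ∈ S.dom m, prodL L (ContinuousLinearMap.id ℂ (Fin (k + 1) → ℂ)) (m + 1) (e (S.T m z)) =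
      f m (prodL L (ContinuousLinearMap.id ℂ (Fin (k + 1) → ℂ)) m (e z))

/-- The conclusion: condition (K) implies that the basin is `ℂ^k`. -/
def KSeqC : Prop := ∀ (k : ℕ) (r D C c : ℝ) (f : ℕ → (Fin k → ℂ) → (Fin k → ℂ)) (L : ℕ → (Fin k → ℂ) →L[ℂ] (Fin k → ℂ)),
  SeqD k r D C c f L → KCond k (prodL L (ContinuousLinearMap.id ℂ (Fin k → ℂ))) → BasinCk k r f

/-- **KSeq.** Condition (K) implies that the basin is `ℂ^k`.  (Uses `S_Ind`, `S_NF` in the form of their conclusions, `S_KOrb`,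
`S_KSys`.)

Proof.  `k = 0`: all is trivial (`Fin 0 → ℂ` is a one-point space, `Ψ n = id`).  `k + 1`: in `KCond` replace `c` by `min c (1/2)`
(`IsW0` remains true), so there is `KData`; by `S_KOrb`, `S_KSys` the normalised system `S`, by `S_Ind`, `S_NF` the maps `U m` on `dom m`.
`Ψ n x = U n ((Λ n)⁻¹ x)`, `Λ n = prodL L id n ∘ e` (invertible by `low`). -/
def S_KSeq : Prop := (∀ (k : ℕ) (S : Sys k), ∃ U : ℕ → (Fin k → ℂ) → (Fin k → ℂ),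
    (∀ m, DifferentiableOn ℂ (U m) (S.dom m)) ∧ (∀ m, ∀ z ∈ S.dom m, U (m + 1) (S.T m z) = U m z) ∧
    (∀ m, InjOn (U m) (S.dom m)) ∧ (∀ m, ∀ z ∈ S.dom m, ∀ w, fderiv ℂ (U m) z w = 0 → w = 0) ∧
    ∀ u, ∃ m, ∃ z ∈ S.dom m, U m z = u) → S_Boot → S_KLin → S_KOrb → S_KSys →
  KSeqC

end Pool.Agent.Lib.Bed
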