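import Pool.Agent.Lib.Bed.SpecC

/-!
# Stable manifolds: the strong form of the conclusion (locally uniform convergence)
-/

set_option autoImplicit false

open scoped Manifold ContDiff Topology
open Set Filter Metric

namespace Pool.Agent.Lib.Bed

section

variable {E : Type} [NormedAddCommGroup E] [NormedSpace ℂ E]
variable {X : Type} [MetricSpace X] [ChartedSpace E X]

variable (E) in
/-- The stable manifold of `p` is biholomorphic to `ℂ^k`: there is an injective holomorphic immersion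
`Φ : ℂ^k → X` with image the stable manifold of `p`, such that the distance of `f^n (Φ z)` and `f^n p`
tends to zero locally uniformly in `z`. -/
def StabCk (k : ℕ) (f : X ≃ X) (p : X) : Prop :=
  ∃ Φ : (Fin k → ℂ) → X, MDifferentiable 𝓘(ℂ, Fin k → ℂ) 𝓘(ℂ, E) Φ ∧ Function.Injective Φ ∧
    (∀ z, Function.Injective (mfderiv 𝓘(ℂ, Fin k → ℂ) 𝓘(ℂ, E) Φ z)) ∧ range Φ = stab f p ∧
    TendstoLocallyUniformly (fun (n : ℕ) (z : Fin k → ℂ) => dist (f^[n] (Φ z)) (f^[n] p))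
      (fun _ => 0) atTop

end

/-- The setup with the strong conclusion. -/
def SetupC2 : Prop :=
  ∀ (E : Type) [NormedAddCommGroup E] [NormedSpace ℂ E] [FiniteDimensional ℂ E] (X : Type)
  [MetricSpace X] [ChartedSpace E X] [IsManifold 𝓘(ℂ, E) 1 X] (nrm : (x : X) → TangentSpace 𝓘(ℂ, E) x → ℝ) (f : X ≃ X)
  (K : Set X) (Es Eu : (x : X) → Submodule ℂ (TangentSpace 𝓘(ℂ, E) x)) (C lam : ℝ) (p : X), IsFinsler nrm →
  IsHyp nrm f K Es Eu C lam → p ∈ K →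
  ∃ (N k : ℕ) (A : ℕ → (Fin k → ℂ) →L[ℂ] (Fin k → ℂ)) (F : ℕ → (Fin k → ℂ) → (Fin k → ℂ))
    (j : (Fin k → ℂ) →ₗ[ℂ] TangentSpace 𝓘(ℂ, E) p) (r C' c a₁ b₁ C₂ c₂ : ℝ),
    Module.finrank ℂ (Es p) = k ∧ SeqD k r (1 / 4) C' c F A ∧ (BasinCk k r F → StabCk E k f p) ∧
    Cmp nrm f p (Es p) N k j (prodL A (ContinuousLinearMap.id ℂ (Fin k → ℂ))) a₁ b₁ ∧
    LSeq k (prodL A (ContinuousLinearMap.id ℂ (Fin k → ℂ))) C₂ c₂ (lam ^ N)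

/-- The theorem with the strong conclusion. -/
def Bedford2 : Prop := ∀ (E : Type) [NormedAddCommGroup E] [NormedSpace ℂ E] [FiniteDimensional ℂ E] (X : Type)
  [MetricSpace X] [ChartedSpace E X] [IsManifold 𝓘(ℂ, E) 1 X] (nrm : (x : X) → TangentSpace 𝓘(ℂ, E) x → ℝ) (f : X ≃ X)
  (K : Set X) (Es Eu : (x : X) → Submodule ℂ (TangentSpace 𝓘(ℂ, E) x)) (C lam : ℝ), IsFinsler nrm →
  IsHyp nrm f K Es Eu C lam → ∀ p ∈ K,
  (PtK nrm f p (Es p) ∨ PtA nrm f p (Es p) ∨ PtB nrm f p (Es p) ∨ PtC nrm f p (Es p) lam) →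
  StabCk E (Module.finrank ℂ (Es p)) f p

/-- AsA with the local information on `Φ`. -/
def S_AsA2 : Prop := ∀ (E : Type) [NormedAddCommGroup E] [NormedSpace ℂ E] (X : Type)
  [MetricSpace X] [ChartedSpace E X] (f : X ≃ X) (p : X) (N k l : ℕ) (P : ℕ → V k l → X) (H : ℕ → V k l → V k l)
  (A : ℕ → (Fin k → ℂ) →L[ℂ] (Fin k → ℂ)) (τ : ℕ → (Fin k → ℂ) → (Fin l → ℂ)) (F : ℕ → (Fin k → ℂ) → (Fin k → ℂ))
  (ρ ρ' r C c : ℝ), MDifferentiable 𝓘(ℂ, E) 𝓘(ℂ, E) f → MDifferentiable 𝓘(ℂ, E) 𝓘(ℂ, E) f.symm →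
  AdP (E := E) f p N k l P H ρ ρ' → r ≤ ρ' → IsLSM k l r C c H A τ F → BasinCk k r F →
  ∃ Φ : (Fin k → ℂ) → X, MDifferentiable 𝓘(ℂ, Fin k → ℂ) 𝓘(ℂ, E) Φ ∧ Function.Injective Φ ∧
    (∀ z, Function.Injective (mfderiv 𝓘(ℂ, Fin k → ℂ) 𝓘(ℂ, E) Φ z)) ∧
    range Φ = {q | ∃ n, ∃ ξ ∈ ball (0 : Fin k → ℂ) r, P n (ξ, τ n ξ) = f^[N * n] q} ∧
    ∀ u, ∃ n, ∀ᶠ u' in 𝓝 u, ∃ ξ ∈ ball (0 : Fin k → ℂ) r, P n (ξ, τ n ξ) = f^[N * n] (Φ u')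

/-- The uniform form of AsB. -/
def S_AsB2 : Prop := S_UCf → ∀ (E : Type) [NormedAddCommGroup E] [NormedSpace ℂ E] (X : Type)
  [MetricSpace X] [ChartedSpace E X] (f : X ≃ X) (K : Set X) (p : X) (N k l : ℕ) (P : ℕ → V k l → X)
  (H : ℕ → V k l → V k l) (A : ℕ → (Fin k → ℂ) →L[ℂ] (Fin k → ℂ)) (τ : ℕ → (Fin k → ℂ) → (Fin l → ℂ))
  (F : ℕ → (Fin k → ℂ) → (Fin k → ℂ)) (ρ ρ' r C c : ℝ), IsCompact K → MapsTo f K K → p ∈ K → Continuous f →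
  AdP (E := E) f p N k l P H ρ ρ' → r ≤ ρ' → IsLSM k l r C c H A τ F → ∀ (n : ℕ) (ε : ℝ), 0 < ε →
  ∃ M, ∀ m ≥ M, ∀ q, (∃ ξ ∈ ball (0 : Fin k → ℂ) r, P n (ξ, τ n ξ) = f^[N * n] q) →
    dist (f^[m] q) (f^[m] p) < ε

end Pool.Agent.Lib.Bed
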