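import Pool.Agent.Lib.BedG.Main

/-!
# MP_6f050a_an: uniform pinching with the exponent 5/2 in all dimensions

`f` acts hyperbolically on the compact set `K`, `p ∈ K`, and `k = dim Es p` is arbitrary.  If along the forward
orbit of `p` all vectors of `Es` are contracted with rates between `mu` and `lam₁`, where `lam₁ ^ 5 < mu ^ 2`, then
the stable manifold of `p` is biholomorphic to `ℂ^k`.
-/

set_option autoImplicit false

open scoped Manifold

namespace Pool.Agent.Lib.Bed.UniformPinchingOld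

open Pool.Agent.Lib.Bed

theorem result (E : Type) [NormedAddCommGroup E] [NormedSpace ℂ E] [FiniteDimensional ℂ E]
    (X : Type) [MetricSpace X] [ChartedSpace E X] [IsManifold 𝓘(ℂ, E) 1 X]
    (nrm : (x : X) → TangentSpace 𝓘(ℂ, E) x → ℝ) (f : X ≃ X) (K : Set X)
    (Es Eu : (x : X) → Submodule ℂ (TangentSpace 𝓘(ℂ, E) x)) (C lam : ℝ)
    (hnrm : IsFinsler nrm) (hf : IsHyp nrm f K Es Eu C lam) (p : X) (hp : p ∈ K)
    (C₁ lam₁ mu : ℝ) (h0 : 0 < lam₁) (h1 : lam₁ < 1) (hmu0 : 0 < mu) (hmu : lam₁ ^ 5 < mu ^ 2)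
    (hpin : ∀ n m : ℕ, ∀ v ∈ Es p,
      mu ^ m * nrm (f^[n] p) (dit f n p v) ≤ C₁ * nrm (f^[n + m] p) (dit f (n + m) p v) ∧
      nrm (f^[n + m] p) (dit f (n + m) p v) ≤ C₁ * lam₁ ^ m * nrm (f^[n] p) (dit f n p v)) :
    StabCk E (Module.finrank ℂ (Es p)) f p := by
  have hnn : ∀ (x : X) (v : TangentSpace 𝓘(ℂ, E) x), 0 ≤ nrm x v := by
    intro x v
    by_cases hv : v = 0
    · have h := hnrm.smul x 0 v
      rw [abs_zero, zero_mul, Complex.ofReal_zero, zero_smul] at h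
      rw [hv, h]
    · exact (hnrm.pos x v hv).le
  refine Pool.Agent.Lib.BedG.bedfordG E X nrm f K Es Eu C lam hnrm hf p hp
    ⟨max C₁ 1, lam₁, mu, lt_max_of_lt_right one_pos, h0, h1, hmu0, hmu, fun n m v hv => ?_⟩
  obtain ⟨h2, h3⟩ := hpin n m v hv
  have h4 : C₁ ≤ max C₁ 1 := le_max_left _ _
  have h5 := hnn (f^[n + m] p) (dit f (n + m) p v)
  have h6 := hnn (f^[n] p) (dit f n p v)
  have h7 : 0 ≤ lam₁ ^ m := by positivity
  exact ⟨h2.trans (mul_le_mul_of_nonneg_right h4 h5), h3.trans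
    (mul_le_mul_of_nonneg_right (mul_le_mul_of_nonneg_right h4 h7) h6)⟩

end Pool.Agent.Lib.Bed.UniformPinchingOld
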